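import Pool.Agent.PosProp.Defs
import Pool.Agent.Lib.Maynard.Output

/-!
# Bounds for the modulus of a tuple and for densities
-/

open Finset Filter

namespace Pool.Agent.PosProp.WB

open Pool.Agent.Maynard (cW)

variable {k : ℕ}

lemma mem_badP {K0 H : ℕ} {h : Fin k → ℕ} {p : ℕ} : p ∈ badP K0 H h ↔
    p < max K0 (H + 1) ∧ p.Prime ∧ (p < K0 ∨ ∃ i j, i ≠ j ∧ h i ≡ h j [MOD p]) := by
  unfold badP
  rw [Finset.mem_filter, Finset.mem_range]

lemma Wt_pos {q : ℕ} (hq : 1 ≤ q) (K0 H : ℕ) (h : Fin k → ℕ) : 0 < Wt q K0 H h := by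
  unfold Wt
  refine Nat.mul_pos hq (Finset.prod_pos fun p hp => ?_)
  exact (mem_badP.mp hp).2.1.pos

lemma badP_dvd_Wt {q K0 H : ℕ} {h : Fin k → ℕ} {p : ℕ} (hp : p ∈ badP K0 H h) :
    p ∣ Wt q K0 H h := by
  unfold Wt
  exact Dvd.dvd.mul_left (Finset.dvd_prod_of_mem _ hp) q

lemma ge_of_not_dvd {q K0 H : ℕ} {h : Fin k → ℕ} {p : ℕ} (hp : p.Prime)
    (hd : ¬ p ∣ Wt q K0 H h) : K0 ≤ p := by
  by_contra hcon
  exact hd (badP_dvd_Wt (mem_badP.2 ⟨lt_of_lt_of_le (by omega) (le_max_left _ _), hp,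
    Or.inl (by omega)⟩))

/-- outside `Wt` the shifts are separated -/
lemma sep_Wt {q K0 H : ℕ} {h : Fin k → ℕ} (hinj : Function.Injective h) (hle : ∀ i, h i ≤ H)
    {p : ℕ} (hp : p.Prime) (hW : ¬ p ∣ Wt q K0 H h) (i j : Fin k) (hij : i ≠ j) :
    ¬ h i ≡ h j [MOD p] := by
  intro hcon
  rcases lt_or_ge p (max K0 (H + 1)) with h1 | h1
  · exact hW (badP_dvd_Wt (mem_badP.mpr ⟨h1, hp, Or.inr ⟨i, j, hij, hcon⟩⟩))
  · have h2 : H + 1 ≤ p := le_trans (le_max_right _ _) h1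
    apply hij
    apply hinj
    rw [Nat.ModEq, Nat.mod_eq_of_lt (by have := hle i; omega),
      Nat.mod_eq_of_lt (by have := hle j; omega)] at hcon
    exact hcon

/-- the fixed part of the modulus -/
def W0 (q K0 : ℕ) : ℕ := q * primorial (K0 - 1)

/-- the product of the differences to a further shift -/
def dist' (h : Fin k → ℕ) (h' : ℕ) : ℕ := ∏ i, Nat.dist (h i) h'

/-- Euler product of the density -/
lemma cW_eq_prod {W : ℕ} (hW : 0 < W) : cW W = ∏ p ∈ W.primeFactors, (1 - (1:ℝ) / p) := by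
  have hW0 : (0:ℝ) < W := by exact_mod_cast hW
  unfold cW
  have := Nat.totient_eq_mul_prod_factors W
  have h4 : ((Nat.totient W : ℚ) : ℝ) = ((W * ∏ p ∈ W.primeFactors, (1 - (p:ℚ)⁻¹) : ℚ) : ℝ) := by
    rw [this]
  push_cast at h4
  rw [h4]
  simp only [one_div]
  field_simp

/-- a product of `1 - 1/x` over distinct integers `x ≥ 2` -/
lemma prod_one_sub_ge (S : Finset ℕ) (hS : ∀ x ∈ S, 2 ≤ x) :
    1 / ((S.card : ℝ) + 1) ≤ ∏ x ∈ S, (1 - (1:ℝ) / x) := by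
  classical
  induction S using Finset.induction_on_max with
  | empty => simp
  | insert x S hx ih =>
    have hxS : x ∉ S := fun h => lt_irrefl _ (hx x h)
    have ih' := ih fun y hy => hS y (Finset.mem_insert_of_mem hy)
    have hx2 : 2 ≤ x := hS x (Finset.mem_insert_self _ _)
    rw [Finset.prod_insert hxS, Finset.card_insert_of_notMem hxS]
    have hsub : S ⊆ Finset.Ico 2 x := fun y hy =>
      Finset.mem_Ico.2 ⟨hS y (Finset.mem_insert_of_mem hy), hx y hy⟩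
    have hcard : S.card + 2 ≤ x := by
      have h1 := Finset.card_le_card hsub
      rw [Nat.card_Ico] at h1
      omega
    have hx0 : (0:ℝ) < x := by exact_mod_cast (show 0 < x by omega)
    have hc : (S.card : ℝ) + 2 ≤ x := by exact_mod_cast hcard
    have hc0 : (0:ℝ) ≤ S.card := Nat.cast_nonneg _
    have h1 : ((S.card : ℝ) + 1) / ((S.card : ℝ) + 2) ≤ 1 - 1 / (x:ℝ) := by
      have h2 : 1 / (x:ℝ) ≤ 1 / ((S.card : ℝ) + 2) := one_div_le_one_div_of_le (by linarith) hc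
      have h3 : ((S.card : ℝ) + 1) / ((S.card : ℝ) + 2) = 1 - 1 / ((S.card : ℝ) + 2) := by
        field_simp
        ring
      rw [h3]
      linarith
    have h4 : (0:ℝ) ≤ 1 - 1 / (x:ℝ) := le_trans (by positivity) h1
    calc 1 / (((S.card + 1 : ℕ) : ℝ) + 1) = ((S.card : ℝ) + 1) / ((S.card : ℝ) + 2) *
          (1 / ((S.card : ℝ) + 1)) := by
          push_cast
          field_simp
          ring
      _ ≤ (1 - 1 / (x:ℝ)) * ∏ y ∈ S, (1 - 1 / (y:ℝ)) := by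
          refine mul_le_mul h1 ih' (by positivity) h4

/-- a general lower bound for the density -/
lemma cW_ge_log {n : ℕ} (hn : 0 < n) : 1 / ((Nat.log 2 n : ℝ) + 1) ≤ cW n := by
  rw [cW_eq_prod hn]
  refine le_trans ?_ (prod_one_sub_ge n.primeFactors fun p hp =>
    (Nat.prime_of_mem_primeFactors hp).two_le)
  refine one_div_le_one_div_of_le (by positivity) ?_
  have h1 : n.primeFactors.card ≤ Nat.log 2 n := by
    refine Nat.le_log_of_pow_le (by norm_num) ?_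
    calc 2 ^ n.primeFactors.card = ∏ _p ∈ n.primeFactors, 2 := by rw [Finset.prod_const]
      _ ≤ ∏ p ∈ n.primeFactors, p :=
          Finset.prod_le_prod' fun p hp => (Nat.prime_of_mem_primeFactors hp).two_le
      _ ≤ n := Nat.le_of_dvd hn (Nat.prod_primeFactors_dvd n)
  have h2 : (n.primeFactors.card : ℝ) ≤ Nat.log 2 n := by exact_mod_cast h1
  linarith

/-- the density of `W` times further primes -/
lemma cW_mul_primes {W : ℕ} (hW : 0 < W) (S : Finset ℕ) (hS : ∀ p ∈ S, p.Prime ∧ ¬ p ∣ W) :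
    cW (W * ∏ p ∈ S, p) = cW W * ∏ p ∈ S, (1 - (1:ℝ) / p) := by
  classical
  have h0 : 0 < ∏ p ∈ S, p := Finset.prod_pos fun p hp => (hS p hp).1.pos
  rw [cW_eq_prod (Nat.mul_pos hW h0), cW_eq_prod hW, Nat.primeFactors_mul hW.ne' h0.ne']
  have h1 : (∏ p ∈ S, p).primeFactors = S := Nat.primeFactors_prod fun p hp => (hS p hp).1
  rw [h1, Finset.prod_union]
  rw [Finset.disjoint_left]
  intro p hp1 hp2
  exact (hS p hp2).2 (Nat.dvd_of_mem_primeFactors hp1)

lemma W0_dvd_Wt {q K0 H : ℕ} (h : Fin k → ℕ) : W0 q K0 ∣ Wt q K0 H h := by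
  refine Nat.mul_dvd_mul_left q ?_
  unfold primorial
  refine Finset.prod_dvd_prod_of_subset _ _ _ fun p hp => ?_
  rw [Finset.mem_filter, Finset.mem_range] at hp
  have h2 := hp.2.pos
  refine mem_badP.2 ⟨lt_of_lt_of_le (by omega) (le_max_left _ _), hp.2, Or.inl (by omega)⟩

lemma W0_pos {q : ℕ} (hq : 1 ≤ q) (K0 : ℕ) : 0 < W0 q K0 :=
  Nat.mul_pos hq (primorial_pos _)

/-- the density of the modulus is comparable to the fixed part -/
lemma cW_Wt_ge {q K0 H : ℕ} (hq : 1 ≤ q) {h : Fin k → ℕ}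
    (hs : ∑ p ∈ (badP K0 H h).filter (fun p => K0 ≤ p ∧ ¬ p ∣ q), 1 / (p:ℝ) ≤ 1 / 2) :
    cW (W0 q K0) / 2 ≤ cW (Wt q K0 H h) := by
  classical
  have hW := Wt_pos hq K0 H h
  have hW0 := W0_pos hq K0
  set B := (badP K0 H h).filter (fun p => K0 ≤ p ∧ ¬ p ∣ q) with hBdef
  have hB : ∀ p ∈ B, p.Prime := fun p hp => (mem_badP.1 (Finset.mem_filter.1 hp).1).2.1
  have h01 : ∀ p : ℕ, p.Prime → 0 ≤ 1 - (1:ℝ) / p ∧ 1 - (1:ℝ) / p ≤ 1 := by
    intro p hp
    have hp2 : (2:ℝ) ≤ p := by exact_mod_cast hp.two_le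
    have h4 : (1:ℝ) / p ≤ 1 := by
      rw [div_le_one (by linarith)]; linarith
    have h5 : 0 < (1:ℝ) / p := by positivity
    exact ⟨by linarith, by linarith⟩
  have h1 : (1:ℝ) / 2 ≤ ∏ p ∈ B, (1 - (1:ℝ) / p) := by
    have h2 := Pool.Agent.Maynard.one_sub_sum_le_prod B (fun p : ℕ => (1:ℝ) / p)
      (fun p _ => by positivity) (fun p hp => by
        have hp2 : (2:ℝ) ≤ p := by exact_mod_cast (hB p hp).two_le
        rw [div_le_one (by linarith)]; linarith)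
    linarith
  rw [cW_eq_prod hW, cW_eq_prod hW0]
  have h3 : (Wt q K0 H h).primeFactors ⊆ (W0 q K0).primeFactors ∪ B := by
    intro p hp
    rw [Nat.mem_primeFactors] at hp
    obtain ⟨hp1, hp2, -⟩ := hp
    rw [Finset.mem_union, Nat.mem_primeFactors, hBdef, Finset.mem_filter]
    unfold Wt at hp2
    rcases (hp1.dvd_mul).1 hp2 with h4 | h4
    · exact Or.inl ⟨hp1, h4.mul_right _, hW0.ne'⟩
    · obtain ⟨r, hr, hpr⟩ := (hp1.prime.dvd_finsetProd_iff _).1 h4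
      have hr2 := mem_badP.1 hr
      have : p = r := (Nat.prime_dvd_prime_iff_eq hp1 hr2.2.1).1 hpr
      subst this
      by_cases hpq : p ∣ q
      · exact Or.inl ⟨hp1, hpq.mul_right _, hW0.ne'⟩
      · by_cases hpK : K0 ≤ p
        · exact Or.inr ⟨hr, hpK, hpq⟩
        · refine Or.inl ⟨hp1, ?_, hW0.ne'⟩
          unfold W0 primorial
          refine Dvd.dvd.mul_left (Finset.dvd_prod_of_mem _ ?_) q
          exact Finset.mem_filter.2 ⟨Finset.mem_range.2 (by omega), hp1⟩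
  have h4 : ∏ p ∈ (W0 q K0).primeFactors ∪ B, (1 - (1:ℝ) / p) ≤
      ∏ p ∈ (Wt q K0 H h).primeFactors, (1 - (1:ℝ) / p) := by
    rw [← Finset.prod_sdiff h3]
    have hpr : ∀ p ∈ (W0 q K0).primeFactors ∪ B, p.Prime := fun p hp => by
      rcases Finset.mem_union.1 hp with h | h
      · exact Nat.prime_of_mem_primeFactors h
      · exact hB p h
    refine mul_le_of_le_one_left ?_ ?_
    · exact Finset.prod_nonneg fun p hp => (h01 p (Nat.prime_of_mem_primeFactors hp)).1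
    · exact Finset.prod_le_one (fun p hp => (h01 p (hpr p (Finset.mem_sdiff.1 hp).1)).1)
        fun p hp => (h01 p (hpr p (Finset.mem_sdiff.1 hp).1)).2
  refine le_trans ?_ h4
  have h5' : (W0 q K0).primeFactors ∪ B = (W0 q K0).primeFactors ∪ (B \ (W0 q K0).primeFactors) := by
    rw [Finset.union_sdiff_self_eq_union]
  rw [h5', Finset.prod_union Finset.disjoint_sdiff]
  have h5 : ∏ p ∈ B, (1 - (1:ℝ) / p) ≤ ∏ p ∈ B \ (W0 q K0).primeFactors, (1 - (1:ℝ) / p) := by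
    rw [← Finset.prod_sdiff (s₁ := B \ (W0 q K0).primeFactors) (s₂ := B) Finset.sdiff_subset]
    refine mul_le_of_le_one_left ?_ ?_
    · exact Finset.prod_nonneg fun p hp => (h01 p (hB p (Finset.mem_sdiff.1 hp).1)).1
    · exact Finset.prod_le_one (fun p hp => (h01 p (hB p (Finset.mem_sdiff.1 hp).1)).1)
        fun p hp => (h01 p (hB p (Finset.mem_sdiff.1 hp).1)).2
  have h6 : 0 ≤ ∏ p ∈ (W0 q K0).primeFactors, (1 - (1:ℝ) / p) :=
    Finset.prod_nonneg fun p hp => (h01 p (Nat.prime_of_mem_primeFactors hp)).1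
  calc (∏ p ∈ (W0 q K0).primeFactors, (1 - (1:ℝ) / p)) / 2
      = (∏ p ∈ (W0 q K0).primeFactors, (1 - (1:ℝ) / p)) * (1 / 2) := by ring
    _ ≤ _ := mul_le_mul_of_nonneg_left (h1.trans h5) h6

/-- the product of all the differences -/
lemma badP_dvd {K0 H : ℕ} {h : Fin k → ℕ} {p : ℕ} (hp : p ∈ badP K0 H h) :
    p ∣ primorial K0 * ∏ ij : Fin k × Fin k, (if ij.1 = ij.2 then 1 else Nat.dist (h ij.1) (h ij.2)) := by
  obtain ⟨-, h2, h3⟩ := mem_badP.1 hp
  rcases h3 with h3 | ⟨i, j, hij, h4⟩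
  · refine Dvd.dvd.mul_right ?_ _
    unfold primorial
    exact Finset.dvd_prod_of_mem _ (Finset.mem_filter.2 ⟨Finset.mem_range.2 (by omega), h2⟩)
  · refine Dvd.dvd.mul_left ?_ _
    refine dvd_trans ?_ (Finset.dvd_prod_of_mem _ (Finset.mem_univ (i, j)))
    simp only [hij, if_false]
    rcases le_total (h i) (h j) with h5 | h5
    · rw [Nat.dist_eq_sub_of_le h5]
      exact (Nat.modEq_iff_dvd' h5).1 h4
    · rw [Nat.dist_eq_sub_of_le_right h5]
      exact (Nat.modEq_iff_dvd' h5).1 h4.symm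

lemma dist_le_of_le {x y H : ℕ} (hx : x ≤ H) (hy : y ≤ H) : Nat.dist x y ≤ H := by
  unfold Nat.dist
  omega

/-- size of the modulus -/
lemma Wt_le {q K0 H : ℕ} {h : Fin k → ℕ} (hH : 1 ≤ H) (hinj : Function.Injective h)
    (hle : ∀ i, h i ≤ H) : Wt q K0 H h ≤ q * primorial K0 * H ^ (k ^ 2) := by
  classical
  set D := ∏ ij : Fin k × Fin k, (if ij.1 = ij.2 then 1 else Nat.dist (h ij.1) (h ij.2)) with hD
  have hD0 : 0 < D := by
    refine Finset.prod_pos fun ij _ => ?_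
    split_ifs with h1
    · exact one_pos
    · exact Nat.dist_pos_of_ne fun h2 => h1 (hinj h2)
  have hDle : D ≤ H ^ (k ^ 2) := by
    have h1 : D ≤ ∏ _ij : Fin k × Fin k, H := by
      refine Finset.prod_le_prod' fun ij _ => ?_
      split_ifs with h1
      · exact hH
      · exact dist_le_of_le (hle _) (hle _)
    refine h1.trans (le_of_eq ?_)
    rw [Finset.prod_const, Finset.card_univ, Fintype.card_prod, Fintype.card_fin, sq]
  have h1 : (∏ p ∈ badP K0 H h, p) ∣ primorial K0 * D :=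
    Finset.prod_primes_dvd _ (fun p hp => (mem_badP.1 hp).2.1.prime) fun p hp => badP_dvd hp
  have h2 : (∏ p ∈ badP K0 H h, p) ≤ primorial K0 * D :=
    Nat.le_of_dvd (Nat.mul_pos (primorial_pos _) hD0) h1
  unfold Wt
  calc q * ∏ p ∈ badP K0 H h, p ≤ q * (primorial K0 * H ^ (k ^ 2)) := by
        exact Nat.mul_le_mul_left _ (h2.trans (Nat.mul_le_mul_left _ hDle))
    _ = _ := by ring

/-- the modulus attached to a further shift -/
noncomputable def Vt (q K0 H : ℕ) (h : Fin k → ℕ) (h' : ℕ) : ℕ :=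
  Wt q K0 H h * ∏ p ∈ (dist' h h').primeFactors.filter (fun p => ¬ p ∣ Wt q K0 H h), p

lemma Vt_pos {q : ℕ} (hq : 1 ≤ q) (K0 H : ℕ) (h : Fin k → ℕ) (h' : ℕ) : 0 < Vt q K0 H h h' := by
  unfold Vt
  refine Nat.mul_pos (Wt_pos hq K0 H h) (Finset.prod_pos fun p hp => ?_)
  exact (Nat.prime_of_mem_primeFactors (Finset.mem_filter.1 hp).1).pos

lemma Wt_dvd_Vt (q K0 H : ℕ) (h : Fin k → ℕ) (h' : ℕ) : Wt q K0 H h ∣ Vt q K0 H h h' :=
  Dvd.intro _ rfl

lemma dist'_pos {h : Fin k → ℕ} {h' : ℕ} (hh : ∀ i, h i ≠ h') : 0 < dist' h h' :=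
  Finset.prod_pos fun i _ => Nat.dist_pos_of_ne (hh i)

lemma dist'_le {h : Fin k → ℕ} {h' H : ℕ} (hle : ∀ i, h i ≤ H) (hh : h' ≤ H) :
    dist' h h' ≤ H ^ k := by
  unfold dist'
  refine (Finset.prod_le_prod' fun i _ => dist_le_of_le (hle i) hh).trans (le_of_eq ?_)
  rw [Finset.prod_const, Finset.card_univ, Fintype.card_fin]

lemma Vt_le {q K0 H : ℕ} {h : Fin k → ℕ} {h' : ℕ} (hh : ∀ i, h i ≠ h') (hle : ∀ i, h i ≤ H)
    (hh' : h' ≤ H) : Vt q K0 H h h' ≤ Wt q K0 H h * H ^ k := by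
  unfold Vt
  refine Nat.mul_le_mul_left _ ?_
  have h0 := dist'_pos hh
  refine le_trans (Nat.le_of_dvd h0 ?_) (dist'_le hle hh')
  refine Finset.prod_primes_dvd _ (fun p hp => ?_) fun p hp => ?_
  · exact (Nat.prime_of_mem_primeFactors (Finset.mem_filter.1 hp).1).prime
  · exact Nat.dvd_of_mem_primeFactors (Finset.mem_filter.1 hp).1

/-- the primes for which the further shift collides with one of the shifts -/
lemma dvd_Vt {q K0 H : ℕ} {h : Fin k → ℕ} {h' p : ℕ} (hp : p.Prime) (hh : ∀ i, h i ≠ h')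
    (hex : ∃ i, h' ≡ h i [MOD p]) : p ∣ Vt q K0 H h h' := by
  obtain ⟨i, hi⟩ := hex
  have h1 : p ∣ dist' h h' := by
    refine dvd_trans ?_ (Finset.dvd_prod_of_mem _ (Finset.mem_univ i))
    rcases le_total (h i) h' with h5 | h5
    · rw [Nat.dist_eq_sub_of_le h5]
      exact (Nat.modEq_iff_dvd' h5).1 hi.symm
    · rw [Nat.dist_eq_sub_of_le_right h5]
      exact (Nat.modEq_iff_dvd' h5).1 hi
  by_cases h2 : p ∣ Wt q K0 H h
  · exact h2.trans (Wt_dvd_Vt _ _ _ _ _)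
  · unfold Vt
    refine Dvd.dvd.mul_left (Finset.dvd_prod_of_mem _ ?_) _
    exact Finset.mem_filter.2 ⟨Nat.mem_primeFactors.2 ⟨hp, h1, (dist'_pos hh).ne'⟩, h2⟩

lemma inv_cW_Vt {q K0 H : ℕ} (hq : 1 ≤ q) (h : Fin k → ℕ) (h' : ℕ) :
    (cW (Vt q K0 H h h'))⁻¹ = (cW (Wt q K0 H h))⁻¹ *
      ∏ p ∈ (dist' h h').primeFactors.filter (fun p => ¬ p ∣ Wt q K0 H h), (1 - (1:ℝ) / p)⁻¹ := by
  unfold Vt
  rw [cW_mul_primes (Wt_pos hq K0 H h) _ fun p hp => ?_, mul_inv, Finset.prod_inv_distrib]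
  rw [Finset.mem_filter] at hp
  exact ⟨Nat.prime_of_mem_primeFactors hp.1, hp.2⟩

end Pool.Agent.PosProp.WB
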