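import Pool.Agent.PosProp.Defs2
import Pool.Agent.PosProp.WtBound
import Pool.Agent.Lib.Maynard.Output

/-!
# Parameters of the main estimate and the facts which hold for large `N`
-/

open Finset Filter

namespace Pool.Agent.PosProp.Main

open Pool.Agent.Maynard

/-- `K0` -/
def K0k (k : ℕ) : ℕ := 2 ^ (k + 10) * k

/-- the number of cells -/
noncomputable def MM (k : ℕ) : ℕ := ⌈8 * (k:ℝ) * hT k⌉₊

/-- the cell ratio -/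
noncomputable def Zk (k N : ℕ) : ℕ := ZZ (1 / 64) (MM k) N

/-- the exponent of the rough threshold -/
noncomputable def ze (k : ℕ) : ℝ := 1 / (128 * (MM k : ℝ) * (10 ^ 6 * (k:ℝ) ^ 2))

/-- the rough threshold -/
noncomputable def zz (k N : ℕ) : ℕ := ⌊(N:ℝ) ^ (ze k)⌋₊

/-- the length of the windows -/
noncomputable def Hk (N : ℕ) : ℕ := ⌊Real.log N⌋₊

/-- what is needed for the modulus `W` -/
structure ModFacts (k N W : ℕ) : Prop where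
  Wlog : (W:ℝ) ≤ (Real.log N) ^ (k ^ 2 + 1)
  ZK : 64 * (k:ℝ) * KV W ≤ cW W * Real.log (Zk k N)
  KVz : 10 ^ 6 * (k:ℝ) ^ 2 * KV W * (5 + 4 * Real.log (Nat.log 2 (Zk k N) + 1)) ≤
    cW W * Real.log (Zk k N)
  WRR : W * (Zk k N ^ MM k * Zk k N ^ MM k) ≤ N
  WRRθ : W * (Zk k N ^ MM k * Zk k N ^ MM k) ≤ ⌊((3 * N : ℕ):ℝ) ^ (1 / 4 : ℝ)⌋₊
  err1 : 10 ^ 4 * (k:ℝ) ^ 2 * (zz k N : ℝ) *
    ((Zk k N : ℝ) ^ MM k * LL (Zk k N ^ MM k) ^ (4 * k)) ^ 2 ≤ (N:ℝ) / W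
  err2 : ∀ z' : ℕ, z' ≤ Zk k N ^ MM k → (Hk N : ℝ) *
    ((Zk k N : ℝ) ^ MM k * LL (Zk k N ^ MM k) ^ (4 * k) * ((z' : ℝ) * LL (Zk k N ^ MM k) ^ 4)) ^ 2 ≤
      (N:ℝ) / W
  further : ∀ V : ℕ, 0 < V → V ≤ W * Hk N ^ k → 64 * KV V ≤ cW V * Real.log (zz k N)

/-- what holds for large `N` -/
structure Facts (k q N : ℕ) : Prop where
  N3 : 3 ≤ N
  logN : 8 ≤ Real.log N
  Z2 : 2 ≤ Zk k N
  logZ : 1 / (128 * (MM k : ℝ)) * Real.log N ≤ Real.log (Zk k N)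
  RN : ((Zk k N ^ MM k : ℕ) : ℝ) ≤ (N:ℝ) ^ (1 / 64 : ℝ)
  z2 : 2 ≤ zz k N
  zR : zz k N ≤ Zk k N ^ MM k
  zZ : 10 ^ 6 * (k:ℝ) ^ 2 * Real.log (zz k N) ≤ Real.log (Zk k N)
  logz : ze k / 2 * Real.log N ≤ Real.log (zz k N)
  W0z : q * primorial (K0k k - 1) ≤ zz k N
  HN : Hk N ≤ N
  mod : ∀ W : ℕ, 0 < W → W ≤ q * primorial (K0k k) * Hk N ^ (k ^ 2) →
    cW (q * primorial (K0k k - 1)) / 2 ≤ cW W → ModFacts k N W

end Pool.Agent.PosProp.Main
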