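import Pool.Agent.PosProp.MainDefs

/-!
# The final count: from mass to the number of `n`
-/

open Finset Filter

namespace Pool.Agent.PosProp.Main

open Pool.Agent.Maynard

lemma fc_MM_le {k : ℕ} (hk : 1 ≤ k) : (MM k : ℝ) ≤ 9 * (k:ℝ) ^ 2 := by
  have hk' : (1:ℝ) ≤ k := by exact_mod_cast hk
  have h1 : (MM k : ℝ) < 8 * (k:ℝ) * hT k + 1 := by
    unfold MM
    refine Nat.ceil_lt_add_one ?_
    have := hT_ge_one (T := k) hk
    positivity
  have h2 := hT_le k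
  have h3 : 8 * (k:ℝ) * hT k ≤ 8 * (k:ℝ) * k := mul_le_mul_of_nonneg_left h2 (by positivity)
  nlinarith

lemma fc_MM_pos {k : ℕ} (hk : 1 ≤ k) : 0 < MM k := by
  unfold MM
  rw [Nat.ceil_pos]
  have := hT_ge_one (T := k) hk
  have hk' : (1:ℝ) ≤ k := by exact_mod_cast hk
  positivity

lemma fc_log_bound {k q N : ℕ} (hk : 100 ≤ k) (hF : Facts k q N) :
    Nat.log (zz k N) (3 * N) ≤ k ^ 9 := by
  have hk' : (100:ℝ) ≤ k := by exact_mod_cast hk
  have hN3 := hF.N3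
  have hN0 : (0:ℝ) < N := by exact_mod_cast (show 0 < N by omega)
  set x := Real.log N with hx
  have hx8 : 8 ≤ x := hF.logN
  have hz2 := hF.z2
  set L := Nat.log (zz k N) (3 * N) with hL
  have h1 : (zz k N) ^ L ≤ 3 * N := Nat.pow_log_le_self _ (by omega)
  have h2 : ((zz k N : ℕ) : ℝ) ^ L ≤ 3 * N := by exact_mod_cast h1
  have hz0 : (0:ℝ) < (zz k N : ℕ) := by exact_mod_cast (show 0 < zz k N by omega)
  have h3 : (L:ℝ) * Real.log (zz k N) ≤ Real.log (3 * N) := by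
    rw [← Real.log_pow]
    exact Real.log_le_log (by positivity) h2
  have h4 : Real.log (3 * N) ≤ 2 * x := by
    rw [Real.log_mul (by norm_num) hN0.ne']
    have : Real.log 3 ≤ x := Real.log_le_log (by norm_num) (by exact_mod_cast hN3)
    linarith
  have h5 := hF.logz
  rw [← hx] at h5
  have hL0 : (0:ℝ) ≤ L := Nat.cast_nonneg _
  have h6 : (L:ℝ) * (ze k / 2 * x) ≤ 2 * x :=
    (mul_le_mul_of_nonneg_left h5 hL0).trans (h3.trans h4)
  have h7 : (L:ℝ) * ze k ≤ 4 := by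
    have h8 : x * ((L:ℝ) * ze k) ≤ x * 4 := by nlinarith
    exact le_of_mul_le_mul_left h8 (by linarith)
  have hMM := fc_MM_le (k := k) (by omega)
  have hMM0 : (0:ℝ) < MM k := by exact_mod_cast fc_MM_pos (k := k) (by omega)
  have hze : ze k = 1 / (128 * (MM k : ℝ) * (10 ^ 6 * (k:ℝ) ^ 2)) := rfl
  rw [hze, mul_one_div, div_le_iff₀ (by positivity)] at h7
  have h9 : 4 * (128 * (MM k : ℝ) * (10 ^ 6 * (k:ℝ) ^ 2)) ≤
      4 * (128 * (9 * (k:ℝ) ^ 2) * (10 ^ 6 * (k:ℝ) ^ 2)) := by gcongr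
  have h10 : 4 * (128 * (9 * (k:ℝ) ^ 2) * (10 ^ 6 * (k:ℝ) ^ 2)) = 4608000000 * (k:ℝ) ^ 4 := by ring
  have h11 : (4608000000:ℝ) ≤ (k:ℝ) ^ 5 := by
    calc (4608000000:ℝ) ≤ 100 ^ 5 := by norm_num
      _ ≤ (k:ℝ) ^ 5 := pow_le_pow_left₀ (by norm_num) hk' 5
  have h12 : (L:ℝ) ≤ (k:ℝ) ^ 9 := by
    calc (L:ℝ) ≤ 4608000000 * (k:ℝ) ^ 4 := by rw [← h10]; exact h7.trans h9
      _ ≤ (k:ℝ) ^ 5 * (k:ℝ) ^ 4 := by gcongr
      _ = _ := by ring
  exact_mod_cast h12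

lemma fc_exp_arith {k : ℕ} (hk : 100 ≤ k) :
    (k:ℝ) * ((2:ℝ) ^ (k ^ 10) * (4 * (k:ℝ)) ^ k) ^ 2 ≤ Real.exp ((k:ℝ) ^ 11) := by
  have hk' : (100:ℝ) ≤ k := by exact_mod_cast hk
  have hk0 : (0:ℝ) < k := by linarith
  have h1 : (k:ℝ) ≤ Real.exp k := by
    have := Real.add_one_le_exp (k:ℝ)
    linarith
  have h2 : (2:ℝ) ≤ Real.exp 1 := by
    have := Real.add_one_le_exp (1:ℝ)
    linarith
  have h3 : (2:ℝ) ^ (k ^ 10) ≤ Real.exp ((k:ℝ) ^ 10) := by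
    calc (2:ℝ) ^ (k ^ 10) ≤ Real.exp 1 ^ (k ^ 10) := pow_le_pow_left₀ (by norm_num) h2 _
      _ = Real.exp ((k:ℝ) ^ 10) := by
          rw [← Real.exp_nat_mul]
          push_cast
          rw [mul_one]
  have h4 : (4 * (k:ℝ)) ^ k ≤ Real.exp (4 * (k:ℝ) ^ 2) := by
    have h5 : 4 * (k:ℝ) ≤ Real.exp (4 * k) := by
      have := Real.add_one_le_exp (4 * (k:ℝ))
      linarith
    calc (4 * (k:ℝ)) ^ k ≤ Real.exp (4 * k) ^ k := pow_le_pow_left₀ (by positivity) h5 _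
      _ = Real.exp (4 * (k:ℝ) ^ 2) := by
          rw [← Real.exp_nat_mul]
          congr 1
          ring
  have h6 : (k:ℝ) * ((2:ℝ) ^ (k ^ 10) * (4 * (k:ℝ)) ^ k) ^ 2 ≤
      Real.exp k * (Real.exp ((k:ℝ) ^ 10) * Real.exp (4 * (k:ℝ) ^ 2)) ^ 2 := by
    gcongr
  refine h6.trans ?_
  rw [← Real.exp_add, ← Real.exp_nat_mul, ← Real.exp_add]
  refine Real.exp_le_exp.2 ?_
  push_cast
  have e1 : (k:ℝ) ≤ (k:ℝ) ^ 10 := le_self_pow₀ (by linarith) (by norm_num)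
  have e2 : (k:ℝ) ^ 2 ≤ (k:ℝ) ^ 10 := pow_le_pow_right₀ (by linarith) (by norm_num)
  have e3 : (k:ℝ) ^ 11 = k * (k:ℝ) ^ 10 := by ring
  have e4 : 100 * (k:ℝ) ^ 10 ≤ k * (k:ℝ) ^ 10 := by gcongr
  rw [e3]
  nlinarith

theorem final_count {k q N W : ℕ} (hk : 100 ≤ k) (hW : 0 < W) (hF : Facts k q N)
    (hM : ModFacts k N W) :
    Real.exp (-(k:ℝ)^11) * (((N:ℝ)/W) / (cW W * Real.log N)^k) ≤
      ((N:ℝ)/W * SS k W (Zk k N) k) /
        (k * ((2:ℝ) ^ (k * Nat.log (zz k N) (3*N)) *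
          (hT k * cellU W (K0k k) (Zk k N))^k)^2) := by
  have hk' : (100:ℝ) ≤ k := by exact_mod_cast hk
  have hk0 : (0:ℝ) < k := by linarith
  have hN3 := hF.N3
  have hN0 : (0:ℝ) < N := by exact_mod_cast (show 0 < N by omega)
  have hN1 : (1:ℝ) ≤ N := by exact_mod_cast (show 1 ≤ N by omega)
  have hWpos : (0:ℝ) < W := by exact_mod_cast hW
  set x := Real.log N with hx
  have hx8 : 8 ≤ x := hF.logN
  set Z := Zk k N with hZ
  have hZ2 : 2 ≤ Z := hF.Z2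
  have hZ1 : (1:ℝ) ≤ Z := by exact_mod_cast (show 1 ≤ Z by omega)
  set D := cW W * Real.log Z with hD
  have hKV := KV_pos hW
  have hZK : 64 * (k:ℝ) * KV W ≤ D := hM.ZK
  have hD0 : 0 < D := lt_of_lt_of_le (by positivity) hZK
  have hcW := cW_pos hW
  -- `Z ≤ N`
  have hMM0 := fc_MM_pos (k := k) (by omega)
  have hZN : Real.log Z ≤ x := by
    refine Real.log_le_log (by linarith) ?_
    have h1 : Z ≤ Z ^ MM k := Nat.le_self_pow hMM0.ne' Z
    have h2 : ((Z ^ MM k : ℕ) : ℝ) ≤ (N:ℝ) ^ (1 / 64 : ℝ) := hF.RN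
    have h3 : (N:ℝ) ^ (1 / 64 : ℝ) ≤ (N:ℝ) ^ (1:ℝ) :=
      Real.rpow_le_rpow_of_exponent_le hN1 (by norm_num)
    rw [Real.rpow_one] at h3
    exact (Nat.cast_le.2 h1).trans (h2.trans h3)
  have hDx : D ≤ cW W * x := mul_le_mul_of_nonneg_left hZN hcW.le
  -- the cell constant
  have hK0 : (32:ℝ) ≤ K0k k := by
    have h1 : 32 ≤ K0k k := by
      unfold K0k
      calc 32 ≤ 1 * k := by omega
        _ ≤ 2 ^ (k + 10) * k := Nat.mul_le_mul_right k Nat.one_le_two_pow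
    exact_mod_cast h1
  have hKVD : KV W ≤ D := by
    have : 1 * KV W ≤ 64 * (k:ℝ) * KV W := mul_le_mul_of_nonneg_right (by linarith) hKV.le
    linarith
  have hU : cellU W (K0k k) Z ≤ 4 * D := by
    unfold cellU
    rw [← hD]
    have h1 : 32 / (K0k k : ℝ) ≤ 1 := by
      rw [div_le_one (by linarith)]; exact hK0
    calc (D + KV W) * (1 + 32 / (K0k k : ℝ)) ≤ (D + D) * (1 + 1) := by gcongr
      _ = 4 * D := by ring
  have hU0 : 0 < cellU W (K0k k) Z := by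
    unfold cellU
    rw [← hD]
    have : (0:ℝ) ≤ 32 / (K0k k : ℝ) := by positivity
    positivity
  have hT1 := hT_ge_one (T := k) (by omega)
  have hTk := hT_le k
  have hUk : hT k * cellU W (K0k k) Z ≤ 4 * k * D := by
    calc hT k * cellU W (K0k k) Z ≤ k * (4 * D) := by gcongr
      _ = _ := by ring
  have hU0' : 0 < hT k * cellU W (K0k k) Z := by positivity
  -- the power of `2`
  have hL := fc_log_bound hk hF
  have h2L : (2:ℝ) ^ (k * Nat.log (zz k N) (3*N)) ≤ 2 ^ (k ^ 10) := by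
    refine pow_le_pow_right₀ (by norm_num) ?_
    calc k * Nat.log (zz k N) (3*N) ≤ k * k ^ 9 := Nat.mul_le_mul_left k hL
      _ = k ^ 10 := by ring
  set den := (k:ℝ) * ((2:ℝ) ^ (k * Nat.log (zz k N) (3*N)) *
          (hT k * cellU W (K0k k) Z)^k)^2 with hden
  have hden0 : 0 < den := by positivity
  have hdenle : den ≤ (k * ((2:ℝ) ^ (k ^ 10) * (4 * (k:ℝ)) ^ k) ^ 2) * (D ^ k) ^ 2 := by
    calc den ≤ (k:ℝ) * ((2:ℝ) ^ (k ^ 10) * (4 * k * D) ^ k) ^ 2 := by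
          rw [hden]
          gcongr
      _ = _ := by
          rw [mul_pow (4 * (k:ℝ)) D k]
          ring
  have hE := fc_exp_arith hk
  have hdenle2 : den ≤ Real.exp ((k:ℝ) ^ 11) * (D ^ k) ^ 2 :=
    hdenle.trans (mul_le_mul_of_nonneg_right hE (by positivity))
  have hSS : D ^ k ≤ SS k W Z k := by
    unfold SS
    rw [← hD]
    refine pow_le_pow_left₀ hD0.le ?_ k
    exact le_mul_of_one_le_right hD0.le (gT2_ge_one (T := k) (by omega))
  set X : ℝ := (N:ℝ) / W with hX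
  have hX0 : 0 < X := by positivity
  have hDk0 : 0 < D ^ k := by positivity
  have hDxk : D ^ k ≤ (cW W * x) ^ k := pow_le_pow_left₀ hD0.le hDx k
  rw [le_div_iff₀ hden0]
  calc Real.exp (-(k:ℝ)^11) * (X / (cW W * x)^k) * den
      ≤ Real.exp (-(k:ℝ)^11) * (X / D^k) * (Real.exp ((k:ℝ) ^ 11) * (D ^ k) ^ 2) := by
        gcongr
    _ = (Real.exp (-(k:ℝ)^11) * Real.exp ((k:ℝ) ^ 11)) * (X * D ^ k) := by
        field_simp
    _ = X * D ^ k := by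
        rw [← Real.exp_add]
        simp
    _ ≤ X * SS k W Z k := mul_le_mul_of_nonneg_left hSS hX0.le

end Pool.Agent.PosProp.Main
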