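import Pool.Agent.PosProp.MainDefs

/-!
# The facts which hold for large `N`
-/

open Finset Filter

namespace Pool.Agent.PosProp.Main

open Pool.Agent.Maynard

private lemma ev_loglog (A : ℝ) : ∀ᶠ N : ℕ in atTop,
    A * (Real.log (Real.log N)) ^ 2 ≤ Real.log N := by
  have h1 : ∀ᶠ x : ℝ in atTop, A * (Real.log x) ^ 2 ≤ x := by
    have h2 := (Real.isLittleO_pow_log_id_atTop (n := 2)).bound (c := (|A| + 1)⁻¹) (by positivity)
    filter_upwards [h2, eventually_ge_atTop 0] with x hx hx1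
    rw [id, Real.norm_of_nonneg (by positivity), Real.norm_of_nonneg hx1] at hx
    have h3 : A ≤ |A| + 1 := (le_abs_self A).trans (by linarith)
    have h4 : (|A| + 1) * (Real.log x) ^ 2 ≤ (|A| + 1) * ((|A| + 1)⁻¹ * x) :=
      mul_le_mul_of_nonneg_left hx (by positivity)
    have h5 : (|A| + 1) * ((|A| + 1)⁻¹ * x) = x := by field_simp
    have h6 : A * (Real.log x) ^ 2 ≤ (|A| + 1) * (Real.log x) ^ 2 :=
      mul_le_mul_of_nonneg_right h3 (by positivity)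
    linarith
  exact tendsto_log_nat.eventually h1

private lemma ev_loglog_ge (A : ℝ) : ∀ᶠ N : ℕ in atTop, A ≤ Real.log (Real.log N) :=
  (Real.tendsto_log_atTop.comp tendsto_log_nat).eventually_ge_atTop A

private lemma MM_pos {k : ℕ} (hk : 100 ≤ k) : 0 < MM k := by
  unfold MM
  have h1 := hT_ge_one (T := k) (by omega)
  have h2 : (100:ℝ) ≤ k := by exact_mod_cast hk
  have h3 : 0 < 8 * (k:ℝ) * hT k := by positivity
  exact Nat.ceil_pos.mpr h3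

private lemma ze_pos {k : ℕ} (hk : 100 ≤ k) : 0 < ze k := by
  unfold ze
  have h1 : (0:ℝ) < MM k := by exact_mod_cast MM_pos hk
  have h2 : (100:ℝ) ≤ k := by exact_mod_cast hk
  positivity

private lemma ze_le {k : ℕ} (hk : 100 ≤ k) : ze k ≤ 1 / 64 := by
  unfold ze
  have h1 : (1:ℝ) ≤ MM k := by exact_mod_cast MM_pos hk
  have h2 : (100:ℝ) ≤ k := by exact_mod_cast hk
  refine one_div_le_one_div_of_le (by norm_num) ?_
  have h3 : (1:ℝ) ≤ (k:ℝ) ^ 2 := one_le_pow₀ (by linarith)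
  nlinarith

private lemma ze_mul {k : ℕ} (hk : 100 ≤ k) :
    10 ^ 6 * (k:ℝ) ^ 2 * ze k = 1 / (128 * (MM k : ℝ)) := by
  unfold ze
  have h1 : (0:ℝ) < MM k := by exact_mod_cast MM_pos hk
  have h2 : (0:ℝ) < k := by exact_mod_cast (show 0 < k by omega)
  field_simp

/-- the density of the modulus and its logarithm -/
private lemma log_le_of {V N a : ℕ} (hV : 0 < V)
    (h : (V:ℝ) ≤ (Real.log N) ^ a) : Real.log V ≤ a * Real.log (Real.log N) := by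
  have hV0 : (0:ℝ) < V := by exact_mod_cast hV
  calc Real.log V ≤ Real.log ((Real.log N) ^ a) := Real.log_le_log hV0 h
    _ = _ := Real.log_pow _ _

private lemma natlog_le {V : ℕ} (hV : 0 < V) : (Nat.log 2 V : ℝ) ≤ 2 * Real.log V := by
  have hV0 : (0:ℝ) < V := by exact_mod_cast hV
  have h1 : ((2 ^ Nat.log 2 V : ℕ) : ℝ) ≤ V := by
    exact_mod_cast Nat.pow_log_le_self 2 hV.ne'
  have h2 : (Nat.log 2 V : ℝ) * Real.log 2 ≤ Real.log V := by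
    have h3 := Real.log_le_log (by positivity) h1
    push_cast at h3
    rw [Real.log_pow] at h3
    exact h3
  have h4 : (1:ℝ) / 2 ≤ Real.log 2 := by
    have := Real.log_two_gt_d9
    linarith
  have h5 : (0:ℝ) ≤ Nat.log 2 V := Nat.cast_nonneg _
  nlinarith

private lemma KV_eq (W : ℕ) : KV W = 9 + 2 * Real.log W := by
  unfold KV KW
  ring

/-- the modulus facts -/
private lemma mod_facts {k q N : ℕ} (hk : 100 ≤ k) (hq : 1 ≤ q) (hN3 : 3 ≤ N)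
    (hl8 : 8 ≤ Real.log N) (hll : 1 ≤ Real.log (Real.log N))
    (hqK : ((q * primorial (K0k k) : ℕ) : ℝ) ≤ Real.log N)
    (hZ2 : 2 ≤ Zk k N) (hlogZ : 1 / (128 * (MM k : ℝ)) * Real.log N ≤ Real.log (Zk k N))
    (hRN : ((Zk k N ^ MM k : ℕ) : ℝ) ≤ (N:ℝ) ^ (1 / 64 : ℝ))
    (hz2 : 2 ≤ zz k N) (hzz : (zz k N : ℝ) ≤ (N:ℝ) ^ (1 / 64 : ℝ))
    (hlogz : ze k / 2 * Real.log N ≤ Real.log (zz k N))
    (hA1 : 64 * (k:ℝ) * (11 + 2 * (k:ℝ) ^ 2) / (cW (q * primorial (K0k k - 1)) / 2 *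
      (1 / (128 * (MM k : ℝ)))) * (Real.log (Real.log N)) ^ 2 ≤ Real.log N)
    (hA2 : 10 ^ 6 * (k:ℝ) ^ 2 * (11 + 2 * (k:ℝ) ^ 2) * 17 / (cW (q * primorial (K0k k - 1)) / 2 *
      (1 / (128 * (MM k : ℝ)))) * (Real.log (Real.log N)) ^ 2 ≤ Real.log N)
    (hA3 : 64 * (11 + 2 * (k:ℝ) ^ 2 + 2 * k) * (3 + 2 * (k:ℝ) ^ 2 + 2 * k) / (ze k / 2) *
      (Real.log (Real.log N)) ^ 2 ≤ Real.log N)
    (hW8 : (Real.log N) ^ (k ^ 2 + 1) ≤ (N:ℝ) ^ (1 / 8 : ℝ))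
    (hLL : LL N ^ (8 * k + 8) ≤ (N:ℝ) ^ (1 / 64 : ℝ))
    (hlN : Real.log N ≤ (N:ℝ) ^ (1 / 64 : ℝ))
    (hk4 : 10 ^ 4 * (k:ℝ) ^ 2 ≤ (N:ℝ) ^ (1 / 64 : ℝ)) (hZN : Zk k N ≤ N)
    (hRleN : Zk k N ^ MM k ≤ N)
    {W : ℕ} (hW : 0 < W) (hWle : W ≤ q * primorial (K0k k) * Hk N ^ (k ^ 2))
    (hc : cW (q * primorial (K0k k - 1)) / 2 ≤ cW W) : ModFacts k N W := by
  set x := Real.log N with hx
  set l := Real.log x with hl
  set M := MM k with hM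
  set Z := Zk k N with hZ
  have hk' : (100:ℝ) ≤ k := by exact_mod_cast hk
  have hx0 : 0 < x := by linarith
  have hx1 : 1 ≤ x := by linarith
  have hN0 : (0:ℝ) < N := by exact_mod_cast (show 0 < N by omega)
  have hN1 : (1:ℝ) ≤ N := by exact_mod_cast (show 1 ≤ N by omega)
  have hW0 : (0:ℝ) < W := by exact_mod_cast hW
  have hHx : (Hk N : ℝ) ≤ x := Nat.floor_le (by linarith)
  have hM0 : (0:ℝ) < M := by exact_mod_cast MM_pos hk
  have hc0 : 0 < cW (q * primorial (K0k k - 1)) :=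
    cW_pos (Nat.mul_pos hq (primorial_pos _))
  have hcW0 : 0 < cW W := lt_of_lt_of_le (by positivity) hc
  have hWlog : (W:ℝ) ≤ x ^ (k ^ 2 + 1) := by
    calc (W:ℝ) ≤ ((q * primorial (K0k k) * Hk N ^ (k ^ 2) : ℕ) : ℝ) := by exact_mod_cast hWle
      _ = ((q * primorial (K0k k) : ℕ) : ℝ) * (Hk N : ℝ) ^ (k ^ 2) := by push_cast; ring
      _ ≤ x * x ^ (k ^ 2) := by gcongr
      _ = _ := by ring
  have hlogW : Real.log W ≤ (k ^ 2 + 1 : ℕ) * l := log_le_of hW hWlog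
  have hlogW' : Real.log W ≤ ((k:ℝ) ^ 2 + 1) * l := by
    push_cast at hlogW
    exact hlogW
  have hl2 : l ≤ l ^ 2 := by nlinarith
  have hKV : KV W ≤ (11 + 2 * (k:ℝ) ^ 2) * l := by
    rw [KV_eq]
    nlinarith
  have hKV0 : 0 < KV W := KV_pos hW
  have hWN8 : (W:ℝ) ≤ (N:ℝ) ^ (1 / 8 : ℝ) := hWlog.trans hW8
  have hZ0 : (0:ℝ) < Z := by exact_mod_cast (show 0 < Z by omega)
  set c1 : ℝ := cW (q * primorial (K0k k - 1)) / 2 * (1 / (128 * (M : ℝ))) with hc1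
  have hc10 : 0 < c1 := by positivity
  have hcZ : c1 * x ≤ cW W * Real.log Z := by
    have h1 : 0 ≤ 1 / (128 * (M:ℝ)) * x := by positivity
    calc c1 * x = cW (q * primorial (K0k k - 1)) / 2 * (1 / (128 * (M : ℝ)) * x) := by
          rw [hc1]; ring
      _ ≤ cW W * (1 / (128 * (M : ℝ)) * x) := mul_le_mul_of_nonneg_right hc h1
      _ ≤ cW W * Real.log Z := mul_le_mul_of_nonneg_left hlogZ hcW0.le
  have hRNr : (Z:ℝ) ^ M ≤ (N:ℝ) ^ (1 / 64 : ℝ) := by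
    have := hRN
    push_cast at this
    exact this
  have hP : ∀ s t : ℝ, (N:ℝ) ^ s * (N:ℝ) ^ t = (N:ℝ) ^ (s + t) := fun s t =>
    (Real.rpow_add hN0 s t).symm
  have hWRRr : ((W * (Z ^ M * Z ^ M) : ℕ) : ℝ) ≤ (N:ℝ) ^ (1 / 4 : ℝ) := by
    push_cast
    calc (W:ℝ) * ((Z:ℝ) ^ M * (Z:ℝ) ^ M) ≤
          (N:ℝ) ^ (1 / 8 : ℝ) * ((N:ℝ) ^ (1 / 64 : ℝ) * (N:ℝ) ^ (1 / 64 : ℝ)) := by gcongr
      _ = (N:ℝ) ^ ((1 / 8 : ℝ) + (1 / 64 + 1 / 64)) := by rw [hP, hP]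
      _ ≤ _ := Real.rpow_le_rpow_of_exponent_le hN1 (by norm_num)
  have hLLge : 1 ≤ LL (Z ^ M) := LL_ge_one _
  have hLLle : LL (Z ^ M) ≤ LL N := LL_mono hRleN
  have hLL8 : LL (Z ^ M) ^ (8 * k + 8) ≤ (N:ℝ) ^ (1 / 64 : ℝ) :=
    (pow_le_pow_left₀ (by linarith) hLLle _).trans hLL
  have hLL8' : LL (Z ^ M) ^ (8 * k) ≤ (N:ℝ) ^ (1 / 64 : ℝ) :=
    (pow_le_pow_right₀ hLLge (by omega)).trans hLL8
  refine ⟨hWlog, ?_, ?_, ?_, ?_, ?_, ?_, ?_⟩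
  · -- ZK
    refine le_trans ?_ hcZ
    have h1 : 64 * (k:ℝ) * (11 + 2 * (k:ℝ) ^ 2) * l ^ 2 ≤ c1 * x := by
      have h2 := mul_le_mul_of_nonneg_left hA1 hc10.le
      refine le_trans (le_of_eq ?_) h2
      field_simp
    refine le_trans ?_ h1
    calc 64 * (k:ℝ) * KV W ≤ 64 * (k:ℝ) * ((11 + 2 * (k:ℝ) ^ 2) * l ^ 2) := by
          refine mul_le_mul_of_nonneg_left (hKV.trans ?_) (by positivity)
          exact mul_le_mul_of_nonneg_left hl2 (by positivity)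
      _ = _ := by ring
  · -- KVz
    refine le_trans ?_ hcZ
    have h1 : 10 ^ 6 * (k:ℝ) ^ 2 * (11 + 2 * (k:ℝ) ^ 2) * 17 * l ^ 2 ≤ c1 * x := by
      have h2 := mul_le_mul_of_nonneg_left hA2 hc10.le
      refine le_trans (le_of_eq ?_) h2
      field_simp
    refine le_trans ?_ h1
    have h3 : (Nat.log 2 Z : ℝ) ≤ 2 * x := by
      refine (natlog_le (by omega)).trans ?_
      have : Real.log Z ≤ x := Real.log_le_log hZ0 (by exact_mod_cast hZN)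
      linarith
    have h4 : Real.log (Nat.log 2 Z + 1) ≤ 3 * l := by
      have h5 : (Nat.log 2 Z : ℝ) + 1 ≤ x ^ 3 := by
        have e1 : (64:ℝ) ≤ x ^ 2 := by nlinarith
        have e2 : x ^ 3 = x ^ 2 * x := by ring
        have e3 : 64 * x ≤ x ^ 2 * x := mul_le_mul_of_nonneg_right e1 hx0.le
        rw [e2]
        linarith
      calc Real.log (Nat.log 2 Z + 1) ≤ Real.log (x ^ 3) := Real.log_le_log (by positivity) h5
        _ = 3 * l := by rw [Real.log_pow, hl]; norm_num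
    have h6 : 5 + 4 * Real.log (Nat.log 2 Z + 1) ≤ 17 * l := by linarith
    calc 10 ^ 6 * (k:ℝ) ^ 2 * KV W * (5 + 4 * Real.log (Nat.log 2 Z + 1)) ≤
          10 ^ 6 * (k:ℝ) ^ 2 * KV W * (17 * l) := mul_le_mul_of_nonneg_left h6 (by positivity)
      _ ≤ 10 ^ 6 * (k:ℝ) ^ 2 * ((11 + 2 * (k:ℝ) ^ 2) * l) * (17 * l) := by gcongr
      _ = _ := by ring
  · -- WRR
    have h1 : ((W * (Z ^ M * Z ^ M) : ℕ) : ℝ) ≤ (N : ℕ) := by
      refine hWRRr.trans ?_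
      calc (N:ℝ) ^ (1 / 4 : ℝ) ≤ (N:ℝ) ^ (1 : ℝ) :=
            Real.rpow_le_rpow_of_exponent_le hN1 (by norm_num)
        _ = _ := Real.rpow_one _
    exact_mod_cast h1
  · -- WRRθ
    refine Nat.le_floor (hWRRr.trans ?_)
    push_cast
    exact Real.rpow_le_rpow hN0.le (by linarith) (by norm_num)
  · -- err1
    rw [le_div_iff₀ hW0]
    have h1 : ((Z:ℝ) ^ M * LL (Z ^ M) ^ (4 * k)) ^ 2 ≤
        ((N:ℝ) ^ (1 / 64 : ℝ) * (N:ℝ) ^ (1 / 64 : ℝ)) * (N:ℝ) ^ (1 / 64 : ℝ) := by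
      have e1 : ((Z:ℝ) ^ M * LL (Z ^ M) ^ (4 * k)) ^ 2 =
          ((Z:ℝ) ^ M * (Z:ℝ) ^ M) * LL (Z ^ M) ^ (8 * k) := by ring
      rw [e1]
      gcongr
    calc 10 ^ 4 * (k:ℝ) ^ 2 * (zz k N : ℝ) * ((Z:ℝ) ^ M * LL (Z ^ M) ^ (4 * k)) ^ 2 * W ≤
          (N:ℝ) ^ (1 / 64 : ℝ) * (N:ℝ) ^ (1 / 64 : ℝ) * (((N:ℝ) ^ (1 / 64 : ℝ) *
            (N:ℝ) ^ (1 / 64 : ℝ)) * (N:ℝ) ^ (1 / 64 : ℝ)) * (N:ℝ) ^ (1 / 8 : ℝ) := by gcongr
      _ = (N:ℝ) ^ ((1 / 64 : ℝ) + 1 / 64 + (1 / 64 + 1 / 64 + 1 / 64) + 1 / 8) := by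
          simp only [hP]
      _ ≤ (N:ℝ) ^ (1 : ℝ) := Real.rpow_le_rpow_of_exponent_le hN1 (by norm_num)
      _ = _ := Real.rpow_one _
  · -- err2
    intro z' hz'
    rw [le_div_iff₀ hW0]
    have hz'' : (z' : ℝ) ≤ (N:ℝ) ^ (1 / 64 : ℝ) := by
      refine le_trans ?_ hRN
      exact_mod_cast hz'
    have h1 : ((Z:ℝ) ^ M * LL (Z ^ M) ^ (4 * k) * ((z' : ℝ) * LL (Z ^ M) ^ 4)) ^ 2 ≤
        ((N:ℝ) ^ (1 / 64 : ℝ) * (N:ℝ) ^ (1 / 64 : ℝ)) * ((N:ℝ) ^ (1 / 64 : ℝ) *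
          (N:ℝ) ^ (1 / 64 : ℝ)) * (N:ℝ) ^ (1 / 64 : ℝ) := by
      have e1 : ((Z:ℝ) ^ M * LL (Z ^ M) ^ (4 * k) * ((z' : ℝ) * LL (Z ^ M) ^ 4)) ^ 2 =
          ((Z:ℝ) ^ M * (Z:ℝ) ^ M) * ((z' : ℝ) * z') * LL (Z ^ M) ^ (8 * k + 8) := by ring
      rw [e1]
      gcongr
    calc (Hk N : ℝ) * ((Z:ℝ) ^ M * LL (Z ^ M) ^ (4 * k) * ((z' : ℝ) * LL (Z ^ M) ^ 4)) ^ 2 * W ≤
          (N:ℝ) ^ (1 / 64 : ℝ) * (((N:ℝ) ^ (1 / 64 : ℝ) * (N:ℝ) ^ (1 / 64 : ℝ)) *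
            ((N:ℝ) ^ (1 / 64 : ℝ) * (N:ℝ) ^ (1 / 64 : ℝ)) * (N:ℝ) ^ (1 / 64 : ℝ)) *
              (N:ℝ) ^ (1 / 8 : ℝ) := by
          have h2 : (Hk N : ℝ) ≤ (N:ℝ) ^ (1 / 64 : ℝ) := hHx.trans hlN
          gcongr
      _ = (N:ℝ) ^ ((1 / 64 : ℝ) + (1 / 64 + 1 / 64 + (1 / 64 + 1 / 64) + 1 / 64) + 1 / 8) := by
          simp only [hP]
      _ ≤ (N:ℝ) ^ (1 : ℝ) := Real.rpow_le_rpow_of_exponent_le hN1 (by norm_num)
      _ = _ := Real.rpow_one _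
  · -- further
    intro V hV hVle
    have hVlog : (V:ℝ) ≤ x ^ (k ^ 2 + 1 + k) := by
      calc (V:ℝ) ≤ ((W * Hk N ^ k : ℕ) : ℝ) := by exact_mod_cast hVle
        _ = (W:ℝ) * (Hk N : ℝ) ^ k := by push_cast; ring
        _ ≤ x ^ (k ^ 2 + 1) * x ^ k := by gcongr
        _ = _ := by ring
    have hlogV := log_le_of hV hVlog
    have hlogV' : Real.log V ≤ ((k:ℝ) ^ 2 + 1 + k) * l := by
      push_cast at hlogV
      exact hlogV
    have hKVV : KV V ≤ (11 + 2 * (k:ℝ) ^ 2 + 2 * k) * l := by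
      rw [KV_eq]
      nlinarith
    have hn : (Nat.log 2 V : ℝ) + 1 ≤ (3 + 2 * (k:ℝ) ^ 2 + 2 * k) * l := by
      have := natlog_le hV
      nlinarith
    have hn0 : (0:ℝ) < (Nat.log 2 V : ℝ) + 1 := by positivity
    have hcV := Pool.Agent.PosProp.WB.cW_ge_log hV
    have hze := ze_pos hk
    have h1 : 64 * (11 + 2 * (k:ℝ) ^ 2 + 2 * k) * (3 + 2 * (k:ℝ) ^ 2 + 2 * k) * l ^ 2 ≤
        ze k / 2 * x := by
      have h2 := mul_le_mul_of_nonneg_left hA3 (show 0 ≤ ze k / 2 by positivity)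
      refine le_trans (le_of_eq ?_) h2
      field_simp
    have hlz : 0 ≤ Real.log (zz k N) := Real.log_natCast_nonneg _
    have h3 : 64 * KV V * ((Nat.log 2 V : ℝ) + 1) ≤ Real.log (zz k N) := by
      refine le_trans ?_ hlogz
      refine le_trans ?_ h1
      have hKV0 := KV_pos hV
      calc 64 * KV V * ((Nat.log 2 V : ℝ) + 1) ≤
            64 * ((11 + 2 * (k:ℝ) ^ 2 + 2 * k) * l) * ((3 + 2 * (k:ℝ) ^ 2 + 2 * k) * l) := by gcongr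
        _ = _ := by ring
    calc 64 * KV V = 1 / ((Nat.log 2 V : ℝ) + 1) * (64 * KV V * ((Nat.log 2 V : ℝ) + 1)) := by
          field_simp
      _ ≤ cW V * Real.log (zz k N) := by
          have hKV0 := KV_pos hV
          refine mul_le_mul hcV h3 (by positivity) ?_
          exact le_trans (by positivity) hcV

/-- **All facts hold for large `N`.** -/
theorem ev_facts (k q : ℕ) (hk : 100 ≤ k) (hq : 1 ≤ q) : ∀ᶠ N : ℕ in atTop, Facts k q N := by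
  have hM0 := MM_pos hk
  have hM0r : (0:ℝ) < MM k := by exact_mod_cast hM0
  have hze := ze_pos hk
  have hzel := ze_le hk
  filter_upwards [eventually_ge_atTop 3, ev_log_ge 8, ev_loglog_ge 1,
    ev_log_ge ((q * primorial (K0k k) : ℕ) : ℝ), ev_ZZ (δ := 1 / 64) (by norm_num) hM0,
    ev_rpow_ge (s := ze k / 2) (by positivity) 2,
    ev_rpow_ge (s := ze k / 2) (by positivity) ((q * primorial (K0k k - 1) : ℕ) : ℝ),
    ev_loglog (64 * (k:ℝ) * (11 + 2 * (k:ℝ) ^ 2) / (cW (q * primorial (K0k k - 1)) / 2 *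
      (1 / (128 * (MM k : ℝ))))),
    ev_loglog (10 ^ 6 * (k:ℝ) ^ 2 * (11 + 2 * (k:ℝ) ^ 2) * 17 / (cW (q * primorial (K0k k - 1)) / 2 *
      (1 / (128 * (MM k : ℝ))))),
    ev_loglog (64 * (11 + 2 * (k:ℝ) ^ 2 + 2 * k) * (3 + 2 * (k:ℝ) ^ 2 + 2 * k) / (ze k / 2)),
    ev_log_pow_le (s := 1 / 8) (by norm_num) (k ^ 2 + 1),
    ev_LL_pow_le (s := 1 / 64) (by norm_num) (8 * k + 8),
    ev_log_pow_le (s := 1 / 64) (by norm_num) 1,
    ev_rpow_ge (s := 1 / 64) (by norm_num) (10 ^ 4 * (k:ℝ) ^ 2)]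
    with N h3 h8 hll hqK hZZ hz4 hW0 hA1 hA2 hA3 hW8 hLL hlN hk4
  obtain ⟨hZ2, hlogZ⟩ := hZZ
  have hN0 : (0:ℝ) < N := by exact_mod_cast (show 0 < N by omega)
  have hN1 : (1:ℝ) ≤ N := by exact_mod_cast (show 1 ≤ N by omega)
  have hx0 : 0 < Real.log N := by linarith
  have hZZk : ZZ (1 / 64) (MM k) N = Zk k N := rfl
  rw [hZZk] at hZ2 hlogZ
  have hlogZ' : 1 / (128 * (MM k : ℝ)) * Real.log N ≤ Real.log (Zk k N) := by
    refine le_trans (le_of_eq ?_) hlogZ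
    field_simp
    ring
  have hRN : ((Zk k N ^ MM k : ℕ) : ℝ) ≤ (N:ℝ) ^ (1 / 64 : ℝ) := ZZ_pow_le hM0 (by omega)
  have hN64 : (N:ℝ) ^ (1 / 64 : ℝ) ≤ N := by
    calc (N:ℝ) ^ (1 / 64 : ℝ) ≤ (N:ℝ) ^ (1 : ℝ) :=
          Real.rpow_le_rpow_of_exponent_le hN1 (by norm_num)
      _ = _ := Real.rpow_one _
  have hRleN : Zk k N ^ MM k ≤ N := by exact_mod_cast hRN.trans hN64
  have hZR : Zk k N ≤ Zk k N ^ MM k := Nat.le_self_pow hM0.ne' _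
  have hzle : (zz k N : ℝ) ≤ (N:ℝ) ^ (ze k) := Nat.floor_le (by positivity)
  have hsq : (N:ℝ) ^ (ze k) = (N:ℝ) ^ (ze k / 2) * (N:ℝ) ^ (ze k / 2) := by
    rw [← Real.rpow_add hN0]
    congr 1
    ring
  have hzge : (N:ℝ) ^ (ze k / 2) ≤ zz k N := by
    have h1 : (N:ℝ) ^ (ze k) < zz k N + 1 := Nat.lt_floor_add_one _
    rw [hsq] at h1
    nlinarith
  have hz2 : 2 ≤ zz k N := by exact_mod_cast hz4.trans hzge
  have hz0 : (0:ℝ) < zz k N := by exact_mod_cast (show 0 < zz k N by omega)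
  have hlogz : ze k / 2 * Real.log N ≤ Real.log (zz k N) := by
    rw [← Real.log_rpow hN0]
    exact Real.log_le_log (by positivity) hzge
  have hzZ : 10 ^ 6 * (k:ℝ) ^ 2 * Real.log (zz k N) ≤ Real.log (Zk k N) := by
    refine le_trans ?_ hlogZ'
    have h1 : Real.log (zz k N) ≤ ze k * Real.log N := by
      rw [← Real.log_rpow hN0]
      exact Real.log_le_log hz0 hzle
    calc 10 ^ 6 * (k:ℝ) ^ 2 * Real.log (zz k N) ≤ 10 ^ 6 * (k:ℝ) ^ 2 * (ze k * Real.log N) :=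
          mul_le_mul_of_nonneg_left h1 (by positivity)
      _ = (10 ^ 6 * (k:ℝ) ^ 2 * ze k) * Real.log N := by ring
      _ = _ := by rw [ze_mul hk]
  have hzz64 : (zz k N : ℝ) ≤ (N:ℝ) ^ (1 / 64 : ℝ) :=
    hzle.trans (Real.rpow_le_rpow_of_exponent_le hN1 hzel)
  have hzZk : zz k N ≤ Zk k N := by
    have hk' : (100:ℝ) ≤ k := by exact_mod_cast hk
    have h1 : Real.log (zz k N) ≤ Real.log (Zk k N) := by
      refine le_trans ?_ hzZ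
      have h2 : 0 ≤ Real.log (zz k N) := Real.log_natCast_nonneg _
      have h3 : (1:ℝ) ≤ 10 ^ 6 * (k:ℝ) ^ 2 := by nlinarith
      exact le_mul_of_one_le_left h2 h3
    have hZ0 : (0:ℝ) < Zk k N := by exact_mod_cast (show 0 < Zk k N by omega)
    have h2 := (Real.log_le_log_iff hz0 hZ0).mp h1
    exact_mod_cast h2
  rw [pow_one] at hlN
  exact
    { N3 := h3
      logN := h8
      Z2 := hZ2
      logZ := hlogZ'
      RN := hRN
      z2 := hz2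
      zR := hzZk.trans hZR
      zZ := hzZ
      logz := hlogz
      W0z := by exact_mod_cast hW0.trans hzge
      HN := by
        have h1 : (Hk N : ℝ) ≤ Real.log N := Nat.floor_le (by linarith)
        exact_mod_cast h1.trans (hlN.trans hN64)
      mod := fun W hW hWle hc => mod_facts hk hq h3 h8 hll hqK hZ2 hlogZ' hRN hz2 hzz64 hlogz
        hA1 hA2 hA3 hW8 hLL hlN hk4 (hZR.trans hRleN) hRleN hW hWle hc }

end Pool.Agent.PosProp.Main
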