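import Pool.Agent.PosProp.MainCount

/-!
# The choice of the number of shifts
-/

open Finset Filter

namespace Pool.Agent.PosProp.Main

open Pool.Agent.Maynard

lemma hT_ge_log (T : ℕ) : Real.log ((T:ℝ) + 1) ≤ hT T := by
  have h2 := log_add_one_le_harmonic T
  have h3 : hT T = (harmonic T : ℝ) := by
    unfold hT harmonic
    push_cast
    exact Finset.sum_congr rfl fun j _ => by rw [one_div]
  rw [h3]
  push_cast at h2
  exact h2

theorem exists_params' : ∃ C : ℝ, 11 ≤ C ∧ ∀ m : ℕ, 1 ≤ m → ∃ k L : ℕ, 100 ≤ k ∧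
    (k:ℝ) ≤ Real.exp (C * m) ∧ 1 ≤ L ∧ (L:ℝ) ≤ Real.exp ((k:ℝ) ^ C) ∧
    864 * ((m:ℝ) * 13000 + 1) * 64 ≤ hT k ∧ 100 * (k:ℝ) * (3 * k + 200 / ze k + 1) ≤ L := by
  refine ⟨864 * 13001 * 64 + 5, by norm_num, fun m hm => ?_⟩
  have hm1 : (1:ℝ) ≤ m := by exact_mod_cast hm
  set E := Real.exp (864 * 13001 * 64 * m) with hE
  have hE1 : 1 ≤ E := by
    rw [hE]
    exact Real.one_le_exp (by positivity)
  set k : ℕ := ⌈E⌉₊ + 100 with hk
  have hk100 : 100 ≤ k := by omega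
  have hkr : (100:ℝ) ≤ k := by exact_mod_cast hk100
  have hkE : E ≤ k := by
    rw [hk]
    push_cast
    have := Nat.le_ceil E
    linarith
  have hkE2 : (k:ℝ) ≤ E + 101 := by
    rw [hk]
    push_cast
    have := Nat.ceil_lt_add_one (a := E) (by linarith)
    linarith
  have hk1 : 1 ≤ k := by omega
  have hMM := fc_MM_le (k := k) hk1
  have hMp := fc_MM_pos (k := k) hk1
  have hze : 200 / ze k ≤ 231 * 10 ^ 9 * (k:ℝ) ^ 4 := by
    unfold ze
    rw [div_div_eq_mul_div, div_one]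
    calc 200 * (128 * (MM k : ℝ) * (10 ^ 6 * (k:ℝ) ^ 2))
        ≤ 200 * (128 * (9 * (k:ℝ) ^ 2) * (10 ^ 6 * (k:ℝ) ^ 2)) := by gcongr
      _ = 2304 * 10 ^ 8 * (k:ℝ) ^ 4 := by ring
      _ ≤ _ := mul_le_mul_of_nonneg_right (by norm_num) (by positivity)
  set L : ℕ := ⌈100 * (k:ℝ) * (3 * k + 200 / ze k + 1)⌉₊ with hL
  have hpos : 0 < ze k := by
    unfold ze
    positivity
  have hL0 : 0 < 100 * (k:ℝ) * (3 * k + 200 / ze k + 1) := by positivity
  refine ⟨k, L, hk100, ?_, Nat.one_le_ceil_iff.2 hL0, ?_, ?_, Nat.le_ceil _⟩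
  · have h1 : (k:ℝ) ≤ E * Real.exp 5 := by
      have h2 : (102:ℝ) ≤ Real.exp 5 := by
        have h3 : Real.exp 5 = Real.exp 1 ^ 5 := by
          rw [← Real.exp_nat_mul]
          norm_num
        rw [h3]
        have h4 : (2.7:ℝ) ≤ Real.exp 1 := by
          have := Real.exp_one_gt_d9
          linarith
        calc (102:ℝ) ≤ 2.7 ^ 5 := by norm_num
          _ ≤ _ := pow_le_pow_left₀ (by norm_num) h4 5
      nlinarith
    refine h1.trans ?_
    rw [hE, ← Real.exp_add]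
    refine Real.exp_le_exp.2 ?_
    nlinarith
  · have h1 : (L:ℝ) ≤ (k:ℝ) ^ 12 := by
      have h2 := Nat.ceil_lt_add_one (a := 100 * (k:ℝ) * (3 * k + 200 / ze k + 1)) hL0.le
      have h3 : (L:ℝ) < 100 * (k:ℝ) * (3 * k + 200 / ze k + 1) + 1 := h2
      have h4 : 3 * (k:ℝ) + 1 ≤ 10 ^ 9 * (k:ℝ) ^ 4 := by
        have : (k:ℝ) ≤ (k:ℝ) ^ 4 := le_self_pow₀ (by linarith) (by norm_num)
        nlinarith
      have h5 : 100 * (k:ℝ) * (3 * k + 200 / ze k + 1) ≤ 100 * k * (232 * 10 ^ 9 * (k:ℝ) ^ 4) := by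
        refine mul_le_mul_of_nonneg_left ?_ (by positivity)
        linarith
      have h6 : 100 * k * (232 * 10 ^ 9 * (k:ℝ) ^ 4) + 1 ≤ 10 ^ 14 * (k:ℝ) ^ 5 := by
        have h7 : 1 ≤ (k:ℝ) ^ 5 := one_le_pow₀ (by linarith)
        have h8 : 100 * k * (232 * 10 ^ 9 * (k:ℝ) ^ 4) = 232 * 10 ^ 11 * (k:ℝ) ^ 5 := by ring
        rw [h8]
        nlinarith
      have h9 : (10:ℝ) ^ 14 * (k:ℝ) ^ 5 ≤ (k:ℝ) ^ 7 * (k:ℝ) ^ 5 := by
        refine mul_le_mul_of_nonneg_right ?_ (by positivity)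
        calc (10:ℝ) ^ 14 = 100 ^ 7 := by norm_num
          _ ≤ _ := pow_le_pow_left₀ (by norm_num) hkr 7
      calc (L:ℝ) ≤ 10 ^ 14 * (k:ℝ) ^ 5 := by linarith
        _ ≤ (k:ℝ) ^ 7 * (k:ℝ) ^ 5 := h9
        _ = _ := by ring
    refine h1.trans ?_
    have hk0 : (0:ℝ) < k := by linarith
    calc (k:ℝ) ^ 12 = Real.exp (12 * Real.log k) := by
          rw [mul_comm, Real.exp_mul, Real.exp_log hk0]
          norm_num
      _ ≤ Real.exp ((k:ℝ) ^ (2:ℝ)) := by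
          refine Real.exp_le_exp.2 ?_
          have h2 := Real.log_le_sub_one_of_pos hk0
          rw [Real.rpow_two]
          nlinarith
      _ ≤ _ := by
          refine Real.exp_le_exp.2 (Real.rpow_le_rpow_of_exponent_le (by linarith) (by norm_num))
  · refine le_trans ?_ (hT_ge_log k)
    have h1 : Real.log E ≤ Real.log ((k:ℝ) + 1) := Real.log_le_log (by linarith) (by linarith)
    rw [hE, Real.log_exp] at h1
    refine le_trans ?_ h1
    nlinarith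

end Pool.Agent.PosProp.Main
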