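import Pool.Agent.PosProp.RoughLoc
import Pool.Agent.Lib.Maynard.Count
import Pool.Agent.Lib.DirPoly.PrimeSums

/-!
# The mass of the sieve weight on the integers with a small prime factor (module PP4)
-/

open Finset

namespace Pool.Agent.PosProp

open Pool.Agent.Maynard

variable {k : ℕ} {P : Finset ℕ}

/-- Sum of `G²` over an arithmetic progression; the bound is needed for one colouring only. -/
theorem sum_GG_le' {W K0 R Z T M : ℕ} (hS : Setting P W K0 R)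
    (hZ : 2 ≤ Z) {h : Fin k → ℕ} (hsep : Sep P h) {q : ℕ}
    (hW : 0 < W) (hq : 0 < q) (N a : ℕ) {B : ℝ}
    (hB : EG (wq q (JJ (P := P) h a)) (cc Z T M) ≤ B) :
    ∑ n ∈ (Finset.Ioc N (2 * N)).filter (fun n => n ≡ a [MOD (W * q)]),
        GG (cc Z T M) (JJ (P := P) h n) ^ 2 ≤
      (N:ℝ) / (W * q : ℕ) * B + ((Z:ℝ) ^ M * LL R ^ (4 * k)) ^ 2 := by
  have h1 := compare (wq q (JJ (P := P) h a)) (cc Z T M)
    ((Finset.Ioc N (2 * N)).filter (fun n => n ≡ a [MOD (W * q)])) (fun _ => (1:ℝ))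
    (fun n => JJ h n) ((N:ℝ) / (W * q : ℕ)) (fun _ _ => 1) (fun z z' _ _ => by
      refine compare_hyp _ _ _ _ _ (fun _ => 1) (fun _ => zero_le_one) z z' (fun _ => ?_)
      exact count_model hS.prime hsep hW hq hS.ndvd N a _)
  have h2 : ∑ z : Col P k, ∑ z' : Col P k, |lam (cc Z T M) z| * |lam (cc Z T M) z'| * 1 =
      (∑ z : Col P k, |lam (cc Z T M) z|) ^ 2 := by
    rw [sq, Finset.sum_mul_sum]
    simp
  rw [h2] at h1
  have h3 := sum_abs_lam_le (k := k) (T := T) (M := M) hS.prime hS.le hZ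
  have h4 : (∑ z : Col P k, |lam (cc Z T M) z|) ^ 2 ≤ ((Z:ℝ) ^ M * LL R ^ (4 * k)) ^ 2 :=
    pow_le_pow_left₀ (Finset.sum_nonneg fun _ _ => abs_nonneg _) h3 2
  have h5 := (abs_le.1 h1).2
  have h6 : (N:ℝ) / (W * q : ℕ) * EG (wq q (JJ (P := P) h a)) (cc Z T M) ≤
      (N:ℝ) / (W * q : ℕ) * B := mul_le_mul_of_nonneg_left hB (by positivity)
  simp_rw [one_mul] at h5
  linarith

/-- one prime and one shift -/
theorem rough_one {W K0 Z T M : ℕ} {h : Fin k → ℕ} (hS : Setting P W K0 (Z ^ M)) (hW : 0 < W)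
    (hk : 2 ≤ k) (hT1 : 1 ≤ T) (hK0 : 2 ^ (k + 10) * k ≤ K0) (hZ : 2 ≤ Z)
    (hZK : 64 * (k:ℝ) * KV W ≤ cW W * Real.log Z) (hsep : Sep P h) (N a : ℕ) (i : Fin k) {p : ℕ}
    (hp : p ∈ P) :
    ∑ n ∈ (Ioc N (2 * N)).filter (fun n => n ≡ a [MOD W] ∧ p ∣ n + h i),
        GG (cc Z T M) (JJ (P := P) h n) ^ 2 ≤
      (N:ℝ) / W * SS k W Z T * (3 * (Real.log p / p / Real.log Z +
        1 / (p:ℝ) * (KV W / (cW W * Real.log Z)) + (k:ℝ) ^ 2 / ((p:ℝ) * ((p:ℝ) - 1) ^ 2))) +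
      ((Z:ℝ) ^ M * LL (Z ^ M) ^ (4 * k)) ^ 2 := by
  have hpp := hS.prime p hp
  have hco : W.Coprime p := by
    rw [Nat.coprime_comm, hpp.coprime_iff_not_dvd]
    exact hS.ndvd p hp
  obtain ⟨a', ha1, ha2⟩ := Nat.chineseRemainder hco a (p * h i - h i)
  have hle : h i ≤ p * h i := Nat.le_mul_of_pos_left _ hpp.pos
  have hr : (p * h i - h i) + h i ≡ 0 [MOD p] := by
    rw [Nat.sub_add_cancel hle]
    exact Nat.modEq_zero_iff_dvd.2 (dvd_mul_right _ _)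
  have hda' : p ∣ a' + h i :=
    Nat.modEq_zero_iff_dvd.1 ((ha2.add_right (h i)).trans hr)
  have hset : (Ioc N (2 * N)).filter (fun n => n ≡ a [MOD W] ∧ p ∣ n + h i) =
      (Ioc N (2 * N)).filter (fun n => n ≡ a' [MOD (W * p)]) := by
    refine Finset.filter_congr fun n _ => ?_
    rw [← Nat.modEq_and_modEq_iff_modEq_mul hco]
    constructor
    · rintro ⟨h1, h2⟩
      refine ⟨h1.trans ha1.symm, ?_⟩
      refine Nat.ModEq.add_right_cancel' (h i) ?_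
      exact (Nat.modEq_zero_iff_dvd.2 h2).trans (Nat.modEq_zero_iff_dvd.2 hda').symm
    · rintro ⟨h1, h2⟩
      refine ⟨h1.trans ha1, ?_⟩
      exact Nat.modEq_zero_iff_dvd.1
        ((h2.add_right (h i)).trans (Nat.modEq_zero_iff_dvd.2 hda'))
  rw [hset]
  have hj : JJ (P := P) h a' ⟨p, hp⟩ ≠ none := by
    have h1 : some i = JJ (P := P) h a' ⟨p, hp⟩ := (JJ_eq_some hsep a' ⟨p, hp⟩ i).2 hda'
    rw [← h1]
    simp
  have hB := rough_loc (M := M) hS hW hk hT1 hK0 hZ hZK ⟨p, hp⟩ (JJ (P := P) h a') hj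
  have h1 := sum_GG_le' (T := T) (M := M) hS hZ hsep hW hpp.pos N a' hB
  refine h1.trans (le_of_eq ?_)
  congr 1
  have hp0 : (p:ℝ) ≠ 0 := by exact_mod_cast hpp.pos.ne'
  have hW0 : (W:ℝ) ≠ 0 := by exact_mod_cast hW.ne'
  have hp1 : (p:ℝ) - 1 ≠ 0 := by
    have : (1:ℝ) < p := by exact_mod_cast hpp.one_lt
    linarith
  push_cast
  rw [div_mul_eq_div_div ((N:ℝ)) W p]
  field_simp

lemma sum_inv_cube_le {K0 : ℕ} (hK : 2 ≤ K0) (S : Finset ℕ) (hS : ∀ p ∈ S, K0 ≤ p) :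
    ∑ p ∈ S, 1 / ((p:ℝ) * ((p:ℝ) - 1) ^ 2) ≤ 4 / (K0:ℝ) := by
  have hKr : (2:ℝ) ≤ K0 := by exact_mod_cast hK
  have h1 : ∀ p ∈ S, 1 / ((p:ℝ) * ((p:ℝ) - 1) ^ 2) ≤ 1 / ((p:ℝ) - 1) - 1 / (p:ℝ) := by
    intro p hp
    have h2 : (K0:ℝ) ≤ p := by exact_mod_cast hS p hp
    have h3 : 0 < (p:ℝ) - 1 := by linarith
    have h4 : 0 < (p:ℝ) := by linarith
    rw [div_sub_div _ _ h3.ne' h4.ne', div_le_div_iff₀ (by positivity) (by positivity)]
    nlinarith [mul_pos h3 h4]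
  refine (Finset.sum_le_sum h1).trans ?_
  have h5 : S ⊆ Finset.Ico K0 (S.sup id + K0 + 1) := by
    intro p hp
    rw [Finset.mem_Ico]
    have := Finset.le_sup (f := id) hp
    simp only [id] at this
    exact ⟨hS p hp, by omega⟩
  refine (Finset.sum_le_sum_of_subset_of_nonneg h5 fun p hp _ => ?_).trans ?_
  · have h2 : (K0:ℝ) ≤ p := by exact_mod_cast (Finset.mem_Ico.1 hp).1
    have h3 : 0 < (p:ℝ) - 1 := by linarith
    rw [sub_nonneg]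
    exact one_div_le_one_div_of_le h3 (by linarith)
  · have key : ∀ m, ∑ p ∈ Finset.Ico K0 (K0 + m), (1 / ((p:ℝ) - 1) - 1 / (p:ℝ)) =
        1 / ((K0:ℝ) - 1) - 1 / ((K0:ℝ) + m - 1) := by
      intro m
      induction m with
      | zero => simp
      | succ m ih =>
        rw [← add_assoc, Finset.sum_Ico_succ_top (by omega), ih]
        push_cast
        ring
    have e : S.sup id + K0 + 1 = K0 + (S.sup id + 1) := by ring
    rw [e, key]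
    have h6 : 0 ≤ 1 / ((K0:ℝ) + ((S.sup id + 1 : ℕ) : ℝ) - 1) := by
      apply one_div_nonneg.2
      have : (0:ℝ) ≤ ((S.sup id + 1 : ℕ) : ℝ) := Nat.cast_nonneg _
      linarith
    have h7 : 1 / ((K0:ℝ) - 1) ≤ 4 / (K0:ℝ) := by
      rw [div_le_div_iff₀ (by linarith) (by linarith)]
      linarith
    linarith

lemma SS_ge_one {W Z T : ℕ} (hW : 0 < W) (hk : 2 ≤ k) (hT1 : 1 ≤ T)
    (hZK : 64 * (k:ℝ) * KV W ≤ cW W * Real.log Z) : 1 ≤ SS k W Z T := by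
  have hk' : (2:ℝ) ≤ k := by exact_mod_cast hk
  have h1 : 1 ≤ KV W := by
    unfold KV
    have := KW_pos hW
    linarith
  have h2 : 1 ≤ cW W * Real.log Z := by nlinarith
  have h3 := gT2_ge_one hT1
  unfold SS
  exact one_le_pow₀ (by nlinarith)

lemma cube_le_two_pow {k : ℕ} (hk : 14 ≤ k) : 4 * k ^ 3 ≤ 2 ^ k := by
  induction k, hk using Nat.le_induction with
  | base => norm_num
  | succ n hn ih =>
    rw [pow_succ 2 n]
    have h1 : 4 * (n + 1) ^ 3 ≤ 4 * n ^ 3 * 2 := by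
      obtain ⟨m, rfl⟩ := Nat.exists_eq_add_of_le hn
      ring_nf
      nlinarith [Nat.zero_le (m ^ 3), Nat.zero_le (m ^ 2)]
    omega

/-- Module PP4. -/
theorem rough_sum {W K0 Z T M : ℕ} {h : Fin k → ℕ} (hS : Setting P W K0 (Z ^ M)) (hW : 0 < W)
    (hk100 : 100 ≤ k) (hT1 : 1 ≤ T) (hK0 : 2 ^ (k + 10) * k ≤ K0) (hZ : 2 ≤ Z)
    (hZK : 64 * (k:ℝ) * KV W ≤ cW W * Real.log Z) (hsep : Sep P h) {z : ℕ} (hz2 : 2 ≤ z)
    (hz : 10 ^ 6 * (k:ℝ) ^ 2 * Real.log z ≤ Real.log Z)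
    (hKV : 10 ^ 6 * (k:ℝ) ^ 2 * KV W * (5 + 4 * Real.log ((Nat.log 2 Z : ℝ) + 1)) ≤
      cW W * Real.log Z) (N a : ℕ)
    (hN : 10 ^ 4 * (k:ℝ) ^ 2 * z * ((Z:ℝ) ^ M * LL (Z ^ M) ^ (4 * k)) ^ 2 ≤ (N:ℝ) / W) :
    ∑ i : Fin k, ∑ p ∈ P.filter (· ≤ z),
      ∑ n ∈ (Ioc N (2 * N)).filter (fun n => n ≡ a [MOD W] ∧ p ∣ n + h i),
        GG (cc Z T M) (JJ (P := P) h n) ^ 2 ≤ (N:ℝ) / W * SS k W Z T / (100 * k) := by
  have hk : 2 ≤ k := by omega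
  have hk' : (2:ℝ) ≤ k := by exact_mod_cast hk
  have hkpos : (0:ℝ) < k := by linarith
  have hSS := SS_ge_one (T := T) hW hk hT1 hZK
  set Er := ((Z:ℝ) ^ M * LL (Z ^ M) ^ (4 * k)) ^ 2 with hEr
  have hEr0 : 0 ≤ Er := sq_nonneg _
  have hX0 : 0 ≤ (N:ℝ) / W := by positivity
  have hlogZ : 0 < Real.log Z := Real.log_pos (by exact_mod_cast (show 1 < Z by omega))
  have hlogz : Real.log 2 ≤ Real.log z :=
    Real.log_le_log (by norm_num) (by exact_mod_cast hz2)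
  have hl2 : (0.6931471803 : ℝ) < Real.log 2 := Real.log_two_gt_d9
  have hl2' : Real.log 2 < (0.6931471808 : ℝ) := Real.log_two_lt_d9
  have hKVpos := KV_pos hW
  have hD : 0 < cW W * Real.log Z := lt_of_lt_of_le (by positivity) hZK
  -- z is at most Z
  have hzZ : z ≤ Z := by
    have h1 : Real.log z ≤ Real.log Z := by
      refine le_trans ?_ hz
      have : (1:ℝ) ≤ 10 ^ 6 * (k:ℝ) ^ 2 := by nlinarith
      nlinarith
    have h2 := (Real.log_le_log_iff (by exact_mod_cast (show 0 < z by omega))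
      (by exact_mod_cast (show 0 < Z by omega))).1 h1
    exact_mod_cast h2
  have h1 : ∀ i : Fin k, ∑ p ∈ P.filter (· ≤ z),
      ∑ n ∈ (Ioc N (2 * N)).filter (fun n => n ≡ a [MOD W] ∧ p ∣ n + h i),
        GG (cc Z T M) (JJ (P := P) h n) ^ 2 ≤
      (N:ℝ) / W * SS k W Z T * (3 * (∑ p ∈ P.filter (· ≤ z), (Real.log p / p / Real.log Z +
        1 / (p:ℝ) * (KV W / (cW W * Real.log Z)) + (k:ℝ) ^ 2 / ((p:ℝ) * ((p:ℝ) - 1) ^ 2)))) +
      z * Er := by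
    intro i
    refine (Finset.sum_le_sum fun p hp => rough_one (T := T) hS hW hk hT1 hK0 hZ hZK hsep N a i
      (Finset.mem_filter.1 hp).1).trans ?_
    rw [Finset.sum_add_distrib, ← Finset.mul_sum, ← Finset.mul_sum, Finset.sum_const, nsmul_eq_mul]
    have hcard : ((P.filter (· ≤ z)).card : ℝ) ≤ z := by
      have h2 : P.filter (· ≤ z) ⊆ Finset.Icc 1 z := by
        intro p hp
        obtain ⟨h3, h4⟩ := Finset.mem_filter.1 hp
        rw [Finset.mem_Icc]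
        exact ⟨(hS.prime p h3).pos, h4⟩
      have h5 := Finset.card_le_card h2
      rw [Nat.card_Icc] at h5
      exact_mod_cast (show (P.filter (· ≤ z)).card ≤ z by omega)
    have := mul_le_mul_of_nonneg_right hcard hEr0
    linarith
  -- the three sums
  have hs1 : ∑ p ∈ P.filter (· ≤ z), Real.log p / p ≤ 4 * Real.log z := by
    have h2 : P.filter (· ≤ z) ⊆ (Icc 1 z).filter Nat.Prime := by
      intro p hp
      obtain ⟨h3, h4⟩ := Finset.mem_filter.1 hp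
      rw [Finset.mem_filter, Finset.mem_Icc]
      exact ⟨⟨(hS.prime p h3).pos, h4⟩, hS.prime p h3⟩
    refine (Finset.sum_le_sum_of_subset_of_nonneg h2 fun p _ _ =>
      div_nonneg (Real.log_natCast_nonneg p) (Nat.cast_nonneg p)).trans ?_
    refine (DirPoly.sum_log_div_le (N := z) (by omega)).trans ?_
    have h4 : Real.log 4 = 2 * Real.log 2 := by
      rw [show (4:ℝ) = 2 ^ 2 by norm_num, Real.log_pow]; norm_num
    rw [h4]
    nlinarith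
  have hs2 : ∑ p ∈ P.filter (· ≤ z), 1 / (p:ℝ) ≤
      5 + 4 * Real.log ((Nat.log 2 Z : ℝ) + 1) :=
    sum_inv_primes_le (R := Z) (fun p hp => hS.prime p (Finset.mem_filter.1 hp).1)
      (fun p hp => (Finset.mem_filter.1 hp).2.trans hzZ)
  have hK2 : 2 ≤ K0 := by
    have : 2 ≤ 2 ^ (k + 10) * k := by
      have h3 : 1 ≤ 2 ^ (k + 10) := Nat.one_le_two_pow
      nlinarith
    omega
  have hs3 : ∑ p ∈ P.filter (· ≤ z), 1 / ((p:ℝ) * ((p:ℝ) - 1) ^ 2) ≤ 4 / (K0:ℝ) :=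
    sum_inv_cube_le hK2 _ (fun p hp => hS.ge p (Finset.mem_filter.1 hp).1)
  have hsum : ∑ p ∈ P.filter (· ≤ z), (Real.log p / p / Real.log Z +
        1 / (p:ℝ) * (KV W / (cW W * Real.log Z)) + (k:ℝ) ^ 2 / ((p:ℝ) * ((p:ℝ) - 1) ^ 2)) ≤
      4 / (10 ^ 6 * (k:ℝ) ^ 2) + 1 / (10 ^ 6 * (k:ℝ) ^ 2) + 4 / (4096 * (k:ℝ) ^ 2) := by
    rw [Finset.sum_add_distrib, Finset.sum_add_distrib, ← Finset.sum_div, ← Finset.sum_mul]
    have e3 : ∑ p ∈ P.filter (· ≤ z), (k:ℝ) ^ 2 / ((p:ℝ) * ((p:ℝ) - 1) ^ 2) =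
        (k:ℝ) ^ 2 * ∑ p ∈ P.filter (· ≤ z), 1 / ((p:ℝ) * ((p:ℝ) - 1) ^ 2) := by
      rw [Finset.mul_sum]
      refine Finset.sum_congr rfl fun p _ => ?_
      rw [mul_one_div]
    rw [e3]
    refine add_le_add (add_le_add ?_ ?_) ?_
    · rw [div_le_div_iff₀ hlogZ (by positivity)]
      nlinarith
    · rw [mul_div_assoc', div_le_div_iff₀ hD (by positivity)]
      have := mul_le_mul_of_nonneg_right hs2 (show 0 ≤ KV W * (10 ^ 6 * (k:ℝ) ^ 2) by positivity)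
      nlinarith
    · have hKr : (4096:ℝ) * (k:ℝ) ^ 4 ≤ K0 := by
        have e1 := cube_le_two_pow (k := k) (by omega)
        have e2 : 4096 * k ^ 4 ≤ 2 ^ (k + 10) * k := by
          calc 4096 * k ^ 4 = 1024 * (4 * k ^ 3) * k := by ring
            _ ≤ 1024 * 2 ^ k * k := by gcongr
            _ = 2 ^ (k + 10) * k := by rw [pow_add]; ring
        exact_mod_cast e2.trans hK0
      refine (mul_le_mul_of_nonneg_left hs3 (by positivity)).trans ?_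
      have hK0pos : (0:ℝ) < K0 := by exact_mod_cast (show 0 < K0 by omega)
      rw [mul_div_assoc', div_le_div_iff₀ hK0pos (by positivity)]
      nlinarith [sq_nonneg ((k:ℝ) ^ 2)]
  have h2 : ∑ i : Fin k, ∑ p ∈ P.filter (· ≤ z),
      ∑ n ∈ (Ioc N (2 * N)).filter (fun n => n ≡ a [MOD W] ∧ p ∣ n + h i),
        GG (cc Z T M) (JJ (P := P) h n) ^ 2 ≤
      k * ((N:ℝ) / W * SS k W Z T * (3 * (4 / (10 ^ 6 * (k:ℝ) ^ 2) + 1 / (10 ^ 6 * (k:ℝ) ^ 2) +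
        4 / (4096 * (k:ℝ) ^ 2))) + z * Er) := by
    refine (Finset.sum_le_sum fun i _ => h1 i).trans ?_
    rw [Finset.sum_const, Finset.card_univ, Fintype.card_fin, nsmul_eq_mul]
    have : 0 ≤ (N:ℝ) / W * SS k W Z T := mul_nonneg hX0 (by linarith)
    gcongr
  refine h2.trans ?_
  have h3 : 3 * (4 / (10 ^ 6 * (k:ℝ) ^ 2) + 1 / (10 ^ 6 * (k:ℝ) ^ 2) + 4 / (4096 * (k:ℝ) ^ 2)) ≤
      1 / (300 * (k:ℝ) ^ 2) := by
    have e : 3 * (4 / (10 ^ 6 * (k:ℝ) ^ 2) + 1 / (10 ^ 6 * (k:ℝ) ^ 2) + 4 / (4096 * (k:ℝ) ^ 2)) =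
        (3 * (4 / 10 ^ 6 + 1 / 10 ^ 6 + 4 / 4096)) / (k:ℝ) ^ 2 := by
      field_simp
    rw [e, div_le_div_iff₀ (by positivity) (by positivity)]
    nlinarith [sq_nonneg (k:ℝ)]
  have h4 : (z:ℝ) * Er ≤ (N:ℝ) / W * SS k W Z T * (1 / (10 ^ 4 * (k:ℝ) ^ 2)) := by
    have e1 : (z:ℝ) * Er ≤ (N:ℝ) / W * (1 / (10 ^ 4 * (k:ℝ) ^ 2)) := by
      rw [mul_one_div, le_div_iff₀ (by positivity)]
      calc (z:ℝ) * Er * (10 ^ 4 * (k:ℝ) ^ 2) = 10 ^ 4 * (k:ℝ) ^ 2 * z * Er := by ring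
        _ ≤ _ := hN
    refine e1.trans ?_
    have e2 : (N:ℝ) / W ≤ (N:ℝ) / W * SS k W Z T := le_mul_of_one_le_right hX0 hSS
    exact mul_le_mul_of_nonneg_right e2 (by positivity)
  have hXS : 0 ≤ (N:ℝ) / W * SS k W Z T := mul_nonneg hX0 (by linarith)
  calc (k:ℝ) * ((N:ℝ) / W * SS k W Z T * (3 * (4 / (10 ^ 6 * (k:ℝ) ^ 2) +
        1 / (10 ^ 6 * (k:ℝ) ^ 2) + 4 / (4096 * (k:ℝ) ^ 2))) + z * Er)
      ≤ (k:ℝ) * ((N:ℝ) / W * SS k W Z T * (1 / (300 * (k:ℝ) ^ 2)) +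
        (N:ℝ) / W * SS k W Z T * (1 / (10 ^ 4 * (k:ℝ) ^ 2))) := by
        gcongr
    _ = (N:ℝ) / W * SS k W Z T * ((1 / 300 + 1 / 10 ^ 4) / k) := by
        field_simp
    _ ≤ (N:ℝ) / W * SS k W Z T * (1 / (100 * k)) := by
        refine mul_le_mul_of_nonneg_left ?_ hXS
        rw [div_le_div_iff₀ hkpos (by positivity)]
        nlinarith
    _ = _ := by rw [mul_one_div]

end Pool.Agent.PosProp
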