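import Pool.Agent.PosProp.Oth
import Pool.Agent.Lib.Maynard.Asym

/-!
# Counting good tuples (module PP8)
-/

open Finset Filter

namespace Pool.Agent.PosProp

open Pool.Agent.Maynard

/-! ### Properties of the modulus `Wt` -/

lemma Wt_pos {q K0 H k : ℕ} (hq : 1 ≤ q) (h : Fin k → ℕ) : 0 < Wt q K0 H h :=
  Nat.mul_pos (by omega) (Finset.prod_pos fun _ hp => (badP_prime hp).pos)

lemma prime_dvd_Wt {q K0 H k : ℕ} {h : Fin k → ℕ} {p : ℕ} (hp : p.Prime) :
    p ∣ Wt q K0 H h ↔ p ∣ q ∨ p ∈ badP K0 H h := by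
  constructor
  · intro hd
    rcases (hp.dvd_mul).1 hd with h1 | h1
    · exact Or.inl h1
    · right
      obtain ⟨r, hr, hpr⟩ := (hp.prime.dvd_finsetProd_iff _).1 h1
      have : p = r := (Nat.prime_dvd_prime_iff_eq hp (badP_prime hr)).1 hpr
      rwa [this]
  · rintro (h1 | h1)
    · exact h1.mul_right _
    · exact badP_dvd_Wt h1

lemma W0_dvd_Wt {q K0 H k : ℕ} (h : Fin k → ℕ) : q * primorial (K0 - 1) ∣ Wt q K0 H h := by
  refine Nat.mul_dvd_mul_left q ?_
  unfold primorial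
  refine Finset.prod_dvd_prod_of_subset _ _ _ fun p hp => ?_
  rw [Finset.mem_filter, Finset.mem_range] at hp
  have h2 := hp.2.pos
  refine mem_badP.2 ⟨lt_of_lt_of_le (by omega) (le_max_left _ _), hp.2, Or.inl (by omega)⟩

lemma ge_of_not_dvd_Wt {q K0 H k : ℕ} {h : Fin k → ℕ} {p : ℕ} (hp : p.Prime)
    (hd : ¬ p ∣ Wt q K0 H h) : K0 ≤ p := by
  by_contra hcon
  exact hd (badP_dvd_Wt (mem_badP.2 ⟨lt_of_lt_of_le (by omega) (le_max_left _ _), hp,
    Or.inl (by omega)⟩))

lemma sep_of_not_dvd_Wt {q K0 H k : ℕ} {h : Fin k → ℕ} (hinj : Function.Injective h)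
    (hle : ∀ i, h i ≤ H) {p : ℕ} (hp : p.Prime) (hd : ¬ p ∣ Wt q K0 H h) {i j : Fin k}
    (hij : i ≠ j) : ¬ (h i ≡ h j [MOD p]) := by
  intro hm
  by_cases hpH : p ≤ H
  · exact hd (badP_dvd_Wt (mem_badP.2 ⟨lt_of_lt_of_le (by omega) (le_max_right _ _), hp,
      Or.inr ⟨i, j, hij, hm⟩⟩))
  · have h1 := hle i
    have h2 := hle j
    rw [Nat.ModEq, Nat.mod_eq_of_lt (by omega), Nat.mod_eq_of_lt (by omega)] at hm
    exact hij (hinj hm)

/-- the set of primes used by the sieve -/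
noncomputable def PW (W R : ℕ) : Finset ℕ := (range (R + 1)).filter (fun p => p.Prime ∧ ¬ p ∣ W)

lemma setting_PW {q K0 H k : ℕ} {h : Fin k → ℕ} (R : ℕ) :
    Setting (PW (Wt q K0 H h) R) (Wt q K0 H h) K0 R where
  prime p hp := (Finset.mem_filter.1 hp).2.1
  ndvd p hp := (Finset.mem_filter.1 hp).2.2
  ge p hp := ge_of_not_dvd_Wt (Finset.mem_filter.1 hp).2.1 (Finset.mem_filter.1 hp).2.2
  le p hp := by
    have := Finset.mem_range.1 (Finset.mem_filter.1 hp).1
    omega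
  mem p hp hd hR := Finset.mem_filter.2 ⟨Finset.mem_range.2 (by omega), hp, hd⟩

lemma sep_PW {q K0 H k : ℕ} {h : Fin k → ℕ} (hinj : Function.Injective h)
    (hle : ∀ i, h i ≤ H) (R : ℕ) : Sep (PW (Wt q K0 H h) R) h := fun _ hp _ _ hij =>
  sep_of_not_dvd_Wt hinj hle (Finset.mem_filter.1 hp).2.1 (Finset.mem_filter.1 hp).2.2 hij

/-- size of `Wt` -/
theorem Wt_le {q K0 H k : ℕ} (hH : 1 ≤ H) {h : Fin k → ℕ} (hinj : Function.Injective h)
    (hle : ∀ i, h i ≤ H) : Wt q K0 H h ≤ q * primorial K0 * H ^ (k ^ 2) := by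
  classical
  unfold Wt
  rw [mul_assoc]
  refine Nat.mul_le_mul_left q ?_
  rw [← Finset.prod_filter_mul_prod_filter_not (badP K0 H h) (fun p => p < K0)]
  refine Nat.mul_le_mul ?_ ?_
  · unfold primorial
    refine Finset.prod_le_prod_of_subset_of_one_le' ?_ ?_
    · intro p hp
      rw [Finset.mem_filter, mem_badP] at hp
      rw [Finset.mem_filter, Finset.mem_range]
      exact ⟨by omega, hp.1.2.1⟩
    · intro p hp _
      exact (Finset.mem_filter.1 hp).2.pos
  · have h1 : (∏ p ∈ (badP K0 H h).filter (fun p => ¬ p < K0), p) ∣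
        ∏ x ∈ (Finset.univ : Finset (Fin k × Fin k)).filter (fun x => x.1 ≠ x.2),
          Nat.dist (h x.1) (h x.2) := by
      refine Finset.prod_primes_dvd _ (fun p hp => (badP_prime (Finset.mem_filter.1 hp).1).prime) ?_
      intro p hp
      rw [Finset.mem_filter, mem_badP] at hp
      rcases hp.1.2.2 with h2 | ⟨i, j, hij, hm⟩
      · exact absurd h2 hp.2
      · have h3 : p ∣ Nat.dist (h i) (h j) := dvd_dist_iff.2 hm.symm
        exact h3.trans (Finset.dvd_prod_of_mem (fun x : Fin k × Fin k => Nat.dist (h x.1) (h x.2))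
          (Finset.mem_filter.2 ⟨Finset.mem_univ (i, j), hij⟩))
    have h2 : ∀ x ∈ (Finset.univ : Finset (Fin k × Fin k)).filter (fun x => x.1 ≠ x.2),
        0 < Nat.dist (h x.1) (h x.2) := by
      intro x hx
      rw [Finset.mem_filter] at hx
      exact Nat.pos_of_ne_zero fun h0 => hx.2 (hinj (Nat.eq_of_dist_eq_zero h0))
    refine (Nat.le_of_dvd (Finset.prod_pos h2) h1).trans ?_
    have h3 : ∏ x ∈ (Finset.univ : Finset (Fin k × Fin k)).filter (fun x => x.1 ≠ x.2),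
          Nat.dist (h x.1) (h x.2) ≤
        ∏ x ∈ (Finset.univ : Finset (Fin k × Fin k)).filter (fun x => x.1 ≠ x.2), H := by
      refine Finset.prod_le_prod' fun x _ => ?_
      have h4 := hle x.1
      have h5 := hle x.2
      unfold Nat.dist
      omega
    refine h3.trans ?_
    rw [Finset.prod_const]
    refine Nat.pow_le_pow_right hH ?_
    refine (Finset.card_filter_le _ _).trans ?_
    rw [Finset.card_univ, Fintype.card_prod, Fintype.card_fin, sq]

lemma cW_eq (n : ℕ) (hn : 0 < n) : cW n = ∏ p ∈ n.primeFactors, (1 - 1 / (p:ℝ)) := by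
  unfold cW
  have h := Nat.totient_eq_mul_prod_factors n
  have h2 : (Nat.totient n : ℝ) = n * ∏ p ∈ n.primeFactors, (1 - (p:ℝ)⁻¹) := by
    have := congrArg (fun x : ℚ => (x:ℝ)) h
    push_cast at this
    exact this
  rw [h2]
  have : (n:ℝ) ≠ 0 := by exact_mod_cast hn.ne'
  field_simp

/-- the density of `Wt` is at least half of the density of the small modulus -/
theorem GoodT.cW_ge {CT : ℝ} {q K0 H k : ℕ} {h : Fin k → ℕ} (hq : 1 ≤ q)
    (hg : GoodT CT q K0 H h) : cW (q * primorial (K0 - 1)) / 2 ≤ cW (Wt q K0 H h) := by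
  classical
  have hW0 : 0 < q * primorial (K0 - 1) := Nat.mul_pos (by omega) (primorial_pos _)
  have hW := Wt_pos (K0 := K0) (H := H) hq h
  rw [cW_eq _ hW0, cW_eq _ hW]
  set B := (badP K0 H h).filter (fun p => K0 ≤ p ∧ ¬ p ∣ q) with hB
  have e : (Wt q K0 H h).primeFactors = (q * primorial (K0 - 1)).primeFactors ∪ B := by
    ext p
    rw [Finset.mem_union, Nat.mem_primeFactors, Nat.mem_primeFactors, hB, Finset.mem_filter]
    constructor
    · rintro ⟨hp, hd, -⟩
      rcases (prime_dvd_Wt hp).1 hd with h1 | h1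
      · exact Or.inl ⟨hp, h1.mul_right _, hW0.ne'⟩
      · by_cases hpK : K0 ≤ p
        · by_cases hpq : p ∣ q
          · exact Or.inl ⟨hp, hpq.mul_right _, hW0.ne'⟩
          · exact Or.inr ⟨h1, hpK, hpq⟩
        · refine Or.inl ⟨hp, ((prime_dvd_primorial hp).2 (by omega)).mul_left q, hW0.ne'⟩
    · rintro (⟨hp, hd, -⟩ | ⟨h1, -, -⟩)
      · exact ⟨hp, hd.trans (W0_dvd_Wt h), hW.ne'⟩
      · exact ⟨badP_prime h1, badP_dvd_Wt h1, hW.ne'⟩
  have hdis : Disjoint (q * primorial (K0 - 1)).primeFactors B := by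
    rw [Finset.disjoint_left]
    intro p hp1 hp2
    rw [Nat.mem_primeFactors] at hp1
    rw [hB, Finset.mem_filter] at hp2
    rcases (hp1.1.dvd_mul).1 hp1.2.1 with h1 | h1
    · exact hp2.2.2 h1
    · have h2 := (prime_dvd_primorial hp1.1).1 h1
      have h3 := hp1.1.pos
      omega
  rw [e, Finset.prod_union hdis]
  have h1 : 0 ≤ ∏ p ∈ (q * primorial (K0 - 1)).primeFactors, (1 - 1 / (p:ℝ)) := by
    refine Finset.prod_nonneg fun p hp => ?_
    have : (2:ℝ) ≤ p := by exact_mod_cast (Nat.prime_of_mem_primeFactors hp).two_le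
    have h2 : 1 / (p:ℝ) ≤ 1 / 2 := one_div_le_one_div_of_le (by norm_num) this
    linarith
  have h2 : 1 - ∑ p ∈ B, 1 / (p:ℝ) ≤ ∏ p ∈ B, (1 - 1 / (p:ℝ)) := by
    refine one_sub_sum_le_prod B _ (fun p _ => by positivity) fun p hp => ?_
    have : (2:ℝ) ≤ p := by
      exact_mod_cast (badP_prime (Finset.mem_filter.1 hp).1).two_le
    have h2 : 1 / (p:ℝ) ≤ 1 / 2 := one_div_le_one_div_of_le (by norm_num) this
    linarith
  have h3 := hg.small
  rw [← hB] at h3
  calc _ = (∏ p ∈ (q * primorial (K0 - 1)).primeFactors, (1 - 1 / (p:ℝ))) * (1 / 2) := by ring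
    _ ≤ _ := mul_le_mul_of_nonneg_left (by linarith) h1

end Pool.Agent.PosProp
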