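import Pool.Agent.PosProp.MainB
import Pool.Agent.PosProp.Tuples
import Pool.Agent.PP.UErr
import Pool.Agent.Lib.Maynard.BVInst
import Pool.Agent.PosProp.MainEv
import Pool.Agent.PosProp.MainCount
import Pool.Agent.PosProp.RoughSum
import Pool.Agent.PosProp.MainPar

/-!
# The main estimate of the positive proportion theorem
-/

open Finset Filter

namespace Pool.Agent.PosProp.Main

open Pool.Agent.Maynard

lemma MM_ge (k : ℕ) : 8 * (k:ℝ) * hT k ≤ MM k := Nat.le_ceil _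

lemma MM_le {k : ℕ} (hk : 1 ≤ k) : (MM k : ℝ) ≤ 9 * k * hT k := by
  have hh1 := hT_ge_one hk
  have hk' : (1:ℝ) ≤ k := by exact_mod_cast hk
  have h1 := Nat.ceil_lt_add_one (a := 8 * (k:ℝ) * hT k) (by positivity)
  have h2 : 1 ≤ (k:ℝ) * hT k := by nlinarith
  have h3 : (MM k : ℝ) < 8 * (k:ℝ) * hT k + 1 := h1
  linarith

lemma le_MM {k : ℕ} (hk : 1 ≤ k) : k ≤ MM k := by
  have hh1 := hT_ge_one hk
  have hk' : (1:ℝ) ≤ k := by exact_mod_cast hk
  have h1 := MM_ge k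
  have h2 : (k:ℝ) ≤ MM k := by nlinarith
  exact_mod_cast h2

open Classical in
/-- the estimate for one tuple and one class -/
theorem one_tuple {m k L q c N : ℕ} (hm : 1 ≤ m) (hk : 100 ≤ k) (hL1 : 1 ≤ L)
    (hT' : 864 * ((m:ℝ) * 13000 + 1) * 64 ≤ hT k)
    (hL : 100 * (k:ℝ) * (3 * k + 200 / ze k + 1) ≤ L) (hq : 1 ≤ q)
    (hF : Facts k q N)
    (herr : ∀ W s : ℕ, 0 < W → (W:ℝ) ≤ (Real.log N) ^ (k ^ 2 + 1) → s ≤ N →
      ∀ (P : Finset ℕ) (K0 R : ℕ), Setting P W K0 R → R ≤ N →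
      W * (R * R) ≤ N → W * (R * R) ≤ ⌊((3 * N : ℕ):ℝ) ^ (1 / 4 : ℝ)⌋₊ →
      L0 P k ^ 2 * ∑ B : P → Bool, FB P N s W (R * R) B * pm (fun _ => (2 * (k:ℝ) + 1) ^ 2) B ≤
        N / (W * (Real.log N) ^ 2))
    (h : Fin k → ℕ) (hgt : GoodT 3 q (K0k k) (Hk N) h) (a : ℕ) (hac : a ≡ c [MOD q])
    (ha : ∀ i, (a + h i).Coprime (Wt q (K0k k) (Hk N) h)) :
    Real.exp (-(k:ℝ) ^ 11) * (((N:ℝ) / (Wt q (K0k k) (Hk N) h : ℕ)) /
        (cW (Wt q (K0k k) (Hk N) h) * Real.log N) ^ k) ≤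
      ((goodN m L (zz k N) q c (K0k k) (Hk N) N h a).card : ℝ) := by
  set H := Hk N with hH
  set K0 := K0k k with hK0
  set W := Wt q K0 H h with hW
  have hx0 : 0 < Real.log N := by have := hF.logN; linarith
  have hH1 : 1 ≤ H := by
    rw [hH]
    unfold Hk
    exact Nat.le_floor (by have := hF.logN; push_cast; linarith)
  have hHle : (H:ℝ) ≤ Real.log N := Nat.floor_le hx0.le
  have hWpos : 0 < W := WB.Wt_pos hq K0 H h
  have hWle : W ≤ q * primorial K0 * H ^ (k ^ 2) := WB.Wt_le hH1 hgt.inj hgt.le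
  have hcW2 : cW (q * primorial (K0 - 1)) / 2 ≤ cW W := WB.cW_Wt_ge hq hgt.small
  have hM := hF.mod W hWpos hWle hcW2
  set Z := Zk k N with hZ
  set M := MM k with hMdef
  set P := PW W (Z ^ M) with hP
  have hS : Setting P W K0 (Z ^ M) := setting_PW (Z ^ M)
  have hsep : Sep P h := sep_PW hgt.inj hgt.le (Z ^ M)
  have hk1 : 1 ≤ k := by omega
  have hk2 : 2 ≤ k := by omega
  have hkr : (100:ℝ) ≤ k := by exact_mod_cast hk
  have hM1 : k ≤ M := le_MM hk1
  have hM0 : 0 < M := by omega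
  obtain ⟨hmod1, hmod2⟩ := model_bounds (P := P) (M := M) (T := k) (k := k) hS hWpos hk2 hk1
    le_rfl (MM_ge k) (le_of_eq rfl) hF.Z2 (Nat.pow_le_pow_right (by have := hF.Z2; omega) hM1) hM.ZK
  -- sizes
  have hN3 := hF.N3
  have hN1 : (1:ℝ) ≤ N := by exact_mod_cast (show 1 ≤ N by omega)
  have hRleN : Z ^ M ≤ N := by
    have h1 : ((Z ^ M : ℕ) : ℝ) ≤ (N:ℝ) ^ (1:ℝ) := hF.RN.trans
      (Real.rpow_le_rpow_of_exponent_le hN1 (by norm_num))
    rw [Real.rpow_one] at h1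
    exact_mod_cast h1
  have hKV1 : 1 ≤ KV W := by
    unfold KV
    have := KW_pos hWpos
    linarith
  have hcWpos := cW_pos hWpos
  set D := cW W * Real.log Z with hD
  have hD1 : 1 ≤ D := by
    refine le_trans ?_ hM.ZK
    have h1 := mul_le_mul (show (1:ℝ) ≤ 64 * k by linarith) hKV1 zero_le_one (by positivity)
    rwa [one_mul] at h1
  have hG1 := gT2_ge_one (T := k) hk1
  set Sk := SS k W Z k with hSk
  have hSk1 : 1 ≤ Sk := by
    rw [hSk]; unfold SS
    rw [← hD]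
    exact one_le_pow₀ (one_le_mul_of_one_le_of_one_le hD1 hG1)
  have hWr : (0:ℝ) < W := by exact_mod_cast hWpos
  have hX0 : 0 < (N:ℝ) / W := by positivity
  set S := (N:ℝ) / W * Sk with hSdef
  have hXS : (N:ℝ) / W ≤ S := le_mul_of_one_le_right hX0.le hSk1
  have hS0 : 0 < S := lt_of_lt_of_le hX0 hXS
  have hlogZ1 : 1 ≤ Real.log Z := by
    have h1 : D ≤ 1 * Real.log Z :=
      mul_le_mul_of_nonneg_right (cW_le_one W) (Real.log_natCast_nonneg _)
    linarith
  -- the sup norm error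
  have herr2 : ∀ z' : ℕ, z' ≤ Z ^ M → (H:ℝ) *
      ((Z:ℝ) ^ M * LL (Z ^ M) ^ (4 * k) * ((z' : ℝ) * LL (Z ^ M) ^ 4)) ^ 2 ≤ S :=
    fun z' hz' => (hM.err2 z' hz').trans hXS
  have hz2 := hF.z2
  set z := zz k N with hz
  have hLL1 := LL_ge_one (Z ^ M)
  have hsup : ((Z:ℝ) ^ M * LL (Z ^ M) ^ (4 * k)) ^ 2 ≤ (N:ℝ) / W := by
    refine le_trans ?_ hM.err1
    refine le_mul_of_one_le_left (sq_nonneg _) ?_
    have h1 : (1:ℝ) ≤ z := by exact_mod_cast (show 1 ≤ z by omega)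
    have h2 : (1:ℝ) ≤ 10 ^ 4 * (k:ℝ) ^ 2 := by nlinarith
    exact one_le_mul_of_one_le_of_one_le h2 h1
  set g : ℕ → ℝ := fun n => GG (cc Z k M) (JJ (P := P) h n) ^ 2 with hg
  have hg0 : ∀ n, 0 ≤ g n := fun n => sq_nonneg _
  set A := (Finset.Ioc N (2 * N)).filter (fun n => n ≡ a [MOD W]) with hA
  have h1 : ∑ n ∈ A, g n ≤ 3 * S := total_le hS hWpos hF.Z2 hsep hmod1 hSk1 hsup
  have h2 : (3 * ((m:ℝ) * 13000 + 1)) * S ≤ ∑ n ∈ A, (npr h n : ℝ) * g n := by
    refine npr_ge hk2 hS hWpos hF.Z2 hsep ha hmod2 hD1 hM0 (MM_le hk1) hF.logZ hlogZ1 hN3 hF.logN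
      hRleN (fun i => (hgt.le i).trans hF.HN) (fun i => ?_) (by positivity) hT'
    exact herr W (h i) hWpos hM.Wlog ((hgt.le i).trans hF.HN) P K0 (Z ^ M) hS hRleN hM.WRR hM.WRRθ
  have hzR := hF.zR
  have h3 : ∑ n ∈ A.filter (fun n => ¬ ∀ i, Rough z (n + h i)), g n ≤ S / (100 * k) := by
    refine bad_le hS hzR ha ?_
    exact rough_sum hS hWpos hk hk1 (le_of_eq rfl) hF.Z2 hM.ZK hsep hz2 hF.zZ hM.KVz N a hM.err1
  -- further shifts
  have hlogz := hF.logz
  have hze : 0 < ze k := by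
    unfold ze
    have : (0:ℝ) < MM k := by exact_mod_cast hM0
    positivity
  have hlogz0 : 0 < Real.log z := Real.log_pos (by exact_mod_cast (show 1 < z by omega))
  have hR2 : 2 ≤ Z ^ M := hz2.trans hzR
  have hlogzR : Real.log z ≤ Real.log ((Z ^ M : ℕ) : ℝ) :=
    Real.log_le_log (by exact_mod_cast (show 0 < z by omega)) (by exact_mod_cast hzR)
  have hfur : ∀ h' ∈ Icc 1 H, (∀ i, h i ≠ h') →
      64 * KV (WB.Vt q K0 H h h') ≤ cW (WB.Vt q K0 H h h') * Real.log z := by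
    intro h' hh' hne
    refine hM.further _ (WB.Vt_pos hq K0 H h h') ?_
    exact WB.Vt_le hne hgt.le (Finset.mem_Icc.1 hh').2
  have h4 : ∑ n ∈ A, ((rghs z H n).card : ℝ) * g n ≤ (3 * k + 200 / ze k + 1) * S := by
    have e1 := others_le (T := k) (N := N) (a := a) hq hgt hS hk2 hk1 (le_of_eq rfl) hF.Z2 hM.ZK hsep
      hz2 hzR hF.W0z hfur
    have e2 := herr2 z hzR
    have e3 : ∑ n ∈ A, ((rghs z H n).card : ℝ) * g n ≤
        k * ∑ n ∈ A, g n + ∑ n ∈ A, ((oth z H h n).card : ℝ) * g n := by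
      rw [Finset.mul_sum, ← Finset.sum_add_distrib]
      refine Finset.sum_le_sum fun n _ => ?_
      have e4 : ((rghs z H n).card : ℝ) ≤ k + (oth z H h n).card := by
        exact_mod_cast rghs_le h
      have e5 := mul_le_mul_of_nonneg_right e4 (hg0 n)
      linarith
    have e6 : (32 * 3 * H / Real.log z : ℝ) ≤ 200 / ze k := by
      rw [div_le_div_iff₀ hlogz0 hze]
      have e7 : (H:ℝ) * ze k ≤ 2 * Real.log z := by
        have : (H:ℝ) * ze k ≤ Real.log N * ze k := mul_le_mul_of_nonneg_right hHle hze.le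
        linarith
      nlinarith
    have e7 := mul_le_mul_of_nonneg_right e6 hS0.le
    have e8 : (k:ℝ) * ∑ n ∈ A, g n ≤ k * (3 * S) := mul_le_mul_of_nonneg_left h1 (by positivity)
    linarith
  have h5 : ∑ n ∈ A, ((oth (Z ^ M) H h n).card : ℝ) * g n ≤ 12289 * S := by
    have e1 := others_le (T := k) (N := N) (a := a) (z := Z ^ M) hq hgt hS hk2 hk1 (le_of_eq rfl)
      hF.Z2 hM.ZK hsep hR2 le_rfl (hF.W0z.trans hzR) (fun h' hh' hne => by
        have := hfur h' hh' hne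
        have hc := cW_nonneg (WB.Vt q K0 H h h')
        have := mul_le_mul_of_nonneg_left hlogzR hc
        linarith)
    have e2 := herr2 (Z ^ M) le_rfl
    have e3 : (32 * 3 * H / Real.log ((Z ^ M : ℕ) : ℝ) : ℝ) ≤ 12288 := by
      rw [div_le_iff₀ (by linarith)]
      have e4 : Real.log N ≤ 128 * Real.log ((Z ^ M : ℕ) : ℝ) := by
        push_cast
        rw [Real.log_pow]
        have hMr : (0:ℝ) < M := by exact_mod_cast hM0
        have e5 := mul_le_mul_of_nonneg_left hF.logZ hMr.le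
        have e6 : (M:ℝ) * (1 / (128 * (MM k : ℝ)) * Real.log N) = Real.log N / 128 := by
          rw [← hMdef]
          field_simp
        rw [e6] at e5
        linarith
      linarith
    have e7 := mul_le_mul_of_nonneg_right e3 hS0.le
    push_cast at e1 e2 e7 ⊢
    linarith
  -- pointwise bound
  set G : ℝ := ((2:ℝ) ^ (k * Nat.log z (3 * N)) * (hT k * cellU W K0 Z) ^ k) ^ 2 with hG
  have hKV0 : 0 < KV W := by linarith
  have hlogZ0 : 0 < Real.log Z := by linarith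
  have hcell : 0 < cellU W K0 Z := by
    unfold cellU
    have : (0:ℝ) ≤ 32 / (K0:ℝ) := by positivity
    have h6 : 0 < cW W * Real.log Z + KV W := by positivity
    positivity
  have hh1 := hT_ge_one (T := k) hk1
  have hG0 : 0 < G := by
    rw [hG]
    have : 0 < hT k := by linarith
    positivity
  have h7 : ∀ n ∈ A, (∀ i, Rough z (n + h i)) → g n ≤ G := by
    intro n hn hr
    rw [hA, Finset.mem_filter, Finset.mem_Ioc] at hn
    have hK16 : 16 ≤ K0 := by
      rw [hK0]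
      unfold K0k
      have : 2 ^ (k + 10) ≥ 2 ^ 10 := Nat.pow_le_pow_right (by norm_num) (by omega)
      nlinarith
    have e1 := GG_sup (T := k) (M := M) (h := h) (n := n) (B := 3 * N) hS hWpos hK16 hF.Z2 hz2
      (by omega) (fun i => by
        have e2 := hgt.le i
        have e3 := hF.HN
        omega) (fun p hp hpz i => hr i p (hS.prime p hp) hpz)
    rw [hG]
    simp only [hg]
    rw [← sq_abs]
    exact pow_le_pow_left₀ (abs_nonneg _) e1 2
  have h8 := comb hg0 (fun n => npr h n) (fun n => (oth (Z ^ M) H h n).card)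
    (fun n => (rghs z H n).card) (fun n => ∀ i, Rough z (n + h i)) hk1 hL1 (fun n => npr_le h n)
    hS0.le h1 h2 (by
      refine le_trans (le_of_eq ?_) h3
      refine Finset.sum_congr ?_ fun _ _ => rfl
      ext n
      simp only [Finset.mem_filter]) h4 hL h5 (by
      have : (1:ℝ) ≤ m := by exact_mod_cast hm
      nlinarith) h7 hG0
  have h9 := final_count hk hWpos hF hM
  refine h9.trans ?_
  have h10 : (A.filter (fun n => (∀ i, Rough z (n + h i)) ∧ (rghs z H n).card ≤ L ∧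
      m * ((oth (Z ^ M) H h n).card + 1) ≤ npr h n)) ⊆ goodN m L z q c K0 H N h a := by
    intro n hn
    rw [Finset.mem_filter, hA, Finset.mem_filter] at hn
    obtain ⟨⟨hn1, hn2⟩, hn3, hn4, hn5⟩ := hn
    unfold goodN
    rw [Finset.mem_filter]
    refine ⟨hn1, hn2, fun i => ?_, hn4, ?_⟩
    · unfold rghs
      rw [Finset.mem_filter, Finset.mem_Icc]
      exact ⟨⟨hgt.pos i, hgt.le i⟩, hn3 i⟩
    · rw [Finset.mem_Ioc] at hn1
      have e1 := prOut_le_oth (z := Z ^ M) hgt hac hn2 (by omega)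
      have e2 := npr_le_prIn hgt hac hn2
      calc m * ((prOut q c H n).card + 1) ≤ m * ((oth (Z ^ M) H h n).card + 1) :=
            Nat.mul_le_mul_left _ (by omega)
        _ ≤ npr h n := hn5
        _ ≤ _ := e2
  have h11 : ((A.filter (fun n => (∀ i, Rough z (n + h i)) ∧ (rghs z H n).card ≤ L ∧
      m * ((oth (Z ^ M) H h n).card + 1) ≤ npr h n)).card : ℝ) ≤
      ((goodN m L z q c K0 H N h a).card : ℝ) := by
    exact_mod_cast Finset.card_le_card h10
  refine (h8.trans (le_of_eq ?_)).trans h11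
  congr 2
  ext n
  simp only [Finset.mem_filter]

/-- **PP7** -/
theorem pp7 : PP7Prop 3 := by
  obtain ⟨C, hC11, hpar⟩ := exists_params'
  refine ⟨C, by linarith, fun m hm => ?_⟩
  obtain ⟨k, L, hk, hkC, hL1, hLC, hhT, hL⟩ := hpar m hm
  refine ⟨k, L, zz k, by omega, hkC, hL1, hLC, fun q c hq hcq => ?_⟩
  filter_upwards [ev_facts k q hk hq,
    Pool.Agent.PP.ev_err_unif (bvHyp (θ := 1 / 4) (by norm_num)) k (k ^ 2 + 1) 2]
    with N hF herr h hgt a hac haW
  have h1 := one_tuple hm hk hL1 hhT hL hq hF herr h hgt a hac haW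
  refine le_trans ?_ h1
  refine mul_le_mul_of_nonneg_right ?_ ?_
  · refine Real.exp_le_exp.2 (neg_le_neg ?_)
    have hk1 : (1:ℝ) ≤ k := by exact_mod_cast (show 1 ≤ k by omega)
    calc (k:ℝ) ^ 11 = (k:ℝ) ^ (11:ℝ) := by
          rw [← Real.rpow_natCast]
          norm_num
      _ ≤ (k:ℝ) ^ C := Real.rpow_le_rpow_of_exponent_le hk1 hC11
  · have := cW_nonneg (Wt q (2 ^ (k + 10) * k) ⌊Real.log N⌋₊ h)
    have := Real.log_natCast_nonneg N
    positivity

end Pool.Agent.PosProp.Main
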