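import Pool.Agent.PosProp.Index

/-!
# The double count (module PP10 of the positive proportion theorem), abstract form
-/

open Finset Filter

namespace Pool.Agent.PosProp

open Classical in
/-- every `n` is good for at most `L ^ k` tuples -/
theorem count_tuples {k : ℕ} (Hs : Finset (Fin k → ℕ)) (S : Finset ℕ)
    (good : (Fin k → ℕ) → ℕ → Prop) (A : ℝ) (L : ℕ)
    (hA : ∀ h ∈ Hs, A ≤ ((S.filter (fun n => good h n)).card : ℝ))
    (hL : ∀ n ∈ S, ∃ R : Finset ℕ, R.card ≤ L ∧ ∀ h ∈ Hs, good h n → ∀ i, h i ∈ R) :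
    (Hs.card : ℝ) * A ≤ (L:ℝ) ^ k * ((S.filter (fun n => ∃ h ∈ Hs, good h n)).card : ℝ) := by
  have h1 : (Hs.card : ℝ) * A ≤ ∑ h ∈ Hs, ((S.filter (fun n => good h n)).card : ℝ) := by
    rw [← nsmul_eq_mul, ← Finset.sum_const]
    exact Finset.sum_le_sum hA
  refine h1.trans ?_
  have h2 : ∑ h ∈ Hs, (S.filter (fun n => good h n)).card =
      ∑ n ∈ S, (Hs.filter (fun h => good h n)).card := by
    simp only [Finset.card_filter]
    exact Finset.sum_comm
  have h3 : ∑ n ∈ S, (Hs.filter (fun h => good h n)).card ≤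
      L ^ k * (S.filter (fun n => ∃ h ∈ Hs, good h n)).card := by
    rw [Finset.card_filter, Finset.mul_sum]
    refine Finset.sum_le_sum fun n hn => ?_
    split_ifs with hc
    · rw [mul_one]
      obtain ⟨R, hR1, hR2⟩ := hL n hn
      have h4 : Hs.filter (fun h => good h n) ⊆ Fintype.piFinset (fun _ : Fin k => R) := by
        intro h hh
        obtain ⟨h5, h6⟩ := Finset.mem_filter.mp hh
        exact Fintype.mem_piFinset.mpr (hR2 h h5 h6)
      refine (Finset.card_le_card h4).trans ?_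
      rw [Fintype.card_piFinset, Finset.prod_const, Finset.card_univ, Fintype.card_fin]
      exact Nat.pow_le_pow_left hR1 k
    · rw [mul_zero, Nat.le_zero, Finset.card_eq_zero, Finset.filter_eq_empty_iff]
      intro h hh hg
      exact hc ⟨h, hh, hg⟩
  have h4 := h2.le.trans h3
  exact_mod_cast h4

open Classical in
/-- the classes modulo `W` are disjoint -/
theorem count_classes (S : Finset ℕ) (W : ℕ) (Cl : Finset ℕ) (hCl : ∀ a ∈ Cl, a < W)
    (good : ℕ → Prop) (B : ℝ)
    (h : ∀ a ∈ Cl, B ≤ ((S.filter (fun n => n ≡ a [MOD W] ∧ good n)).card : ℝ)) :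
    (Cl.card : ℝ) * B ≤ ((S.filter (fun n => (∃ a ∈ Cl, n ≡ a [MOD W]) ∧ good n)).card : ℝ) := by
  have h1 : (Cl.card : ℝ) * B ≤
      ∑ a ∈ Cl, ((S.filter (fun n => n ≡ a [MOD W] ∧ good n)).card : ℝ) := by
    rw [← nsmul_eq_mul, ← Finset.sum_const]
    exact Finset.sum_le_sum h
  refine h1.trans ?_
  have hdisj : (Cl : Set ℕ).PairwiseDisjoint (fun a => S.filter (fun n => n ≡ a [MOD W] ∧ good n)) := by
    intro a ha b hb hab
    rw [Function.onFun, Finset.disjoint_left]
    intro n hn1 hn2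
    have h2 := (Finset.mem_filter.mp hn1).2.1
    have h3 := (Finset.mem_filter.mp hn2).2.1
    have h4 : a ≡ b [MOD W] := h2.symm.trans h3
    have h5 : a = b := by
      rw [Nat.ModEq, Nat.mod_eq_of_lt (hCl a ha), Nat.mod_eq_of_lt (hCl b hb)] at h4
      exact h4
    exact hab h5
  have h2 : ∑ a ∈ Cl, (S.filter (fun n => n ≡ a [MOD W] ∧ good n)).card ≤
      (S.filter (fun n => (∃ a ∈ Cl, n ≡ a [MOD W]) ∧ good n)).card := by
    rw [← Finset.card_biUnion hdisj]
    refine Finset.card_le_card fun n hn => ?_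
    obtain ⟨a, ha, hn2⟩ := Finset.mem_biUnion.mp hn
    obtain ⟨h3, h4, h5⟩ := Finset.mem_filter.mp hn2
    exact Finset.mem_filter.mpr ⟨h3, ⟨a, ha, h4⟩, h5⟩
  exact_mod_cast h2

end Pool.Agent.PosProp
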