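import Pool.Agent.PosProp.Tuples

/-!
# Counting good tuples (module PP8)
-/

open Finset Filter

namespace Pool.Agent.PosProp

open Pool.Agent.Maynard

/-- two coordinates in relation -/
lemma card_rel_le {k N : ℕ} {i j : Fin k} (hij : i ≠ j) (r : ℕ → ℕ → Prop)
    [DecidableRel r] {M : ℕ} (hM : ∀ b, ((Icc 1 N).filter (fun a => r a b)).card ≤ M) :
    ((Fintype.piFinset (fun _ : Fin k => Icc 1 N)).filter (fun t => r (t i) (t j))).card ≤
      M * N ^ (k - 1) := by
  classical
  have hT : (Fintype.piFinset (fun l : Fin k => if l = i then ({1} : Finset ℕ) else Icc 1 N)).card =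
      N ^ (k - 1) := by
    rw [Fintype.card_piFinset]
    have e : ∀ l : Fin k, ((if l = i then ({1} : Finset ℕ) else Icc 1 N)).card =
        if l = i then 1 else N := by
      intro l
      split_ifs <;> simp
    rw [Finset.prod_congr rfl fun l _ => e l, Finset.prod_ite, Finset.prod_const_one, one_mul,
      Finset.prod_const]
    congr 1
    rw [Finset.filter_ne' Finset.univ i, Finset.card_erase_of_mem (Finset.mem_univ _),
      Finset.card_univ, Fintype.card_fin]
  rw [← hT]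
  refine Finset.card_le_mul_card_image_of_maps_to (f := fun t => Function.update t i 1) ?_ _ ?_
  · intro t ht
    rw [Finset.mem_filter, Fintype.mem_piFinset] at ht
    rw [Fintype.mem_piFinset]
    intro l
    by_cases hl : l = i
    · subst hl
      simp
    · rw [if_neg hl, Function.update_of_ne hl]
      exact ht.1 l
  · intro t' _
    refine le_trans (Finset.card_le_card_of_injOn (fun t => t i) ?_ ?_) (hM (t' j))
    · intro t ht
      simp only [Finset.coe_filter, Finset.mem_filter, Fintype.mem_piFinset,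
        Set.mem_ofPred_eq] at ht ⊢
      refine ⟨ht.1.1 i, ?_⟩
      have h1 := congrFun ht.2 j
      rw [Function.update_of_ne hij.symm] at h1
      rw [← h1]
      exact ht.1.2
    · intro t ht t2 ht2 htt
      simp only [Finset.coe_filter, Finset.mem_filter, Fintype.mem_piFinset,
        Set.mem_ofPred_eq] at ht ht2
      funext l
      by_cases hl : l = i
      · subst hl; exact htt
      · have h1 := congrFun (ht.2.trans ht2.2.symm) l
        rwa [Function.update_of_ne hl, Function.update_of_ne hl] at h1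

lemma card_pi {k N : ℕ} : (Fintype.piFinset (fun _ : Fin k => Icc 1 N)).card = N ^ k := by
  rw [Fintype.card_piFinset, Finset.prod_const, Finset.card_univ, Fintype.card_fin]
  simp

/-- the non injective tuples -/
lemma card_noninj_le {k N : ℕ} :
    ((Fintype.piFinset (fun _ : Fin k => Icc 1 N)).filter
      (fun t => ¬ Function.Injective t)).card ≤ k ^ 2 * N ^ (k - 1) := by
  classical
  have h1 : (Fintype.piFinset (fun _ : Fin k => Icc 1 N)).filter
      (fun t => ¬ Function.Injective t) ⊆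
      ((Finset.univ : Finset (Fin k × Fin k)).filter (fun x => x.1 ≠ x.2)).biUnion
        (fun x => (Fintype.piFinset (fun _ : Fin k => Icc 1 N)).filter (fun t => t x.1 = t x.2)) := by
    intro t ht
    rw [Finset.mem_filter] at ht
    obtain ⟨ht1, ht2⟩ := ht
    unfold Function.Injective at ht2
    push Not at ht2
    obtain ⟨a, b, hab, hne⟩ := ht2
    rw [Finset.mem_biUnion]
    exact ⟨(a, b), Finset.mem_filter.2 ⟨Finset.mem_univ _, hne⟩, Finset.mem_filter.2 ⟨ht1, hab⟩⟩
  refine (Finset.card_le_card h1).trans (Finset.card_biUnion_le.trans ?_)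
  have h2 : ∀ x ∈ (Finset.univ : Finset (Fin k × Fin k)).filter (fun x => x.1 ≠ x.2),
      ((Fintype.piFinset (fun _ : Fin k => Icc 1 N)).filter (fun t => t x.1 = t x.2)).card ≤
        N ^ (k - 1) := by
    intro x hx
    have := card_rel_le (k := k) (N := N) (Finset.mem_filter.1 hx).2 (fun a b => a = b) (M := 1) (by
      intro b
      refine (Finset.card_le_card (t := {b}) ?_).trans (by simp)
      intro a ha
      rw [Finset.mem_filter] at ha
      rw [Finset.mem_singleton]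
      exact ha.2)
    rwa [one_mul] at this
  refine (Finset.sum_le_sum h2).trans ?_
  rw [Finset.sum_const, smul_eq_mul]
  refine Nat.mul_le_mul_right _ ?_
  refine (Finset.card_filter_le _ _).trans ?_
  rw [Finset.card_univ, Fintype.card_prod, Fintype.card_fin, sq]

open Classical in
/-- the sum controlling the bad primes -/
noncomputable def Phi (Q : Finset ℕ) {k : ℕ} (t : Fin k → ℕ) : ℝ :=
  ∑ p ∈ Q, 1 / (p:ℝ) * ((((Finset.univ : Finset (Fin k × Fin k)).filter
    (fun x => x.1 ≠ x.2 ∧ t x.1 ≡ t x.2 [MOD p])).card : ℕ) : ℝ)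

lemma sum_Phi_le {k N : ℕ} (hN : 1 ≤ N) (hk : 1 ≤ k) {Q : Finset ℕ} (hQ : ∀ p ∈ Q, p.Prime)
    {K0 R : ℕ} (hK0 : 2 ≤ K0) (hQK : ∀ p ∈ Q, K0 ≤ p) (hQR : ∀ p ∈ Q, p ≤ R) :
    ∑ t ∈ Fintype.piFinset (fun _ : Fin k => Icc 1 N), Phi Q t ≤
      (k:ℝ) ^ 2 * (N:ℝ) ^ k * (2 / K0 + Real.log (LL R) / N) := by
  classical
  unfold Phi
  rw [Finset.sum_comm]
  have hN0 : (0:ℝ) < N := by exact_mod_cast hN
  have h1 : ∀ p ∈ Q, ∑ t ∈ Fintype.piFinset (fun _ : Fin k => Icc 1 N),
      1 / (p:ℝ) * ((((Finset.univ : Finset (Fin k × Fin k)).filter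
        (fun x => x.1 ≠ x.2 ∧ t x.1 ≡ t x.2 [MOD p])).card : ℕ) : ℝ) ≤
      (k:ℝ) ^ 2 * (N:ℝ) ^ k * (1 / (p:ℝ) ^ 2 + (1 / (p:ℝ)) * (1 / N)) := by
    intro p hp
    have hp0 : (0:ℝ) < p := by exact_mod_cast (hQ p hp).pos
    rw [← Finset.mul_sum]
    have h2 : ∑ t ∈ Fintype.piFinset (fun _ : Fin k => Icc 1 N),
        ((Finset.univ : Finset (Fin k × Fin k)).filter
        (fun x => x.1 ≠ x.2 ∧ t x.1 ≡ t x.2 [MOD p])).card ≤
        k ^ 2 * ((N / p + 1) * N ^ (k - 1)) := by
      have e1 : ∑ t ∈ Fintype.piFinset (fun _ : Fin k => Icc 1 N),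
          ((Finset.univ : Finset (Fin k × Fin k)).filter
          (fun x => x.1 ≠ x.2 ∧ t x.1 ≡ t x.2 [MOD p])).card =
          ∑ x ∈ (Finset.univ : Finset (Fin k × Fin k)),
            ((Fintype.piFinset (fun _ : Fin k => Icc 1 N)).filter
              (fun t => x.1 ≠ x.2 ∧ t x.1 ≡ t x.2 [MOD p])).card := by
        simp only [Finset.card_filter]
        exact Finset.sum_comm
      rw [e1]
      have h3 : ∀ x ∈ (Finset.univ : Finset (Fin k × Fin k)),
          ((Fintype.piFinset (fun _ : Fin k => Icc 1 N)).filter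
              (fun t => x.1 ≠ x.2 ∧ t x.1 ≡ t x.2 [MOD p])).card ≤ (N / p + 1) * N ^ (k - 1) := by
        intro x _
        by_cases hx : x.1 = x.2
        · refine le_trans (le_of_eq ?_) (Nat.zero_le _)
          rw [Finset.card_eq_zero, Finset.filter_eq_empty_iff]
          intro t _ ht
          exact ht.1 hx
        · refine le_trans (Finset.card_le_card ?_)
            (card_rel_le (k := k) (N := N) hx (fun a b => a ≡ b [MOD p]) (M := N / p + 1)
              (fun b => card_class_le b))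
          intro t ht
          rw [Finset.mem_filter] at ht ⊢
          exact ⟨ht.1, ht.2.2⟩
      refine (Finset.sum_le_sum h3).trans (le_of_eq ?_)
      rw [Finset.sum_const, Finset.card_univ, Fintype.card_prod, Fintype.card_fin, smul_eq_mul, sq]
    have h4 : ∑ t ∈ Fintype.piFinset (fun _ : Fin k => Icc 1 N),
        ((((Finset.univ : Finset (Fin k × Fin k)).filter
        (fun x => x.1 ≠ x.2 ∧ t x.1 ≡ t x.2 [MOD p])).card : ℕ) : ℝ) ≤
        (k:ℝ) ^ 2 * (((N:ℝ) / p + 1) * (N:ℝ) ^ (k - 1)) := by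
      have h5 : ((∑ t ∈ Fintype.piFinset (fun _ : Fin k => Icc 1 N),
        ((Finset.univ : Finset (Fin k × Fin k)).filter
        (fun x => x.1 ≠ x.2 ∧ t x.1 ≡ t x.2 [MOD p])).card : ℕ) : ℝ) ≤
        ((k ^ 2 * ((N / p + 1) * N ^ (k - 1)) : ℕ) : ℝ) := by exact_mod_cast h2
      push_cast at h5
      refine h5.trans ?_
      have h6 : ((N / p : ℕ) : ℝ) ≤ (N:ℝ) / p := Nat.cast_div_le
      gcongr
    refine (mul_le_mul_of_nonneg_left h4 (by positivity)).trans (le_of_eq ?_)
    obtain ⟨k', rfl⟩ : ∃ k', k = k' + 1 := ⟨k - 1, by omega⟩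
    rw [Nat.add_sub_cancel, pow_succ (N:ℝ) k']
    field_simp
  refine (Finset.sum_le_sum h1).trans ?_
  rw [← Finset.mul_sum]
  refine mul_le_mul_of_nonneg_left ?_ (by positivity)
  rw [Finset.sum_add_distrib, ← Finset.sum_mul]
  have h2 := sum_inv_sq_le hK0 hQK
  have h3 := sum_inv_primes_le hQ hQR
  have h4 : Real.log (LL R) = 5 + 4 * Real.log ((Nat.log 2 R : ℝ) + 1) := by
    unfold LL
    rw [Real.log_mul (Real.exp_pos 5).ne' (by positivity), Real.log_exp, Real.log_pow]
    norm_num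
  rw [h4]
  have h5 : (∑ p ∈ Q, 1 / (p:ℝ)) * (1 / N) ≤ (5 + 4 * Real.log ((Nat.log 2 R : ℝ) + 1)) / N := by
    rw [mul_one_div]
    exact div_le_div_of_nonneg_right h3 hN0.le
  linarith

/-- the tuples `L * t` which are good -/
theorem good_of {k : ℕ} (hk : 1 ≤ k) {K0 q H : ℕ} (hK0 : 64 * k ^ 2 ≤ K0) (hq : 1 ≤ q)
    (hbig : ((q * primorial (K0 - 1) : ℕ) : ℝ) * LL H ^ (3 * k) ≤ H) {t : Fin k → ℕ}
    (ht : t ∈ Fintype.piFinset (fun _ : Fin k => Icc 1 (H / (q * primorial k))))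
    (hinj : Function.Injective t)
    (hPhi : Phi ((range (H + 1)).filter (fun p => p.Prime ∧ K0 ≤ p ∧ ¬ p ∣ q)) t ≤ 1 / 2) :
    GoodT 3 q K0 H (fun i => q * primorial k * t i) := by
  classical
  have hL : 0 < q * primorial k := Nat.mul_pos (by omega) (primorial_pos _)
  rw [Fintype.mem_piFinset] at ht
  have hle : ∀ i, q * primorial k * t i ≤ H := by
    intro i
    have h1 := (Finset.mem_Icc.1 (ht i)).2
    exact (Nat.mul_le_mul_left _ h1).trans (Nat.mul_div_le _ _)
  have hpos : ∀ i, 1 ≤ q * primorial k * t i := fun i =>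
    Nat.mul_pos hL (Finset.mem_Icc.1 (ht i)).1
  refine ⟨fun i j hij => hinj (Nat.eq_of_mul_eq_mul_left hL hij), hpos, hle,
    fun i => Dvd.intro _ rfl, ?_, fun a => oth_le hk hK0 hq _ hle hpos hbig a⟩
  refine le_trans ?_ hPhi
  unfold Phi
  have hkK : k < K0 := by nlinarith
  have hmain : ∀ p ∈ (badP K0 H (fun i => q * primorial k * t i)).filter
      (fun p => K0 ≤ p ∧ ¬ p ∣ q), p ∈ (range (H + 1)).filter (fun p => p.Prime ∧ K0 ≤ p ∧ ¬ p ∣ q) ∧
      1 ≤ ((Finset.univ : Finset (Fin k × Fin k)).filter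
        (fun x => x.1 ≠ x.2 ∧ t x.1 ≡ t x.2 [MOD p])).card := by
    intro p hp
    rw [Finset.mem_filter, mem_badP] at hp
    obtain ⟨⟨h1, hpp, h2⟩, h3, h4⟩ := hp
    rcases h2 with h2 | ⟨i, j, hij, hm⟩
    · omega
    · have hcop : Nat.Coprime p (q * primorial k) := by
        rw [hpp.coprime_iff_not_dvd]
        intro hd
        rcases (hpp.dvd_mul).1 hd with h5 | h5
        · exact h4 h5
        · have := (prime_dvd_primorial hpp).1 h5
          omega
      have hm2 : t i ≡ t j [MOD p] := Nat.ModEq.cancel_left_of_coprime hcop hm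
      have hpH : p ≤ H := by
        by_contra hcon
        have h5 := hle i
        have h6 := hle j
        rw [Nat.ModEq, Nat.mod_eq_of_lt (by omega), Nat.mod_eq_of_lt (by omega)] at hm
        exact hij (hinj (Nat.eq_of_mul_eq_mul_left hL hm))
      refine ⟨Finset.mem_filter.2 ⟨Finset.mem_range.2 (by omega), hpp, h3, h4⟩, ?_⟩
      exact Finset.card_pos.2 ⟨(i, j), Finset.mem_filter.2 ⟨Finset.mem_univ _, hij, hm2⟩⟩
  refine le_trans (Finset.sum_le_sum (g := fun p : ℕ => 1 / (p:ℝ) *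
    ((((Finset.univ : Finset (Fin k × Fin k)).filter
      (fun x => x.1 ≠ x.2 ∧ t x.1 ≡ t x.2 [MOD p])).card : ℕ) : ℝ)) fun p hp => ?_) ?_
  · have h1 : (1:ℝ) ≤ ((((Finset.univ : Finset (Fin k × Fin k)).filter
      (fun x => x.1 ≠ x.2 ∧ t x.1 ≡ t x.2 [MOD p])).card : ℕ) : ℝ) := by
      exact_mod_cast (hmain p hp).2
    exact le_mul_of_one_le_right (by positivity) h1
  · exact Finset.sum_le_sum_of_subset_of_nonneg (fun p hp => (hmain p hp).1)
      fun p _ _ => by positivity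

open Classical in
/-- PP8: a positive proportion of the tuples is good -/
theorem good_tuples {k : ℕ} (hk : 1 ≤ k) {K0 : ℕ} (hK0 : 64 * k ^ 2 ≤ K0) {q : ℕ} (hq : 1 ≤ q) :
    ∀ᶠ H : ℕ in atTop, ((H:ℝ) / (2 * q * primorial k)) ^ k / 4 ≤
      (((Fintype.piFinset (fun _ : Fin k => Icc 1 H)).filter (fun h => GoodT 3 q K0 H h)).card : ℝ) := by
  set L := q * primorial k with hLdef
  have hL : 0 < L := Nat.mul_pos (by omega) (primorial_pos _)
  set W0 := q * primorial (K0 - 1) with hW0def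
  have hLr : (0:ℝ) < L := by exact_mod_cast hL
  have hk1 : (1:ℝ) ≤ k := by exact_mod_cast hk
  filter_upwards [ev_LL_pow_le (s := 1 / 2) (by norm_num) (3 * k),
    ev_LL_pow_le (s := 1 / 2) (by norm_num) 1,
    ev_rpow_ge (s := 1 / 2) (by norm_num) (W0:ℝ),
    ev_rpow_ge (s := 1 / 2) (by norm_num) (2 * L * (64 * k ^ 2 + 1) : ℝ),
    eventually_ge_atTop 1] with H h1 h2 h3 h4 hH1
  have hHr : (1:ℝ) ≤ H := by exact_mod_cast hH1
  have hH0 : (0:ℝ) ≤ H := by linarith
  have hsq : (H:ℝ) ^ (1 / 2 : ℝ) * (H:ℝ) ^ (1 / 2 : ℝ) = H := by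
    rw [← Real.rpow_add (by linarith)]
    norm_num
  have hs0 : (0:ℝ) ≤ (H:ℝ) ^ (1 / 2 : ℝ) := by positivity
  set s := (H:ℝ) ^ (1 / 2 : ℝ) with hs
  have hLL1 := LL_ge_one H
  have hbig : ((W0 : ℕ) : ℝ) * LL H ^ (3 * k) ≤ H := by
    calc (W0:ℝ) * LL H ^ (3 * k) ≤ s * s := mul_le_mul h3 h1 (by positivity) hs0
      _ = H := hsq
  rw [pow_one] at h2
  have hs1 : 1 ≤ s := by linarith
  -- size of N
  set N := H / L with hN
  have hNlow : (H:ℝ) / (2 * L) ≤ N := by
    have h5 : (H:ℝ) / L - 1 ≤ N := by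
      have h6 : H < L * (N + 1) := by
        have := Nat.div_add_mod H L
        have h7 := Nat.mod_lt H hL
        rw [← hN] at this
        nlinarith
      have h7 : (H:ℝ) ≤ L * ((N:ℝ) + 1) := by exact_mod_cast h6.le
      rw [div_sub_one hLr.ne', div_le_iff₀ hLr]
      linarith
    have h6 : (2:ℝ) * L ≤ H := by
      have : (2:ℝ) * L ≤ s := by
        have h8 : (2:ℝ) * L * 1 ≤ 2 * L * (64 * k ^ 2 + 1) := by
          refine mul_le_mul_of_nonneg_left ?_ (by positivity)
          nlinarith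
        linarith
      have h9 : s ≤ s * s := le_mul_of_one_le_right hs0 hs1
      linarith
    have h7 : (H:ℝ) / (2 * L) = (H:ℝ) / L / 2 := by
      field_simp
    have h8 : 2 ≤ (H:ℝ) / L := by
      rw [le_div_iff₀ hLr]; linarith
    rw [h7]
    linarith
  have hNbig : (64 * (k:ℝ) ^ 2 + 1) * s ≤ N := by
    refine le_trans ?_ hNlow
    rw [le_div_iff₀ (by positivity)]
    calc (64 * (k:ℝ) ^ 2 + 1) * s * (2 * L) = (2 * L * (64 * k ^ 2 + 1)) * s := by ring
      _ ≤ s * s := mul_le_mul_of_nonneg_right h4 hs0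
      _ = H := hsq
  have hN1 : 1 ≤ N := by
    have : (0:ℝ) < N := lt_of_lt_of_le (by positivity) hNbig
    exact_mod_cast this
  have hNr : (0:ℝ) < N := by exact_mod_cast hN1
  set Q := (range (H + 1)).filter (fun p => p.Prime ∧ K0 ≤ p ∧ ¬ p ∣ q) with hQ
  have hK0r : (64:ℝ) * k ^ 2 ≤ K0 := by exact_mod_cast hK0
  have hK0pos : (0:ℝ) < K0 := by nlinarith
  have hK2 : 2 ≤ K0 := by nlinarith
  set T := Fintype.piFinset (fun _ : Fin k => Icc 1 N) with hT
  have hsum := sum_Phi_le (k := k) (N := N) (Q := Q) (K0 := K0) (R := H) hN1 hk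
    (fun p hp => (Finset.mem_filter.1 hp).2.1) hK2 (fun p hp => (Finset.mem_filter.1 hp).2.2.1)
    (fun p hp => by
      have := Finset.mem_range.1 (Finset.mem_filter.1 hp).1
      omega)
  rw [← hT] at hsum
  -- Markov
  have hmar : ((T.filter (fun t => ¬ Phi Q t ≤ 1 / 2)).card : ℝ) * (1 / 2) ≤ ∑ t ∈ T, Phi Q t := by
    have h5 : ((T.filter (fun t => ¬ Phi Q t ≤ 1 / 2)).card : ℝ) * (1 / 2) ≤
        ∑ t ∈ T.filter (fun t => ¬ Phi Q t ≤ 1 / 2), Phi Q t := by
      rw [← nsmul_eq_mul, ← Finset.sum_const]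
      refine Finset.sum_le_sum fun t ht => ?_
      rw [Finset.mem_filter] at ht
      linarith [not_le.1 ht.2]
    refine h5.trans (Finset.sum_le_sum_of_subset_of_nonneg (Finset.filter_subset _ _) ?_)
    intro t _ _
    unfold Phi
    exact Finset.sum_nonneg fun p _ => by positivity
  have hcalc : (k:ℝ) ^ 2 * (N:ℝ) ^ k * (2 / K0 + Real.log (LL H) / N) ≤ (N:ℝ) ^ k * (3 / 64) := by
    have h5 : Real.log (LL H) ≤ s := by
      have := Real.log_le_sub_one_of_pos (x := LL H) (by linarith)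
      linarith
    have h6 : (k:ℝ) ^ 2 * (2 / K0) ≤ 2 / 64 := by
      rw [← mul_div_assoc, div_le_div_iff₀ hK0pos (by norm_num)]
      nlinarith
    have h7 : (k:ℝ) ^ 2 * (Real.log (LL H) / N) ≤ 1 / 64 := by
      rw [← mul_div_assoc, div_le_div_iff₀ hNr (by norm_num)]
      have h8 : (k:ℝ) ^ 2 * Real.log (LL H) ≤ (k:ℝ) ^ 2 * s := mul_le_mul_of_nonneg_left h5 (by positivity)
      nlinarith
    have h8 : 0 ≤ (N:ℝ) ^ k := by positivity
    calc (k:ℝ) ^ 2 * (N:ℝ) ^ k * (2 / K0 + Real.log (LL H) / N) =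
        (N:ℝ) ^ k * ((k:ℝ) ^ 2 * (2 / K0) + (k:ℝ) ^ 2 * (Real.log (LL H) / N)) := by ring
      _ ≤ (N:ℝ) ^ k * (3 / 64) := mul_le_mul_of_nonneg_left (by linarith) h8
  have hbad1 : ((T.filter (fun t => ¬ Phi Q t ≤ 1 / 2)).card : ℝ) ≤ (N:ℝ) ^ k * (6 / 64) := by
    linarith
  have hbad2 : ((T.filter (fun t => ¬ Function.Injective t)).card : ℝ) ≤ (N:ℝ) ^ k * (1 / 64) := by
    have h5 := card_noninj_le (k := k) (N := N)
    rw [← hT] at h5
    have h6 : ((T.filter (fun t => ¬ Function.Injective t)).card : ℝ) ≤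
        (k:ℝ) ^ 2 * (N:ℝ) ^ (k - 1) := by exact_mod_cast h5
    refine h6.trans ?_
    obtain ⟨k', hk'⟩ : ∃ k', k = k' + 1 := ⟨k - 1, by omega⟩
    have h7 : (N:ℝ) ^ k = (N:ℝ) ^ (k - 1) * N := by
      rw [hk', Nat.add_sub_cancel, pow_succ]
    rw [h7, mul_assoc, mul_comm]
    refine mul_le_mul_of_nonneg_left ?_ (by positivity)
    have : (64 * (k:ℝ) ^ 2 + 1) * 1 ≤ N := le_trans (mul_le_mul_of_nonneg_left hs1 (by positivity)) hNbig
    linarith
  have hgood : (N:ℝ) ^ k / 2 ≤
      ((T.filter (fun t => Function.Injective t ∧ Phi Q t ≤ 1 / 2)).card : ℝ) := by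
    have h5 : T.card ≤ (T.filter (fun t => Function.Injective t ∧ Phi Q t ≤ 1 / 2)).card +
        (T.filter (fun t => ¬ Function.Injective t)).card +
        (T.filter (fun t => ¬ Phi Q t ≤ 1 / 2)).card := by
      have h6 : T ⊆ (T.filter (fun t => Function.Injective t ∧ Phi Q t ≤ 1 / 2) ∪
        T.filter (fun t => ¬ Function.Injective t)) ∪ T.filter (fun t => ¬ Phi Q t ≤ 1 / 2) := by
        intro t ht
        simp only [Finset.mem_union, Finset.mem_filter]
        by_cases h7 : Function.Injective t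
        · by_cases h8 : Phi Q t ≤ 1 / 2
          · exact Or.inl (Or.inl ⟨ht, h7, h8⟩)
          · exact Or.inr ⟨ht, h8⟩
        · exact Or.inl (Or.inr ⟨ht, h7⟩)
      refine (Finset.card_le_card h6).trans ((Finset.card_union_le _ _).trans ?_)
      exact Nat.add_le_add_right (Finset.card_union_le _ _) _
    have h6 : (T.card : ℝ) = (N:ℝ) ^ k := by
      rw [hT, card_pi]; push_cast; rfl
    have h7 : (T.card : ℝ) ≤ ((T.filter (fun t => Function.Injective t ∧ Phi Q t ≤ 1 / 2)).card : ℝ) +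
        ((T.filter (fun t => ¬ Function.Injective t)).card : ℝ) +
        ((T.filter (fun t => ¬ Phi Q t ≤ 1 / 2)).card : ℝ) := by exact_mod_cast h5
    have h8 : 0 ≤ (N:ℝ) ^ k := by positivity
    rw [h6] at h7
    linarith
  -- the map
  have hmap : (T.filter (fun t => Function.Injective t ∧ Phi Q t ≤ 1 / 2)).card ≤
      ((Fintype.piFinset (fun _ : Fin k => Icc 1 H)).filter (fun h => GoodT 3 q K0 H h)).card := by
    refine Finset.card_le_card_of_injOn (fun t => fun i => L * t i) ?_ ?_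
    · intro t ht
      simp only [Finset.coe_filter, Set.mem_ofPred_eq] at ht ⊢
      have h5 := good_of hk hK0 hq hbig (t := t) ht.1 ht.2.1 ht.2.2
      refine ⟨?_, h5⟩
      rw [Fintype.mem_piFinset]
      intro i
      exact Finset.mem_Icc.2 ⟨h5.pos i, h5.le i⟩
    · intro t _ t' _ htt
      funext i
      exact Nat.eq_of_mul_eq_mul_left hL (congrFun htt i)
  have hfin : ((H:ℝ) / (2 * q * primorial k)) ^ k ≤ (N:ℝ) ^ k := by
    refine pow_le_pow_left₀ (by positivity) ?_ k
    refine le_trans (le_of_eq ?_) hNlow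
    rw [hLdef]
    push_cast
    ring
  have h9 : ((T.filter (fun t => Function.Injective t ∧ Phi Q t ≤ 1 / 2)).card : ℝ) ≤
      (((Fintype.piFinset (fun _ : Fin k => Icc 1 H)).filter (fun h => GoodT 3 q K0 H h)).card : ℝ) := by
    exact_mod_cast hmap
  have h10 : 0 ≤ ((H:ℝ) / (2 * q * primorial k)) ^ k := by positivity
  linarith

end Pool.Agent.PosProp
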