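import Pool.Agent.PosProp.Defs2
import Pool.Agent.PosProp.Good
import Pool.Agent.PosProp.Count
import Pool.Agent.PP.Classes

/-!
# Assembly of the positive proportion theorem (module PP10)

`posprop_of`: the main estimate for one tuple and one class (`PP7Prop`) and the count of the good
tuples (`PP8Prop`) give the positive proportion theorem.
-/

open Finset Filter

namespace Pool.Agent.PosProp

open Pool.Agent.Maynard (cW)

/-- the event for the tuple `h`, all classes -/
def tupEv {k : ℕ} (m L z q c K0 H : ℕ) (h : Fin k → ℕ) (n : ℕ) : Prop :=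
  (∃ a ∈ Pool.Agent.PP.adm h q c (Wt q K0 H h), n ≡ a [MOD Wt q K0 H h]) ∧ GoodEv m L z q c H h n

open Classical in
private lemma one_tuple {k m L z q c K0 H N : ℕ} (hk : 1 ≤ k) (hq : 1 ≤ q) (hc : c.Coprime q)
    {h : Fin k → ℕ} {CT : ℝ} (hg : GoodT CT q K0 H h) {E : ℝ} (hE : 0 ≤ E) (hN : 1 ≤ N)
    (hl : 0 < Real.log N)
    (hmain : ∀ a : ℕ, a ≡ c [MOD q] → (∀ i, (a + h i).Coprime (Wt q K0 H h)) →
      E * (((N:ℝ) / (Wt q K0 H h : ℕ)) / (cW (Wt q K0 H h) * Real.log N) ^ k) ≤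
      ((goodN m L z q c K0 H N h a).card : ℝ)) :
    E * N / (q * (6 * (k:ℝ)) ^ k * Real.log N ^ k) ≤
      (((Ioc N (2 * N)).filter (fun n => tupEv m L z q c K0 H h n)).card : ℝ) := by
  set W := Wt q K0 H h with hW
  have hWpos : 0 < W := Wt_pos hq h
  have hWr : (0:ℝ) < W := by exact_mod_cast hWpos
  have hcW : 0 < cW W := Pool.Agent.Maynard.cW_pos hWpos
  have h1 := count_classes (Ioc N (2 * N)) W (Pool.Agent.PP.adm h q c W)
    (fun a ha => Finset.mem_range.mp (Finset.mem_filter.mp ha).1)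
    (GoodEv m L z q c H h)
    (E * (((N:ℝ) / W) / (cW W * Real.log N) ^ k))
    (fun a ha => hmain a (Finset.mem_filter.mp ha).2.1 (Finset.mem_filter.mp ha).2.2)
  have h1' : ((Pool.Agent.PP.adm h q c W).card : ℝ) *
      (E * (((N:ℝ) / W) / (cW W * Real.log N) ^ k)) ≤
      (((Ioc N (2 * N)).filter (fun n => tupEv m L z q c K0 H h n)).card : ℝ) := by
    refine h1.trans (le_of_eq ?_)
    congr 2
    ext n
    simp only [Finset.mem_filter, tupEv, hW]
  refine le_trans ?_ h1'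
  have h2 : (W:ℝ) * cW W ^ k ≤ q * (6 * (k:ℝ)) ^ k * ((Pool.Agent.PP.adm h q c W).card : ℝ) := by
    refine Pool.Agent.PP.classes_ge hk hWpos (Dvd.intro _ rfl) hc h
      (fun i => (Dvd.intro _ rfl).trans (hg.dvd i)) (fun p hp hpk i => ?_)
    have h3 : p ∣ primorial k := by
      rw [primorial]
      exact Finset.dvd_prod_of_mem _ (Finset.mem_filter.mpr ⟨Finset.mem_range.mpr (by omega), hp⟩)
    exact (h3.trans (Dvd.intro_left _ rfl)).trans (hg.dvd i)
  have hk0 : (0:ℝ) < k := by exact_mod_cast hk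
  have hq0 : (0:ℝ) < q := by exact_mod_cast hq
  have hQ : (0:ℝ) < q * (6 * (k:ℝ)) ^ k := by positivity
  have h3 : (W:ℝ) * cW W ^ k / (q * (6 * (k:ℝ)) ^ k) ≤ ((Pool.Agent.PP.adm h q c W).card : ℝ) := by
    rw [div_le_iff₀ hQ]
    refine h2.trans (le_of_eq ?_)
    ring
  have h4 : 0 ≤ E * (((N:ℝ) / W) / (cW W * Real.log N) ^ k) := by positivity
  refine le_trans (le_of_eq ?_) (mul_le_mul_of_nonneg_right h3 h4)
  have h5 : (cW W * Real.log N) ^ k = cW W ^ k * Real.log N ^ k := mul_pow _ _ _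
  rw [h5]
  field_simp

private lemma prim_le (k : ℕ) : (primorial k : ℝ) ≤ 4 ^ k := by
  exact_mod_cast primorial_le_four_pow k

/-- **Assembly.** -/
theorem posprop_of {CT : ℝ} (h7 : PP7Prop CT) (h8 : PP8Prop CT) : PosPropT := by
  classical
  obtain ⟨C, hC, h7⟩ := h7
  refine ⟨C * (C + 9), by positivity, fun m q c hm hq hc => ?_⟩
  obtain ⟨k, L, z, hk2, hkC, hL1, hLC, h7⟩ := h7 m hm
  have h7' := h7 q c hq hc
  have h8' := h8 k q hk2 hq
  have hlogt : Tendsto (fun N : ℕ => Real.log (N:ℝ)) atTop atTop :=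
    Real.tendsto_log_atTop.comp tendsto_natCast_atTop_atTop
  have hfl : Tendsto (fun N : ℕ => ⌊Real.log (N:ℝ)⌋₊) atTop atTop :=
    tendsto_nat_floor_atTop.comp hlogt
  have hkr : (2:ℝ) ≤ k := by exact_mod_cast hk2
  have hqr : (1:ℝ) ≤ q := by exact_mod_cast hq
  have hLr : (1:ℝ) ≤ L := by exact_mod_cast hL1
  set K0 := 2 ^ (k + 10) * k with hK0
  have hprim0 : (0:ℝ) < (primorial k : ℝ) := by exact_mod_cast primorial_pos k
  set E := Real.exp (-(k:ℝ) ^ C) with hE
  set δ : ℝ := E / (4 * (4 * q * primorial k) ^ k * (q * (6 * (k:ℝ)) ^ k) * (L:ℝ) ^ k) with hδ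
  have hE0 : 0 < E := Real.exp_pos _
  have hδ0 : 0 < δ := by
    rw [hδ]
    positivity
  have hwin : ∀ᶠ x : ℕ in atTop, δ * x ≤
      (((Ioc x (2 * x)).filter (fun n => ∃ j, StrIn q c m ⌊Real.log x⌋₊ n j)).card : ℝ) := by
    filter_upwards [h7', hfl.eventually h8', hlogt.eventually_ge_atTop 2, eventually_ge_atTop 1]
      with N hN7 hN8 hN2 hN1
    set H := ⌊Real.log (N:ℝ)⌋₊ with hH
    have hl0 : 0 < Real.log N := by linarith
    have hHlog : Real.log N / 2 ≤ H := by
      have := Nat.lt_floor_add_one (Real.log (N:ℝ))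
      rw [← hH] at this
      linarith
    set Hs := (Fintype.piFinset (fun _ : Fin k => Icc 1 H)).filter (fun h => GoodT CT q K0 H h)
      with hHs
    have hct := count_tuples Hs (Ioc N (2 * N)) (tupEv m L (z N) q c K0 H)
      (E * N / (q * (6 * (k:ℝ)) ^ k * Real.log N ^ k)) L
      (fun h hh => one_tuple (by omega) hq hc (Finset.mem_filter.mp hh).2 hE0.le hN1 hl0
        (hN7 h (Finset.mem_filter.mp hh).2))
      (fun n hn => by
        by_cases hc : (rghs (z N) H n).card ≤ L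
        · exact ⟨rghs (z N) H n, hc, fun h _ hg => hg.2.1⟩
        · exact ⟨∅, by simp, fun h _ hg => absurd hg.2.2.1 hc⟩)
    have hsub : (((Ioc N (2 * N)).filter (fun n => ∃ h ∈ Hs, tupEv m L (z N) q c K0 H h n)).card : ℝ) ≤
        (((Ioc N (2 * N)).filter (fun n => ∃ j, StrIn q c m H n j)).card : ℝ) := by
      exact_mod_cast Finset.card_le_card (fun n hn => by
        obtain ⟨h1, h, -, -, -, -, h2⟩ := Finset.mem_filter.mp hn
        exact Finset.mem_filter.mpr ⟨h1, exists_strIn hm h2⟩)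
    set X : ℝ := (((Ioc N (2 * N)).filter (fun n => ∃ j, StrIn q c m H n j)).card : ℝ) with hX
    have hLk : (0:ℝ) < (L:ℝ) ^ k := by positivity
    have h1 : ((H:ℝ) / (2 * q * primorial k)) ^ k / 4 *
        (E * N / (q * (6 * (k:ℝ)) ^ k * Real.log N ^ k)) ≤ (L:ℝ) ^ k * X := by
      refine le_trans (mul_le_mul_of_nonneg_right hN8 (by positivity)) ?_
      exact hct.trans (mul_le_mul_of_nonneg_left hsub hLk.le)
    have h2 : (Real.log N / (4 * q * primorial k)) ^ k ≤ ((H:ℝ) / (2 * q * primorial k)) ^ k := by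
      refine pow_le_pow_left₀ (by positivity) ?_ k
      rw [div_le_div_iff₀ (by positivity) (by positivity)]
      have h3 : (0:ℝ) ≤ q * primorial k := by positivity
      nlinarith
    have h3 : (Real.log N / (4 * q * primorial k)) ^ k / 4 *
        (E * N / (q * (6 * (k:ℝ)) ^ k * Real.log N ^ k)) ≤ (L:ℝ) ^ k * X := by
      refine le_trans ?_ h1
      refine mul_le_mul_of_nonneg_right ?_ (by positivity)
      exact div_le_div_of_nonneg_right h2 (by norm_num)
    have h4 : (Real.log N / (4 * q * primorial k)) ^ k / 4 *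
        (E * N / (q * (6 * (k:ℝ)) ^ k * Real.log N ^ k)) = (L:ℝ) ^ k * (δ * N) := by
      rw [hδ, div_pow]
      field_simp
    rw [h4] at h3
    exact le_of_mul_le_mul_left h3 hLk
  filter_upwards [index_of_windows hm hδ0 hwin] with N hN
  refine le_trans ?_ hN
  refine mul_le_mul_of_nonneg_right ?_ (Nat.cast_nonneg N)
  -- the constant
  set K : ℝ := (k:ℝ) ^ C with hK
  have hk1 : (1:ℝ) ≤ k := by linarith
  have hKk : (k:ℝ) ≤ K := by
    calc (k:ℝ) = (k:ℝ) ^ (1:ℝ) := (Real.rpow_one _).symm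
      _ ≤ _ := Real.rpow_le_rpow_of_exponent_le hk1 hC
  have hlog4 : Real.log 4 ≤ 2 := by
    have h8 : Real.log 4 = 2 * Real.log 2 := by
      rw [show (4 : ℝ) = 2 ^ 2 by norm_num, Real.log_pow]
      norm_num
    have := Real.log_two_lt_d9
    rw [h8]
    linarith
  have hlogq : 0 ≤ Real.log q := Real.log_nonneg hqr
  -- logarithm of the denominator
  have hden : 32 * (4 * (4 * q * primorial k) ^ k * (q * (6 * (k:ℝ)) ^ k) * (L:ℝ) ^ k) ≤
      Real.exp (5 + (k * (2 + Real.log q + 2 * k)) + (Real.log q + k * (6 * k)) + k * K) := by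
    have e4 : (4:ℝ) ≤ Real.exp 2 := by
      rw [← Real.log_le_iff_le_exp (by norm_num)]
      exact hlog4
    have e128 : (128:ℝ) ≤ Real.exp 5 := by
      have := Real.exp_one_gt_d9
      have h5 : Real.exp 5 = Real.exp 1 ^ 5 := by rw [← Real.exp_nat_mul]; norm_num
      rw [h5]
      calc (128:ℝ) ≤ 2.7182818283 ^ 5 := by norm_num
        _ ≤ _ := pow_le_pow_left₀ (by norm_num) this.le 5
    have eq1 : (q:ℝ) = Real.exp (Real.log q) := (Real.exp_log (by linarith)).symm
    have eprim : (primorial k : ℝ) ≤ Real.exp (2 * k) := by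
      refine (prim_le k).trans ?_
      calc (4:ℝ) ^ k ≤ Real.exp 2 ^ k := pow_le_pow_left₀ (by norm_num) e4 k
        _ = _ := by rw [← Real.exp_nat_mul]; ring_nf
    have e6k : 6 * (k:ℝ) ≤ Real.exp (6 * k) := by
      have := Real.add_one_le_exp (6 * (k:ℝ))
      linarith
    have a1 : (4 * q * primorial k : ℝ) ^ k ≤ Real.exp (k * (2 + Real.log q + 2 * k)) := by
      have : (4 * q * primorial k : ℝ) ≤ Real.exp (2 + Real.log q + 2 * k) := by
        rw [Real.exp_add, Real.exp_add, ← eq1]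
        gcongr
      calc (4 * q * primorial k : ℝ) ^ k ≤ Real.exp (2 + Real.log q + 2 * k) ^ k :=
            pow_le_pow_left₀ (by positivity) this k
        _ = _ := by rw [← Real.exp_nat_mul]
    have a2 : (q * (6 * (k:ℝ)) ^ k) ≤ Real.exp (Real.log q + k * (6 * k)) := by
      rw [Real.exp_add, ← eq1]
      have : (6 * (k:ℝ)) ^ k ≤ Real.exp (k * (6 * k)) := by
        calc (6 * (k:ℝ)) ^ k ≤ Real.exp (6 * k) ^ k := pow_le_pow_left₀ (by positivity) e6k k
          _ = _ := by rw [← Real.exp_nat_mul]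
      gcongr
    have a3 : (L:ℝ) ^ k ≤ Real.exp (k * K) := by
      calc (L:ℝ) ^ k ≤ Real.exp K ^ k := pow_le_pow_left₀ (by positivity) hLC k
        _ = _ := by rw [← Real.exp_nat_mul]
    rw [Real.exp_add, Real.exp_add, Real.exp_add]
    calc 32 * (4 * (4 * q * primorial k) ^ k * (q * (6 * (k:ℝ)) ^ k) * (L:ℝ) ^ k) =
          128 * (4 * q * primorial k : ℝ) ^ k * (q * (6 * (k:ℝ)) ^ k) * (L:ℝ) ^ k := by ring
      _ ≤ _ := by gcongr
  have hδ32 : δ / 32 = E / (32 * (4 * (4 * q * primorial k) ^ k * (q * (6 * (k:ℝ)) ^ k) *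
      (L:ℝ) ^ k)) := by
    rw [hδ]
    field_simp
  rw [hδ32, le_div_iff₀ (by positivity)]
  refine le_trans (mul_le_mul_of_nonneg_left hden (Real.exp_pos _).le) ?_
  rw [← Real.exp_add, hE]
  refine Real.exp_le_exp.mpr ?_
  -- arithmetic of exponents
  set F := Real.exp (C * (C + 9) * m) with hF
  have hF1 : K * (k:ℝ) ^ (9:ℝ) ≤ F := by
    have h1 : (k:ℝ) ^ (C + 9) ≤ F := by
      calc (k:ℝ) ^ (C + 9) ≤ Real.exp (C * m) ^ (C + 9) :=
            Real.rpow_le_rpow (by linarith) hkC (by linarith)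
        _ = F := by rw [← Real.exp_mul, hF]; ring_nf
    rw [Real.rpow_add (by linarith)] at h1
    exact h1
  have hk9 : (k:ℝ) ^ (9:ℝ) = (k:ℝ) ^ 9 := by
    rw [← Real.rpow_natCast]; norm_num
  rw [hk9] at hF1
  have hk8 : (256:ℝ) ≤ (k:ℝ) ^ 8 := by
    calc (256:ℝ) = 2 ^ 8 := by norm_num
      _ ≤ _ := pow_le_pow_left₀ (by norm_num) hkr 8
  have hK0 : 0 < K := by linarith
  have hF2 : 256 * (K * k) ≤ F := by
    refine le_trans ?_ hF1
    have : (k:ℝ) ^ 9 = k ^ 8 * k := by ring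
    rw [this]
    have h5 : 0 ≤ K * (k:ℝ) := by positivity
    nlinarith
  have hKk2 : (k:ℝ) * k ≤ K * k := by
    refine mul_le_mul_of_nonneg_right hKk (by linarith)
  have hKk1 : K ≤ K * k := le_mul_of_one_le_right hK0.le hk1
  have hKk4 : (4:ℝ) ≤ K * k := by nlinarith
  have hk2 : (k:ℝ) ≤ K * k := hKk.trans hKk1
  have hLq : (k + 1) * Real.log q ≤ F * Real.log q := by
    refine mul_le_mul_of_nonneg_right ?_ hlogq
    nlinarith
  nlinarith

theorem pp8 : PP8Prop 3 := by
  intro k q hk hq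
  refine good_tuples (by omega) ?_ hq
  have h1 : k < 2 ^ k := Nat.lt_two_pow_self
  have h2 : 2 ^ (k + 10) = 2 ^ k * 1024 := by rw [pow_add]; norm_num
  rw [h2]
  nlinarith

/-- **The positive proportion theorem** follows from the main estimate. -/
theorem posprop_of_main (h7 : PP7Prop 3) : PosPropT := posprop_of h7 pp8

end Pool.Agent.PosProp
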