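import Mathlib

/-!
# From windows to indices (modules R1 and PP11 of the positive proportion theorem)

`exists_strIn`: a window `(n, n+H]` with at least `m (B+1)` primes in a class, `B` the number of the
other primes, contains `m` consecutive primes of the class.
`index_of_windows`: a positive proportion of windows gives a positive proportion of indices.
-/

open Finset Filter

namespace Pool.Agent.PosProp

/-- `m` consecutive primes (indices `j, .., j+m-1`, the first prime has index `0`), all congruent to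
`c` modulo `D` and all in the window `(n, n+H]`. -/
def StrIn (D c m H n j : ℕ) : Prop :=
  ∀ i < m, Nat.nth Nat.Prime (j + i) ≡ c [MOD D] ∧ n < Nat.nth Nat.Prime (j + i) ∧
    Nat.nth Nat.Prime (j + i) ≤ n + H

open Classical in
/-- the indices `j < N` of strings of `m` consecutive primes congruent to `c` modulo `D` -/
noncomputable def strg (D c m N : ℕ) : Finset ℕ :=
  (range N).filter (fun j => ∀ i < m, Nat.nth Nat.Prime (j + i) ≡ c [MOD D])

open Classical in
/-- the primes of the class `c mod D` in `(n, n+H]` -/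
noncomputable def prIn (D c H n : ℕ) : Finset ℕ :=
  (Ioc n (n + H)).filter (fun p => p.Prime ∧ p ≡ c [MOD D])

open Classical in
/-- the primes not in the class `c mod D` in `(n, n+H]` -/
noncomputable def prOut (D c H n : ℕ) : Finset ℕ :=
  (Ioc n (n + H)).filter (fun p => p.Prime ∧ ¬ p ≡ c [MOD D])

private lemma nth_strictMono : StrictMono (Nat.nth Nat.Prime) :=
  Nat.nth_strictMono Nat.infinite_setOfPred_prime

private lemma nth_pr (j : ℕ) : (Nat.nth Nat.Prime j).Prime :=
  Nat.nth_mem_of_infinite Nat.infinite_setOfPred_prime j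

/-- the primes in `(n, n+H]` have consecutive indices -/
private lemma nth_mem_window {H n : ℕ} {T : ℕ}
    (hT : T ≤ ((Ioc n (n + H)).filter Nat.Prime).card) {t : ℕ} (ht : t < T) :
    n < Nat.nth Nat.Prime (Nat.count Nat.Prime (n + 1) + t) ∧
      Nat.nth Nat.Prime (Nat.count Nat.Prime (n + 1) + t) ≤ n + H := by
  classical
  set a := Nat.count Nat.Prime (n + 1) with ha
  constructor
  · have h1 : n + 1 ≤ Nat.nth Nat.Prime a := Nat.le_nth_count Nat.infinite_setOfPred_prime (n + 1)
    have h2 : Nat.nth Nat.Prime a ≤ Nat.nth Nat.Prime (a + t) :=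
      nth_strictMono.monotone (Nat.le_add_right _ _)
    omega
  · by_contra hcon
    push Not at hcon
    have hsub : (Ioc n (n + H)).filter Nat.Prime ⊆ (Ico a (a + t)).image (Nat.nth Nat.Prime) := by
      intro p hp
      obtain ⟨h1, h2⟩ := Finset.mem_filter.mp hp
      rw [Finset.mem_Ioc] at h1
      refine Finset.mem_image.mpr ⟨Nat.count Nat.Prime p, ?_, Nat.nth_count h2⟩
      rw [Finset.mem_Ico]
      constructor
      · rw [ha]
        exact Nat.count_monotone _ h1.1
      · rw [← nth_strictMono.lt_iff_lt, Nat.nth_count h2]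
        omega
    have h3 := (Finset.card_le_card hsub).trans Finset.card_image_le
    rw [Nat.card_Ico] at h3
    omega

theorem exists_strIn {D c m H n : ℕ} (hm : 1 ≤ m)
    (h : m * ((prOut D c H n).card + 1) ≤ (prIn D c H n).card) : ∃ j, StrIn D c m H n j := by
  classical
  set B := (prOut D c H n).card with hB
  set a := Nat.count Nat.Prime (n + 1) with ha
  have hle : (prIn D c H n).card ≤ ((Ioc n (n + H)).filter Nat.Prime).card := by
    refine Finset.card_le_card fun p hp => ?_
    obtain ⟨h1, h2, -⟩ := Finset.mem_filter.mp hp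
    exact Finset.mem_filter.mpr ⟨h1, h2⟩
  have hT : m * (B + 1) ≤ ((Ioc n (n + H)).filter Nat.Prime).card := h.trans hle
  by_contra hcon
  push Not at hcon
  have key : ∀ r ∈ range (B + 1), ∃ i < m, ¬ Nat.nth Nat.Prime (a + (r * m + i)) ≡ c [MOD D] := by
    intro r hr
    rw [Finset.mem_range] at hr
    by_contra h1
    push Not at h1
    apply hcon (a + r * m)
    intro i hi
    have h2 : r * m + i < m * (B + 1) := by
      calc r * m + i < r * m + m := by omega
        _ = m * (r + 1) := by ring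
        _ ≤ m * (B + 1) := Nat.mul_le_mul_left m hr
    have h3 := nth_mem_window hT h2
    have h4 : a + r * m + i = a + (r * m + i) := by omega
    rw [h4]
    exact ⟨h1 i hi, h3.1, h3.2⟩
  choose! f hf1 hf2 using key
  have hcard : (range (B + 1)).card ≤ (prOut D c H n).card := by
    refine Finset.card_le_card_of_injOn (fun r => Nat.nth Nat.Prime (a + (r * m + f r))) ?_ ?_
    · intro r hr
      have hr' : r ∈ range (B + 1) := by simpa using hr
      have hr2 := Finset.mem_range.mp hr'
      have h2 : r * m + f r < m * (B + 1) := by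
        have := hf1 r hr'
        calc r * m + f r < r * m + m := by omega
          _ = m * (r + 1) := by ring
          _ ≤ m * (B + 1) := Nat.mul_le_mul_left m hr2
      have h3 := nth_mem_window hT h2
      rw [Finset.mem_coe]
      refine Finset.mem_filter.mpr ⟨Finset.mem_Ioc.mpr ⟨h3.1, h3.2⟩, nth_pr _, hf2 r hr'⟩
    · intro r hr s hs hrs
      have hr' : r ∈ range (B + 1) := by simpa using hr
      have hs' : s ∈ range (B + 1) := by simpa using hs
      have h1 : a + (r * m + f r) = a + (s * m + f s) := nth_strictMono.injective hrs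
      have h2 : r * m + f r = s * m + f s := by omega
      have h3 : (r * m + f r) / m = r := by
        rw [mul_comm, Nat.mul_add_div (by omega), Nat.div_eq_of_lt (hf1 r hr')]
        rfl
      have h4 : (s * m + f s) / m = s := by
        rw [mul_comm, Nat.mul_add_div (by omega), Nat.div_eq_of_lt (hf1 s hs')]
        rfl
      rw [← h3, ← h4, h2]
  rw [Finset.card_range] at hcard
  omega

open Classical in
private lemma window_le {D c m H x N : ℕ} (hm : 1 ≤ m)
    (hN : ∀ j, Nat.nth Nat.Prime j ≤ 2 * x + H → j < N) :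
    ((Ioc x (2 * x)).filter (fun n => ∃ j, StrIn D c m H n j)).card ≤ H * (strg D c m N).card := by
  have hex : ∀ n ∈ (Ioc x (2 * x)).filter (fun n => ∃ j, StrIn D c m H n j),
      ∃ j ∈ strg D c m N, n < Nat.nth Nat.Prime j ∧ Nat.nth Nat.Prime j ≤ n + H := by
    intro n hn
    obtain ⟨h1, j, hj⟩ := Finset.mem_filter.mp hn
    have h2 := hj 0 (by omega)
    rw [add_zero] at h2
    rw [Finset.mem_Ioc] at h1
    refine ⟨j, ?_, h2.2.1, h2.2.2⟩
    refine Finset.mem_filter.mpr ⟨Finset.mem_range.mpr (hN j (by omega)), fun i hi => (hj i hi).1⟩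
  choose! f hf1 hf2 hf3 using hex
  refine Finset.card_le_mul_card_image_of_maps_to (f := f) (fun n hn => hf1 n hn) H ?_
  intro j _
  have hsub : ((Ioc x (2 * x)).filter (fun n => ∃ j, StrIn D c m H n j)).filter (fun n => f n = j) ⊆
      Ico (Nat.nth Nat.Prime j - H) (Nat.nth Nat.Prime j) := by
    intro n hn
    obtain ⟨h1, h2⟩ := Finset.mem_filter.mp hn
    have h3 := hf2 n h1
    have h4 := hf3 n h1
    rw [h2] at h3 h4
    rw [Finset.mem_Ico]
    omega
  refine (Finset.card_le_card hsub).trans ?_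
  rw [Nat.card_Ico]
  omega

private lemma ev_x : ∀ᶠ N : ℕ in atTop, ∃ x : ℕ, (N:ℝ) * Real.log N / 16 ≤ x ∧ 2 ≤ x ∧
    Real.log x ≤ 2 * Real.log N ∧ (2:ℝ) ≤ Real.log N ∧ N ≤ x ∧
    ∀ j, Nat.nth Nat.Prime j ≤ 2 * x + ⌊Real.log x⌋₊ → j < N := by
  have hlogN : Tendsto (fun N : ℕ => Real.log (N:ℝ)) atTop atTop :=
    Real.tendsto_log_atTop.comp tendsto_natCast_atTop_atTop
  have hNlog : Tendsto (fun N : ℕ => 3 / 8 * ((N:ℝ) * Real.log (N:ℝ))) atTop atTop :=
    Tendsto.const_mul_atTop (by norm_num)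
      (tendsto_natCast_atTop_atTop.atTop_mul_atTop₀ hlogN)
  have ev1 := hNlog.eventually (Chebyshev.eventually_primeCounting_le (ε := 1 / 10) (by norm_num))
  filter_upwards [ev1, hlogN.eventually_ge_atTop 32, eventually_ge_atTop 32] with N h1 h2 h3
  set L := Real.log (N:ℝ) with hL
  have hN : (32:ℝ) ≤ N := by exact_mod_cast h3
  have hN0 : (0:ℝ) < N := by linarith
  have hNL : (32:ℝ) * 32 ≤ N * L := by gcongr
  have hfl : (⌊(N:ℝ) * L / 8⌋₊ : ℝ) ≤ N * L / 8 := Nat.floor_le (by positivity)
  have hfl2 : (N:ℝ) * L / 8 < ⌊(N:ℝ) * L / 8⌋₊ + 1 := Nat.lt_floor_add_one _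
  set x := ⌊(N:ℝ) * L / 8⌋₊ with hx
  have hx1 : (N:ℝ) * L / 16 ≤ x := by linarith
  have hxN : (N:ℝ) ≤ x := by
    have : (N:ℝ) * 32 ≤ N * L := by gcongr
    linarith
  have hxN' : N ≤ x := by exact_mod_cast hxN
  have hx0 : (0:ℝ) < x := by linarith
  have hLN : L ≤ N := (Real.log_le_sub_one_of_pos hN0).trans (by linarith)
  have hlogx : Real.log x ≤ 2 * L := by
    have h4 : (x:ℝ) ≤ N * N := by
      have : (N:ℝ) * L ≤ N * N := by gcongr
      nlinarith
    calc Real.log x ≤ Real.log (N * N) := Real.log_le_log hx0 h4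
      _ = 2 * L := by rw [Real.log_mul hN0.ne' hN0.ne']; ring
  refine ⟨x, hx1, by omega, hlogx, by linarith, hxN', fun j hj => ?_⟩
  set y : ℝ := 3 / 8 * ((N:ℝ) * L) with hy
  have hy2 : (N:ℝ) ≤ y := by nlinarith
  have hy0 : 0 < y := by linarith
  have hpy : ((Nat.nth Nat.Prime j : ℕ) : ℝ) ≤ y := by
    have h5 : ((Nat.nth Nat.Prime j : ℕ) : ℝ) ≤ 2 * x + ⌊Real.log x⌋₊ := by exact_mod_cast hj
    have h6 : (⌊Real.log x⌋₊ : ℝ) ≤ Real.log x :=
      Nat.floor_le (Real.log_nonneg (by linarith))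
    have h7 : Real.log x ≤ x - 1 := Real.log_le_sub_one_of_pos hx0
    rw [hy]
    linarith
  have h8 : j < Nat.primeCounting ⌊y⌋₊ := by
    have h9 : Nat.nth Nat.Prime j ≤ ⌊y⌋₊ := Nat.le_floor hpy
    have h10 : Nat.primeCounting' (Nat.nth Nat.Prime j) = j := Nat.primeCounting'_nth_eq j
    have h11 : Nat.primeCounting (Nat.nth Nat.Prime j) = j + 1 := by
      rw [Nat.primeCounting, Nat.primeCounting', Nat.count_succ]
      rw [Nat.primeCounting'] at h10
      rw [h10, if_pos (nth_pr j)]
    have h12 : Nat.primeCounting (Nat.nth Nat.Prime j) ≤ Nat.primeCounting ⌊y⌋₊ :=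
      Nat.monotone_primeCounting h9
    omega
  have hlog4 : Real.log 4 ≤ 1.4 := by
    have h8 : Real.log 4 = 2 * Real.log 2 := by
      rw [show (4 : ℝ) = 2 ^ 2 by norm_num, Real.log_pow]
      norm_num
    have := Real.log_two_lt_d9
    rw [h8]
    linarith
  have h13 : (Nat.primeCounting ⌊y⌋₊ : ℝ) ≤ (Real.log 4 + 1 / 10) * y / Real.log y := h1
  have h14 : L ≤ Real.log y := Real.log_le_log hN0 hy2
  have hL0 : 0 < L := by linarith
  have h15 : (Real.log 4 + 1 / 10) * y / Real.log y ≤ 1.5 * y / L := by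
    have : (Real.log 4 + 1 / 10) * y ≤ 1.5 * y := by
      refine mul_le_mul_of_nonneg_right (by linarith) hy0.le
    exact div_le_div₀ (by positivity) this hL0 h14
  have h16 : 1.5 * y / L < N := by
    rw [div_lt_iff₀ hL0, hy]
    nlinarith
  have h17 : (j:ℝ) < N := by
    have : (j:ℝ) < Nat.primeCounting ⌊y⌋₊ := by exact_mod_cast h8
    linarith
  exact_mod_cast h17

open Classical in
/-- **Windows to indices.** -/
theorem index_of_windows {D c m : ℕ} (hm : 1 ≤ m) {δ : ℝ} (hδ : 0 < δ)
    (h : ∀ᶠ x : ℕ in atTop, δ * x ≤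
      (((Ioc x (2 * x)).filter (fun n => ∃ j, StrIn D c m ⌊Real.log x⌋₊ n j)).card : ℝ)) :
    ∀ᶠ N : ℕ in atTop, δ / 32 * N ≤ ((strg D c m N).card : ℝ) := by
  obtain ⟨x0, hx0⟩ := Filter.eventually_atTop.mp h
  filter_upwards [ev_x, eventually_ge_atTop x0] with N h1 h2
  obtain ⟨x, hx1, hx2, hx3, hx4, hx5, hx6⟩ := h1
  have h3 := hx0 x (by omega)
  have h4 : (((Ioc x (2 * x)).filter (fun n => ∃ j, StrIn D c m ⌊Real.log x⌋₊ n j)).card : ℝ) ≤
      (⌊Real.log x⌋₊ : ℝ) * ((strg D c m N).card : ℝ) := by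
    exact_mod_cast window_le hm hx6
  have hx2' : (2:ℝ) ≤ x := by exact_mod_cast hx2
  have h5 : (⌊Real.log x⌋₊ : ℝ) ≤ 2 * Real.log N :=
    (Nat.floor_le (Real.log_nonneg (by linarith))).trans hx3
  have h6 : δ * ((N:ℝ) * Real.log N / 16) ≤ 2 * Real.log N * ((strg D c m N).card : ℝ) := by
    calc δ * ((N:ℝ) * Real.log N / 16) ≤ δ * x := mul_le_mul_of_nonneg_left hx1 hδ.le
      _ ≤ _ := h3
      _ ≤ _ := h4
      _ ≤ _ := mul_le_mul_of_nonneg_right h5 (Nat.cast_nonneg _)
  have hL : 0 < Real.log N := by linarith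
  have h7 : Real.log N * (δ / 32 * N) ≤ Real.log N * ((strg D c m N).card : ℝ) := by
    have e : δ * ((N:ℝ) * Real.log N / 16) = 2 * (Real.log N * (δ / 32 * N)) := by ring
    rw [e] at h6
    linarith
  exact le_of_mul_le_mul_left h7 hL

end Pool.Agent.PosProp
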