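import Pool.Agent.PosProp.Defs
import Pool.Agent.PosProp.Index

/-!
# Rough numbers and the interface of the assembly
-/

open Finset Filter

namespace Pool.Agent.PosProp

open Pool.Agent.Maynard (cW)

variable {k : ℕ}

/-- `n` has no prime factor `≤ z` -/
def Rough (z n : ℕ) : Prop := ∀ p : ℕ, p.Prime → p ≤ z → ¬ p ∣ n

open Classical in
/-- the `h' ∈ [1, H]` with `n + h'` rough -/
noncomputable def rghs (z H n : ℕ) : Finset ℕ := (Icc 1 H).filter (fun h' => Rough z (n + h'))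

/-- the event for `n` and the tuple `h` -/
def GoodEv (m L z q c H : ℕ) (h : Fin k → ℕ) (n : ℕ) : Prop :=
  (∀ i, h i ∈ rghs z H n) ∧ (rghs z H n).card ≤ L ∧
    m * ((prOut q c H n).card + 1) ≤ (prIn q c H n).card

open Classical in
/-- the good `n` for the tuple `h` in the class `a mod Wt` -/
noncomputable def goodN (m L z q c K0 H N : ℕ) (h : Fin k → ℕ) (a : ℕ) : Finset ℕ :=
  (Ioc N (2 * N)).filter (fun n => n ≡ a [MOD Wt q K0 H h] ∧ GoodEv m L z q c H h n)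

open Classical in
/-- the number of good tuples -/
def PP8Prop (CT : ℝ) : Prop :=
  ∀ k q : ℕ, 2 ≤ k → 1 ≤ q → ∀ᶠ H : ℕ in atTop,
    ((H:ℝ) / (2 * q * primorial k)) ^ k / 4 ≤
      (((Fintype.piFinset (fun _ : Fin k => Icc 1 H)).filter
        (fun h => GoodT CT q (2 ^ (k + 10) * k) H h)).card : ℝ)

/-- the main estimate -/
def PP7Prop (CT : ℝ) : Prop :=
  ∃ C : ℝ, 1 ≤ C ∧ ∀ m : ℕ, 1 ≤ m → ∃ k L : ℕ, ∃ z : ℕ → ℕ, 2 ≤ k ∧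
    (k:ℝ) ≤ Real.exp (C * m) ∧ 1 ≤ L ∧ (L:ℝ) ≤ Real.exp ((k:ℝ) ^ C) ∧
    ∀ q c : ℕ, 1 ≤ q → c.Coprime q → ∀ᶠ N : ℕ in atTop, ∀ h : Fin k → ℕ,
      GoodT CT q (2 ^ (k + 10) * k) ⌊Real.log N⌋₊ h → ∀ a : ℕ, a ≡ c [MOD q] →
      (∀ i, (a + h i).Coprime (Wt q (2 ^ (k + 10) * k) ⌊Real.log N⌋₊ h)) →
      Real.exp (-(k:ℝ) ^ C) * (((N:ℝ) / (Wt q (2 ^ (k + 10) * k) ⌊Real.log N⌋₊ h : ℕ)) /
        (cW (Wt q (2 ^ (k + 10) * k) ⌊Real.log N⌋₊ h) * Real.log N) ^ k) ≤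
      ((goodN m L (z N) q c (2 ^ (k + 10) * k) ⌊Real.log N⌋₊ N h a).card : ℝ)

/-- the positive proportion theorem -/
def PosPropT : Prop :=
  ∃ C0 : ℝ, 0 < C0 ∧ ∀ m q c : ℕ, 1 ≤ m → 1 ≤ q → c.Coprime q → ∀ᶠ N : ℕ in atTop,
    Real.exp (-(Real.exp (C0 * m) * (1 + Real.log q))) * N ≤ ((strg q c m N).card : ℝ)

end Pool.Agent.PosProp
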