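import Pool.Agent.Lib.Maynard.Bounds

/-!
# Cell sums over the primes outside a modulus
-/

open Finset

namespace Pool.Agent.PosProp

open Pool.Agent.Maynard

variable {P : Finset ℕ}

/-- `val B` is coprime to `V` if all chosen primes are -/
lemma coprime_val (hP : ∀ p ∈ P, p.Prime) {V : ℕ} (B : P → Bool)
    (h : ∀ p : P, B p = true → ¬ (p:ℕ) ∣ V) : V.Coprime (val B) := by
  unfold Maynard.val
  refine Nat.Coprime.prod_right fun p _ => ?_
  split_ifs with hB
  · exact (((hP p p.2).coprime_iff_not_dvd).2 (h p hB)).symm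
  · exact Nat.coprime_one_right _

/-- transfer of a lower bound from the primes outside `V` to all primes -/
lemma sum_sub_le {Q : Finset ℕ} (hQP : Q ⊆ P) (a : ℕ → ℝ) (ha : ∀ p ∈ P, 0 ≤ a p) (u v : ℕ) :
    ∑ B : Q → Bool, (if u ≤ val B ∧ val B < v then pm a B else 0) ≤
      ∑ B : P → Bool, (if (∀ p : P, B p = true → (p:ℕ) ∈ Q) ∧ u ≤ val B ∧ val B < v then
        pm a B else 0) := by
  classical
  set g : (Q → Bool) → ℕ → Bool := fun B p => if h : p ∈ Q then B ⟨p, h⟩ else false with hg
  have hgQ : ∀ (B : Q → Bool) (p : Q), g B p = B p := by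
    intro B p
    simp only [hg]
    rw [dif_pos p.2]
  have hgP : ∀ (B : Q → Bool) (p : ℕ), g B p = true → p ∈ Q := by
    intro B p hp
    by_contra hcon
    simp only [hg] at hp
    rw [dif_neg hcon] at hp
    exact absurd hp (by simp)
  have hval : ∀ B : Q → Bool, val (fun p : P => g B p) = val B := by
    intro B
    unfold Maynard.val
    rw [Finset.prod_coe_sort P (fun p => if g B p then p else 1)]
    have e : ∏ p : Q, (if B p then (p:ℕ) else 1) = ∏ p ∈ Q, (if g B p then p else 1) := by
      rw [← Finset.prod_coe_sort Q (fun p => if g B p then p else 1)]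
      exact Finset.prod_congr rfl fun p _ => by rw [hgQ]
    rw [e]
    refine (Finset.prod_subset hQP fun p _ hp => ?_).symm
    rw [if_neg]
    exact fun h => hp (hgP B p h)
  have hpm : ∀ B : Q → Bool, pm a (fun p : P => g B p) = pm a B := by
    intro B
    unfold pm
    rw [Finset.prod_coe_sort P (fun p => if g B p then a p else 1)]
    have e : ∏ p : Q, (if B p then a p else 1) = ∏ p ∈ Q, (if g B p then a p else 1) := by
      rw [← Finset.prod_coe_sort Q (fun p => if g B p then a p else 1)]
      exact Finset.prod_congr rfl fun p _ => by rw [hgQ]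
    rw [e]
    refine (Finset.prod_subset hQP fun p _ hp => ?_).symm
    rw [if_neg]
    exact fun h => hp (hgP B p h)
  have hinj : Set.InjOn (fun B : Q → Bool => (fun p : P => g B p)) (Finset.univ : Finset (Q → Bool)) := by
    intro B _ B' _ h
    funext p
    have := congrFun h ⟨p, hQP p.2⟩
    have h2 : g B p = g B' p := this
    rwa [hgQ, hgQ] at h2
  calc ∑ B : Q → Bool, (if u ≤ val B ∧ val B < v then pm a B else 0)
      = ∑ B : Q → Bool, (fun B' : P → Bool => if (∀ p : P, B' p = true → (p:ℕ) ∈ Q) ∧
          u ≤ val B' ∧ val B' < v then pm a B' else 0) (fun p : P => g B p) := by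
        refine Finset.sum_congr rfl fun B _ => ?_
        have h1 : (∀ p : P, g B p = true → (p:ℕ) ∈ Q) := fun p hp => hgP B p hp
        show _ = if (∀ p : P, g B p = true → (p:ℕ) ∈ Q) ∧ u ≤ val (fun p : P => g B p) ∧
          val (fun p : P => g B p) < v then pm a (fun p : P => g B p) else 0
        rw [hval, hpm]
        by_cases h2 : u ≤ val B ∧ val B < v
        · rw [if_pos h2, if_pos ⟨h1, h2⟩]
        · rw [if_neg h2, if_neg (fun h => h2 h.2)]
    _ = ∑ B' ∈ Finset.univ.image (fun B : Q → Bool => (fun p : P => g B p)),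
          (if (∀ p : P, B' p = true → (p:ℕ) ∈ Q) ∧ u ≤ val B' ∧ val B' < v then pm a B' else 0) :=
        (Finset.sum_image (f := fun B' : P → Bool => if (∀ p : P, B' p = true → (p:ℕ) ∈ Q) ∧
          u ≤ val B' ∧ val B' < v then pm a B' else 0) hinj).symm
    _ ≤ _ := by
        refine Finset.sum_le_sum_of_subset_of_nonneg (Finset.subset_univ _) fun B _ _ => ?_
        split_ifs
        · exact pm_nonneg ha B
        · exact le_rfl

/-- general upper bound for a cell, restricted to the primes outside `V` -/
theorem cell_upper_gen {V a b : ℕ} (hV : 0 < V) (hP : ∀ p ∈ P, p.Prime)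
    (ha : 0 < a) (hab : a < b) (y : ℕ → ℝ) (hy0 : ∀ p ∈ P, 0 ≤ y p) :
    ∑ B : P → Bool, (if (∀ p : P, B p = true → ¬ (p:ℕ) ∣ V) ∧ a ≤ val B ∧ val B < b then
        pm (fun p => 1 / (p:ℝ) + y p) B else 0) ≤
      (cW V * Real.log ((b:ℝ) / a) + KV V) * ∏ p ∈ P, (1 + y p) := by
  classical
  set c : P → Bool → Bool → ℝ := fun p D B =>
    if B then (if D then y p else 1 / ((p:ℕ):ℝ)) else (if D then 0 else 1) with hc
  have h1 : ∀ B : P → Bool, pm (fun p => 1 / (p:ℝ) + y p) B =
      ∑ D : P → Bool, ∏ p : P, c p (D p) (B p) := by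
    intro B
    have e1 : ∑ D : P → Bool, ∏ p : P, c p (D p) (B p) = ∏ p : P, ∑ D : Bool, c p D (B p) := by
      rw [Finset.prod_univ_sum, Fintype.piFinset_univ]
    rw [e1]
    unfold pm
    refine Finset.prod_congr rfl fun p _ => ?_
    rw [Fintype.sum_bool]
    simp only [hc]
    by_cases hB : B p = true
    · simp only [hB, if_true, Bool.false_eq_true, if_false]
      ring
    · simp [hB]
  have h2 : ∑ B : P → Bool, (if (∀ p : P, B p = true → ¬ (p:ℕ) ∣ V) ∧ a ≤ val B ∧ val B < b then
        pm (fun p => 1 / (p:ℝ) + y p) B else 0) =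
      ∑ D : P → Bool, ∑ B : P → Bool,
        (if (∀ p : P, B p = true → ¬ (p:ℕ) ∣ V) ∧ a ≤ val B ∧ val B < b then
          ∏ p : P, c p (D p) (B p) else 0) := by
    rw [Finset.sum_comm]
    refine Finset.sum_congr rfl fun B _ => ?_
    split_ifs
    · exact h1 B
    · simp
  rw [h2]
  have h3 : ∀ D : P → Bool, ∑ B : P → Bool,
      (if (∀ p : P, B p = true → ¬ (p:ℕ) ∣ V) ∧ a ≤ val B ∧ val B < b then
        ∏ p : P, c p (D p) (B p) else 0) ≤
      (cW V * Real.log ((b:ℝ) / a) + KV V) * ∏ p : P, (if D p then y p else 1) := by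
    intro D
    have hyD : 0 ≤ ∏ p : P, (if D p then y p else 1) := by
      refine Finset.prod_nonneg fun p _ => ?_
      split_ifs
      · exact hy0 p p.2
      · exact zero_le_one
    -- restrict to `D ≤ B`
    have e1 : ∀ B : P → Bool, (if (∀ p : P, B p = true → ¬ (p:ℕ) ∣ V) ∧ a ≤ val B ∧ val B < b then
        ∏ p : P, c p (D p) (B p) else 0) =
        if (∀ p, D p = true → B p = true) ∧ (∀ p : P, B p = true → ¬ (p:ℕ) ∣ V) ∧
            a ≤ val B ∧ val B < b then
          (∏ p : P, (if D p then y p else 1)) *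
            (1 / (val (fun p => B p && !(D p)) : ℝ)) else 0 := by
      intro B
      by_cases hab' : (∀ p : P, B p = true → ¬ (p:ℕ) ∣ V) ∧ a ≤ val B ∧ val B < b
      · rw [if_pos hab']
        by_cases hDB : ∀ p, D p = true → B p = true
        · rw [if_pos ⟨hDB, hab'⟩]
          unfold Maynard.val
          push_cast
          rw [one_div, ← Finset.prod_inv_distrib, ← Finset.prod_mul_distrib]
          refine Finset.prod_congr rfl fun p _ => ?_
          simp only [hc]
          by_cases hD : D p = true
          · have := hDB p hD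
            simp [hD, this]
          · by_cases hB : B p = true
            · simp [hD, hB]
            · simp [hD, hB]
        · rw [if_neg (fun h => hDB h.1)]
          push Not at hDB
          obtain ⟨p, hp1, hp2⟩ := hDB
          refine Finset.prod_eq_zero (Finset.mem_univ p) ?_
          simp [hc, hp1, hp2]
      · rw [if_neg hab', if_neg (fun h => hab' h.2)]
    simp_rw [e1]
    rw [← Finset.sum_filter, ← Finset.mul_sum, mul_comm]
    refine mul_le_mul_of_nonneg_right ?_ hyD
    have hvalpos : ∀ B : P → Bool, 0 < val B := val_pos fun p hp => (hP p hp).pos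
    have hsplit : ∀ B : P → Bool, (∀ p, D p = true → B p = true) →
        val B = val D * val (fun p => B p && !(D p)) := by
      intro B hDB
      unfold Maynard.val
      rw [← Finset.prod_mul_distrib]
      refine Finset.prod_congr rfl fun p _ => ?_
      by_cases hD : D p = true
      · simp [hD, hDB p hD]
      · simp [hD]
    have e2 : ∑ B ∈ Finset.univ.filter (fun B : P → Bool =>
        (∀ p, D p = true → B p = true) ∧ (∀ p : P, B p = true → ¬ (p:ℕ) ∣ V) ∧
          a ≤ val B ∧ val B < b),
        (1 / (val (fun p => B p && !(D p)) : ℝ)) ≤ win V (val D) a b := by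
      have hinj : Set.InjOn (fun B : P → Bool => val (fun p => B p && !(D p)))
          ((Finset.univ.filter (fun B : P → Bool =>
            (∀ p, D p = true → B p = true) ∧ (∀ p : P, B p = true → ¬ (p:ℕ) ∣ V) ∧
              a ≤ val B ∧ val B < b) : Finset (P → Bool)) :
            Set (P → Bool)) := by
        intro B hB B' hB' h
        simp only [Finset.coe_filter, Finset.mem_univ, true_and, Set.mem_ofPred_eq] at hB hB'
        apply val_injective hP
        rw [hsplit B hB.1, hsplit B' hB'.1]
        congr 1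
      have := Finset.sum_image (f := fun s : ℕ => 1 / (s:ℝ)) hinj
      rw [← this]
      unfold win
      refine Finset.sum_le_sum_of_subset_of_nonneg ?_ fun s _ _ => by positivity
      intro s hs
      simp only [Finset.mem_image, Finset.mem_filter, Finset.mem_univ, true_and,
        Finset.mem_range] at hs ⊢
      obtain ⟨B, ⟨h4, h7, h5, h6⟩, rfl⟩ := hs
      rw [hsplit B h4] at h5 h6
      refine ⟨lt_of_le_of_lt (Nat.le_mul_of_pos_left _ (hvalpos D)) h6, ?_, h5, h6⟩
      exact coprime_val hP _ fun p hp => h7 p (by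
        simp only [Bool.and_eq_true] at hp
        exact hp.1)
    exact e2.trans (win_upper hV (hvalpos D) ha hab.le)
  refine (Finset.sum_le_sum fun D _ => h3 D).trans (le_of_eq ?_)
  rw [← Finset.mul_sum]
  congr 1
  have e1 : ∑ D : P → Bool, ∏ p : P, (if D p then y p else 1) =
      ∏ p : P, ∑ D : Bool, (if D then y p else 1) := by
    rw [Finset.prod_univ_sum, Fintype.piFinset_univ]
  rw [e1]
  rw [← Finset.prod_coe_sort P (fun p => 1 + y p)]
  refine Finset.prod_congr rfl fun p _ => ?_
  rw [Fintype.sum_bool]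
  simp
  ring

end Pool.Agent.PosProp
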