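import Pool.Agent.PosProp.Other1
import Pool.Agent.Lib.Maynard.Count

/-!
# Counting for the product of the Maynard weight and the extra sieve
-/

open Finset

namespace Pool.Agent.PosProp

open Pool.Agent.Maynard

variable {P : Finset ℕ} {k : ℕ}

lemma dvd_add_iff_modEq {p : ℕ} (hp : 1 ≤ p) (n t : ℕ) : n ≡ (p - 1) * t [MOD p] ↔ p ∣ n + t := by
  have h1 : (p - 1) * t + t = p * t := by
    have : p = (p - 1) + 1 := by omega
    conv_rhs => rw [this]
    ring
  constructor
  · intro h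
    have h2 : n + t ≡ (p - 1) * t + t [MOD p] := h.add_right t
    rw [h1] at h2
    exact (Nat.modEq_zero_iff_dvd).1 (h2.trans ((Nat.modEq_zero_iff_dvd).2 (dvd_mul_right p t)))
  · intro h
    have h2 : n + t ≡ (p - 1) * t + t [MOD p] := by
      rw [h1]
      exact ((Nat.modEq_zero_iff_dvd).2 h).trans ((Nat.modEq_zero_iff_dvd).2 (dvd_mul_right p t)).symm
    exact Nat.ModEq.add_right_cancel' t h2

/-- counting with prescribed divisibilities -/
lemma count_shifts (hP : ∀ p ∈ P, p.Prime) {W : ℕ} (hW : 0 < W) (hWP : ∀ p ∈ P, ¬ p ∣ W)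
    (N a : ℕ) (τ : P → Option ℕ) :
    |(((Ioc N (2 * N)).filter (fun n => n ≡ a [MOD W] ∧
        ∀ p : P, ∀ t, τ p = some t → (p:ℕ) ∣ n + t)).card : ℝ) -
      (N:ℝ) / W * ∏ p : P, (if τ p = none then 1 else 1 / ((p:ℕ):ℝ))| ≤ 1 := by
  classical
  set S : Finset ℕ := P.filter (fun p => ∃ hp : p ∈ P, τ ⟨p, hp⟩ ≠ none) with hS
  set r : ℕ → ℕ := fun p => if hp : p ∈ P then (p - 1) * ((τ ⟨p, hp⟩).getD 0) else 0 with hr
  have hSP : ∀ p ∈ S, p ∈ P := fun p hp => (Finset.mem_filter.1 hp).1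
  obtain ⟨n0, hn0⟩ := crt_iff S (fun p hp => hP p (hSP p hp)) (Q := W)
    (fun p hp => hWP p (hSP p hp)) a r
  have h1 : ∀ n : ℕ, (∀ p : P, ∀ t, τ p = some t → (p:ℕ) ∣ n + t) ↔ ∀ p ∈ S, n ≡ r p [MOD p] := by
    intro n
    constructor
    · intro h p hp
      obtain ⟨hpP, hp', hτ⟩ := Finset.mem_filter.1 hp
      obtain ⟨t, ht⟩ := Option.ne_none_iff_exists'.1 hτ
      have h2 := h ⟨p, hp'⟩ t ht
      simp only [hr]
      rw [dif_pos hpP, ht, Option.getD_some, dvd_add_iff_modEq (hP p hpP).one_lt.le]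
      exact h2
    · intro h p t ht
      have hpS : (p:ℕ) ∈ S := by
        rw [hS, Finset.mem_filter]
        exact ⟨p.2, p.2, by rw [Subtype.coe_eta, ht]; simp⟩
      have h2 := h p hpS
      simp only [hr] at h2
      rw [dif_pos p.2] at h2
      have h3 : τ ⟨(p:ℕ), p.2⟩ = some t := by rw [Subtype.coe_eta, ht]
      rw [h3, Option.getD_some, dvd_add_iff_modEq (hP p p.2).one_lt.le] at h2
      exact h2
  have h2 : (Ioc N (2 * N)).filter (fun n => n ≡ a [MOD W] ∧
        ∀ p : P, ∀ t, τ p = some t → (p:ℕ) ∣ n + t) =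
      (Ioc N (2 * N)).filter (fun n => n ≡ n0 [MOD (W * ∏ p ∈ S, p)]) := by
    refine Finset.filter_congr fun n _ => ?_
    rw [h1 n]
    exact hn0 n
  have hSpos : 0 < ∏ p ∈ S, p := Finset.prod_pos fun p hp => (hP p (hSP p hp)).pos
  have h3 := count_class N (m := W * ∏ p ∈ S, p) (Nat.mul_pos hW hSpos) n0
  rw [h2]
  have h4 : (N:ℝ) / W * ∏ p : P, (if τ p = none then 1 else 1 / ((p:ℕ):ℝ)) =
      (N:ℝ) / ((W * ∏ p ∈ S, p : ℕ) : ℝ) := by
    have e1 : ((∏ p ∈ S, p : ℕ) : ℝ) = ∏ p : P, (if τ p = none then 1 else ((p:ℕ):ℝ)) := by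
      rw [hS, Finset.prod_filter]
      push_cast
      rw [← Finset.prod_coe_sort P (fun p => if (∃ hp : p ∈ P, τ ⟨p, hp⟩ ≠ none) then (p:ℝ) else 1)]
      refine Finset.prod_congr rfl fun p _ => ?_
      by_cases h : τ p = none
      · rw [if_pos h, if_neg]
        rintro ⟨hp, h'⟩
        exact h' (by rw [Subtype.coe_eta]; exact h)
      · rw [if_neg h, if_pos]
        exact ⟨p.2, by rw [Subtype.coe_eta]; exact h⟩
    push_cast
    push_cast at e1
    rw [e1, div_mul_eq_div_div]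
    rw [div_eq_mul_inv ((N:ℝ) / W), ← Finset.prod_inv_distrib]
    congr 1
    refine Finset.prod_congr rfl fun p _ => ?_
    split_ifs
    · simp
    · rw [one_div]
  rw [h4]
  exact h3

/-- comparison of a quadratic form with its model -/
lemma compare2 {I α Y : Type*} [Fintype I] [Fintype Y] (L : I → ℝ) (A : Finset α)
    (e : I → α → ℝ) (f : I → Y → ℝ) (ω : Y → ℝ) (X : ℝ)
    (h : ∀ i j, L i ≠ 0 → L j ≠ 0 →
      |∑ n ∈ A, e i n * e j n - X * ∑ y, ω y * (f i y * f j y)| ≤ 1) :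
    |∑ n ∈ A, (∑ i, L i * e i n) ^ 2 - X * ∑ y, ω y * (∑ i, L i * f i y) ^ 2| ≤
      (∑ i, |L i|) ^ 2 := by
  have h1 : ∑ n ∈ A, (∑ i, L i * e i n) ^ 2 =
      ∑ i, ∑ j, L i * L j * ∑ n ∈ A, e i n * e j n := by
    simp_rw [sq, Finset.sum_mul_sum, Finset.mul_sum]
    rw [Finset.sum_comm]
    refine Finset.sum_congr rfl fun i _ => ?_
    rw [Finset.sum_comm]
    refine Finset.sum_congr rfl fun j _ => Finset.sum_congr rfl fun n _ => ?_
    ring
  have h2 : ∑ y, ω y * (∑ i, L i * f i y) ^ 2 =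
      ∑ i, ∑ j, L i * L j * ∑ y, ω y * (f i y * f j y) := by
    simp_rw [sq, Finset.sum_mul_sum, Finset.mul_sum]
    rw [Finset.sum_comm]
    refine Finset.sum_congr rfl fun i _ => ?_
    rw [Finset.sum_comm]
    refine Finset.sum_congr rfl fun j _ => Finset.sum_congr rfl fun y _ => ?_
    ring
  rw [h1, h2, Finset.mul_sum, ← Finset.sum_sub_distrib, sq, Finset.sum_mul_sum]
  refine (Finset.abs_sum_le_sum_abs _ _).trans (Finset.sum_le_sum fun i _ => ?_)
  rw [Finset.mul_sum, ← Finset.sum_sub_distrib]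
  refine (Finset.abs_sum_le_sum_abs _ _).trans (Finset.sum_le_sum fun j _ => ?_)
  by_cases hi : L i = 0
  · simp [hi]
  by_cases hj : L j = 0
  · simp [hj]
  have e1 : L i * L j * ∑ n ∈ A, e i n * e j n - X * (L i * L j * ∑ y, ω y * (f i y * f j y)) =
      (L i * L j) * (∑ n ∈ A, e i n * e j n - X * ∑ y, ω y * (f i y * f j y)) := by ring
  rw [e1, abs_mul, abs_mul]
  have h3 := mul_le_mul_of_nonneg_left (h i j hi hj)
    (mul_nonneg (abs_nonneg (L i)) (abs_nonneg (L j)))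
  linarith

/-- `eb(b,y) = 1` if `b` is false or `y` is true -/
def eb (b y : Bool) : ℝ := if b then (if y then 1 else 0) else 1

/-- coefficients -/
noncomputable def lkB (p : ℕ) (B b : Bool) : ℝ := if b then (if B then -(p:ℝ) else 0) else 1

lemma ker_eq (p : ℕ) (B y : Bool) :
    (if B then (if y then 1 - (p:ℝ) else 1) else 1) = ∑ b : Bool, lkB p B b * eb b y := by
  rw [Fintype.sum_bool]
  unfold lkB eb
  cases B <;> cases y <;> simp
  ring

/-- coefficients of the extra sieve -/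
noncomputable def mu (d : (P → Bool) → ℝ) (b : P → Bool) : ℝ :=
  ∑ B : P → Bool, d B * ∏ p : P, lkB (p:ℕ) (B p) (b p)

lemma GS_eq (d : (P → Bool) → ℝ) (y : P → Bool) :
    GS d y = ∑ b : P → Bool, mu d b * ∏ p : P, eb (b p) (y p) := by
  unfold GS mu
  rw [← basis_change d (fun (p : P) => lkB (p:ℕ)) (fun (p : P) b => eb b (y p))]
  refine Finset.sum_congr rfl fun B _ => ?_
  congr 1
  exact Finset.prod_congr rfl fun p _ => ker_eq _ _ _

/-- a nonzero coefficient lives on the primes outside `V` -/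
lemma mu_support {z V : ℕ} {b : P → Bool} (h : mu (cS z V) b ≠ 0) (p : P) (hp : b p = true) :
    ¬ (p:ℕ) ∣ V := by
  obtain ⟨B, _, hB⟩ := Finset.exists_ne_zero_of_sum_ne_zero h
  have h1 := left_ne_zero_of_mul hB
  have h2 := right_ne_zero_of_mul hB
  have h3 := Finset.prod_ne_zero_iff.1 h2 p (Finset.mem_univ p)
  have h4 : B p = true := by
    by_contra hcon
    apply h3
    simp [lkB, hp, hcon]
  exact (cS_support h1).1 p h4

/-- the sum of the coefficients -/
lemma sum_abs_mu_le {R z V : ℕ} (hP : ∀ p ∈ P, p.Prime) (hR : ∀ p ∈ P, p ≤ R) :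
    ∑ b : P → Bool, |mu (cS z V) b| ≤ z * LL R ^ 4 := by
  have hP2 : ∀ p ∈ P, 2 ≤ p := fun p hp => (hP p hp).two_le
  have h1 : ∑ b : P → Bool, |mu (cS z V) b| ≤
      ∑ B : P → Bool, cS z V B * ∏ p : P, (if B p then 1 + ((p:ℕ):ℝ) else 1) := by
    have e1 : ∀ b : P → Bool, |mu (cS z V) b| ≤
        ∑ B : P → Bool, cS z V B * ∏ p : P, |lkB (p:ℕ) (B p) (b p)| := by
      intro b
      unfold mu
      refine (Finset.abs_sum_le_sum_abs _ _).trans (le_of_eq ?_)
      refine Finset.sum_congr rfl fun B _ => ?_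
      rw [abs_mul, abs_of_nonneg (cS_nonneg hP2 z V B), Finset.abs_prod]
    refine (Finset.sum_le_sum fun b _ => e1 b).trans (le_of_eq ?_)
    rw [Finset.sum_comm]
    refine Finset.sum_congr rfl fun B _ => ?_
    rw [← Finset.mul_sum]
    congr 1
    have e2 := (Finset.prod_univ_sum (fun _ : P => (Finset.univ : Finset Bool))
      (fun (p : P) b => |lkB (p:ℕ) (B p) b|)).symm
    rw [Fintype.piFinset_univ] at e2
    rw [e2]
    refine Finset.prod_congr rfl fun p _ => ?_
    rw [Fintype.sum_bool]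
    unfold lkB
    by_cases h : B p = true
    · simp [h]
      ring
    · simp [h]
  refine h1.trans ?_
  have h2 : ∀ B : P → Bool, cS z V B * ∏ p : P, (if B p then 1 + ((p:ℕ):ℝ) else 1) ≤
      z * pm (fun p => (3:ℝ) / p) B := by
    intro B
    have hpm0 : 0 ≤ pm (fun p => (3:ℝ) / p) B := pm_nonneg (fun p _ => by positivity) B
    unfold cS
    split_ifs with h
    · have h3 : (val B : ℝ) ≤ z := by exact_mod_cast (by omega : val B ≤ z)
      refine le_trans ?_ (mul_le_mul_of_nonneg_right h3 hpm0)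
      unfold pm Maynard.val
      push_cast
      rw [← Finset.prod_mul_distrib, ← Finset.prod_mul_distrib]
      refine Finset.prod_le_prod (fun p _ => ?_) fun p _ => ?_
      · have : (2:ℝ) ≤ (p:ℕ) := by exact_mod_cast hP2 p p.2
        split_ifs
        · exact mul_nonneg (div_nonneg zero_le_one (by linarith)) (by linarith)
        · norm_num
      · have h5 : (2:ℝ) ≤ (p:ℕ) := by exact_mod_cast hP2 p p.2
        split_ifs
        · have h6 : (0:ℝ) < ((p:ℕ):ℝ) - 1 := by linarith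
          have h7 : ((p:ℕ):ℝ) * (3 / ((p:ℕ):ℝ)) = 3 := by field_simp
          rw [h7, one_div, inv_mul_le_iff₀ h6]
          linarith
        · norm_num
    · rw [zero_mul]
      exact mul_nonneg (Nat.cast_nonneg _) hpm0
  refine (Finset.sum_le_sum fun B _ => h2 B).trans ?_
  rw [← Finset.mul_sum]
  refine mul_le_mul_of_nonneg_left ?_ (Nat.cast_nonneg _)
  have h3 : ∑ B : P → Bool, pm (fun p => (3:ℝ) / p) B = ∏ p ∈ P, (1 + ((3:ℕ):ℝ) / p) := by
    unfold pm
    have e2 := (Finset.prod_univ_sum (fun _ : P => (Finset.univ : Finset Bool))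
      (fun (p : P) b => (if b then (3:ℝ) / ((p:ℕ):ℝ) else 1))).symm
    rw [Fintype.piFinset_univ] at e2
    rw [e2, ← Finset.prod_coe_sort P (fun p => 1 + ((3:ℕ):ℝ) / p)]
    refine Finset.prod_congr rfl fun p _ => ?_
    rw [Fintype.sum_bool]
    simp
    ring
  rw [h3]
  refine (prod_inv_le hP hR 3).trans ?_
  exact pow_le_pow_right₀ (LL_ge_one R) (by norm_num)

end Pool.Agent.PosProp
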