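import Pool.Agent.Lib.Maynard.Harm

/-!
# Good tuples (interface of the modules PP7, PP8, PP9, PP10)
-/

open Finset

namespace Pool.Agent.PosProp

open Pool.Agent.Maynard

open Classical in
/-- the primes below `K0` and the primes `≤ H` for which two of the shifts coincide -/
noncomputable def badP (K0 H : ℕ) {k : ℕ} (h : Fin k → ℕ) : Finset ℕ :=
  (range (max K0 (H + 1))).filter
    (fun p => p.Prime ∧ (p < K0 ∨ ∃ i j, i ≠ j ∧ h i ≡ h j [MOD p]))

/-- the modulus attached to a tuple -/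
noncomputable def Wt (q K0 H : ℕ) {k : ℕ} (h : Fin k → ℕ) : ℕ := q * ∏ p ∈ badP K0 H h, p

open Classical in
/-- good tuples of shifts -/
structure GoodT (CT : ℝ) (q K0 H : ℕ) {k : ℕ} (h : Fin k → ℕ) : Prop where
  inj : Function.Injective h
  pos : ∀ i, 1 ≤ h i
  le : ∀ i, h i ≤ H
  dvd : ∀ i, q * primorial k ∣ h i
  small : ∑ p ∈ (badP K0 H h).filter (fun p => K0 ≤ p ∧ ¬ p ∣ q), 1 / (p:ℝ) ≤ 1 / 2
  oth : ∀ a : ℕ, ∑ h' ∈ (Icc 1 H).filter
      (fun h' => h' ∉ Set.range h ∧ (a + h').Coprime (q * primorial (K0 - 1))),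
      ∏ p ∈ (∏ i, Nat.dist (h i) h').primeFactors.filter (fun p => ¬ p ∣ Wt q K0 H h),
        (1 - 1 / (p:ℝ))⁻¹ ≤ CT * cW (q * primorial (K0 - 1)) * H

end Pool.Agent.PosProp
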