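import Pool.Agent.Lib.Maynard.Model

/-!
# Local inequality for one extra shift

The `k` shifts `n + h i` carry the Maynard kernels `ps`, the extra shift `n + h'` carries the
Selberg kernel `1 - p 1[p ∣ n + h']`.
-/

open Finset

namespace Pool.Agent.PosProp

open Pool.Agent.Maynard

/-- colour of a prime among the `n + h i`, and a flag for the extra shift -/
abbrev X2 (k : ℕ) : Type := Option (Fin k) × Bool

/-- kernel; `s` says whether the prime is used for the extra shift -/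
noncomputable def ps2 {k : ℕ} (s : Bool) (p : ℕ) (x y : X2 k) : ℝ :=
  ps p x.1 y.1 * (if x.2 then (if s then (if y.2 then 1 - (p:ℝ) else 1) else 0) else 1)

/-- probabilities of the outcomes -/
noncomputable def wx (s : Bool) (k p : ℕ) (y : X2 k) : ℝ :=
  if y.2 then (if s = true ∧ y.1 = none then 1 / (p:ℝ) else 0)
  else (if y.1 = none then 1 - ((k:ℝ) + (if s then 1 else 0)) / p else 1 / p)

/-- the enlarged prime -/
noncomputable def qp (k p : ℕ) : ℝ := (p:ℝ) + 32 * ((k:ℝ) + 1)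

/-- bound factors -/
noncomputable def kap (k p : ℕ) (x : X2 k) : ℝ :=
  (1 + 4 * ((k:ℝ) + 1) / (p:ℝ) ^ 2) *
    ((if x.1 = none then 1 else qp k p) * (if x.2 then qp k p else 1))

lemma qp_nonneg (k p : ℕ) : 0 ≤ qp k p := by unfold qp; positivity

lemma kap_nonneg (k p : ℕ) (x : X2 k) : 0 ≤ kap k p x := by
  have := qp_nonneg k p
  unfold kap
  refine mul_nonneg (by positivity) (mul_nonneg ?_ ?_)
  · split_ifs <;> positivity
  · split_ifs <;> positivity

lemma wx_nonneg {s : Bool} {k p : ℕ} (hp : k + 1 ≤ p) (y : X2 k) : 0 ≤ wx s k p y := by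
  have hp0 : (0:ℝ) < p := by exact_mod_cast (by omega : 0 < p)
  have hp1 : (k:ℝ) + 1 ≤ p := by exact_mod_cast hp
  unfold wx
  split_ifs
  · positivity
  · exact le_rfl
  · rw [sub_nonneg, div_le_one hp0]; linarith
  · rw [sub_nonneg, div_le_one hp0]; linarith
  · positivity

/-- the scalar inequality -/
lemma arith2 {k p a b SA SB QA QB AB : ℝ} (hk : 1 ≤ k) (hp : 8 * k ≤ p)
    (hSA : SA ^ 2 ≤ k * QA) (hSB : SB ^ 2 ≤ k * QB) (hQA : 0 ≤ QA) (hQB : 0 ≤ QB)
    (hAB : ∀ t : ℝ, 0 < t → 2 * AB ≤ t * QA + QB / t) :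
    a ^ 2 + p * QA + (p - 1) * b ^ 2 + p * QB + (p - 3) * SB ^ 2 - SA ^ 2 - 2 * a * SB
      - 4 * SA * SB - 2 * b * SA + 2 * p * AB + 2 * (p - 2) * b * SB ≤
    (1 + 4 * k / p ^ 2) * (a ^ 2 + (p + 32 * k) * QA + (p + 32 * k) * b ^ 2 +
      (p + 32 * k) ^ 2 * QB) := by
  have hp0 : 0 < p := by linarith
  have hk0 : 0 < k := by linarith
  -- the pieces
  have h1 : -(2 * a * SB) ≤ 4 * k / p ^ 2 * a ^ 2 + p ^ 2 / 4 * QB := by
    have e : 0 ≤ (2 * k / p * a + p / 2 * SB) ^ 2 := sq_nonneg _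
    have e1 : (2 * k / p * a + p / 2 * SB) ^ 2 =
        k * (4 * k / p ^ 2 * a ^ 2) + 2 * k * a * SB + p ^ 2 / 4 * SB ^ 2 := by
      field_simp; ring
    have e2 : p ^ 2 / 4 * SB ^ 2 ≤ p ^ 2 / 4 * (k * QB) :=
      mul_le_mul_of_nonneg_left hSB (by positivity)
    have e3 : k * (-(2 * a * SB)) ≤ k * (4 * k / p ^ 2 * a ^ 2 + p ^ 2 / 4 * QB) := by
      nlinarith
    exact le_of_mul_le_mul_left e3 hk0
  have h2 : -(4 * SA * SB) ≤ 2 * k * QA + 2 * k * QB := by
    nlinarith [sq_nonneg (SA + SB)]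
  have h3 : -(2 * b * SA) ≤ k * b ^ 2 + QA := by
    have e : 0 ≤ (k * b + SA) ^ 2 := sq_nonneg _
    have e3 : k * (-(2 * b * SA)) ≤ k * (k * b ^ 2 + QA) := by nlinarith
    exact le_of_mul_le_mul_left e3 hk0
  have h4 : 2 * p * AB ≤ 8 * k * QA + p ^ 2 / (8 * k) * QB := by
    have e := hAB (8 * k / p) (by positivity)
    have e1 : p * (8 * k / p * QA + QB / (8 * k / p)) = 8 * k * QA + p ^ 2 / (8 * k) * QB := by
      field_simp
    have e2 : p * (2 * AB) ≤ p * (8 * k / p * QA + QB / (8 * k / p)) :=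
      mul_le_mul_of_nonneg_left e hp0.le
    rw [e1] at e2
    linarith
  have h5 : 2 * (p - 2) * b * SB ≤ 8 * k * b ^ 2 + p ^ 2 / 8 * QB := by
    have e : 0 ≤ (8 * k * b - (p - 2) * SB) ^ 2 := sq_nonneg _
    have e1 : (p - 2) ^ 2 * SB ^ 2 ≤ p ^ 2 * (k * QB) := by
      refine mul_le_mul ?_ hSB (sq_nonneg _) (by positivity)
      nlinarith
    have e3 : 8 * k * (2 * (p - 2) * b * SB) ≤ 8 * k * (8 * k * b ^ 2 + p ^ 2 / 8 * QB) := by
      nlinarith
    exact le_of_mul_le_mul_left e3 (by positivity)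
  have h6 : (p - 3) * SB ^ 2 ≤ p * (k * QB) := by
    have e1 : (p - 3) * SB ^ 2 ≤ p * SB ^ 2 := mul_le_mul_of_nonneg_right (by linarith) (sq_nonneg _)
    exact e1.trans (mul_le_mul_of_nonneg_left hSB hp0.le)
  have h7 : p ^ 2 / (8 * k) * QB ≤ p ^ 2 / 8 * QB := by
    refine mul_le_mul_of_nonneg_right ?_ hQB
    refine div_le_div_of_nonneg_left (by positivity) (by norm_num) (by linarith)
  have h8 : (p - 1) * b ^ 2 ≤ p * b ^ 2 := mul_le_mul_of_nonneg_right (by linarith) (sq_nonneg _)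
  have hSA0 : 0 ≤ SA ^ 2 := sq_nonneg _
  -- the right side
  have hfac : 0 ≤ 4 * k / p ^ 2 := by positivity
  have hR : a ^ 2 + 4 * k / p ^ 2 * a ^ 2 + (p + 32 * k) * QA + (p + 32 * k) * b ^ 2 +
      (p + 32 * k) ^ 2 * QB ≤ (1 + 4 * k / p ^ 2) * (a ^ 2 + (p + 32 * k) * QA +
      (p + 32 * k) * b ^ 2 + (p + 32 * k) ^ 2 * QB) := by
    have : 0 ≤ 4 * k / p ^ 2 * ((p + 32 * k) * QA + (p + 32 * k) * b ^ 2 +
      (p + 32 * k) ^ 2 * QB) := by positivity
    linarith
  refine le_trans ?_ hR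
  have h9 : (p + k * p + 2 * k) * QB ≤ p ^ 2 / 2 * QB := by
    refine mul_le_mul_of_nonneg_right ?_ hQB
    nlinarith
  have h10 : p ^ 2 * QB ≤ (p + 32 * k) ^ 2 * QB := by
    refine mul_le_mul_of_nonneg_right ?_ hQB
    nlinarith
  have hb : 0 ≤ b ^ 2 := sq_nonneg _
  nlinarith

/-- sum over `X2` -/
lemma sum_X2 {k : ℕ} (f : X2 k → ℝ) :
    ∑ x, f x = f (none, false) + f (none, true) + ∑ i : Fin k, f (some i, false) +
      ∑ i : Fin k, f (some i, true) := by
  rw [Fintype.sum_prod_type, Fintype.sum_option]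
  simp only [Fintype.sum_bool]
  rw [Finset.sum_add_distrib]
  ring

lemma ps2_nf {k : ℕ} (s : Bool) (p : ℕ) (y : X2 k) : ps2 s p (none, false) y = 1 := by
  simp [ps2, ps_none]

/-- value of the kernel sum -/
lemma sum_ps2 {k : ℕ} (p : ℕ) (a : X2 k → ℝ) (y : X2 k) :
    ∑ x, a x * ps2 true p x y =
      (a (none, false) + ∑ i : Fin k, a (some i, false) * ps p (some i) y.1) +
      (a (none, true) + ∑ i : Fin k, a (some i, true) * ps p (some i) y.1) *
        (if y.2 then 1 - (p:ℝ) else 1) := by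
  rw [sum_X2]
  simp only [ps2, ps_none, if_true, Bool.false_eq_true, if_false, mul_one, one_mul]
  rw [add_mul, Finset.sum_mul]
  have : ∀ i : Fin k, a (some i, true) * (ps p (some i) y.1 * (if y.2 = true then 1 - (p:ℝ) else 1)) =
      a (some i, true) * ps p (some i) y.1 * (if y.2 = true then 1 - (p:ℝ) else 1) :=
    fun i => by ring
  simp_rw [this]
  ring

lemma sum_ps_none {k : ℕ} (p : ℕ) (c : Fin k → ℝ) :
    ∑ i : Fin k, c i * ps p (some i) (none : Option (Fin k)) = ∑ i, c i := by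
  refine Finset.sum_congr rfl fun i _ => ?_
  simp [ps_some]

lemma sum_ps_some {k : ℕ} (p : ℕ) (c : Fin k → ℝ) (j : Fin k) :
    ∑ i : Fin k, c i * ps p (some i) (some j) = (∑ i, c i) - p * c j := by
  have : ∀ i : Fin k, c i * ps p (some i) (some j) = c i - if i = j then (p:ℝ) * c i else 0 := by
    intro i
    rw [ps_some]
    simp only [Option.some.injEq]
    split_ifs <;> ring
  simp_rw [this]
  rw [Finset.sum_sub_distrib, Finset.sum_ite_eq']
  simp

/-- the local inequality at a prime used for the extra shift -/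
lemma local_true {k p : ℕ} (hp : 8 * (k + 1) ≤ p) (a : X2 k → ℝ) :
    ∑ y, wx true k p y * (∑ x, a x * ps2 true p x y) ^ 2 ≤ ∑ x, kap k p x * a x ^ 2 := by
  have hp0 : (0:ℝ) < p := by exact_mod_cast (by omega : 0 < p)
  have hp8 : 8 * ((k:ℝ) + 1) ≤ p := by exact_mod_cast hp
  set A : Fin k → ℝ := fun i => a (some i, false) with hA
  set B : Fin k → ℝ := fun i => a (some i, true) with hB
  set SA := ∑ i, A i with hSA
  set SB := ∑ i, B i with hSB
  set QA := ∑ i, A i ^ 2 with hQA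
  set QB := ∑ i, B i ^ 2 with hQB
  set AB := ∑ i, A i * B i with hAB
  set u := a (none, false) with hu
  set v := a (none, true) with hv
  have hcs : ∀ c : Fin k → ℝ, (∑ i, c i) ^ 2 ≤ ((k:ℝ) + 1) * ∑ i, c i ^ 2 := by
    intro c
    have h1 := sq_sum_le_card_mul_sum_sq (s := (Finset.univ : Finset (Fin k))) (f := c)
    simp only [Finset.card_univ, Fintype.card_fin] at h1
    have h2 : 0 ≤ ∑ i, c i ^ 2 := Finset.sum_nonneg fun i _ => sq_nonneg _
    linarith
  have hL : ∑ y, wx true k p y * (∑ x, a x * ps2 true p x y) ^ 2 =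
      u ^ 2 + p * QA + (p - 1) * v ^ 2 + p * QB + (p - 3) * SB ^ 2 - SA ^ 2 - 2 * u * SB
      - 4 * SA * SB - 2 * v * SA + 2 * p * AB + 2 * (p - 2) * v * SB := by
    rw [sum_X2]
    simp_rw [sum_ps2]
    simp only [wx, if_true, Bool.false_eq_true, if_false, reduceCtorEq, and_true, and_false,
      zero_mul, Finset.sum_const_zero, add_zero, mul_one]
    rw [sum_ps_none, sum_ps_none]
    simp_rw [sum_ps_some]
    have e : ∀ i : Fin k, 1 / (p:ℝ) * (a (none, false) + ((∑ i, a (some i, false)) - p * a (some i, false)) +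
        (a (none, true) + ((∑ i, a (some i, true)) - p * a (some i, true)))) ^ 2 =
        1 / (p:ℝ) * (u + SA + v + SB) ^ 2 - 2 * (u + SA + v + SB) * (A i + B i) +
          p * (A i ^ 2 + 2 * (A i * B i) + B i ^ 2) := by
      intro i
      simp only [← hu, ← hv]
      change 1 / (p:ℝ) * (u + (SA - p * A i) + (v + (SB - p * B i))) ^ 2 = _
      field_simp
      ring
    simp_rw [e]
    rw [Finset.sum_add_distrib, Finset.sum_sub_distrib, Finset.sum_const, Finset.card_univ,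
      Fintype.card_fin, nsmul_eq_mul, ← Finset.mul_sum, ← Finset.mul_sum, Finset.sum_add_distrib,
      Finset.sum_add_distrib, Finset.sum_add_distrib, ← Finset.mul_sum]
    change (1 - ((k:ℝ) + 1) / p) * (u + SA + (v + SB)) ^ 2 +
      1 / (p:ℝ) * (u + SA + (v + SB) * (1 - p)) ^ 2 + (k * (1 / (p:ℝ) * (u + SA + v + SB) ^ 2) -
      2 * (u + SA + v + SB) * (SA + SB) + p * (QA + 2 * AB + QB)) = _
    field_simp
    ring
  have hR : ∑ x, kap k p x * a x ^ 2 = (1 + 4 * ((k:ℝ) + 1) / (p:ℝ) ^ 2) *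
      (u ^ 2 + (p + 32 * ((k:ℝ) + 1)) * QA + (p + 32 * ((k:ℝ) + 1)) * v ^ 2 +
      (p + 32 * ((k:ℝ) + 1)) ^ 2 * QB) := by
    rw [sum_X2]
    simp only [kap, if_true, Bool.false_eq_true, if_false, reduceCtorEq, mul_one, one_mul]
    rw [← Finset.mul_sum, ← Finset.mul_sum]
    change (1 + 4 * ((k:ℝ) + 1) / (p:ℝ) ^ 2) * u ^ 2 +
      (1 + 4 * ((k:ℝ) + 1) / (p:ℝ) ^ 2) * qp k p * v ^ 2 +
      (1 + 4 * ((k:ℝ) + 1) / (p:ℝ) ^ 2) * qp k p * QA +
      (1 + 4 * ((k:ℝ) + 1) / (p:ℝ) ^ 2) * (qp k p * qp k p) * QB = _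
    unfold qp
    ring
  rw [hL, hR]
  refine arith2 (by linarith [(Nat.cast_nonneg k : (0:ℝ) ≤ k)]) hp8 (hcs A) (hcs B)
    (Finset.sum_nonneg fun i _ => sq_nonneg _) (Finset.sum_nonneg fun i _ => sq_nonneg _) ?_
  intro t ht
  rw [hAB, hQA, hQB, Finset.mul_sum, Finset.mul_sum, Finset.sum_div, ← Finset.sum_add_distrib]
  refine Finset.sum_le_sum fun i _ => ?_
  have h1 : 0 ≤ (t * A i - B i) ^ 2 / t := by positivity
  have h2 : (t * A i - B i) ^ 2 / t = t * A i ^ 2 - 2 * (A i * B i) + B i ^ 2 / t := by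
    field_simp
    ring
  linarith

/-- the local inequality at a prime not used for the extra shift -/
lemma local_false {k p : ℕ} (hp : 0 < p) (a : X2 k → ℝ) :
    ∑ y, wx false k p y * (∑ x, a x * ps2 false p x y) ^ 2 ≤ ∑ x, kap k p x * a x ^ 2 := by
  have h1 : ∀ y : X2 k, ∑ x, a x * ps2 false p x y =
      ∑ x : Option (Fin k), a (x, false) * ps p x y.1 := by
    intro y
    rw [sum_X2, Fintype.sum_option]
    simp [ps2, ps_none]
  simp_rw [h1]
  have h2 : ∑ y : X2 k, wx false k p y * (∑ x : Option (Fin k), a (x, false) * ps p x y.1) ^ 2 =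
      ∑ y : Option (Fin k), w1 k p y * (∑ x : Option (Fin k), a (x, false) * ps p x y) ^ 2 := by
    rw [sum_X2, Fintype.sum_option]
    simp [wx, w1]
  rw [h2]
  refine (local_upper hp (fun x => a (x, false))).trans ?_
  rw [sum_X2, Fintype.sum_option]
  simp only [if_true, reduceCtorEq, if_false]
  have hf : (1:ℝ) ≤ 1 + 4 * ((k:ℝ) + 1) / (p:ℝ) ^ 2 := by
    have : 0 ≤ 4 * ((k:ℝ) + 1) / (p:ℝ) ^ 2 := by positivity
    linarith
  have hq : (p:ℝ) ≤ qp k p := by
    unfold qp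
    have : (0:ℝ) ≤ k := Nat.cast_nonneg k
    linarith
  have hpp : (0:ℝ) ≤ p := Nat.cast_nonneg p
  have e1 : 1 * a (none, false) ^ 2 ≤ kap k p (none, false) * a (none, false) ^ 2 := by
    refine mul_le_mul_of_nonneg_right ?_ (sq_nonneg _)
    simp only [kap, if_true, Bool.false_eq_true, if_false, mul_one]
    exact hf
  have e2 : ∑ i : Fin k, (p:ℝ) * a (some i, false) ^ 2 ≤
      ∑ i : Fin k, kap k p (some i, false) * a (some i, false) ^ 2 := by
    refine Finset.sum_le_sum fun i _ => mul_le_mul_of_nonneg_right ?_ (sq_nonneg _)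
    simp only [kap, reduceCtorEq, Bool.false_eq_true, if_false, mul_one]
    calc (p:ℝ) = 1 * p := (one_mul _).symm
      _ ≤ _ := mul_le_mul hf hq hpp (by linarith)
  have e3 : 0 ≤ kap k p (none, true) * a (none, true) ^ 2 :=
    mul_nonneg (kap_nonneg _ _ _) (sq_nonneg _)
  have e4 : 0 ≤ ∑ i : Fin k, kap k p (some i, true) * a (some i, true) ^ 2 :=
    Finset.sum_nonneg fun i _ => mul_nonneg (kap_nonneg _ _ _) (sq_nonneg _)
  linarith

variable {P : Finset ℕ} {k : ℕ}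

/-- the product model with one extra shift; `s p` says whether `p` is used for it -/
theorem EG2_upper (hk : ∀ p ∈ P, 8 * (k + 1) ≤ p) (s : ℕ → Bool) (c : (P → X2 k) → ℝ) :
    ∑ y : P → X2 k, (∏ p : P, wx (s p) k (p:ℕ) (y p)) *
      (∑ x : P → X2 k, c x * ∏ p : P, ps2 (s p) (p:ℕ) (x p) (y p)) ^ 2 ≤
    ∑ x : P → X2 k, (∏ p : P, kap k (p:ℕ) (x p)) * c x ^ 2 := by
  refine tensor_le (fun (p : P) y => wx (s p) k (p:ℕ) y) (fun p y => ?_)
    (fun (p : P) x => kap k (p:ℕ) x) (fun p x => kap_nonneg _ _ _)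
    (fun (p : P) => ps2 (s p) (p:ℕ)) (fun p a => ?_) c
  · exact wx_nonneg (by have := hk p p.2; omega) y
  · have h := hk p p.2
    cases hs : s p with
    | true => exact local_true h a
    | false => exact local_false (by omega) a

end Pool.Agent.PosProp
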