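import Pool.Agent.PosProp.Other1
import Pool.Agent.PosProp.Count2

/-!
# Tests of divisibility for the Maynard weight and one extra shift
-/

open Finset

namespace Pool.Agent.PosProp

open Pool.Agent.Maynard

variable {P : Finset ℕ} {k : ℕ}

/-- colours of `n`, with the flag of the extra shift -/
noncomputable def J2 (h : Fin k → ℕ) (h' V n : ℕ) : P → X2 k :=
  fun p => (JJ h n p, decide (¬ (p:ℕ) ∣ V ∧ (p:ℕ) ∣ n + h'))

/-- merged test -/
noncomputable def tst (z z' : Option (Fin k)) (b b' : Bool) (y : X2 k) : ℝ :=
  (el z y.1 * eb b y.2) * (el z' y.1 * eb b' y.2)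

/-- the shift tested at a prime -/
def tau (h : Fin k → ℕ) (h' : ℕ) (z z' : Option (Fin k)) (b b' : Bool) : Option ℕ :=
  if b = true ∨ b' = true then some h' else (mg z z').map h

/-- consistency at a prime -/
def cons (s : Bool) (z z' : Option (Fin k)) (b b' : Bool) : Prop :=
  (z = none ∨ z' = none ∨ z = z') ∧ (b = true ∨ b' = true → s = true ∧ z = none ∧ z' = none)

lemma tst_val (z z' : Option (Fin k)) (b b' : Bool) (y : X2 k) :
    tst z z' b b' y = if (z = none ∨ z = y.1) ∧ (z' = none ∨ z' = y.1) ∧ (b = true → y.2 = true) ∧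
      (b' = true → y.2 = true) then 1 else 0 := by
  unfold tst el eb
  by_cases h1 : z = none ∨ z = y.1
  · by_cases h2 : z' = none ∨ z' = y.1
    · cases b <;> cases b' <;> cases h3 : y.2 <;> simp [h1, h2]
    · simp [h1, h2]
  · simp [h1]

/-- the test at `n` -/
lemma tst_J2 {h : Fin k → ℕ} {h' V : ℕ} (hsep : Sep P h)
    (n : ℕ) (p : P) {z z' : Option (Fin k)} {b b' : Bool}
    (hc : cons (decide (¬ (p:ℕ) ∣ V)) z z' b b') :
    tst z z' b b' (J2 (P := P) h h' V n p) =
      if (∀ t, tau h h' z z' b b' = some t → (p:ℕ) ∣ n + t) then 1 else 0 := by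
  rw [tst_val]
  refine if_congr ?_ rfl rfl
  obtain ⟨hc1, hc2⟩ := hc
  have hJ := fun i => JJ_eq_some hsep n p i
  simp only [J2, tau]
  by_cases hb : b = true ∨ b' = true
  · obtain ⟨h1, h2, h3⟩ := hc2 hb
    subst h2 h3
    simp only [decide_eq_true_eq] at h1
    rw [if_pos hb]
    simp only [true_or, true_and, decide_eq_true_eq, h1, not_false_eq_true,
      Option.some.injEq]
    constructor
    · rintro ⟨h4, h5⟩ t rfl
      rcases hb with hb | hb
      · exact h4 hb
      · exact h5 hb
    · intro h4
      exact ⟨fun _ => h4 h' rfl, fun _ => h4 h' rfl⟩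
  · rw [if_neg hb]
    push Not at hb
    have hb1 : b = false := by simpa using hb.1
    have hb2 : b' = false := by simpa using hb.2
    subst hb1 hb2
    simp only [Bool.false_eq_true, false_implies, and_true]
    cases z with
    | none =>
      cases z' with
      | none => simp [mg]
      | some j => simp [mg, hJ]
    | some i =>
      cases z' with
      | none => simp [mg, hJ]
      | some j =>
        rcases hc1 with h | h | h
        · exact absurd h (by simp)
        · exact absurd h (by simp)
        · rw [h]; simp [mg, hJ]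

/-- the test vanishes at `n` if it is inconsistent -/
lemma tst_J2_zero {h : Fin k → ℕ} {h' V : ℕ} (hsep : Sep P h)
    (hVP : ∀ p ∈ P, (∃ i, h' ≡ h i [MOD p]) → p ∣ V)
    (n : ℕ) (p : P) {z z' : Option (Fin k)} {b b' : Bool}
    (hc : ¬ cons (decide (¬ (p:ℕ) ∣ V)) z z' b b') :
    tst z z' b b' (J2 (P := P) h h' V n p) = 0 := by
  rw [tst_val, if_neg]
  rintro ⟨h1, h2, h3, h4⟩
  apply hc
  simp only [J2] at h1 h2 h3 h4
  refine ⟨?_, fun hb => ?_⟩
  · rcases h1 with h1 | h1
    · exact Or.inl h1
    · rcases h2 with h2 | h2
      · exact Or.inr (Or.inl h2)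
      · exact Or.inr (Or.inr (h1.trans h2.symm))
  · have hy : decide (¬ (p:ℕ) ∣ V ∧ (p:ℕ) ∣ n + h') = true := by
      rcases hb with hb | hb
      · exact h3 hb
      · exact h4 hb
    simp only [decide_eq_true_eq] at hy ⊢
    have hno : ∀ i, some i ≠ JJ (P := P) h n p := by
      intro i hi
      rw [JJ_eq_some hsep] at hi
      apply hy.1
      refine hVP p p.2 ⟨i, ?_⟩
      have e1 : n + h' ≡ n + h i [MOD p] :=
        ((Nat.modEq_zero_iff_dvd).2 hy.2).trans ((Nat.modEq_zero_iff_dvd).2 hi).symm
      exact Nat.ModEq.add_left_cancel' n e1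
    refine ⟨hy.1, ?_, ?_⟩
    · rcases h1 with h1 | h1
      · exact h1
      · cases z with
        | none => rfl
        | some i => exact absurd h1 (hno i)
    · rcases h2 with h2 | h2
      · exact h2
      · cases z' with
        | none => rfl
        | some i => exact absurd h2 (hno i)

/-- expectation of the test in the model -/
lemma tst_model {s : Bool} {p : ℕ} (hp : 0 < p) {h : Fin k → ℕ} {h' : ℕ} {z z' : Option (Fin k)}
    {b b' : Bool} (hc : cons s z z' b b') :
    ∑ y, wx s k p y * tst z z' b b' y =
      if tau h h' z z' b b' = none then 1 else 1 / (p:ℝ) := by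
  have hp' : (0:ℝ) < p := by exact_mod_cast hp
  obtain ⟨hc1, hc2⟩ := hc
  rw [sum_X2]
  by_cases hb : b = true ∨ b' = true
  · obtain ⟨h1, h2, h3⟩ := hc2 hb
    subst h1 h2 h3
    unfold tau
    rw [if_pos hb]
    have e : ∀ y1 : Option (Fin k), tst none none b b' (y1, false) = 0 := by
      intro y1
      rw [tst_val, if_neg]
      rintro ⟨_, _, h3, h4⟩
      rcases hb with hb | hb
      · exact absurd (h3 hb) (by simp)
      · exact absurd (h4 hb) (by simp)
    have e2 : tst (none : Option (Fin k)) none b b' (none, true) = 1 := by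
      rw [tst_val, if_pos]
      simp
    simp only [e, e2, wx]
    simp
  · push Not at hb
    have hb1 : b = false := by simpa using hb.1
    have hb2 : b' = false := by simpa using hb.2
    subst hb1 hb2
    have e0 : tau h h' z z' false false = (mg z z').map h := by
      unfold tau
      simp
    rw [e0]
    have e : ∀ (y1 : Option (Fin k)) (y2 : Bool), tst z z' false false (y1, y2) =
        if (z = none ∨ z = y1) ∧ (z' = none ∨ z' = y1) then 1 else 0 := by
      intro y1 y2
      rw [tst_val]
      simp
    simp only [e]
    cases z with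
    | none =>
      cases z' with
      | none =>
        cases s <;> simp [mg, wx]
        · field_simp
          ring
        · field_simp
          ring
      | some j =>
        cases s <;> simp [mg, wx]
    | some i =>
      cases z' with
      | none =>
        cases s <;> simp [mg, wx]
      | some j =>
        rcases hc1 with h | h | h
        · exact absurd h (by simp)
        · exact absurd h (by simp)
        · rw [h]
          cases s <;> simp [mg, wx]

/-- expectation of an inconsistent test -/
lemma tst_model_zero {s : Bool} {p : ℕ} {z z' : Option (Fin k)}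
    {b b' : Bool} (hc : ¬ cons s z z' b b') :
    ∑ y, wx s k p y * tst z z' b b' y = 0 := by
  refine Finset.sum_eq_zero fun y _ => ?_
  rw [tst_val]
  split_ifs with hy
  · obtain ⟨h1, h2, h3, h4⟩ := hy
    rw [mul_one]
    by_contra hw
    apply hc
    refine ⟨?_, fun hb => ?_⟩
    · rcases h1 with h1 | h1
      · exact Or.inl h1
      · rcases h2 with h2 | h2
        · exact Or.inr (Or.inl h2)
        · exact Or.inr (Or.inr (h1.trans h2.symm))
    · have hy2 : y.2 = true := by
        rcases hb with hb | hb
        · exact h3 hb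
        · exact h4 hb
      unfold wx at hw
      rw [if_pos hy2] at hw
      have hs : s = true ∧ y.1 = none := by
        by_contra hcon
        exact hw (if_neg hcon)
      refine ⟨hs.1, ?_, ?_⟩
      · rcases h1 with h1 | h1
        · exact h1
        · rw [h1]; exact hs.2
      · rcases h2 with h2 | h2
        · exact h2
        · rw [h2]; exact hs.2
  · rw [mul_zero]

end Pool.Agent.PosProp
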