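import Pool.Agent.PosProp.Other3
import Pool.Agent.PosProp.Test2

/-!
# The Maynard weight on numbers `n` with `n + h'` rough
-/

open Finset

namespace Pool.Agent.PosProp

open Pool.Agent.Maynard

variable {P : Finset ℕ} {k : ℕ}

/-- the basic functions -/
noncomputable def ef (i : Col P k × (P → Bool)) (y : P → X2 k) : ℝ :=
  ∏ p : P, (el (i.1 p) (y p).1 * eb (i.2 p) (y p).2)

/-- the coefficients -/
noncomputable def Lf (z V Z T M : ℕ) (i : Col P k × (P → Bool)) : ℝ :=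
  lam (cc Z T M) i.1 * mu (cS z V) i.2

lemma sum_Lf (z V Z T M : ℕ) (y : P → X2 k) :
    ∑ i, Lf z V Z T M i * ef i y =
      GG (cc Z T M) (fun p => (y p).1) * GS (cS z V) (fun p => (y p).2) := by
  rw [GG_eq, GS_eq, Finset.sum_mul_sum, Fintype.sum_prod_type]
  refine Finset.sum_congr rfl fun u _ => Finset.sum_congr rfl fun v _ => ?_
  unfold Lf ef
  simp only
  rw [Finset.prod_mul_distrib]
  ring

lemma count_pair (hP : ∀ p ∈ P, p.Prime) {W V h' : ℕ} (hW : 0 < W) (hWP : ∀ p ∈ P, ¬ p ∣ W)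
    {h : Fin k → ℕ} (hsep : Sep P h) (hVP : ∀ p ∈ P, (∃ i, h' ≡ h i [MOD p]) → p ∣ V) (N a : ℕ)
    (i j : Col P k × (P → Bool)) :
    |∑ n ∈ (Ioc N (2 * N)).filter (fun n => n ≡ a [MOD W]),
        ef i (J2 h h' V n) * ef j (J2 h h' V n) -
      (N:ℝ) / W * ∑ y : P → X2 k, (∏ p : P, wx (decide (¬ (p:ℕ) ∣ V)) k (p:ℕ) (y p)) *
        (ef i y * ef j y)| ≤ 1 := by
  classical
  have h1 : ∀ y : P → X2 k, ef i y * ef j y =
      ∏ p : P, tst (i.1 p) (j.1 p) (i.2 p) (j.2 p) (y p) := by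
    intro y
    unfold ef tst
    rw [← Finset.prod_mul_distrib]
  have h2 : ∑ y : P → X2 k, (∏ p : P, wx (decide (¬ (p:ℕ) ∣ V)) k (p:ℕ) (y p)) *
        (ef i y * ef j y) =
      ∏ p : P, ∑ y, wx (decide (¬ (p:ℕ) ∣ V)) k (p:ℕ) y *
        tst (i.1 p) (j.1 p) (i.2 p) (j.2 p) y := by
    rw [Finset.prod_univ_sum, Fintype.piFinset_univ]
    refine Finset.sum_congr rfl fun y _ => ?_
    rw [h1, Finset.prod_mul_distrib]
  rw [h2]
  simp_rw [h1]
  by_cases hc : ∀ p : P, cons (decide (¬ (p:ℕ) ∣ V)) (i.1 p) (j.1 p) (i.2 p) (j.2 p)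
  · have h3 : ∀ n, ∏ p : P, tst (i.1 p) (j.1 p) (i.2 p) (j.2 p) (J2 (P := P) h h' V n p) =
        if (∀ p : P, ∀ t, tau h h' (i.1 p) (j.1 p) (i.2 p) (j.2 p) = some t → (p:ℕ) ∣ n + t)
          then 1 else 0 := by
      intro n
      by_cases hall : ∀ p : P, ∀ t, tau h h' (i.1 p) (j.1 p) (i.2 p) (j.2 p) = some t →
          (p:ℕ) ∣ n + t
      · rw [if_pos hall]
        refine Finset.prod_eq_one fun p _ => ?_
        rw [tst_J2 hsep n p (hc p), if_pos (hall p)]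
      · rw [if_neg hall]
        push Not at hall
        obtain ⟨p, t, h4, h5⟩ := hall
        refine Finset.prod_eq_zero (Finset.mem_univ p) ?_
        rw [tst_J2 hsep n p (hc p), if_neg]
        exact fun h => h5 (h t h4)
    simp_rw [h3]
    have h4 : ∑ n ∈ (Ioc N (2 * N)).filter (fun n => n ≡ a [MOD W]),
        (if (∀ p : P, ∀ t, tau h h' (i.1 p) (j.1 p) (i.2 p) (j.2 p) = some t → (p:ℕ) ∣ n + t)
          then (1:ℝ) else 0) =
        (((Ioc N (2 * N)).filter (fun n => n ≡ a [MOD W] ∧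
        ∀ p : P, ∀ t, tau h h' (i.1 p) (j.1 p) (i.2 p) (j.2 p) = some t →
          (p:ℕ) ∣ n + t)).card : ℝ) := by
      rw [← Finset.sum_filter, Finset.sum_const, nsmul_eq_mul, mul_one, Finset.filter_filter]
    rw [h4]
    have h5 : ∏ p : P, ∑ y, wx (decide (¬ (p:ℕ) ∣ V)) k (p:ℕ) y *
        tst (i.1 p) (j.1 p) (i.2 p) (j.2 p) y =
        ∏ p : P, (if tau h h' (i.1 p) (j.1 p) (i.2 p) (j.2 p) = none then 1
          else 1 / ((p:ℕ):ℝ)) :=
      Finset.prod_congr rfl fun p _ => tst_model (hP p p.2).pos (hc p)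
    rw [h5]
    exact count_shifts hP hW hWP N a (fun p => tau h h' (i.1 p) (j.1 p) (i.2 p) (j.2 p))
  · push Not at hc
    obtain ⟨p, hp⟩ := hc
    have h3 : ∏ p : P, ∑ y, wx (decide (¬ (p:ℕ) ∣ V)) k (p:ℕ) y *
        tst (i.1 p) (j.1 p) (i.2 p) (j.2 p) y = 0 :=
      Finset.prod_eq_zero (Finset.mem_univ p) (tst_model_zero hp)
    have h4 : ∀ n, ∏ p : P, tst (i.1 p) (j.1 p) (i.2 p) (j.2 p) (J2 (P := P) h h' V n p) = 0 :=
      fun n => Finset.prod_eq_zero (Finset.mem_univ p) (tst_J2_zero hsep hVP n p hp)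
    rw [h3]
    simp_rw [h4]
    simp

/-- on rough numbers the extra sieve takes its total value -/
lemma GS_rough (hP : ∀ p ∈ P, p.Prime) {h : Fin k → ℕ} {h' V z n : ℕ}
    (hn : ∀ p ∈ P, p ≤ z → ¬ p ∣ V → ¬ p ∣ n + h') :
    GS (cS z V) (fun p => (J2 (P := P) h h' V n p).2) = totS P z V := by
  unfold GS totS
  refine Finset.sum_congr rfl fun B _ => ?_
  by_cases hB : cS z V B = 0
  · simp [hB]
  · obtain ⟨h1, h2, h3⟩ := cS_support hB
    have h4 : ∏ p : P, (if B p then (if (J2 (P := P) h h' V n p).2 then 1 - ((p:ℕ):ℝ) else 1)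
        else 1) = 1 := by
      refine Finset.prod_eq_one fun p _ => ?_
      by_cases hp : B p = true
      · have h5 : (p:ℕ) ≤ val B := by
          have h6 : (p:ℕ) ∣ val B := (prime_dvd_val hP B p).2 hp
          exact Nat.le_of_dvd (by omega) h6
        have h7 : (J2 (P := P) h h' V n p).2 = false := by
          simp only [J2, decide_eq_false_iff_not, not_and]
          intro _
          exact hn p p.2 (by omega) (h1 p hp)
        rw [if_pos hp, h7]
        simp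
      · rw [if_neg hp]
    rw [h4, mul_one]

/-- The Maynard weight of the `n` such that `n + h'` has no prime factor up to `z` outside `V`. -/
theorem other_shift {W K0 Z T M V z N a h' : ℕ} {h : Fin k → ℕ}
    (hS : Setting P W K0 (Z ^ M)) (hW : 0 < W) (hk : 2 ≤ k)
    (hK0 : 2 ^ (k + 10) * k ≤ K0) (hZ : 2 ≤ Z)
    (hZK : 64 * (k:ℝ) * KV W ≤ cW W * Real.log Z) (hsep : Sep P h)
    (hz : 2 ≤ z) (hzR : z ≤ Z ^ M) (hV : 0 < V) (hWV : W ∣ V)
    (hVP : ∀ p ∈ P, (∃ i, h' ≡ h i [MOD p]) → p ∣ V)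
    (hzK : 64 * KV V ≤ cW V * Real.log z) :
    ∑ n ∈ (Ioc N (2 * N)).filter (fun n => n ≡ a [MOD W] ∧
        ∀ p ∈ P, p ≤ z → ¬ p ∣ V → ¬ p ∣ n + h'), GG (cc Z T M) (JJ (P := P) h n) ^ 2 ≤
      (N:ℝ) / W * (16 * SS k W Z T / (cW V * Real.log z)) +
        ((Z:ℝ) ^ M * LL (Z ^ M) ^ (4 * k) * (z * LL (Z ^ M) ^ 4)) ^ 2 := by
  classical
  set A := (Ioc N (2 * N)).filter (fun n => n ≡ a [MOD W]) with hA
  have hcmp := compare2 (Lf (P := P) (k := k) z V Z T M) A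
    (fun i n => ef i (J2 h h' V n)) ef
    (fun y => ∏ p : P, wx (decide (¬ (p:ℕ) ∣ V)) k (p:ℕ) (y p)) ((N:ℝ) / W)
    (fun i j _ _ => count_pair hS.prime hW hS.ndvd hsep hVP N a i j)
  simp_rw [sum_Lf] at hcmp
  have hE2 : ∑ y : P → X2 k, (∏ p : P, wx (decide (¬ (p:ℕ) ∣ V)) k (p:ℕ) (y p)) *
    (GG (cc Z T M) (fun p => (y p).1) * GS (cS z V) (fun p => (y p).2)) ^ 2 =
      E2 P k V z Z T M := rfl
  rw [hE2] at hcmp
  -- the error
  have herr : ∑ i, |Lf (P := P) (k := k) z V Z T M i| ≤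
      (Z:ℝ) ^ M * LL (Z ^ M) ^ (4 * k) * (z * LL (Z ^ M) ^ 4) := by
    have e1 : ∑ i, |Lf (P := P) (k := k) z V Z T M i| =
        (∑ u : Col P k, |lam (cc Z T M) u|) * ∑ v : P → Bool, |mu (cS z V) v| := by
      rw [Finset.sum_mul_sum, Fintype.sum_prod_type]
      refine Finset.sum_congr rfl fun u _ => Finset.sum_congr rfl fun v _ => ?_
      unfold Lf
      rw [abs_mul]
    rw [e1]
    have hLL := LL_ge_one (Z ^ M)
    refine mul_le_mul (sum_abs_lam_le hS.prime hS.le hZ) (sum_abs_mu_le hS.prime hS.le)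
      (Finset.sum_nonneg fun _ _ => abs_nonneg _) (by positivity)
  have herr0 : 0 ≤ ∑ i, |Lf (P := P) (k := k) z V Z T M i| :=
    Finset.sum_nonneg fun _ _ => abs_nonneg _
  have hup : ∑ n ∈ A, (GG (cc Z T M) (fun p => (J2 (P := P) h h' V n p).1) *
      GS (cS z V) (fun p => (J2 (P := P) h h' V n p).2)) ^ 2 ≤
      (N:ℝ) / W * E2 P k V z Z T M +
        ((Z:ℝ) ^ M * LL (Z ^ M) ^ (4 * k) * (z * LL (Z ^ M) ^ 4)) ^ 2 := by
    have e1 := (abs_le.1 hcmp).2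
    have e2 := pow_le_pow_left₀ herr0 herr 2
    linarith
  -- the restricted sum
  set F := (Ioc N (2 * N)).filter (fun n => n ≡ a [MOD W] ∧
        ∀ p ∈ P, p ≤ z → ¬ p ∣ V → ¬ p ∣ n + h') with hF
  have hkk : k + 1 ≤ 2 ^ k := Nat.lt_two_pow_self
  have hK1 : 1000 ≤ K0 := by
    have : 1024 * 2 ^ k * 1 ≤ 2 ^ (k + 10) * k := by
      rw [pow_add]
      norm_num
      nlinarith
    omega
  have htot := totS_ge hS hV hWV hK1 hz hzR hzK
  set Lv := cW V * Real.log z with hLv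
  have hKV1 : 1 ≤ KV V := by
    unfold KV
    have := KW_pos hV
    linarith
  have hLv1 : 64 ≤ Lv := by linarith
  set t := totS P z V with ht
  have ht1 : 1 ≤ t := by linarith
  have hFA : F ⊆ A := by
    intro n hn
    rw [hF, Finset.mem_filter] at hn
    rw [hA, Finset.mem_filter]
    exact ⟨hn.1, hn.2.1⟩
  have hlow : t ^ 2 * ∑ n ∈ F, GG (cc Z T M) (JJ (P := P) h n) ^ 2 ≤
      ∑ n ∈ A, (GG (cc Z T M) (fun p => (J2 (P := P) h h' V n p).1) *
      GS (cS z V) (fun p => (J2 (P := P) h h' V n p).2)) ^ 2 := by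
    rw [Finset.mul_sum]
    refine le_trans (le_of_eq ?_) (Finset.sum_le_sum_of_subset_of_nonneg hFA fun n _ _ => sq_nonneg _)
    refine Finset.sum_congr rfl fun n hn => ?_
    rw [hF, Finset.mem_filter] at hn
    rw [GS_rough hS.prime hn.2.2, ← ht]
    have e1 : (fun p => (J2 (P := P) h h' V n p).1) = JJ h n := rfl
    rw [e1]
    ring
  have hE := E2_le (P := P) (T := T) (M := M) hS hW hV hk hK0 hZ hZK hz hzK
  rw [← hLv] at hE
  have hSS : 0 ≤ SS k W Z T := by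
    unfold SS
    have : 0 ≤ gT2 T := Finset.sum_nonneg fun j _ => sq_nonneg _
    have := mul_nonneg (mul_nonneg (cW_nonneg W) (Real.log_natCast_nonneg Z)) this
    positivity
  set err := ((Z:ℝ) ^ M * LL (Z ^ M) ^ (4 * k) * (z * LL (Z ^ M) ^ 4)) ^ 2 with herr'
  have herr2 : 0 ≤ err := sq_nonneg _
  have hX : 0 ≤ (N:ℝ) / W := by positivity
  have hfin : t ^ 2 * ∑ n ∈ F, GG (cc Z T M) (JJ (P := P) h n) ^ 2 ≤
      t ^ 2 * ((N:ℝ) / W * (16 * SS k W Z T / Lv) + err) := by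
    refine (hlow.trans hup).trans ?_
    have e1 : (N:ℝ) / W * E2 P k V z Z T M ≤ (N:ℝ) / W * (9 / 2 * (SS k W Z T * Lv)) :=
      mul_le_mul_of_nonneg_left hE hX
    have e2 : 9 / 2 * (SS k W Z T * Lv) ≤ t ^ 2 * (16 * SS k W Z T / Lv) := by
      have e3 : (9 / 10 * Lv) ^ 2 ≤ t ^ 2 := pow_le_pow_left₀ (by positivity) htot 2
      have e4 : (9 / 10 * Lv) ^ 2 * (16 * SS k W Z T / Lv) ≤ t ^ 2 * (16 * SS k W Z T / Lv) :=
        mul_le_mul_of_nonneg_right e3 (by positivity)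
      refine le_trans ?_ e4
      have e5 : (9 / 10 * Lv) ^ 2 * (16 * SS k W Z T / Lv) = 1296 / 100 * (SS k W Z T * Lv) := by
        field_simp
        ring
      rw [e5]
      have : 0 ≤ SS k W Z T * Lv := by positivity
      linarith
    have e3 : (N:ℝ) / W * (9 / 2 * (SS k W Z T * Lv)) ≤
        (N:ℝ) / W * (t ^ 2 * (16 * SS k W Z T / Lv)) := mul_le_mul_of_nonneg_left e2 hX
    have e4 : err ≤ t ^ 2 * err := le_mul_of_one_le_left herr2 (one_le_pow₀ ht1)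
    calc (N:ℝ) / W * E2 P k V z Z T M + err ≤
          (N:ℝ) / W * (t ^ 2 * (16 * SS k W Z T / Lv)) + t ^ 2 * err := by linarith
      _ = _ := by ring
  exact le_of_mul_le_mul_left hfin (by positivity)

end Pool.Agent.PosProp
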