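import Pool.Agent.PosProp.Defs2
import Pool.Agent.PosProp.WtBound
import Pool.Agent.PosProp.Other

/-!
# The main estimate of the positive proportion theorem: the sums over the weights
-/

open Finset Filter

namespace Pool.Agent.PosProp.Main

open Pool.Agent.Maynard

open Classical in
/-- the combination of all the estimates -/
theorem comb {A : Finset ℕ} {g : ℕ → ℝ} (hg : ∀ n, 0 ≤ g n) (np ot r : ℕ → ℕ) (rough : ℕ → Prop)
    {k m L : ℕ} (hk : 1 ≤ k) (hL0 : 1 ≤ L) (hnp : ∀ n, np n ≤ k) {S c2 c3 G B : ℝ} (hS : 0 ≤ S)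
    (h1 : ∑ n ∈ A, g n ≤ 3 * S)
    (h2 : B * S ≤ ∑ n ∈ A, (np n : ℝ) * g n)
    (h3 : ∑ n ∈ A.filter (fun n => ¬ rough n), g n ≤ S / (100 * k))
    (h4 : ∑ n ∈ A, (r n : ℝ) * g n ≤ c3 * S) (hL : 100 * k * c3 ≤ L)
    (h5 : ∑ n ∈ A, (ot n : ℝ) * g n ≤ c2 * S)
    (h6 : m * c2 + 3 * m + 2 ≤ B)
    (h7 : ∀ n ∈ A, rough n → g n ≤ G) (hG : 0 < G) :
    S / (k * G) ≤ ((A.filter (fun n => rough n ∧ r n ≤ L ∧ m * (ot n + 1) ≤ np n)).card : ℝ) := by
  have hk0 : (0:ℝ) < k := by exact_mod_cast (show 0 < k by omega)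
  have hL0' : (0:ℝ) < L := by exact_mod_cast (show 0 < L by omega)
  set E := A.filter (fun n => rough n ∧ r n ≤ L ∧ m * (ot n + 1) ≤ np n) with hE
  have hpt : ∀ n ∈ A, (np n : ℝ) * g n ≤ (if n ∈ E then (k:ℝ) * g n else 0) +
      (if ¬ rough n then (k:ℝ) * g n else 0) + (k / L : ℝ) * (r n * g n) +
      (m * (ot n * g n) + m * g n) := by
    intro n hn
    have hgn := hg n
    have hnpk : (np n : ℝ) ≤ k := by exact_mod_cast hnp n
    have hmain : (np n : ℝ) * g n ≤ k * g n := mul_le_mul_of_nonneg_right hnpk hgn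
    have e3 : 0 ≤ (k / L : ℝ) * (r n * g n) := by positivity
    have e4 : 0 ≤ (m:ℝ) * (ot n * g n) + m * g n := by positivity
    have e5 : 0 ≤ (k:ℝ) * g n := by positivity
    have e1 : 0 ≤ (if n ∈ E then (k:ℝ) * g n else 0) := by split_ifs <;> positivity
    have e2 : 0 ≤ (if ¬ rough n then (k:ℝ) * g n else 0) := by split_ifs <;> positivity
    by_cases hr : rough n
    · by_cases hrL : r n ≤ L
      · by_cases hm : m * (ot n + 1) ≤ np n
        · have hnE : n ∈ E := by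
            rw [hE, Finset.mem_filter]
            exact ⟨hn, hr, hrL, hm⟩
          rw [if_pos hnE]
          linarith
        · have h8 : (np n : ℝ) ≤ m * (ot n + 1) := by
            have : np n ≤ m * (ot n + 1) := by omega
            exact_mod_cast this
          have h9 := mul_le_mul_of_nonneg_right h8 hgn
          have e6 : (m:ℝ) * (ot n + 1) * g n = m * (ot n * g n) + m * g n := by ring
          linarith
      · have h8 : (L:ℝ) ≤ r n := by
          have : L ≤ r n := by omega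
          exact_mod_cast this
        have h9 : (k:ℝ) * g n ≤ (k / L : ℝ) * (r n * g n) := by
          calc (k:ℝ) * g n = (k / L : ℝ) * (L * g n) := by field_simp
            _ ≤ _ := by gcongr
        linarith
    · rw [if_pos hr]
      linarith
  have hsum := Finset.sum_le_sum hpt
  rw [Finset.sum_add_distrib, Finset.sum_add_distrib, Finset.sum_add_distrib,
    Finset.sum_add_distrib, ← Finset.mul_sum, ← Finset.mul_sum, ← Finset.mul_sum,
    ← Finset.sum_filter, ← Finset.sum_filter, ← Finset.mul_sum, ← Finset.mul_sum] at hsum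
  have hEE : A.filter (fun n => n ∈ E) = E := by
    ext n
    rw [Finset.mem_filter]
    constructor
    · exact fun h => h.2
    · exact fun h => ⟨(Finset.mem_filter.1 h).1, h⟩
  rw [hEE] at hsum
  have f1 : (k:ℝ) * ∑ n ∈ A.filter (fun n => ¬ rough n), g n ≤ S / 100 := by
    have := mul_le_mul_of_nonneg_left h3 hk0.le
    refine this.trans (le_of_eq ?_)
    field_simp
  have f2 : (k / L : ℝ) * ∑ n ∈ A, (r n : ℝ) * g n ≤ S / 100 := by
    have h8 := mul_le_mul_of_nonneg_left h4 (show (0:ℝ) ≤ k / L by positivity)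
    refine h8.trans ?_
    have h9 : (k / L : ℝ) * (c3 * S) = (100 * k * c3) / L * (S / 100) := by
      field_simp
    rw [h9]
    have h10 : (100 * k * c3) / L ≤ 1 := by
      rw [div_le_one hL0']
      exact hL
    calc (100 * k * c3) / L * (S / 100) ≤ 1 * (S / 100) :=
          mul_le_mul_of_nonneg_right h10 (by positivity)
      _ = _ := by ring
  have f3 : (m:ℝ) * ∑ n ∈ A, (ot n : ℝ) * g n ≤ m * (c2 * S) :=
    mul_le_mul_of_nonneg_left h5 (Nat.cast_nonneg m)
  have f4 : (m:ℝ) * ∑ n ∈ A, g n ≤ m * (3 * S) :=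
    mul_le_mul_of_nonneg_left h1 (Nat.cast_nonneg m)
  have f5 : (m * c2 + 3 * m + 2) * S ≤ B * S := mul_le_mul_of_nonneg_right h6 hS
  have f6 : S ≤ k * ∑ n ∈ E, g n := by
    have e1 : (m * c2 + 3 * m + 2) * S = m * (c2 * S) + m * (3 * S) + 2 * S := by ring
    linarith
  have f7 : ∑ n ∈ E, g n ≤ E.card * G := by
    rw [← nsmul_eq_mul]
    refine Finset.sum_le_card_nsmul E g G fun n hn => ?_
    have h8 := Finset.mem_filter.1 hn
    exact h7 n h8.1 h8.2.1
  rw [div_le_iff₀ (by positivity)]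
  have f8 : (k:ℝ) * ∑ n ∈ E, g n ≤ k * (E.card * G) := mul_le_mul_of_nonneg_left f7 hk0.le
  calc S ≤ k * (E.card * G) := f6.trans f8
    _ = _ := by ring

variable {k : ℕ}

open Classical in
/-- the further shifts `h'` with `n + h'` free of primes `≤ z` -/
noncomputable def oth (z H : ℕ) (h : Fin k → ℕ) (n : ℕ) : Finset ℕ :=
  (Icc 1 H).filter (fun h' => (∀ i, h i ≠ h') ∧ Rough z (n + h'))

open Classical in
/-- the sum over one further shift -/
theorem one_other {P : Finset ℕ} {q K0 H Z T M z N a h' : ℕ} {h : Fin k → ℕ} (hq : 1 ≤ q)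
    (hS : Setting P (Wt q K0 H h) K0 (Z ^ M)) (hk : 2 ≤ k)
    (hK0 : 2 ^ (k + 10) * k ≤ K0) (hZ : 2 ≤ Z)
    (hZK : 64 * (k:ℝ) * KV (Wt q K0 H h) ≤ cW (Wt q K0 H h) * Real.log Z) (hsep : Sep P h)
    (hz : 2 ≤ z) (hzR : z ≤ Z ^ M) (hne : ∀ i, h i ≠ h')
    (hzK : 64 * KV (WB.Vt q K0 H h h') ≤ cW (WB.Vt q K0 H h h') * Real.log z) :
    ∑ n ∈ ((Ioc N (2 * N)).filter (fun n => n ≡ a [MOD Wt q K0 H h])).filter
        (fun n => Rough z (n + h')), GG (cc Z T M) (JJ (P := P) h n) ^ 2 ≤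
      (N:ℝ) / (Wt q K0 H h : ℕ) * (16 * SS k (Wt q K0 H h) Z T / Real.log z) *
        (cW (WB.Vt q K0 H h h'))⁻¹ +
        ((Z:ℝ) ^ M * LL (Z ^ M) ^ (4 * k) * (z * LL (Z ^ M) ^ 4)) ^ 2 := by
  classical
  have h1 := other_shift (T := T) (N := N) (a := a) (h' := h') hS (WB.Wt_pos hq K0 H h) hk hK0
    hZ hZK hsep hz hzR (WB.Vt_pos hq K0 H h h') (WB.Wt_dvd_Vt q K0 H h h')
    (fun p hp hex => WB.dvd_Vt (hS.prime p hp) hne hex) hzK
  refine (Finset.sum_le_sum_of_subset_of_nonneg ?_ fun n _ _ => sq_nonneg _).trans (h1.trans ?_)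
  · intro n hn
    rw [Finset.mem_filter, Finset.mem_filter] at hn
    rw [Finset.mem_filter]
    exact ⟨hn.1.1, hn.1.2, fun p hp hpz _ => hn.2 p (hS.prime p hp) hpz⟩
  · refine add_le_add (le_of_eq ?_) le_rfl
    rw [div_mul_eq_div_div]
    ring

open Classical in
/-- all the further shifts -/
theorem others_le {P : Finset ℕ} {CT : ℝ} {q K0 H Z T M z N a : ℕ} {h : Fin k → ℕ} (hq : 1 ≤ q)
    (hgt : GoodT CT q K0 H h)
    (hS : Setting P (Wt q K0 H h) K0 (Z ^ M)) (hk : 2 ≤ k) (hT1 : 1 ≤ T)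
    (hK0 : 2 ^ (k + 10) * k ≤ K0) (hZ : 2 ≤ Z)
    (hZK : 64 * (k:ℝ) * KV (Wt q K0 H h) ≤ cW (Wt q K0 H h) * Real.log Z) (hsep : Sep P h)
    (hz : 2 ≤ z) (hzR : z ≤ Z ^ M) (hzW : WB.W0 q K0 ≤ z)
    (hzK : ∀ h' ∈ Icc 1 H, (∀ i, h i ≠ h') →
      64 * KV (WB.Vt q K0 H h h') ≤ cW (WB.Vt q K0 H h h') * Real.log z) :
    ∑ n ∈ (Ioc N (2 * N)).filter (fun n => n ≡ a [MOD Wt q K0 H h]),
        ((oth z H h n).card : ℝ) * GG (cc Z T M) (JJ (P := P) h n) ^ 2 ≤
      (32 * CT * H / Real.log z) * ((N:ℝ) / (Wt q K0 H h : ℕ) * SS k (Wt q K0 H h) Z T) +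
        H * ((Z:ℝ) ^ M * LL (Z ^ M) ^ (4 * k) * (z * LL (Z ^ M) ^ 4)) ^ 2 := by
  set W := Wt q K0 H h with hW
  have hWpos : 0 < W := WB.Wt_pos hq K0 H h
  set A := (Ioc N (2 * N)).filter (fun n => n ≡ a [MOD W]) with hA
  set g : ℕ → ℝ := fun n => GG (cc Z T M) (JJ (P := P) h n) ^ 2 with hg
  have hg0 : ∀ n, 0 ≤ g n := fun n => sq_nonneg _
  set S1 := (Icc 1 H).filter (fun h' => ∀ i, h i ≠ h') with hS1
  set S2 := (Icc 1 H).filter
    (fun h' => h' ∉ Set.range h ∧ (a + h').Coprime (q * primorial (K0 - 1))) with hS2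
  set err := ((Z:ℝ) ^ M * LL (Z ^ M) ^ (4 * k) * (z * LL (Z ^ M) ^ 4)) ^ 2 with herr
  set Y := (N:ℝ) / (W : ℕ) * (16 * SS k W Z T / Real.log z) with hY
  have hlogz : 0 < Real.log z := Real.log_pos (by exact_mod_cast (show 1 < z by omega))
  have hlogZ : 0 < Real.log Z := Real.log_pos (by exact_mod_cast (show 1 < Z by omega))
  have hSS : 0 ≤ SS k W Z T := by
    unfold SS
    have h1 := cW_nonneg W
    have h2 : 0 ≤ gT2 T := le_trans zero_le_one (gT2_ge_one hT1)
    positivity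
  have hY0 : 0 ≤ Y := by rw [hY]; positivity
  have hS21 : S2 ⊆ S1 := by
    intro x hx
    rw [hS2, Finset.mem_filter] at hx
    rw [hS1, Finset.mem_filter]
    exact ⟨hx.1, fun i hi => hx.2.1 ⟨i, hi⟩⟩
  have h1 : ∑ n ∈ A, ((oth z H h n).card : ℝ) * g n =
      ∑ h' ∈ S1, ∑ n ∈ A.filter (fun n => Rough z (n + h')), g n := by
    have e1 : ∀ n, ((oth z H h n).card : ℝ) * g n =
        ∑ h' ∈ S1, if Rough z (n + h') then g n else 0 := by
      intro n
      have e2 : oth z H h n = S1.filter (fun h' => Rough z (n + h')) := by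
        unfold oth
        rw [hS1, Finset.filter_filter]
      rw [e2, ← Finset.sum_filter, Finset.sum_const, nsmul_eq_mul]
    simp_rw [e1]
    rw [Finset.sum_comm]
    refine Finset.sum_congr rfl fun h' _ => ?_
    exact (Finset.sum_filter _ _).symm
  have h2 : ∑ h' ∈ S1, ∑ n ∈ A.filter (fun n => Rough z (n + h')), g n =
      ∑ h' ∈ S2, ∑ n ∈ A.filter (fun n => Rough z (n + h')), g n := by
    symm
    refine Finset.sum_subset hS21 fun x hx1 hx2 => ?_
    refine Finset.sum_eq_zero fun n hn => ?_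
    exfalso
    rw [Finset.mem_filter, hA, Finset.mem_filter] at hn
    apply hx2
    rw [hS1, Finset.mem_filter] at hx1
    rw [hS2, Finset.mem_filter]
    refine ⟨hx1.1, fun ⟨i, hi⟩ => hx1.2 i hi, ?_⟩
    by_contra hcon
    obtain ⟨p, hp, hp1, hp2⟩ := Nat.Prime.not_coprime_iff_dvd.1 hcon
    have hpW : p ∣ W := hp2.trans (WB.W0_dvd_Wt h)
    have h3 : n + x ≡ a + x [MOD p] := Nat.ModEq.add_right x (hn.1.2.of_dvd hpW)
    have h4 : p ∣ n + x := (h3.dvd_iff dvd_rfl).2 hp1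
    have h5 : p ≤ z := by
      refine le_trans (Nat.le_of_dvd ?_ hp2) hzW
      exact WB.W0_pos hq K0
    exact hn.2 p hp h5 h4
  have h3 : ∀ h' ∈ S2, ∑ n ∈ A.filter (fun n => Rough z (n + h')), g n ≤
      Y * (cW (WB.Vt q K0 H h h'))⁻¹ + err := by
    intro h' hh'
    have h4 := hS21 hh'
    rw [hS1, Finset.mem_filter] at h4
    exact one_other hq hS hk hK0 hZ hZK hsep hz hzR h4.2 (hzK h' h4.1 h4.2)
  have h4 : ∑ h' ∈ S2, (Y * (cW (WB.Vt q K0 H h h'))⁻¹ + err) ≤
      Y * (2 * CT * H) + H * err := by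
    rw [Finset.sum_add_distrib, ← Finset.mul_sum, Finset.sum_const, nsmul_eq_mul]
    have e1 : (S2.card : ℝ) ≤ H := by
      have : S2.card ≤ H := by
        refine (Finset.card_filter_le _ _).trans ?_
        rw [Nat.card_Icc]
        omega
      exact_mod_cast this
    have e2 : (0:ℝ) ≤ err := sq_nonneg _
    refine add_le_add ?_ (mul_le_mul_of_nonneg_right e1 e2)
    refine mul_le_mul_of_nonneg_left ?_ hY0
    have e3 : ∀ h' ∈ S2, (cW (WB.Vt q K0 H h h'))⁻¹ = (cW W)⁻¹ *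
        ∏ p ∈ (∏ i, Nat.dist (h i) h').primeFactors.filter (fun p => ¬ p ∣ Wt q K0 H h),
          (1 - 1 / (p:ℝ))⁻¹ := fun h' _ => by
      rw [WB.inv_cW_Vt hq h h']
      rfl
    rw [Finset.sum_congr rfl e3, ← Finset.mul_sum]
    have e4 := hgt.oth a
    have hcW := cW_pos hWpos
    have e5 : cW (WB.W0 q K0) ≤ 2 * cW W := by
      have := WB.cW_Wt_ge hq hgt.small
      linarith
    have e6 : (cW W)⁻¹ * (CT * cW (q * primorial (K0 - 1)) * H) ≤ 2 * CT * H := by
      have hCT : 0 ≤ CT * H := by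
        by_contra hcon
        push Not at hcon
        have hc0 := cW_pos (WB.W0_pos hq K0)
        have e7 : CT * cW (q * primorial (K0 - 1)) * H < 0 := by
          have : CT * cW (q * primorial (K0 - 1)) * H = (CT * H) * cW (WB.W0 q K0) := by
            unfold WB.W0
            ring
          rw [this]
          exact mul_neg_of_neg_of_pos hcon hc0
        have e8 : 0 ≤ ∑ h' ∈ S2,
          ∏ p ∈ (∏ i, Nat.dist (h i) h').primeFactors.filter (fun p => ¬ p ∣ Wt q K0 H h),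
          (1 - 1 / (p:ℝ))⁻¹ := by
          refine Finset.sum_nonneg fun x _ => Finset.prod_nonneg fun p hp => ?_
          have hp2 : (2:ℝ) ≤ p := by
            exact_mod_cast (Nat.prime_of_mem_primeFactors (Finset.mem_filter.1 hp).1).two_le
          have : 1 / (p:ℝ) ≤ 1 / 2 := one_div_le_one_div_of_le (by norm_num) hp2
          refine inv_nonneg.2 (by linarith)
        linarith
      have e9 : (cW W)⁻¹ * (CT * cW (q * primorial (K0 - 1)) * H) =
          (CT * H) * ((cW W)⁻¹ * cW (WB.W0 q K0)) := by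
        unfold WB.W0
        ring
      rw [e9]
      have e10 : (cW W)⁻¹ * cW (WB.W0 q K0) ≤ 2 := by
        rw [inv_mul_le_iff₀ hcW]
        linarith
      calc (CT * H) * ((cW W)⁻¹ * cW (WB.W0 q K0)) ≤ (CT * H) * 2 :=
            mul_le_mul_of_nonneg_left e10 hCT
        _ = _ := by ring
    exact (mul_le_mul_of_nonneg_left e4 (inv_nonneg.2 hcW.le)).trans e6
  calc ∑ n ∈ A, ((oth z H h n).card : ℝ) * g n
      = ∑ h' ∈ S2, ∑ n ∈ A.filter (fun n => Rough z (n + h')), g n := by rw [h1, h2]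
    _ ≤ ∑ h' ∈ S2, (Y * (cW (WB.Vt q K0 H h h'))⁻¹ + err) := Finset.sum_le_sum h3
    _ ≤ Y * (2 * CT * H) + H * err := h4
    _ = _ := by
        rw [hY]
        ring

open Classical in
/-- the non-rough `n` -/
theorem bad_le {P : Finset ℕ} {q K0 H Z T M z N a : ℕ} {h : Fin k → ℕ}
    (hS : Setting P (Wt q K0 H h) K0 (Z ^ M)) (hzR : z ≤ Z ^ M)
    (ha : ∀ i, (a + h i).Coprime (Wt q K0 H h)) {B : ℝ}
    (hB : ∑ i : Fin k, ∑ p ∈ P.filter (· ≤ z), ∑ n ∈ (Ioc N (2*N)).filter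
      (fun n => n ≡ a [MOD Wt q K0 H h] ∧ p ∣ n + h i), GG (cc Z T M) (JJ (P:=P) h n)^2 ≤ B) :
    ∑ n ∈ ((Ioc N (2 * N)).filter (fun n => n ≡ a [MOD Wt q K0 H h])).filter
        (fun n => ¬ ∀ i, Rough z (n + h i)), GG (cc Z T M) (JJ (P := P) h n) ^ 2 ≤ B := by
  refine le_trans ?_ hB
  set g : ℕ → ℝ := fun n => GG (cc Z T M) (JJ (P := P) h n) ^ 2 with hg
  have hg0 : ∀ n, 0 ≤ g n := fun n => sq_nonneg _
  set A := (Ioc N (2 * N)).filter (fun n => n ≡ a [MOD Wt q K0 H h]) with hA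
  have e1 : ∀ (i : Fin k) (p : ℕ), ∑ n ∈ (Ioc N (2*N)).filter
      (fun n => n ≡ a [MOD Wt q K0 H h] ∧ p ∣ n + h i), g n =
      ∑ n ∈ A, if p ∣ n + h i then g n else 0 := by
    intro i p
    rw [← Finset.sum_filter, hA, Finset.filter_filter]
  simp_rw [e1]
  have e2 : ∑ i : Fin k, ∑ p ∈ P.filter (· ≤ z), ∑ n ∈ A, (if p ∣ n + h i then g n else 0) =
      ∑ n ∈ A, ∑ i : Fin k, ∑ p ∈ P.filter (· ≤ z), (if p ∣ n + h i then g n else 0) := by
    rw [Finset.sum_comm' (s := (Finset.univ : Finset (Fin k))) (t := fun _ => P.filter (· ≤ z))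
      (t' := P.filter (· ≤ z)) (s' := fun _ => Finset.univ) (by simp)]
    rw [Finset.sum_congr rfl fun p _ => Finset.sum_comm, Finset.sum_comm]
    exact Finset.sum_congr rfl fun n _ => Finset.sum_comm
  rw [e2, Finset.sum_filter]
  refine Finset.sum_le_sum fun n hn => ?_
  by_cases hr : ∀ i, Rough z (n + h i)
  · rw [if_neg (not_not.2 hr)]
    exact Finset.sum_nonneg fun i _ => Finset.sum_nonneg fun p _ => by
      split_ifs
      · exact hg0 n
      · exact le_rfl
  · rw [if_pos hr]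
    obtain ⟨i, hi⟩ := not_forall.1 hr
    unfold Rough at hi
    push Not at hi
    obtain ⟨p, hp, hpz, hpd⟩ := hi
    have hnW : ¬ p ∣ Wt q K0 H h := by
      intro hcon
      rw [hA, Finset.mem_filter] at hn
      have h3 : n + h i ≡ a + h i [MOD p] := Nat.ModEq.add_right _ (hn.2.of_dvd hcon)
      have h4 : p ∣ a + h i := (h3.dvd_iff dvd_rfl).1 hpd
      exact Nat.Prime.not_coprime_iff_dvd.2 ⟨p, hp, h4, hcon⟩ (ha i)
    have hpP : p ∈ P.filter (· ≤ z) :=
      Finset.mem_filter.2 ⟨hS.mem p hp hnW (hpz.trans hzR), hpz⟩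
    have h5 : g n = (if p ∣ n + h i then g n else 0) := by rw [if_pos hpd]
    have h6 : (if p ∣ n + h i then g n else 0) ≤
        ∑ p ∈ P.filter (· ≤ z), (if p ∣ n + h i then g n else 0) :=
      Finset.single_le_sum (f := fun p => if p ∣ n + h i then g n else 0)
        (fun p _ => by
          split_ifs
          · exact hg0 n
          · exact le_rfl) hpP
    have h7 : ∑ p ∈ P.filter (· ≤ z), (if p ∣ n + h i then g n else 0) ≤
        ∑ i : Fin k, ∑ p ∈ P.filter (· ≤ z), (if p ∣ n + h i then g n else 0) :=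
      Finset.single_le_sum (f := fun i => ∑ p ∈ P.filter (· ≤ z), if p ∣ n + h i then g n else 0)
        (fun i _ => Finset.sum_nonneg fun p _ => by
          split_ifs
          · exact hg0 n
          · exact le_rfl) (Finset.mem_univ i)
    have h8 := h5.le.trans (h6.trans h7)
    exact h8


/-! ### Primes in the window -/

lemma npr_le_prIn {q c K0 H n a : ℕ} {h : Fin k → ℕ} {CT : ℝ} (hgt : GoodT CT q K0 H h)
    (hac : a ≡ c [MOD q]) (hn : n ≡ a [MOD Wt q K0 H h]) : npr h n ≤ (prIn q c H n).card := by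
  classical
  unfold npr
  refine Finset.card_le_card_of_injOn (fun i => n + h i) ?_ ?_
  · intro i hi
    simp only [Finset.coe_filter, Finset.mem_univ, true_and, Set.mem_ofPred_eq] at hi
    simp only [prIn, Finset.coe_filter, Set.mem_ofPred_eq, Finset.mem_Ioc]
    have h1 := hgt.pos i
    have h2 := hgt.le i
    refine ⟨⟨by omega, by omega⟩, hi, ?_⟩
    have h3 : n ≡ c [MOD q] := (hn.of_dvd (Dvd.intro _ rfl)).trans hac
    have h4 : h i ≡ 0 [MOD q] := (Nat.modEq_zero_iff_dvd).2 ((Dvd.intro _ rfl).trans (hgt.dvd i))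
    exact h3.add h4
  · intro i _ j _ hij
    exact hgt.inj (by simpa using hij)

lemma prOut_le_oth {q c K0 H n a z : ℕ} {h : Fin k → ℕ} {CT : ℝ} (hgt : GoodT CT q K0 H h)
    (hac : a ≡ c [MOD q]) (hn : n ≡ a [MOD Wt q K0 H h]) (hz : z ≤ n) :
    (prOut q c H n).card ≤ (oth z H h n).card := by
  classical
  refine Finset.card_le_card_of_injOn (fun p => p - n) ?_ ?_
  · intro p hp
    simp only [prOut, Finset.coe_filter, Set.mem_ofPred_eq, Finset.mem_Ioc] at hp
    obtain ⟨⟨h1, h2⟩, hp1, hp2⟩ := hp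
    simp only [oth, Finset.coe_filter, Set.mem_ofPred_eq, Finset.mem_Icc]
    refine ⟨⟨by omega, by omega⟩, fun i hi => ?_, fun r hr hrz hrd => ?_⟩
    · apply hp2
      have h3 : n ≡ c [MOD q] := (hn.of_dvd (Dvd.intro _ rfl)).trans hac
      have h4 : h i ≡ 0 [MOD q] := (Nat.modEq_zero_iff_dvd).2 ((Dvd.intro _ rfl).trans (hgt.dvd i))
      have h5 : p = n + h i := by omega
      rw [h5]
      exact h3.add h4
    · have h6 : n + (p - n) = p := by omega
      rw [h6] at hrd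
      rcases (Nat.dvd_prime hp1).1 hrd with h7 | h7
      · exact hr.one_lt.ne' h7
      · omega
  · intro p hp r hr hpr
    simp only [prOut, Finset.coe_filter, Set.mem_ofPred_eq, Finset.mem_Ioc] at hp hr
    simp only at hpr
    omega

lemma rghs_le {H n z : ℕ} (h : Fin k → ℕ) : (rghs z H n).card ≤ k + (oth z H h n).card := by
  classical
  have h1 : rghs z H n ⊆ Finset.univ.image h ∪ oth z H h n := by
    intro x hx
    unfold rghs at hx
    rw [Finset.mem_filter] at hx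
    rw [Finset.mem_union]
    by_cases h2 : ∃ i, h i = x
    · obtain ⟨i, hi⟩ := h2
      left
      exact Finset.mem_image.2 ⟨i, Finset.mem_univ _, hi⟩
    · right
      unfold oth
      rw [Finset.mem_filter]
      exact ⟨hx.1, fun i hi => h2 ⟨i, hi⟩, hx.2⟩
  refine (Finset.card_le_card h1).trans ((Finset.card_union_le _ _).trans ?_)
  have h2 : (Finset.univ.image h).card ≤ k := by
    refine Finset.card_image_le.trans ?_
    rw [Finset.card_univ, Fintype.card_fin]
  omega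

end Pool.Agent.PosProp.Main
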