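import Pool.Agent.Lib.Maynard.Bounds
import Pool.Agent.Lib.Maynard.Count

/-!
# Pointwise bound for the weight at integers without small prime factors
-/

open Finset

namespace Pool.Agent.Maynard

variable {P : Finset ℕ} {k W K0 R Z T M : ℕ}

/-- number of coloured primes -/
noncomputable def ncol (y : Col P k) : ℕ := (Finset.univ.filter (fun p : P => y p ≠ none)).card

/-- the sum of the coefficients -/
lemma sum_cc_le (hP : ∀ p ∈ P, 2 ≤ p) :
    ∑ χ : Col P k, cc Z T M χ ≤ (A2h P Z T) ^ k := by
  have h1 : ∀ χ : Col P k, cc Z T M χ ≤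
      (∏ i, gz Z T (val (fun p => cl i (χ p)))) * pc aup χ := by
    intro χ
    unfold cc
    rw [div_eq_mul_inv]
    refine mul_le_mul (yy_le Z T M χ) ?_ (inv_nonneg.2 (pc_pos (phi_pos hP) χ).le)
      (Finset.prod_nonneg fun i _ => gz_nonneg _ _ _)
    unfold pc
    rw [← Finset.prod_inv_distrib]
    refine Finset.prod_le_prod (fun p _ => ?_) fun p _ => ?_
    · have := phi_pos hP p p.2
      split_ifs
      · norm_num
      · exact inv_nonneg.2 this.le
    · have h2 := phi_pos hP p p.2
      split_ifs
      · norm_num
      · unfold aup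
        rw [inv_eq_one_div, div_le_div_iff₀ h2 (by positivity)]
        nlinarith
  refine (Finset.sum_le_sum fun χ _ => h1 χ).trans ?_
  refine (col_le_tuple (k := k) (fun _ B => gz Z T (val B)) (fun _ _ => gz_nonneg _ _ _) aup
    (fun p _ => aup_nonneg p)).trans (le_of_eq ?_)
  rw [Finset.prod_const, Finset.card_univ, Fintype.card_fin]
  congr 1
  unfold A2h
  refine Finset.sum_congr rfl fun B _ => ?_
  congr 1
  rw [gz_eq_ite]
  have h0 : ((Nat.log Z (val B) : ℝ) + 1) ≠ 0 := by positivity
  split_ifs
  · field_simp
  · simp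

/-- pointwise bound: every coloured prime costs a factor `2` -/
theorem GG_le_ncol (hP : ∀ p ∈ P, 2 ≤ p) (y : Col P k) :
    |GG (cc Z T M) y| ≤ 2 ^ ncol y * (A2h P Z T) ^ k := by
  classical
  have hP0 : ∀ p ∈ P, 0 < p := fun p hp => lt_of_lt_of_le two_pos (hP p hp)
  have h1 : |GG (cc Z T M) y| ≤ ∑ χ : Col P k, yy Z T M χ *
      ∏ p : P, (|ps (p:ℕ) (χ p) (y p)| / (if χ p = none then 1 else ((p:ℕ):ℝ) - 1)) := by
    unfold GG
    refine (Finset.abs_sum_le_sum_abs _ _).trans (Finset.sum_le_sum fun χ _ => ?_)
    rw [abs_mul, abs_of_nonneg (cc_nonneg hP Z T M χ), Finset.abs_prod,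
      cc_mul_prod Z T M χ (fun p x => |ps (p:ℕ) x (y p)|)]
  refine h1.trans ?_
  have h2 := push' (ι := P) (X := Option (Fin k)) (Z := Option (Fin k))
    (fun p x => if x = y p then none else x)
    (fun p x => |ps (p:ℕ) x (y p)| / (if x = none then 1 else ((p:ℕ):ℝ) - 1))
    (fun p x => by
      have := phi_pos hP p p.2
      refine div_nonneg (abs_nonneg _) ?_
      split_ifs
      · exact zero_le_one
      · exact this.le)
    (fun χ => yy Z T M χ) (fun χ => yy Z T M χ)
    (fun χ => yy_anti hP0 Z T M fun p => by
      by_cases h : χ p = y p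
      · left; simp [h]
      · right; simp [h])
    (fun χ => yy_nonneg _ _ _ _)
    (fun p x => (if y p ≠ none then 2 else 1) * (1 / (if x = none then 1 else ((p:ℕ):ℝ) - 1)))
    ?_
  · refine h2.trans ?_
    have e1 : ∀ χ : Col P k, yy Z T M χ * ∏ p : P, ((if y p ≠ none then (2:ℝ) else 1) *
        (1 / (if χ p = none then 1 else ((p:ℕ):ℝ) - 1))) = 2 ^ ncol y * cc Z T M χ := by
      intro χ
      rw [Finset.prod_mul_distrib]
      have e2 : ∏ p : P, (if y p ≠ none then (2:ℝ) else 1) = 2 ^ ncol y := by
        unfold ncol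
        rw [← Finset.prod_filter, Finset.prod_const]
      rw [e2]
      unfold cc pc
      rw [Finset.prod_div_distrib]
      simp only [Finset.prod_const_one]
      ring
    simp_rw [e1]
    rw [← Finset.mul_sum]
    exact mul_le_mul_of_nonneg_left (sum_cc_le hP) (by positivity)
  · intro p z
    have hp1 := phi_pos hP p p.2
    by_cases hy : y p = none
    · -- nothing is erased
      have e1 : ∀ x : Option (Fin k), (if x = y p then none else x) = x := by
        intro x
        by_cases h : x = y p
        · rw [if_pos h, h, hy]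
        · rw [if_neg h]
      simp only [e1]
      rw [Finset.sum_ite_eq' Finset.univ z, if_pos (Finset.mem_univ _)]
      rw [show (if y p ≠ none then (2:ℝ) else 1) = 1 from if_neg (by simpa using hy), one_mul, hy]
      have : |ps (p:ℕ) z none| = 1 := by
        cases z with
        | none => simp [ps]
        | some i => simp [ps]
      rw [this]
    · rw [if_pos hy]
      obtain ⟨i0, hi0⟩ := Option.ne_none_iff_exists'.1 hy
      rw [hi0]
      cases z with
      | none =>
        rw [Fintype.sum_option]
        have e1 : ∀ i : Fin k, (if (if (some i : Option (Fin k)) = some i0 then none else some i) = none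
            then |ps (p:ℕ) (some i) (some i0)| /
              (if (some i : Option (Fin k)) = none then 1 else ((p:ℕ):ℝ) - 1) else 0) =
            if i = i0 then 1 else 0 := by
          intro i
          by_cases h : i = i0
          · subst h
            simp only [if_true, ps, reduceCtorEq, if_false]
            rw [abs_of_neg (by linarith), neg_sub, div_self hp1.ne']
          · have : ¬ (some i : Option (Fin k)) = some i0 := by simpa using h
            simp [h]
        rw [Finset.sum_congr rfl fun i _ => e1 i]
        simp [ps]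
        norm_num
      | some j =>
        have hterm : ∀ x : Option (Fin k), (if (if x = some i0 then none else x) = some j
            then |ps (p:ℕ) x (some i0)| /
              (if x = none then 1 else ((p:ℕ):ℝ) - 1) else 0) ≤
            if x = some j then 1 / (((p:ℕ):ℝ) - 1) else 0 := by
          intro x
          by_cases hx : x = some i0
          · rw [if_neg (by rw [if_pos hx]; simp)]
            split_ifs
            · positivity
            · exact le_rfl
          · rw [if_neg hx]
            by_cases hxj : x = some j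
            · rw [if_pos hxj, if_pos hxj, hxj]
              have hj : ¬ (some j : Option (Fin k)) = some i0 := by rw [← hxj]; exact hx
              simp [ps, hj]
            · rw [if_neg hxj, if_neg hxj]
        refine (Finset.sum_le_sum fun x _ => hterm x).trans ?_
        rw [Finset.sum_ite_eq' Finset.univ (some j), if_pos (Finset.mem_univ _)]
        have h3 : 0 ≤ 1 / (((p:ℕ):ℝ) - 1) := by positivity
        simp only [reduceCtorEq, if_false]
        linarith

/-- few primes above `z` divide the integers `n + h i` -/
lemma ncol_le {h : Fin k → ℕ} {n z B : ℕ} (hP : ∀ p ∈ P, p.Prime) (hz : 2 ≤ z) (hn0 : 0 < n)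
    (hn : ∀ i, n + h i ≤ B) (hfree : ∀ p ∈ P, p ≤ z → ∀ i, ¬ p ∣ n + h i) :
    ncol (JJ (P := P) h n) ≤ k * Nat.log z B := by
  classical
  -- primes dividing `n + h i`
  have h1 : ∀ i : Fin k, (P.filter (· ∣ n + h i)).card ≤ Nat.log z B := by
    intro i
    have h2 : (∏ p ∈ P.filter (· ∣ n + h i), p) ∣ n + h i := by
      refine Finset.prod_primes_dvd _ (fun p hp => (hP p (Finset.mem_filter.1 hp).1).prime)
        fun p hp => (Finset.mem_filter.1 hp).2
    have h3 : z ^ (P.filter (· ∣ n + h i)).card ≤ ∏ p ∈ P.filter (· ∣ n + h i), p := by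
      rw [← Finset.prod_const]
      refine Finset.prod_le_prod' fun p hp => ?_
      rw [Finset.mem_filter] at hp
      by_contra hcon
      exact hfree p hp.1 (by omega) i hp.2
    have h4 : z ^ (P.filter (· ∣ n + h i)).card ≤ B :=
      h3.trans ((Nat.le_of_dvd (by omega) h2).trans (hn i))
    refine Nat.le_log_of_pow_le (by omega) h4
  have h5 : ncol (JJ (P := P) h n) ≤ ∑ i : Fin k, (P.filter (· ∣ n + h i)).card := by
    unfold ncol
    have h6 : (Finset.univ.filter (fun p : P => JJ h n p ≠ none)).card ≤
        (Finset.univ.biUnion (fun i : Fin k => P.filter (· ∣ n + h i))).card := by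
      refine Finset.card_le_card_of_injOn (fun p : P => (p:ℕ)) ?_ ?_
      · intro p hp
        simp only [Finset.coe_filter, Finset.mem_univ, true_and, Set.mem_ofPred_eq] at hp
        simp only [Finset.coe_biUnion, Finset.coe_univ, Set.mem_univ, Set.iUnion_true,
          Set.mem_iUnion, Finset.mem_coe, Finset.mem_filter]
        unfold JJ at hp
        split_ifs at hp with hh
        · obtain ⟨i, hi⟩ := hh
          exact ⟨i, p.2, hi⟩
        · exact absurd rfl hp
      · intro p _ q _ hpq
        exact Subtype.ext hpq
    exact h6.trans Finset.card_biUnion_le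
  refine h5.trans ((Finset.sum_le_sum fun i _ => h1 i).trans (le_of_eq ?_))
  rw [Finset.sum_const, Finset.card_univ, Fintype.card_fin, smul_eq_mul]

/-- MODULE PP5: bound for the weight at integers without small prime factors -/
theorem GG_sup (hS : Setting P W K0 R) (hW : 0 < W) (hK0 : 16 ≤ K0) (hZ : 2 ≤ Z)
    {h : Fin k → ℕ} {n z B : ℕ} (hz : 2 ≤ z) (hn0 : 0 < n) (hn : ∀ i, n + h i ≤ B)
    (hfree : ∀ p ∈ P, p ≤ z → ∀ i, ¬ p ∣ n + h i) :
    |GG (cc Z T M) (JJ (P := P) h n)| ≤
      2 ^ (k * Nat.log z B) * (hT T * cellU W K0 Z) ^ k := by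
  have hP2 : ∀ p ∈ P, 2 ≤ p := fun p hp => (hS.prime p hp).two_le
  refine (GG_le_ncol hP2 _).trans ?_
  have h1 := ncol_le (k := k) hS.prime hz hn0 hn hfree
  have h2 : 0 ≤ A2h P Z T := (A2_nonneg P Z T).trans (A2_le_A2h P Z T)
  refine mul_le_mul (pow_le_pow_right₀ (by norm_num) h1)
    (pow_le_pow_left₀ h2 (A2h_le hS hW hK0 hZ) k) (pow_nonneg h2 k) (by positivity)

end Pool.Agent.Maynard
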