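import Pool.Agent.PosProp.MainA
import Pool.Agent.PosProp.MainDefs
import Pool.Agent.PosProp.Sup

/-!
# The main estimate of the positive proportion theorem: total mass and number of primes
-/

open Finset Filter

namespace Pool.Agent.PosProp.Main

open Pool.Agent.Maynard

variable {k : ℕ}

/-- the total mass -/
theorem total_le {P : Finset ℕ} {W K0 Z T M N a : ℕ} {h : Fin k → ℕ} (hS : Setting P W K0 (Z ^ M))
    (hW : 0 < W) (hZ : 2 ≤ Z) (hsep : Sep P h)
    (hmod1 : ∀ (q : ℕ) (j : Col P k), EG (wq q j) (cc Z T M) ≤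
      ((k:ℝ) + 1) ^ (2 * (P.filter (· ∣ q)).card) * (2 * SS k W Z T))
    (hSk : 1 ≤ SS k W Z T)
    (herr : ((Z:ℝ) ^ M * LL (Z ^ M) ^ (4 * k)) ^ 2 ≤ (N:ℝ) / W) :
    ∑ n ∈ (Ioc N (2 * N)).filter (fun n => n ≡ a [MOD W]), GG (cc Z T M) (JJ (P := P) h n) ^ 2 ≤
      3 * ((N:ℝ) / W * SS k W Z T) := by
  classical
  have h1 := sum_GG_le hS hZ hsep hW (q := 1) one_pos N a (hmod1 1)
  have h2 : (P.filter (· ∣ 1)).card = 0 := by
    rw [Finset.card_eq_zero, Finset.filter_eq_empty_iff]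
    intro p hp h3
    rw [Nat.dvd_one] at h3
    exact (hS.prime p hp).one_lt.ne' h3
  rw [h2] at h1
  simp only [mul_zero, pow_zero, one_mul, mul_one] at h1
  refine h1.trans ?_
  have hX : 0 ≤ (N:ℝ) / W := by positivity
  have h3 : (N:ℝ) / W ≤ (N:ℝ) / W * SS k W Z T := le_mul_of_one_le_right hX hSk
  have h4 := herr.trans h3
  linarith

/-- the number of primes -/
theorem npr_ge {P : Finset ℕ} {W K0 Z M N a : ℕ} {h : Fin k → ℕ} (hk2 : 2 ≤ k)
    (hS : Setting P W K0 (Z ^ M))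
    (hW : 0 < W) (hZ : 2 ≤ Z) (hsep : Sep P h) (ha : ∀ i, (a + h i).Coprime W)
    (hmod2 : ∀ i : Fin k, (1 / 2) * (cW W * Real.log Z) ^ 2 * hT k ^ 2 * SS (k - 1) W Z k ≤
      EG (fun p : P => w2 i (p:ℕ)) (cc Z k M))
    (hD1 : 1 ≤ cW W * Real.log Z)
    (hM0 : 0 < M) (hMle : (M:ℝ) ≤ 9 * k * hT k)
    (hlogZ : 1 / (128 * (M : ℝ)) * Real.log N ≤ Real.log Z) (hlogZ1 : 1 ≤ Real.log Z)
    (hN3 : 3 ≤ N) (hx8 : 8 ≤ Real.log N) (hRN : Z ^ M ≤ N) (hsh : ∀ i, h i ≤ N)
    (herr : ∀ i, L0 P k ^ 2 * ∑ B : P → Bool, FB P N (h i) W (Z ^ M * Z ^ M) B *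
      pm (fun _ => (2 * (k:ℝ) + 1) ^ 2) B ≤ N / (W * (Real.log N) ^ 2))
    {m' : ℝ} (hm' : 0 ≤ m') (hT' : 864 * (m' + 1) * 64 ≤ hT k) :
    3 * (m' + 1) * ((N:ℝ) / W * SS k W Z k) ≤
      ∑ n ∈ (Ioc N (2 * N)).filter (fun n => n ≡ a [MOD W]),
        (npr h n : ℝ) * GG (cc Z k M) (JJ (P := P) h n) ^ 2 := by
  classical
  set x := Real.log N with hx
  have hx0 : 0 < x := by linarith
  have hN0 : (0:ℝ) < N := by exact_mod_cast (show 0 < N by omega)
  have hWpos : (0:ℝ) < W := by exact_mod_cast hW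
  have hh1 := hT_ge_one (T := k) (by omega)
  have hG1 := gT2_ge_one (T := k) (by omega)
  have hG2 := gT2_le_two k
  have hk' : (2:ℝ) ≤ k := by exact_mod_cast hk2
  have hM' : (0:ℝ) < M := by exact_mod_cast hM0
  set D := cW W * Real.log Z with hD
  set Sk := SS k W Z k with hSk
  have hSk1 : 1 ≤ Sk := by
    rw [hSk]; unfold SS
    rw [← hD]
    exact one_le_pow₀ (one_le_mul_of_one_le_of_one_le hD1 hG1)
  have hSk0 : 0 < Sk := by linarith
  have hSksplit : Sk = SS (k - 1) W Z k * (D * gT2 k) := by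
    rw [hSk]; unfold SS
    rw [← hD, ← pow_succ]
    congr 1
    omega
  set X : ℝ := (N:ℝ) / W with hX
  have hX0 : 0 < X := by positivity
  set g : ℕ → ℝ := fun n => GG (cc Z k M) (JJ (P := P) h n) ^ 2 with hg
  have hg0 : ∀ n, 0 ≤ g n := fun n => sq_nonneg _
  set A := (Finset.Ioc N (2 * N)).filter (fun n => n ≡ a [MOD W]) with hA
  have hS2 : ∀ i : Fin k, X * (1 / 8) * Real.log Z * hT k ^ 2 * Sk ≤
      ∑ n ∈ A, tht (n + h i) * g n := by
    intro i
    have h1 := sum_theta_ge (T := k) hS hZ hsep hRN i (ha i)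
    have h2 := herr i
    have h3 := hmod2 i
    have htot : (0:ℝ) < Nat.totient W := by exact_mod_cast Nat.totient_pos.2 hW
    have h4 : (N:ℝ) / Nat.totient W * (1 / 2 * D ^ 2 * hT k ^ 2 * SS (k - 1) W Z k) ≤
        (N:ℝ) / Nat.totient W * EG (fun p : P => w2 i (p:ℕ)) (cc Z k M) :=
      mul_le_mul_of_nonneg_left h3 (by positivity)
    have hSk10 : 0 ≤ SS (k - 1) W Z k := by unfold SS; rw [← hD]; positivity
    have h5 : X * (1 / 4) * Real.log Z * hT k ^ 2 * Sk ≤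
        (N:ℝ) / Nat.totient W * (1 / 2 * D ^ 2 * hT k ^ 2 * SS (k - 1) W Z k) := by
      have e1 : (N:ℝ) / Nat.totient W * D = X * Real.log Z := by
        rw [hD, hX]; unfold cW
        field_simp
      have e2 : (N:ℝ) / Nat.totient W * (1 / 2 * D ^ 2 * hT k ^ 2 * SS (k - 1) W Z k) =
          (X * Real.log Z) * (1 / 2) * hT k ^ 2 * (SS (k - 1) W Z k * D) := by
        rw [← e1]; ring
      rw [e2, hSksplit]
      have e3 : SS (k - 1) W Z k * (D * gT2 k) ≤ 2 * (SS (k - 1) W Z k * D) := by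
        have : 0 ≤ SS (k - 1) W Z k * D := by positivity
        have h6 := mul_le_mul_of_nonneg_left hG2 this
        linarith only [h6]
      have e4 : 0 ≤ X * (1 / 4) * Real.log Z * hT k ^ 2 := by positivity
      calc X * (1 / 4) * Real.log Z * hT k ^ 2 * (SS (k - 1) W Z k * (D * gT2 k))
          ≤ X * (1 / 4) * Real.log Z * hT k ^ 2 * (2 * (SS (k - 1) W Z k * D)) :=
            mul_le_mul_of_nonneg_left e3 e4
        _ = _ := by ring
    have h6 : (N:ℝ) / (W * x ^ 2) ≤ X * (1 / 8) * Real.log Z * hT k ^ 2 * Sk := by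
      have e1 : (N:ℝ) / (W * x ^ 2) ≤ X * (1 / 8) := by
        rw [hX, ← div_div, mul_one_div]
        refine div_le_div_of_nonneg_left (by positivity) (by norm_num) ?_
        nlinarith
      have e2 : 1 ≤ Real.log Z * hT k ^ 2 * Sk := by
        have : 1 ≤ hT k ^ 2 := one_le_pow₀ hh1
        have : 1 ≤ Real.log Z * hT k ^ 2 := one_le_mul_of_one_le_of_one_le hlogZ1 this
        exact one_le_mul_of_one_le_of_one_le this hSk1
      calc (N:ℝ) / (W * x ^ 2) ≤ X * (1 / 8) := e1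
        _ = X * (1 / 8) * 1 := by ring
        _ ≤ X * (1 / 8) * (Real.log Z * hT k ^ 2 * Sk) := by gcongr
        _ = _ := by ring
    have h7 : X * (1 / 4) * Real.log Z * hT k ^ 2 * Sk =
        2 * (X * (1 / 8) * Real.log Z * hT k ^ 2 * Sk) := by ring
    have h8 := h1
    simp only [hg]
    linarith
  -- combination
  set ℓ := Real.log (3 * N : ℕ) with hℓ
  have hℓ2 : ℓ ≤ 2 * x := by
    rw [hℓ]; push_cast
    rw [Real.log_mul (by norm_num) hN0.ne']
    have : Real.log 3 ≤ x := Real.log_le_log (by norm_num) (by exact_mod_cast hN3)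
    linarith
  have hℓ0 : 0 < ℓ := by
    rw [hℓ]
    refine Real.log_pos ?_
    exact_mod_cast (show 1 < 3 * N by omega)
  have hcomb : ∑ i : Fin k, ∑ n ∈ A, tht (n + h i) * g n ≤ ℓ * ∑ n ∈ A, (npr h n : ℝ) * g n := by
    rw [Finset.sum_comm, Finset.mul_sum]
    refine Finset.sum_le_sum fun n hn => ?_
    have hn' := Finset.mem_filter.1 hn
    have hn2 := Finset.mem_Ioc.1 hn'.1
    rw [← Finset.sum_mul]
    have h1 : ∑ i : Fin k, tht (n + h i) ≤ ℓ * (npr h n : ℝ) := by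
      unfold npr
      rw [mul_comm, ← nsmul_eq_mul, ← Finset.sum_const, Finset.sum_filter]
      refine Finset.sum_le_sum fun i _ => ?_
      unfold tht
      split_ifs with hp
      · refine Real.log_le_log ?_ ?_
        · exact_mod_cast hp.pos
        · have := hsh i
          exact_mod_cast (show n + h i ≤ 3 * N by omega)
      · exact le_rfl
    calc (∑ i : Fin k, tht (n + h i)) * g n ≤ (ℓ * (npr h n : ℝ)) * g n :=
          mul_le_mul_of_nonneg_right h1 (hg0 n)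
      _ = _ := by ring
  have h1 : (k:ℝ) * (X * (1 / 8) * Real.log Z * hT k ^ 2 * Sk) ≤
      ∑ i : Fin k, ∑ n ∈ A, tht (n + h i) * g n := by
    calc (k:ℝ) * (X * (1 / 8) * Real.log Z * hT k ^ 2 * Sk) =
          ∑ _i : Fin k, (X * (1 / 8) * Real.log Z * hT k ^ 2 * Sk) := by
          rw [Finset.sum_const, Finset.card_univ, Fintype.card_fin, nsmul_eq_mul]
      _ ≤ _ := Finset.sum_le_sum fun i _ => hS2 i
  have h2 := h1.trans hcomb
  have h3 : 1 / 64 * x / (18 * k * hT k) ≤ Real.log Z := by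
    refine le_trans ?_ hlogZ
    have hM2 : 2 * (M:ℝ) ≤ 18 * k * hT k := by linarith
    have e0 : 1 / (128 * (M:ℝ)) * x = 1 / 64 * x / (2 * M) := by
      field_simp
      norm_num
    rw [e0]
    exact div_le_div_of_nonneg_left (by positivity) (by positivity) hM2
  have h4 : 3 * (m' + 1) * (X * Sk) * ℓ ≤
      (k:ℝ) * (X * (1 / 8) * Real.log Z * hT k ^ 2 * Sk) := by
    have e1 : 864 * (m' + 1) ≤ hT k * (1 / 64) := by linarith
    have e2 : (k:ℝ) * (X * (1 / 8) * (1 / 64 * x / (18 * k * hT k)) * hT k ^ 2 * Sk) =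
        X * Sk * x * (hT k * (1 / 64)) / 144 := by
      field_simp
      ring
    have e3 : (k:ℝ) * (X * (1 / 8) * (1 / 64 * x / (18 * k * hT k)) * hT k ^ 2 * Sk) ≤
        (k:ℝ) * (X * (1 / 8) * Real.log Z * hT k ^ 2 * Sk) := by gcongr
    have e4 : 3 * (m' + 1) * (X * Sk) * ℓ ≤ 3 * (m' + 1) * (X * Sk) * (2 * x) := by gcongr
    have e5 : X * Sk * x * (864 * (m' + 1)) ≤ X * Sk * x * (hT k * (1 / 64)) := by gcongr
    rw [e2] at e3
    linarith
  have h5 : ℓ * (3 * (m' + 1) * (X * Sk)) ≤ ℓ * ∑ n ∈ A, (npr h n : ℝ) * g n := by linarith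
  exact le_of_mul_le_mul_left h5 hℓ0

end Pool.Agent.PosProp.Main
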