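import Pool.Agent.PosProp.Defs
import Pool.Agent.Lib.Maynard.Lam

/-!
# The average over the extra shift (first part of the module PP8)
-/

open Finset

namespace Pool.Agent.PosProp

open Pool.Agent.Maynard

/-- integers of an interval in a residue class -/
lemma card_class_le {m H : ℕ} (s : ℕ) :
    ((Icc 1 H).filter (fun x => x ≡ s [MOD m])).card ≤ H / m + 1 := by
  have h1 : ((Icc 1 H).filter (fun x => x ≡ s [MOD m])).card ≤ (range (H / m + 1)).card := by
    refine Finset.card_le_card_of_injOn (fun x => x / m) ?_ ?_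
    · intro x hx
      simp only [Finset.coe_filter, Finset.mem_Icc, Set.mem_ofPred_eq] at hx
      simp only [Finset.coe_range, Set.mem_Iio]
      have := Nat.div_le_div_right (c := m) hx.1.2
      omega
    · intro x hx y hy hxy
      simp only [Finset.coe_filter, Finset.mem_Icc, Set.mem_ofPred_eq] at hx hy
      have h2 : x % m = y % m := hx.2.trans hy.2.symm
      have h3 : x / m = y / m := hxy
      have h4 := Nat.div_add_mod x m
      have h5 := Nat.div_add_mod y m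
      rw [h3, h2] at h4
      omega
  simpa using h1

/-- integers of an interval in a residue class which are coprime to `W0` after a shift -/
lemma card_coprime_class_le {W0 d H : ℕ} (hW0 : 0 < W0) (hd : 0 < d) (hc : W0.Coprime d)
    (a r : ℕ) :
    (((Icc 1 H).filter (fun x => (a + x).Coprime W0 ∧ x ≡ r [MOD d])).card : ℝ) ≤
      Nat.totient W0 * ((H:ℝ) / (W0 * d) + 1) := by
  classical
  set S := (range (W0 * d)).filter (fun s => (a + s).Coprime W0 ∧ s ≡ r [MOD d]) with hS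
  have hm : 0 < W0 * d := Nat.mul_pos hW0 hd
  have h1 : S.card ≤ Nat.totient W0 := by
    rw [Nat.totient_eq_card_coprime]
    refine Finset.card_le_card_of_injOn (fun s => (a + s) % W0) ?_ ?_
    · intro s hs
      simp only [hS, Finset.coe_filter, Finset.mem_range, Set.mem_ofPred_eq] at hs
      simp only [Finset.coe_filter, Finset.mem_range, Set.mem_ofPred_eq]
      refine ⟨Nat.mod_lt _ hW0, ?_⟩
      have := hs.2.1
      rw [Nat.Coprime, Nat.gcd_comm, ← Nat.gcd_rec]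
      exact this.symm
    · intro s hs t ht hst
      simp only [hS, Finset.coe_filter, Finset.mem_range, Set.mem_ofPred_eq] at hs ht
      have h2 : s ≡ t [MOD d] := hs.2.2.trans ht.2.2.symm
      have h3 : s ≡ t [MOD W0] := Nat.ModEq.add_left_cancel' a hst
      have h4 : s ≡ t [MOD W0 * d] := (Nat.modEq_and_modEq_iff_modEq_mul hc).1 ⟨h3, h2⟩
      rw [Nat.ModEq, Nat.mod_eq_of_lt hs.1, Nat.mod_eq_of_lt ht.1] at h4
      exact h4
  have h2 : ((Icc 1 H).filter (fun x => (a + x).Coprime W0 ∧ x ≡ r [MOD d])).card ≤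
      (H / (W0 * d) + 1) * S.card := by
    refine Finset.card_le_mul_card_image_of_maps_to (f := fun x => x % (W0 * d)) ?_ _ ?_
    · intro x hx
      simp only [Finset.mem_filter, Finset.mem_Icc] at hx
      simp only [hS, Finset.mem_filter, Finset.mem_range]
      refine ⟨Nat.mod_lt _ hm, ?_, ?_⟩
      · have h3 : a + x % (W0 * d) ≡ a + x [MOD W0] :=
          ((Nat.mod_modEq x (W0 * d)).of_mul_right d).add_left a
        have h4 := h3.gcd_eq
        rw [Nat.Coprime, h4]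
        exact hx.2.1
      · exact ((Nat.mod_modEq x (W0 * d)).of_mul_left W0).trans hx.2.2
    · intro s _
      refine le_trans (Finset.card_le_card ?_) (card_class_le s)
      intro x hx
      simp only [Finset.mem_filter, Finset.mem_Icc] at hx ⊢
      refine ⟨hx.1.1, ?_⟩
      rw [← hx.2]
      exact (Nat.mod_modEq x _).symm
  have h3 : (((Icc 1 H).filter (fun x => (a + x).Coprime W0 ∧ x ≡ r [MOD d])).card : ℝ) ≤
      ((H / (W0 * d) : ℕ) + 1 : ℝ) * S.card := by exact_mod_cast h2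
  have h4 : ((H / (W0 * d) : ℕ) : ℝ) ≤ (H:ℝ) / (W0 * d) := by
    have := Nat.cast_div_le (α := ℝ) (m := H) (n := W0 * d)
    push_cast at this
    exact this
  have h5 : (S.card : ℝ) ≤ Nat.totient W0 := by exact_mod_cast h1
  calc _ ≤ ((H / (W0 * d) : ℕ) + 1 : ℝ) * S.card := h3
    _ ≤ ((H:ℝ) / (W0 * d) + 1) * Nat.totient W0 := by
        refine mul_le_mul (by linarith) h5 (Nat.cast_nonneg _) (by positivity)
    _ = _ := mul_comm _ _

lemma dvd_dist_iff {p r x : ℕ} : p ∣ Nat.dist r x ↔ x ≡ r [MOD p] := by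
  rcases le_total r x with h | h
  · rw [Nat.dist_eq_sub_of_le h]
    exact ⟨fun hd => ((Nat.modEq_iff_dvd' h).2 hd).symm, fun hm => (Nat.modEq_iff_dvd' h).1 hm.symm⟩
  · rw [Nat.dist_eq_sub_of_le_right h]
    exact ⟨fun hd => (Nat.modEq_iff_dvd' h).2 hd, fun hm => (Nat.modEq_iff_dvd' h).1 hm⟩

/-- the sum over the extra shift, one old shift -/
lemma sum_prod_dist_le {W0 H : ℕ} (hW0 : 0 < W0) {Q : Finset ℕ} (hQ : ∀ p ∈ Q, p.Prime)
    (hQW : ∀ p ∈ Q, ¬ p ∣ W0) {x : ℝ} (hx : 0 ≤ x) (a r : ℕ) :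
    ∑ h' ∈ (Icc 1 H).filter (fun h' => (a + h').Coprime W0),
      ∏ p ∈ Q.filter (fun p => p ∣ Nat.dist r h'), (1 + x / (p:ℝ)) ≤
      cW W0 * H * ∏ p ∈ Q, (1 + x / (p:ℝ) ^ 2) + Nat.totient W0 * ∏ p ∈ Q, (1 + x / (p:ℝ)) := by
  classical
  have hexp : ∀ h', ∏ p ∈ Q.filter (fun p => p ∣ Nat.dist r h'), (1 + x / (p:ℝ)) =
      ∑ D ∈ Q.powerset, if (∀ p ∈ D, p ∣ Nat.dist r h') then ∏ p ∈ D, x / (p:ℝ) else 0 := by
    intro h'
    rw [Finset.prod_one_add, ← Finset.sum_filter]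
    refine Finset.sum_congr ?_ fun _ _ => rfl
    ext D
    simp only [Finset.mem_powerset, Finset.mem_filter, Finset.subset_iff]
    constructor
    · intro h
      exact ⟨fun p hp => (h hp).1, fun p hp => (h hp).2⟩
    · rintro ⟨h1, h2⟩ p hp
      exact ⟨h1 hp, h2 p hp⟩
  simp_rw [hexp]
  rw [Finset.sum_comm]
  have hD : ∀ D ∈ Q.powerset, ∑ h' ∈ (Icc 1 H).filter (fun h' => (a + h').Coprime W0),
      (if (∀ p ∈ D, p ∣ Nat.dist r h') then ∏ p ∈ D, x / (p:ℝ) else 0) ≤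
      cW W0 * H * ∏ p ∈ D, x / (p:ℝ) ^ 2 + Nat.totient W0 * ∏ p ∈ D, x / (p:ℝ) := by
    intro D hD
    rw [Finset.mem_powerset] at hD
    have hDp : ∀ p ∈ D, p.Prime := fun p hp => hQ p (hD hp)
    have hd0 : 0 < ∏ p ∈ D, p := Finset.prod_pos fun p hp => (hDp p hp).pos
    have hcop : W0.Coprime (∏ p ∈ D, p) := Nat.Coprime.prod_right fun p hp =>
      ((hDp p hp).coprime_iff_not_dvd.2 (hQW p (hD hp))).symm
    have hnn : 0 ≤ ∏ p ∈ D, x / (p:ℝ) := Finset.prod_nonneg fun p _ => by positivity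
    rw [← Finset.sum_filter, Finset.sum_const, nsmul_eq_mul, Finset.filter_filter]
    have h1 : (((Icc 1 H).filter (fun h' => (a + h').Coprime W0 ∧
        ∀ p ∈ D, p ∣ Nat.dist r h')).card : ℝ) ≤
        Nat.totient W0 * ((H:ℝ) / (W0 * (∏ p ∈ D, p : ℕ)) + 1) := by
      refine le_trans ?_ (card_coprime_class_le (H := H) hW0 hd0 hcop a r)
      have : ((Icc 1 H).filter (fun h' => (a + h').Coprime W0 ∧
        ∀ p ∈ D, p ∣ Nat.dist r h')).card ≤
        ((Icc 1 H).filter (fun x => (a + x).Coprime W0 ∧ x ≡ r [MOD (∏ p ∈ D, p)])).card := by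
        refine Finset.card_le_card fun y hy => ?_
        simp only [Finset.mem_filter] at hy ⊢
        refine ⟨hy.1, hy.2.1, ?_⟩
        rw [← dvd_dist_iff]
        exact Finset.prod_primes_dvd _ (fun p hp => (hDp p hp).prime) hy.2.2
      exact_mod_cast this
    refine (mul_le_mul_of_nonneg_right h1 hnn).trans (le_of_eq ?_)
    have e1 : ∏ p ∈ D, x / (p:ℝ) ^ 2 = (∏ p ∈ D, x / (p:ℝ)) * (1 / ((∏ p ∈ D, p : ℕ) : ℝ)) := by
      push_cast
      rw [one_div, ← Finset.prod_inv_distrib, ← Finset.prod_mul_distrib]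
      refine Finset.prod_congr rfl fun p hp => ?_
      have : (p:ℝ) ≠ 0 := by exact_mod_cast (hDp p hp).ne_zero
      field_simp
    rw [e1]
    unfold cW
    have hW0' : (W0:ℝ) ≠ 0 := by exact_mod_cast hW0.ne'
    have hd0' : (((∏ p ∈ D, p : ℕ)) : ℝ) ≠ 0 := by exact_mod_cast hd0.ne'
    field_simp
  refine (Finset.sum_le_sum hD).trans (le_of_eq ?_)
  rw [Finset.sum_add_distrib, ← Finset.mul_sum, ← Finset.mul_sum, Finset.prod_one_add,
    Finset.prod_one_add]

/-- AM-GM in the form needed -/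
lemma prod_le_mean {k : ℕ} (hk : 1 ≤ k) (x : Fin k → ℝ) (hx : ∀ i, 0 ≤ x i) :
    ∏ i, x i ≤ 1 / k * ∑ i, x i ^ k := by
  have hk0 : (k:ℝ) ≠ 0 := by exact_mod_cast (show k ≠ 0 by omega)
  have h := Real.geom_mean_le_arith_mean_weighted (s := (Finset.univ : Finset (Fin k)))
    (fun _ => (k:ℝ)⁻¹) (fun i => x i ^ k) (fun _ _ => by positivity)
    (by rw [Finset.sum_const, Finset.card_univ, Fintype.card_fin, nsmul_eq_mul]
        field_simp)
    (fun i _ => pow_nonneg (hx i) k)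
  have e : ∀ i : Fin k, (x i ^ k) ^ ((k:ℝ)⁻¹) = x i := fun i =>
    Real.pow_rpow_inv_natCast (hx i) (by omega)
  rw [Finset.prod_congr rfl fun i _ => e i] at h
  refine h.trans (le_of_eq ?_)
  rw [Finset.mul_sum]
  simp

lemma inv_pow_le {k p : ℕ} (hkp : 64 * k ^ 2 ≤ p) (hk : 1 ≤ k) :
    ((1 - 1 / (p:ℝ))⁻¹) ^ k ≤ 1 + 3 * k / (p:ℝ) := by
  have hk1 : (1:ℝ) ≤ k := by exact_mod_cast hk
  have hp64 : (64:ℝ) * k ^ 2 ≤ p := by exact_mod_cast hkp
  have hp3 : (64:ℝ) * k ≤ p := by nlinarith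
  have hp0 : (0:ℝ) < p := by linarith
  have hp1 : (0:ℝ) < (p:ℝ) - 1 := by linarith
  have e1 : (1 - 1 / (p:ℝ))⁻¹ = 1 + 1 / ((p:ℝ) - 1) := by
    field_simp
    ring
  have h1 : 1 + 1 / ((p:ℝ) - 1) ≤ Real.exp (1 / ((p:ℝ) - 1)) := by
    have := Real.add_one_le_exp (1 / ((p:ℝ) - 1))
    linarith
  rw [e1]
  refine (pow_le_pow_left₀ (by positivity) h1 k).trans ?_
  rw [← Real.exp_nat_mul]
  have h2 : (k:ℝ) * (1 / ((p:ℝ) - 1)) ≤ 1 := by
    rw [mul_one_div, div_le_one hp1]; linarith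
  refine (exp_le_one_add (by positivity) h2).trans ?_
  have h3 : 2 * ((k:ℝ) * (1 / ((p:ℝ) - 1))) ≤ 3 * k / p := by
    rw [mul_one_div, ← mul_div_assoc, div_le_div_iff₀ hp1 hp0]
    nlinarith
  linarith

lemma mem_badP {K0 H : ℕ} {k : ℕ} {h : Fin k → ℕ} {p : ℕ} :
    p ∈ badP K0 H h ↔ p < max K0 (H + 1) ∧ p.Prime ∧ (p < K0 ∨ ∃ i j, i ≠ j ∧ h i ≡ h j [MOD p]) := by
  unfold badP
  simp only [Finset.mem_filter, Finset.mem_range]

lemma badP_prime {K0 H : ℕ} {k : ℕ} {h : Fin k → ℕ} {p : ℕ} (hp : p ∈ badP K0 H h) : p.Prime :=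
  (mem_badP.1 hp).2.1

lemma badP_dvd_Wt {q K0 H : ℕ} {k : ℕ} {h : Fin k → ℕ} {p : ℕ} (hp : p ∈ badP K0 H h) :
    p ∣ Wt q K0 H h :=
  (Finset.dvd_prod_of_mem (fun p => p) hp).mul_left q

lemma prime_dvd_primorial {n p : ℕ} (hp : p.Prime) : p ∣ primorial n ↔ p ≤ n := by
  unfold primorial
  rw [hp.prime.dvd_finsetProd_iff]
  constructor
  · rintro ⟨r, hr, hpr⟩
    rw [Finset.mem_filter, Finset.mem_range] at hr
    have : p = r := (Nat.prime_dvd_prime_iff_eq hp hr.2).1 hpr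
    omega
  · intro h
    exact ⟨p, by rw [Finset.mem_filter, Finset.mem_range]; exact ⟨by omega, hp⟩, dvd_rfl⟩

/-- `oth` holds for all tuples as soon as `H` is large -/
theorem oth_le {k : ℕ} (hk : 1 ≤ k) {K0 q H : ℕ} (hK0 : 64 * k ^ 2 ≤ K0) (hq : 1 ≤ q)
    (h : Fin k → ℕ) (hH : ∀ i, h i ≤ H) (hh1 : ∀ i, 1 ≤ h i)
    (hbig : ((q * primorial (K0 - 1) : ℕ) : ℝ) * LL H ^ (3 * k) ≤ H) (a : ℕ) :
    ∑ h' ∈ (Icc 1 H).filter
      (fun h' => h' ∉ Set.range h ∧ (a + h').Coprime (q * primorial (K0 - 1))),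
      ∏ p ∈ (∏ i, Nat.dist (h i) h').primeFactors.filter (fun p => ¬ p ∣ Wt q K0 H h),
        (1 - 1 / (p:ℝ))⁻¹ ≤ 3 * cW (q * primorial (K0 - 1)) * H := by
  classical
  set W0 := q * primorial (K0 - 1) with hW0def
  have hW0 : 0 < W0 := Nat.mul_pos (by omega) (primorial_pos _)
  set Q := (range (H + 1)).filter (fun p => p.Prime ∧ ¬ p ∣ Wt q K0 H h) with hQdef
  have hQp : ∀ p ∈ Q, p.Prime := fun p hp => (Finset.mem_filter.1 hp).2.1
  have hQH : ∀ p ∈ Q, p ≤ H := fun p hp => by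
    have := Finset.mem_range.1 (Finset.mem_filter.1 hp).1
    omega
  have hQbad : ∀ p ∈ Q, p ∉ badP K0 H h := fun p hp hb =>
    (Finset.mem_filter.1 hp).2.2 (badP_dvd_Wt hb)
  have hQK : ∀ p ∈ Q, K0 ≤ p := by
    intro p hp
    by_contra hcon
    refine hQbad p hp (mem_badP.2 ⟨?_, hQp p hp, Or.inl (by omega)⟩)
    exact lt_of_lt_of_le (by omega) (le_max_left _ _)
  have hQW : ∀ p ∈ Q, ¬ p ∣ W0 := by
    intro p hp hdv
    rcases ((hQp p hp).dvd_mul).1 hdv with h1 | h1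
    · exact (Finset.mem_filter.1 hp).2.2 (Dvd.dvd.mul_right h1 _)
    · have := (prime_dvd_primorial (hQp p hp)).1 h1
      have := hQK p hp
      have := (hQp p hp).pos
      omega
  have hQsep : ∀ p ∈ Q, ∀ i j, h i ≡ h j [MOD p] → i = j := by
    intro p hp i j hij
    by_contra hne
    refine hQbad p hp (mem_badP.2 ⟨?_, hQp p hp, Or.inr ⟨i, j, hne, hij⟩⟩)
    have := hQH p hp
    exact lt_of_lt_of_le (by omega) (le_max_right _ _)
  have hy1 : ∀ p ∈ Q, (1:ℝ) ≤ (1 - 1 / (p:ℝ))⁻¹ := by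
    intro p hp
    have : (2:ℝ) ≤ p := by exact_mod_cast (hQp p hp).two_le
    have h2 : 1 / (p:ℝ) ≤ 1 / 2 := one_div_le_one_div_of_le (by norm_num) this
    have h3 : 0 ≤ 1 / (p:ℝ) := by positivity
    exact (one_le_inv₀ (by linarith)).2 (by linarith)
  -- pointwise bound
  have hpt : ∀ h' ∈ (Icc 1 H).filter (fun h' => h' ∉ Set.range h ∧ (a + h').Coprime W0),
      ∏ p ∈ (∏ i, Nat.dist (h i) h').primeFactors.filter (fun p => ¬ p ∣ Wt q K0 H h),
        (1 - 1 / (p:ℝ))⁻¹ ≤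
      1 / k * ∑ i, ∏ p ∈ Q.filter (fun p => p ∣ Nat.dist (h i) h'), (1 + (3 * k : ℝ) / (p:ℝ)) := by
    intro h' hh'
    simp only [Finset.mem_filter, Finset.mem_Icc] at hh'
    have hd0 : ∀ i, Nat.dist (h i) h' ≠ 0 := by
      intro i h0
      exact hh'.2.1 ⟨i, Nat.eq_of_dist_eq_zero h0⟩
    have hdH : ∀ i, Nat.dist (h i) h' ≤ H := by
      intro i
      have h1 := hH i
      have h2 := hh'.1.2
      unfold Nat.dist
      have h3 := hh1 i
      have h4 := hh'.1.1
      omega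
    -- the product of the factors
    have e1 : ∏ p ∈ (∏ i, Nat.dist (h i) h').primeFactors.filter (fun p => ¬ p ∣ Wt q K0 H h),
        (1 - 1 / (p:ℝ))⁻¹ =
        ∏ i, ∏ p ∈ Q.filter (fun p => p ∣ Nat.dist (h i) h'), (1 - 1 / (p:ℝ))⁻¹ := by
      have e2 : (∏ i, Nat.dist (h i) h').primeFactors.filter (fun p => ¬ p ∣ Wt q K0 H h) =
          Finset.univ.biUnion (fun i : Fin k => Q.filter (fun p => p ∣ Nat.dist (h i) h')) := by
        ext p
        simp only [Finset.mem_filter, Nat.mem_primeFactors, Finset.mem_biUnion, Finset.mem_univ,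
          true_and]
        constructor
        · rintro ⟨⟨hp, hpd, -⟩, hpW⟩
          obtain ⟨i, -, hi⟩ := (hp.prime.dvd_finsetProd_iff _).1 hpd
          refine ⟨i, ?_, hi⟩
          rw [hQdef, Finset.mem_filter, Finset.mem_range]
          refine ⟨?_, hp, hpW⟩
          have := Nat.le_of_dvd (Nat.pos_of_ne_zero (hd0 i)) hi
          have := hdH i
          omega
        · rintro ⟨i, hp, hi⟩
          refine ⟨⟨hQp p hp, hi.trans (Finset.dvd_prod_of_mem _ (Finset.mem_univ i)), ?_⟩,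
            (Finset.mem_filter.1 hp).2.2⟩
          exact Finset.prod_ne_zero_iff.2 fun i _ => hd0 i
      rw [e2, Finset.prod_biUnion]
      intro i _ j _ hij
      rw [Function.onFun, Finset.disjoint_left]
      intro p hp1 hp2
      rw [Finset.mem_filter, dvd_dist_iff] at hp1 hp2
      exact hij (hQsep p hp1.1 i j (hp1.2.symm.trans hp2.2))
    rw [e1]
    have hnn : ∀ i : Fin k, 0 ≤ ∏ p ∈ Q.filter (fun p => p ∣ Nat.dist (h i) h'),
        (1 - 1 / (p:ℝ))⁻¹ := fun i => Finset.prod_nonneg fun p hp =>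
      zero_le_one.trans (hy1 p (Finset.mem_filter.1 hp).1)
    refine (prod_le_mean hk _ hnn).trans ?_
    refine mul_le_mul_of_nonneg_left (Finset.sum_le_sum fun i _ => ?_) (by positivity)
    rw [← Finset.prod_pow]
    refine Finset.prod_le_prod (fun p hp => ?_) fun p hp => ?_
    · exact pow_nonneg (zero_le_one.trans (hy1 p (Finset.mem_filter.1 hp).1)) k
    · exact inv_pow_le (hK0.trans (hQK p (Finset.mem_filter.1 hp).1)) hk
  refine (Finset.sum_le_sum hpt).trans ?_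
  rw [← Finset.mul_sum, Finset.sum_comm]
  have hk0 : (0:ℝ) < k := by exact_mod_cast (show 0 < k by omega)
  have hk1 : (1:ℝ) ≤ k := by exact_mod_cast hk
  have hK0r : (64:ℝ) * k ^ 2 ≤ K0 := by exact_mod_cast hK0
  have hK0pos : (0:ℝ) < K0 := by nlinarith
  have hK2 : 2 ≤ K0 := by nlinarith
  -- the two products
  have hA : ∏ p ∈ Q, (1 + (3 * k : ℝ) / (p:ℝ) ^ 2) ≤ 2 := by
    refine (prod_le_of_sq (P := Q) hK2 hQK (fun p => (3 * k : ℝ) / (p:ℝ) ^ 2) (C := 3 * k)
      (by positivity) (fun p _ => by positivity) (fun p _ => le_rfl) ?_).trans ?_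
    · rw [div_le_one hK0pos]; nlinarith
    · have : 4 * (3 * (k:ℝ)) / K0 ≤ 1 := by
        rw [div_le_one hK0pos]; nlinarith
      linarith
  have hB : ∏ p ∈ Q, (1 + (3 * k : ℝ) / (p:ℝ)) ≤ LL H ^ (3 * k) := by
    have := prod_inv_le hQp hQH (3 * k)
    push_cast at this
    exact this
  have hone : ∀ i ∈ (Finset.univ : Finset (Fin k)),
      ∑ h' ∈ (Icc 1 H).filter (fun h' => h' ∉ Set.range h ∧ (a + h').Coprime W0),
        ∏ p ∈ Q.filter (fun p => p ∣ Nat.dist (h i) h'), (1 + (3 * k : ℝ) / (p:ℝ)) ≤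
      3 * cW W0 * H := by
    intro i _
    refine le_trans (Finset.sum_le_sum_of_subset_of_nonneg (t := (Icc 1 H).filter
      (fun h' => (a + h').Coprime W0)) ?_ ?_) ?_
    · intro x hx
      simp only [Finset.mem_filter] at hx ⊢
      exact ⟨hx.1, hx.2.2⟩
    · intro x _ _
      exact Finset.prod_nonneg fun p _ => by positivity
    · refine (sum_prod_dist_le (H := H) hW0 hQp hQW (x := 3 * k) (by positivity) a (h i)).trans ?_
      have hc := cW_nonneg W0
      have h1 : cW W0 * H * ∏ p ∈ Q, (1 + (3 * k : ℝ) / (p:ℝ) ^ 2) ≤ cW W0 * H * 2 :=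
        mul_le_mul_of_nonneg_left hA (by positivity)
      have h2 : (Nat.totient W0 : ℝ) * ∏ p ∈ Q, (1 + (3 * k : ℝ) / (p:ℝ)) ≤ cW W0 * H := by
        have hW0' : (W0:ℝ) ≠ 0 := by exact_mod_cast hW0.ne'
        have e : (Nat.totient W0 : ℝ) = cW W0 * W0 := by
          unfold cW; field_simp
        rw [e, mul_assoc]
        refine mul_le_mul_of_nonneg_left ?_ hc
        refine (mul_le_mul_of_nonneg_left hB (Nat.cast_nonneg _)).trans hbig
      linarith
  refine (mul_le_mul_of_nonneg_left (Finset.sum_le_sum hone) (by positivity)).trans (le_of_eq ?_)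
  rw [Finset.sum_const, Finset.card_univ, Fintype.card_fin, nsmul_eq_mul]
  field_simp

end Pool.Agent.PosProp
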