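import Pool.Agent.PosProp.Loc2
import Pool.Agent.PosProp.Cell2

/-!
# The model bound for one extra shift
-/

open Finset

namespace Pool.Agent.PosProp

open Pool.Agent.Maynard

variable {P : Finset ℕ} {k : ℕ}

/-- coefficients of the extra sieve of level `z`, with the primes outside `V` -/
noncomputable def cS (z V : ℕ) (B : P → Bool) : ℝ :=
  if (∀ p : P, B p = true → ¬ (p:ℕ) ∣ V) ∧ 1 ≤ val B ∧ val B < z + 1 then
    pm (fun p => 1 / ((p:ℝ) - 1)) B else 0

/-- the extra sieve function -/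
noncomputable def GS (d : (P → Bool) → ℝ) (y : P → Bool) : ℝ :=
  ∑ B : P → Bool, d B * ∏ p : P, (if B p then (if y p then 1 - ((p:ℕ):ℝ) else 1) else 1)

lemma sum_pair {A B : Type} [Fintype A] [Fintype B] (F : (P → A × B) → ℝ) :
    ∑ x : P → A × B, F x = ∑ u : P → A, ∑ v : P → B, F (fun p => (u p, v p)) := by
  classical
  rw [← Fintype.sum_prod_type']
  refine Fintype.sum_equiv
    { toFun := fun x => (fun p => (x p).1, fun p => (x p).2)
      invFun := fun w => fun p => (w.1 p, w.2 p)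
      left_inv := fun x => rfl
      right_inv := fun w => rfl } _ _ fun x => rfl

lemma GG_mul_GS (c : Col P k → ℝ) (d : (P → Bool) → ℝ) (s : ℕ → Bool)
    (hd : ∀ B, d B ≠ 0 → ∀ p : P, B p = true → s p = true) (y : P → X2 k) :
    GG c (fun p => (y p).1) * GS d (fun p => (y p).2) =
      ∑ x : P → X2 k, (c (fun p => (x p).1) * d (fun p => (x p).2)) *
        ∏ p : P, ps2 (s p) (p:ℕ) (x p) (y p) := by
  rw [sum_pair]
  unfold GG GS
  rw [Finset.sum_mul_sum]
  refine Finset.sum_congr rfl fun u _ => Finset.sum_congr rfl fun v _ => ?_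
  by_cases hv : d v = 0
  · simp [hv]
  · have h := hd v hv
    have e : ∏ p : P, ps2 (s p) (p:ℕ) (u p, v p) (y p) =
        (∏ p : P, ps (p:ℕ) (u p) (y p).1) *
          ∏ p : P, (if v p then (if (y p).2 then 1 - ((p:ℕ):ℝ) else 1) else 1) := by
      rw [← Finset.prod_mul_distrib]
      refine Finset.prod_congr rfl fun p _ => ?_
      unfold ps2
      by_cases hp : v p = true
      · simp [hp, h p hp]
      · simp [hp]
    rw [e]
    ring

lemma cS_support {z V : ℕ} {B : P → Bool} (h : cS z V B ≠ 0) :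
    (∀ p : P, B p = true → ¬ (p:ℕ) ∣ V) ∧ 1 ≤ val B ∧ val B < z + 1 := by
  by_contra hcon
  exact h (by unfold cS; rw [if_neg hcon])

lemma cS_nonneg (hP : ∀ p ∈ P, 2 ≤ p) (z V : ℕ) (B : P → Bool) : 0 ≤ cS z V B := by
  unfold cS
  split_ifs
  · refine pm_nonneg (fun p hp => ?_) B
    have : (2:ℝ) ≤ p := by exact_mod_cast hP p hp
    exact div_nonneg zero_le_one (by linarith)
  · exact le_rfl

/-- the model expectation -/
noncomputable def E2 (P : Finset ℕ) (k : ℕ) (V z Z T M : ℕ) : ℝ :=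
  ∑ y : P → X2 k, (∏ p : P, wx (decide (¬ (p:ℕ) ∣ V)) k (p:ℕ) (y p)) *
    (GG (cc Z T M) (fun p => (y p).1) * GS (cS z V) (fun p => (y p).2)) ^ 2

lemma pm_mul (a b : ℕ → ℝ) (B : P → Bool) : pm (fun p => a p * b p) B = pm a B * pm b B := by
  unfold pm
  rw [← Finset.prod_mul_distrib]
  refine Finset.prod_congr rfl fun p _ => ?_
  split_ifs <;> ring

lemma pc_mul (a b : ℕ → ℝ) (χ : Col P k) : pc (fun p => a p * b p) χ = pc a χ * pc b χ := by
  unfold pc
  rw [← Finset.prod_mul_distrib]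
  refine Finset.prod_congr rfl fun p _ => ?_
  split_ifs <;> ring

/-- weights of the quadratic form -/
noncomputable def aq (k p : ℕ) : ℝ := qp k p / ((p:ℝ) - 1) ^ 2

lemma E2_le1 (hP : ∀ p ∈ P, p.Prime) (hk : ∀ p ∈ P, 8 * (k + 1) ≤ p) (V z Z T M : ℕ) :
    E2 P k V z Z T M ≤ (∏ p ∈ P, (1 + 4 * ((k:ℝ) + 1) / (p:ℝ) ^ 2)) *
      ((∑ χ : Col P k, (∏ i, gz Z T (cp χ i) ^ 2) * pc (aq k) χ) *
       (∑ B : P → Bool, (if (∀ p : P, B p = true → ¬ (p:ℕ) ∣ V) ∧ 1 ≤ val B ∧ val B < z + 1 then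
          pm (aq k) B else 0))) := by
  unfold E2
  have h1 : ∀ y : P → X2 k, GG (cc Z T M) (fun p => (y p).1) * GS (cS z V) (fun p => (y p).2) =
      ∑ x : P → X2 k, (cc Z T M (fun p => (x p).1) * cS z V (fun p => (x p).2)) *
        ∏ p : P, ps2 (decide (¬ (p:ℕ) ∣ V)) (p:ℕ) (x p) (y p) := by
    intro y
    exact GG_mul_GS _ _ (fun p => decide (¬ p ∣ V)) (fun B hB p hp => by
      simpa using (cS_support hB).1 p hp) y
  simp_rw [h1]
  refine (EG2_upper hk (fun p => decide (¬ p ∣ V))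
    (fun x => cc Z T M (fun p => (x p).1) * cS z V (fun p => (x p).2))).trans ?_
  rw [sum_pair]
  rw [← Finset.prod_coe_sort P (fun p => 1 + 4 * ((k:ℝ) + 1) / (p:ℝ) ^ 2)]
  rw [Finset.sum_mul_sum, Finset.mul_sum]
  have hP2 : ∀ p ∈ P, 2 ≤ p := fun p hp => (hP p hp).two_le
  have haq : ∀ p ∈ P, 0 ≤ aq k p := fun p _ => by
    unfold aq
    exact div_nonneg (qp_nonneg _ _) (sq_nonneg _)
  refine Finset.sum_le_sum fun u _ => ?_
  rw [Finset.mul_sum]
  refine Finset.sum_le_sum fun v _ => ?_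
  have hprod0 : 0 ≤ ∏ p : P, (1 + 4 * ((k:ℝ) + 1) / ((p:ℕ):ℝ) ^ 2) :=
    Finset.prod_nonneg fun p _ => by positivity
  -- the factor kap
  have e1 : ∏ p : P, kap k (p:ℕ) (u p, v p) = (∏ p : P, (1 + 4 * ((k:ℝ) + 1) / ((p:ℕ):ℝ) ^ 2)) *
      (pc (qp k) u * pm (qp k) v) := by
    unfold kap pc pm
    rw [Finset.prod_mul_distrib, Finset.prod_mul_distrib]
  rw [e1, mul_assoc]
  refine mul_le_mul_of_nonneg_left ?_ hprod0
  have e2 : pc (qp k) u * pm (qp k) v * (cc Z T M u * cS z V v) ^ 2 =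
      (cc Z T M u ^ 2 * pc (qp k) u) * (cS z V v ^ 2 * pm (qp k) v) := by ring
  rw [e2]
  have e3 : cc Z T M u ^ 2 * pc (qp k) u ≤ (∏ i, gz Z T (cp u i) ^ 2) * pc (aq k) u := by
    have e4 : cc Z T M u ^ 2 * pc (qp k) u = yy Z T M u ^ 2 * pc (aq k) u := by
      have e5 : pc (qp k) u = pc (aq k) u * (pc (fun p => (p:ℝ) - 1) u) ^ 2 := by
        unfold pc
        rw [← Finset.prod_pow, ← Finset.prod_mul_distrib]
        refine Finset.prod_congr rfl fun p _ => ?_
        split_ifs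
        · ring
        · unfold aq
          have : (2:ℝ) ≤ (p:ℕ) := by exact_mod_cast hP2 p p.2
          have : ((p:ℕ):ℝ) - 1 ≠ 0 := by linarith
          field_simp
      have e6 := pc_pos (phi_pos hP2) u
      unfold cc
      rw [e5]
      field_simp
    rw [e4]
    refine mul_le_mul_of_nonneg_right ?_ (pc_nonneg haq u)
    have h2 := pow_le_pow_left₀ (yy_nonneg Z T M u) (yy_le Z T M u) 2
    rwa [← Finset.prod_pow] at h2
  have e7 : cS z V v ^ 2 * pm (qp k) v = (if (∀ p : P, v p = true → ¬ (p:ℕ) ∣ V) ∧ 1 ≤ val v ∧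
      val v < z + 1 then pm (aq k) v else 0) := by
    unfold cS
    split_ifs
    · rw [sq, ← pm_mul, ← pm_mul]
      unfold pm
      refine Finset.prod_congr rfl fun p _ => ?_
      split_ifs
      · unfold aq
        have : (2:ℝ) ≤ (p:ℕ) := by exact_mod_cast hP2 p p.2
        have : ((p:ℕ):ℝ) - 1 ≠ 0 := by linarith
        field_simp
      · rfl
    · simp
  rw [e7]
  refine mul_le_mul e3 le_rfl ?_ ?_
  · split_ifs
    · exact pm_nonneg haq v
    · exact le_rfl
  · exact mul_nonneg (Finset.prod_nonneg fun i _ => sq_nonneg _) (pc_nonneg haq u)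

end Pool.Agent.PosProp
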