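import Pool.Agent.PosProp.Other1

/-!
# Numerical form of the model bound for one extra shift
-/

open Finset

namespace Pool.Agent.PosProp

open Pool.Agent.Maynard

variable {P : Finset ℕ} {k : ℕ}

/-- excess of the weights over `1/p` -/
noncomputable def yq (k p : ℕ) : ℝ := aq k p - 1 / (p:ℝ)

lemma yq_bounds {k p : ℕ} (hp : 2 ≤ p) : 0 ≤ yq k p ∧ yq k p ≤ 136 * ((k:ℝ) + 1) / (p:ℝ) ^ 2 := by
  have h2 : (2:ℝ) ≤ p := by exact_mod_cast hp
  have h1 : 0 < (p:ℝ) - 1 := by linarith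
  have hk : (0:ℝ) ≤ k := Nat.cast_nonneg k
  have e : yq k p = ((32 * ((k:ℝ) + 1) + 2) * p - 1) / (p * ((p:ℝ) - 1) ^ 2) := by
    unfold yq aq qp
    field_simp
    ring
  rw [e]
  constructor
  · refine div_nonneg ?_ (by positivity)
    nlinarith
  · rw [div_le_div_iff₀ (by positivity) (by positivity)]
    have h3 : (p:ℝ) ^ 2 ≤ 4 * ((p:ℝ) - 1) ^ 2 := sq_aux h2
    have h4 : (32 * ((k:ℝ) + 1) + 2) * p - 1 ≤ 34 * ((k:ℝ) + 1) * p := by nlinarith
    calc ((32 * ((k:ℝ) + 1) + 2) * p - 1) * (p:ℝ) ^ 2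
        ≤ (34 * ((k:ℝ) + 1) * p) * (4 * ((p:ℝ) - 1) ^ 2) := by
          refine mul_le_mul h4 h3 (by positivity) (by positivity)
      _ = 136 * ((k:ℝ) + 1) * (p * ((p:ℝ) - 1) ^ 2) := by ring

lemma aq_eq (k : ℕ) : aq k = fun p : ℕ => 1 / (p:ℝ) + yq k p := by
  funext p
  unfold yq
  ring

lemma prod_yq_le {K0 : ℕ} (hK : 2 ≤ K0) (hPK : ∀ p ∈ P, K0 ≤ p) (hK2 : 544 * (k + 1) ≤ K0) :
    ∏ p ∈ P, (1 + yq k p) ≤ 1 + 544 * ((k:ℝ) + 1) / K0 := by
  have hK0 : (0:ℝ) < K0 := by exact_mod_cast (by omega : 0 < K0)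
  have h := prod_le_of_sq (P := P) (K0 := K0) hK hPK (yq k) (C := 136 * ((k:ℝ) + 1)) (by positivity)
    (fun p hp => (yq_bounds (hK.trans (hPK p hp))).1)
    (fun p hp => (yq_bounds (hK.trans (hPK p hp))).2) (by
      rw [div_le_one hK0]
      have : (544:ℝ) * (k + 1) ≤ K0 := by exact_mod_cast hK2
      have hk : (0:ℝ) ≤ k := Nat.cast_nonneg k
      linarith)
  refine h.trans (le_of_eq ?_)
  ring

/-- the cells with the enlarged weights -/
lemma cell_up_q {W K0 R Z : ℕ} (hS : Setting P W K0 R) (hW : 0 < W) (hZ : 2 ≤ Z)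
    (hK2 : 544 * (k + 1) ≤ K0) (j : ℕ) :
    ∑ B : P → Bool, (if Z ^ j ≤ val B ∧ val B < Z ^ (j + 1) then pm (aq k) B else 0) ≤
      (cW W * Real.log Z + KV W) * (1 + 544 * ((k:ℝ) + 1) / K0) := by
  have hK : 2 ≤ K0 := by omega
  have h1 := cell_upper_gen (P := P) (a := Z ^ j) (b := Z ^ (j + 1)) hW hS.prime (by positivity)
    (Nat.pow_lt_pow_right (by omega) (Nat.lt_succ_self j)) (yq k)
    (fun p hp => (yq_bounds (hK.trans (hS.ge p hp))).1)
  rw [log_ratio hZ] at h1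
  rw [← aq_eq] at h1
  have h2 : ∑ B : P → Bool, (if Z ^ j ≤ val B ∧ val B < Z ^ (j + 1) then pm (aq k) B else 0) =
      ∑ B : P → Bool, (if (∀ p : P, B p = true → ¬ (p:ℕ) ∣ W) ∧ Z ^ j ≤ val B ∧
        val B < Z ^ (j + 1) then pm (aq k) B else 0) := by
    refine Finset.sum_congr rfl fun B _ => ?_
    have : ∀ p : P, B p = true → ¬ (p:ℕ) ∣ W := fun p _ => hS.ndvd p p.2
    by_cases h3 : Z ^ j ≤ val B ∧ val B < Z ^ (j + 1)
    · rw [if_pos h3, if_pos ⟨this, h3⟩]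
    · rw [if_neg h3, if_neg (fun h => h3 h.2)]
  rw [h2]
  refine h1.trans (mul_le_mul_of_nonneg_left (prod_yq_le hK hS.ge hK2) ?_)
  have := KV_pos hW
  have := mul_nonneg (cW_nonneg W) (Real.log_natCast_nonneg Z)
  linarith

lemma A2q_le {W K0 R Z T : ℕ} (hS : Setting P W K0 R) (hW : 0 < W) (hZ : 2 ≤ Z)
    (hK2 : 544 * (k + 1) ≤ K0) :
    ∑ B : P → Bool, gz Z T (val B) ^ 2 * pm (aq k) B ≤
      gT2 T * ((cW W * Real.log Z + KV W) * (1 + 544 * ((k:ℝ) + 1) / K0)) := by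
  have h2 := sum_cells hS.prime hZ T (fun j => (1 / ((j:ℝ) + 1)) ^ 2) (aq k)
  have h3 : ∑ B : P → Bool, gz Z T (val B) ^ 2 * pm (aq k) B =
      ∑ B : P → Bool, (if Nat.log Z (val B) < T then
      (fun j : ℕ => (1 / ((j:ℝ) + 1)) ^ 2) (Nat.log Z (val B)) else 0) * pm (aq k) B := by
    refine Finset.sum_congr rfl fun B _ => ?_
    rw [gz_eq_ite]
    split_ifs
    · rfl
    · simp
  rw [h3, h2]
  unfold gT2
  rw [Finset.sum_mul]
  refine Finset.sum_le_sum fun j _ => mul_le_mul_of_nonneg_left ?_ (by positivity)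
  exact cell_up_q hS hW hZ hK2 j

/-- the main factor -/
lemma main_q {W K0 R Z T : ℕ} (hS : Setting P W K0 R) (hW : 0 < W) (hk : 2 ≤ k) (hZ : 2 ≤ Z)
    (hK0 : 2 ^ (k + 10) * k ≤ K0) (hZK : 64 * (k:ℝ) * KV W ≤ cW W * Real.log Z) :
    ∑ χ : Col P k, (∏ i, gz Z T (cp χ i) ^ 2) * pc (aq k) χ ≤ 2 * SS k W Z T := by
  have haq : ∀ p ∈ P, 0 ≤ aq k p := fun p _ => by
    unfold aq
    exact div_nonneg (qp_nonneg _ _) (sq_nonneg _)
  have h1 := col_le_tuple (P := P) (k := k) (fun _ B => gz Z T (val B) ^ 2)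
    (fun _ _ => sq_nonneg _) (aq k) haq
  rw [Finset.prod_const, Finset.card_univ, Fintype.card_fin] at h1
  refine (le_of_eq ?_).trans (h1.trans ?_)
  · rfl
  have hk2 : (2:ℝ) ≤ k := by exact_mod_cast hk
  have hkk : k + 1 ≤ 2 ^ k := Nat.lt_two_pow_self
  have hK1 : 1024 * (k + 1) ≤ K0 := by
    have : 1024 * 2 ^ k * 1 ≤ 2 ^ (k + 10) * k := by
      rw [pow_add]
      norm_num
      nlinarith
    omega
  have hK2 : 544 * (k + 1) ≤ K0 := by omega
  have hA := A2q_le (P := P) (k := k) (T := T) hS hW hZ hK2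
  set D := cW W * Real.log Z with hD
  have hKVpos := KV_pos hW
  have hD0 : 0 < D := lt_of_lt_of_le (by positivity) hZK
  have hG : 0 ≤ gT2 T := Finset.sum_nonneg fun j _ => sq_nonneg _
  have hK0r : (0:ℝ) < K0 := by exact_mod_cast (by omega : 0 < K0)
  have h3 : KV W ≤ 1 / (64 * k) * D := by
    rw [div_mul_eq_mul_div, one_mul, le_div_iff₀ (by positivity)]
    linarith
  have h4 : 544 * ((k:ℝ) + 1) / K0 ≤ 544 / 1024 / k := by
    rw [div_div, div_le_div_iff₀ hK0r (by positivity)]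
    have e1 : (1024:ℝ) * 2 ^ k * k ≤ K0 := by
      have : 1024 * 2 ^ k * k ≤ K0 := by
        refine le_trans (le_of_eq ?_) hK0
        rw [pow_add]; ring
      exact_mod_cast this
    have e2 : (k:ℝ) + 1 ≤ 2 ^ k := by exact_mod_cast hkk
    have e3 : ((k:ℝ) + 1) * (1024 * k) ≤ 2 ^ k * (1024 * k) :=
      mul_le_mul_of_nonneg_right e2 (by positivity)
    nlinarith
  have h5 : ∑ B : P → Bool, gz Z T (val B) ^ 2 * pm (aq k) B ≤
      (D * gT2 T) * ((1 + 1 / (64 * k)) * (1 + 544 / 1024 / k)) := by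
    refine hA.trans ?_
    have e1 : D + KV W ≤ (1 + 1 / (64 * k)) * D := by linarith
    calc gT2 T * ((D + KV W) * (1 + 544 * ((k:ℝ) + 1) / K0))
        ≤ gT2 T * (((1 + 1 / (64 * k)) * D) * (1 + 544 / 1024 / k)) := by gcongr
      _ = _ := by ring
  have h6 : 0 ≤ ∑ B : P → Bool, gz Z T (val B) ^ 2 * pm (aq k) B :=
    Finset.sum_nonneg fun B _ => mul_nonneg (sq_nonneg _) (pm_nonneg haq B)
  have h7 := pow_le_pow_left₀ h6 h5 k
  refine h7.trans ?_
  rw [mul_pow]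
  have h8 : ((1 + 1 / (64 * (k:ℝ))) * (1 + 544 / 1024 / k)) ^ k ≤ 2 := by
    have e1 : (1 + 1 / (64 * (k:ℝ))) * (1 + 544 / 1024 / k) ≤ Real.exp ((1/64 + 544/1024) / k) := by
      have e2 := Real.add_one_le_exp (1 / (64 * (k:ℝ)))
      have e3 := Real.add_one_le_exp (544 / 1024 / (k:ℝ))
      have e4 : Real.exp ((1/64 + 544/1024) / (k:ℝ)) =
          Real.exp (1 / (64 * (k:ℝ))) * Real.exp (544 / 1024 / (k:ℝ)) := by
        rw [← Real.exp_add]
        congr 1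
        field_simp
      rw [e4]
      refine mul_le_mul (by linarith) (by linarith) (by positivity) (Real.exp_pos _).le
    refine (pow_le_pow_left₀ (by positivity) e1 k).trans ?_
    rw [← Real.exp_nat_mul]
    have e5 : (k:ℝ) * ((1/64 + 544/1024) / k) = 1/64 + 544/1024 := by field_simp
    rw [e5]
    have e6 : Real.exp (1/64 + 544/1024) ≤ Real.exp (Real.log 2) := by
      refine Real.exp_le_exp.2 ?_
      have := Real.log_two_gt_d9
      linarith
    rwa [Real.exp_log (by norm_num)] at e6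
  have h9 : 0 ≤ (D * gT2 T) ^ k := by positivity
  unfold SS
  rw [← hD]
  nlinarith

end Pool.Agent.PosProp
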