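import Pool.Agent.PosProp.Other2

/-!
# The extra sieve: its total and the model bound
-/

open Finset

namespace Pool.Agent.PosProp

open Pool.Agent.Maynard

variable {P : Finset ℕ} {k : ℕ}

/-- the value of the extra sieve on rough numbers -/
noncomputable def totS (P : Finset ℕ) (z V : ℕ) : ℝ := ∑ B : P → Bool, cS z V B

lemma totS_ge {W K0 R V z : ℕ} (hS : Setting P W K0 R) (hV : 0 < V) (hWV : W ∣ V)
    (hK0 : 1000 ≤ K0) (hz : 2 ≤ z) (hzR : z ≤ R)
    (hzK : 64 * KV V ≤ cW V * Real.log z) : 9 / 10 * (cW V * Real.log z) ≤ totS P z V := by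
  classical
  set Q := P.filter (fun p => ¬ p ∣ V) with hQ
  have hQP : Q ⊆ P := Finset.filter_subset _ _
  have h1 := cell_lower (P := Q) (k := 1) (W := V) (K0 := K0) (a := 1) (b := z + 1) hV
    (fun p hp => hS.prime p (hQP hp)) (by omega) (fun p hp => hS.ge p (hQP hp))
    (fun p hp hpV hpz => by
      rw [hQ, Finset.mem_filter]
      refine ⟨hS.mem p hp (fun h => hpV (h.trans hWV)) (by omega), hpV⟩) one_pos (by omega)
  have hP2 : ∀ p ∈ P, (2:ℝ) ≤ p := fun p hp => by exact_mod_cast (hS.prime p hp).two_le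
  have halo : ∀ p : ℕ, 2 ≤ p → alo 1 p = 1 / ((p:ℝ) - 1) := by
    intro p hp
    have : (2:ℝ) ≤ p := by exact_mod_cast hp
    have : (p:ℝ) - 1 ≠ 0 := by linarith
    unfold alo
    push_cast
    field_simp
  have h2 := sum_sub_le (P := P) hQP (alo 1) (fun p hp => alo_nonneg (by
    have := hS.ge p hp; omega)) 1 (z + 1)
  have h3 : ∑ B : P → Bool, (if (∀ p : P, B p = true → (p:ℕ) ∈ Q) ∧ 1 ≤ val B ∧ val B < z + 1 then
      pm (alo 1) B else 0) = totS P z V := by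
    unfold totS cS
    refine Finset.sum_congr rfl fun B _ => ?_
    have e1 : (∀ p : P, B p = true → (p:ℕ) ∈ Q) ↔ (∀ p : P, B p = true → ¬ (p:ℕ) ∣ V) := by
      refine forall_congr' fun p => imp_congr_right fun _ => ?_
      rw [hQ, Finset.mem_filter]
      exact ⟨fun h => h.2, fun h => ⟨p.2, h⟩⟩
    by_cases hB : (∀ p : P, B p = true → ¬ (p:ℕ) ∣ V) ∧ 1 ≤ val B ∧ val B < z + 1
    · rw [if_pos hB, if_pos ⟨e1.2 hB.1, hB.2⟩]
      unfold pm
      refine Finset.prod_congr rfl fun p _ => ?_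
      split_ifs
      · exact halo p (hS.prime p p.2).two_le
      · rfl
    · rw [if_neg hB, if_neg (fun h => hB ⟨e1.1 h.1, h.2⟩)]
  rw [h3] at h2
  refine le_trans ?_ (h1.trans h2)
  have hz0 : (0:ℝ) < z := by exact_mod_cast (by omega : 0 < z)
  have hlog : Real.log z ≤ Real.log (((z + 1 : ℕ) : ℝ) / ((1:ℕ):ℝ)) := by
    refine Real.log_le_log hz0 ?_
    push_cast
    linarith
  have hlog0 : 0 ≤ Real.log z := Real.log_natCast_nonneg z
  have hc := cW_nonneg V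
  have hK : (1000:ℝ) ≤ K0 := by exact_mod_cast hK0
  have hf : (0:ℝ) ≤ 1 - 2 * (((1:ℕ):ℝ) + 1) / K0 := by
    rw [sub_nonneg, div_le_one (by linarith)]
    push_cast
    linarith
  have hf2 : (996/1000:ℝ) ≤ 1 - 2 * (((1:ℕ):ℝ) + 1) / K0 := by
    have : 2 * (((1:ℕ):ℝ) + 1) / K0 ≤ 4 / 1000 := by
      rw [div_le_div_iff₀ (by linarith) (by norm_num)]
      push_cast
      linarith
    linarith
  have h4 : cW V * Real.log z * (996/1000) ≤
      cW V * Real.log (((z + 1 : ℕ) : ℝ) / ((1:ℕ):ℝ)) * (1 - 2 * (((1:ℕ):ℝ) + 1) / K0) := by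
    refine mul_le_mul (mul_le_mul_of_nonneg_left hlog hc) hf2 (by norm_num)
      (mul_nonneg hc (hlog0.trans hlog))
  have hL0 : 0 ≤ cW V * Real.log z := mul_nonneg hc hlog0
  linarith

lemma cS_sq_le {W K0 R V z : ℕ} (hS : Setting P W K0 R) (hV : 0 < V)
    (hk : 1 ≤ k) (hK0 : 2 ^ (k + 10) * k ≤ K0) (hz : 2 ≤ z)
    (hzK : 64 * KV V ≤ cW V * Real.log z) :
    ∑ B : P → Bool, (if (∀ p : P, B p = true → ¬ (p:ℕ) ∣ V) ∧ 1 ≤ val B ∧ val B < z + 1 then
          pm (aq k) B else 0) ≤ 2 * (cW V * Real.log z) := by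
  have hkk : k + 1 ≤ 2 ^ k := Nat.lt_two_pow_self
  have hK1 : 1024 * (k + 1) ≤ K0 := by
    have : 1024 * 2 ^ k * 1 ≤ 2 ^ (k + 10) * k := by
      rw [pow_add]
      norm_num
      nlinarith
    omega
  have h1 := cell_upper_gen (P := P) (a := 1) (b := z + 1) hV hS.prime one_pos (by omega) (yq k)
    (fun p hp => (yq_bounds ((by omega : 2 ≤ K0).trans (hS.ge p hp))).1)
  rw [← aq_eq] at h1
  refine h1.trans ?_
  have h2 := prod_yq_le (P := P) (k := k) (K0 := K0) (by omega) hS.ge (by omega)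
  have hKVp := KV_pos hV
  have hKV1 : 1 ≤ KV V := by
    unfold KV
    have := KW_pos hV
    linarith
  have hz0 : (2:ℝ) ≤ z := by exact_mod_cast hz
  have hlog : Real.log (((z + 1 : ℕ) : ℝ) / ((1:ℕ):ℝ)) ≤ Real.log z + 1 := by
    have e : (((z + 1 : ℕ) : ℝ) / ((1:ℕ):ℝ)) = z * (1 + 1 / z) := by
      push_cast
      field_simp
    rw [e, Real.log_mul (by positivity) (by positivity)]
    have : Real.log (1 + 1 / (z:ℝ)) ≤ 1 / z := by
      have := Real.log_le_sub_one_of_pos (x := 1 + 1 / (z:ℝ)) (by positivity)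
      linarith
    have h3 : 1 / (z:ℝ) ≤ 1 := by
      rw [div_le_one (by linarith)]
      linarith
    linarith
  have hlog0 : 0 ≤ Real.log z := Real.log_natCast_nonneg z
  have hc := cW_nonneg V
  have hc1 := cW_le_one V
  have hK : (0:ℝ) < K0 := by exact_mod_cast (by omega : 0 < K0)
  have h3 : 544 * ((k:ℝ) + 1) / K0 ≤ 544 / 1024 := by
    rw [div_le_div_iff₀ hK (by norm_num)]
    have : (1024:ℝ) * (k + 1) ≤ K0 := by exact_mod_cast hK1
    linarith
  have h4 : cW V * Real.log (((z + 1 : ℕ) : ℝ) / ((1:ℕ):ℝ)) + KV V ≤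
      (1 + 1/32) * (cW V * Real.log z) := by
    have e1 := mul_le_mul_of_nonneg_left hlog hc
    linarith
  have h5 : 0 ≤ cW V * Real.log (((z + 1 : ℕ) : ℝ) / ((1:ℕ):ℝ)) + KV V := by
    have := mul_nonneg hc (hlog0.trans (Real.log_le_log (by linarith)
      (show (z:ℝ) ≤ (((z + 1 : ℕ) : ℝ) / ((1:ℕ):ℝ)) by push_cast; linarith)))
    linarith
  calc (cW V * Real.log (((z + 1 : ℕ) : ℝ) / ((1:ℕ):ℝ)) + KV V) * ∏ p ∈ P, (1 + yq k p)
      ≤ ((1 + 1/32) * (cW V * Real.log z)) * (1 + 544 / 1024) := by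
        refine mul_le_mul h4 (h2.trans (by linarith)) ?_ (h5.trans h4)
        refine Finset.prod_nonneg fun p hp => ?_
        have := (yq_bounds (k := k) ((by omega : 2 ≤ K0).trans (hS.ge p hp))).1
        linarith
    _ ≤ _ := by
        have := mul_nonneg hc hlog0
        linarith

lemma first_le {K0 : ℕ} (hPK : ∀ p ∈ P, K0 ≤ p) (hK1 : 1024 * (k + 1) ≤ K0) :
    ∏ p ∈ P, (1 + 4 * ((k:ℝ) + 1) / (p:ℝ) ^ 2) ≤ 9 / 8 := by
  have hK : (0:ℝ) < K0 := by exact_mod_cast (by omega : 0 < K0)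
  have hK1' : (1024:ℝ) * (k + 1) ≤ K0 := by exact_mod_cast hK1
  have hk0 : (0:ℝ) ≤ k := Nat.cast_nonneg k
  have h := prod_le_of_sq (P := P) (K0 := K0) (by omega) hPK
    (fun p => 4 * ((k:ℝ) + 1) / (p:ℝ) ^ 2) (C := 4 * ((k:ℝ) + 1)) (by positivity)
    (fun p _ => by positivity) (fun p _ => le_rfl) (by
      rw [div_le_one hK]
      linarith)
  refine h.trans ?_
  have : 4 * (4 * ((k:ℝ) + 1)) / K0 ≤ 1 / 8 := by
    rw [div_le_div_iff₀ hK (by norm_num)]
    linarith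
  linarith

/-- the model expectation, numerically -/
theorem E2_le {W K0 R V z Z T M : ℕ} (hS : Setting P W K0 R) (hW : 0 < W) (hV : 0 < V)
    (hk : 2 ≤ k) (hK0 : 2 ^ (k + 10) * k ≤ K0) (hZ : 2 ≤ Z)
    (hZK : 64 * (k:ℝ) * KV W ≤ cW W * Real.log Z) (hz : 2 ≤ z)
    (hzK : 64 * KV V ≤ cW V * Real.log z) :
    E2 P k V z Z T M ≤ 9 / 2 * (SS k W Z T * (cW V * Real.log z)) := by
  have hkk : k + 1 ≤ 2 ^ k := Nat.lt_two_pow_self
  have hK1 : 1024 * (k + 1) ≤ K0 := by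
    have : 1024 * 2 ^ k * 1 ≤ 2 ^ (k + 10) * k := by
      rw [pow_add]
      norm_num
      nlinarith
    omega
  have haq : ∀ p ∈ P, 0 ≤ aq k p := fun p _ => by
    unfold aq
    exact div_nonneg (qp_nonneg _ _) (sq_nonneg _)
  refine (E2_le1 hS.prime (fun p hp => by have := hS.ge p hp; omega) V z Z T M).trans ?_
  have h1 := first_le (P := P) (k := k) hS.ge hK1
  have h2 := main_q (P := P) (T := T) hS hW hk hZ hK0 hZK
  have h3 := cS_sq_le (P := P) (k := k) hS hV (by omega) hK0 hz hzK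
  have h30 : 0 ≤ ∑ B : P → Bool, (if (∀ p : P, B p = true → ¬ (p:ℕ) ∣ V) ∧ 1 ≤ val B ∧
      val B < z + 1 then pm (aq k) B else 0) := by
    refine Finset.sum_nonneg fun B _ => ?_
    split_ifs
    · exact pm_nonneg haq B
    · exact le_rfl
  have h20 : 0 ≤ ∑ χ : Col P k, (∏ i, gz Z T (cp χ i) ^ 2) * pc (aq k) χ :=
    Finset.sum_nonneg fun χ _ => mul_nonneg (Finset.prod_nonneg fun i _ => sq_nonneg _)
      (pc_nonneg haq χ)
  have hSS : 0 ≤ SS k W Z T := by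
    unfold SS
    have : 0 ≤ gT2 T := Finset.sum_nonneg fun j _ => sq_nonneg _
    have := mul_nonneg (mul_nonneg (cW_nonneg W) (Real.log_natCast_nonneg Z)) this
    positivity
  calc _ ≤ 9 / 8 * ((2 * SS k W Z T) * (2 * (cW V * Real.log z))) := by
        refine mul_le_mul h1 (mul_le_mul h2 h3 h30 (by linarith)) (mul_nonneg h20 h30) (by norm_num)
    _ = _ := by ring

end Pool.Agent.PosProp
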