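import Pool.Agent.Lib.Maynard.Bounds

/-!
# The mass of the sieve weight on the multiples of a small prime (module PP3)

For a prime `p < Z` of `P` and a shift `i`, the expectation of `G²` conditionally on
`p ∣ n + h_i` is at most `3 S (log p / log Z + KV / (cW log Z) + k² / (p-1)²)`.
-/

open Finset

namespace Pool.Agent.Maynard

/-- Fibering a sum over a product space over one coordinate. -/
lemma sum_update_eq {ι X : Type*} [Fintype ι] [DecidableEq ι] [Fintype X] [DecidableEq X]
    (i : ι) (x0 : X) (F : (ι → X) → ℝ) :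
    ∑ χ, F χ = ∑ χ : ι → X, if χ i = x0 then ∑ x, F (Function.update χ i x) else 0 := by
  classical
  have h1 : ∀ x : X, ∑ χ : ι → X, (if χ i = x0 then F (Function.update χ i x) else 0) =
      ∑ χ : ι → X, (if χ i = x then F χ else 0) := by
    intro x
    rw [← Finset.sum_filter, ← Finset.sum_filter]
    refine Finset.sum_bij' (fun χ _ => Function.update χ i x)
      (fun χ _ => Function.update χ i x0) ?_ ?_ ?_ ?_ ?_
    · intro χ _; simp
    · intro χ _; simp
    · intro χ hχ
      have hχ' := (Finset.mem_filter.1 hχ).2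
      rw [Function.update_idem, ← hχ', Function.update_eq_self]
    · intro χ hχ
      have hχ' := (Finset.mem_filter.1 hχ).2
      rw [Function.update_idem, ← hχ', Function.update_eq_self]
    · intro χ _; rfl
  calc ∑ χ, F χ = ∑ χ : ι → X, ∑ x, (if χ i = x then F χ else 0) := by simp
    _ = ∑ x, ∑ χ : ι → X, (if χ i = x then F χ else 0) := Finset.sum_comm
    _ = ∑ x, ∑ χ : ι → X, (if χ i = x0 then F (Function.update χ i x) else 0) := by
        simp_rw [h1]
    _ = _ := by
        rw [Finset.sum_comm]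
        refine Finset.sum_congr rfl fun χ _ => ?_
        split_ifs <;> simp

variable {P : Finset ℕ} {k : ℕ}

/-- the coefficient after fixing the coordinate `p₀` of `y` to be `y₀` -/
noncomputable def aco (c : Col P k → ℝ) (p0 : P) (y0 : Option (Fin k)) (χ : Col P k) : ℝ :=
  ∑ x, c (Function.update χ p0 x) * ps (p0:ℕ) x y0

lemma GG_point (c : Col P k → ℝ) (p0 : P) (y : Col P k) :
    GG c y = ∑ χ : Col P k, aco c p0 (y p0) χ *
      ∏ p : P, (if p = p0 then (if χ p = none then (1:ℝ) else 0) else ps (p:ℕ) (χ p) (y p)) := by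
  unfold GG
  rw [sum_update_eq p0 (none : Option (Fin k))]
  refine Finset.sum_congr rfl fun χ _ => ?_
  rw [← Finset.mul_prod_erase Finset.univ (fun p : P =>
    (if p = p0 then (if χ p = none then (1:ℝ) else 0) else ps (p:ℕ) (χ p) (y p)))
    (Finset.mem_univ p0)]
  have e1 : ∏ p ∈ (Finset.univ : Finset P).erase p0,
      (if p = p0 then (if χ p = none then (1:ℝ) else 0) else ps (p:ℕ) (χ p) (y p)) =
      ∏ p ∈ (Finset.univ : Finset P).erase p0, ps (p:ℕ) (χ p) (y p) :=
    Finset.prod_congr rfl fun p hp => if_neg (Finset.ne_of_mem_erase hp)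
  rw [e1]
  by_cases hχ : χ p0 = none
  · rw [if_pos hχ]
    simp only [if_true, hχ, one_mul]
    unfold aco
    rw [Finset.sum_mul]
    refine Finset.sum_congr rfl fun x _ => ?_
    rw [← Finset.mul_prod_erase Finset.univ (fun p : P =>
      ps (p:ℕ) (Function.update χ p0 x p) (y p)) (Finset.mem_univ p0)]
    have e2 : ∏ p ∈ (Finset.univ : Finset P).erase p0,
        ps (p:ℕ) (Function.update χ p0 x p) (y p) =
        ∏ p ∈ (Finset.univ : Finset P).erase p0, ps (p:ℕ) (χ p) (y p) :=
      Finset.prod_congr rfl fun p hp => by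
        rw [Function.update_of_ne (Finset.ne_of_mem_erase hp)]
    rw [e2, Function.update_self]
    ring
  · rw [if_neg hχ]
    simp [hχ]

/-- The model expectation with one coordinate fixed. -/
theorem EG_point (hP : ∀ p ∈ P, p.Prime) (hk : ∀ p ∈ P, k ≤ p) (p0 : P) (j : Col P k)
    (c : Col P k → ℝ) :
    EG (wq (p0:ℕ) j) c ≤ ∑ χ : Col P k,
      (∏ p : P, (if p = p0 then (if χ p = none then (1:ℝ) else 0)
        else (if χ p = none then (1:ℝ) else (p:ℕ)))) * aco c p0 (j p0) χ ^ 2 := by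
  have hdvd : ∀ p : P, (p:ℕ) ∣ (p0:ℕ) ↔ p = p0 := by
    intro p
    rw [Nat.prime_dvd_prime_iff_eq (hP p p.2) (hP p0 p0.2)]
    exact ⟨fun h => Subtype.ext h, fun h => by rw [h]⟩
  have h1 : EG (wq (p0:ℕ) j) c = ∑ y : Col P k, (∏ p, wq (p0:ℕ) j p (y p)) *
      (∑ χ : Col P k, aco c p0 (j p0) χ * ∏ p : P, (fun (p : P) (x y : Option (Fin k)) =>
        (if p = p0 then (if x = none then (1:ℝ) else 0) else ps (p:ℕ) x y)) p (χ p) (y p)) ^ 2 := by
    unfold EG
    refine Finset.sum_congr rfl fun y _ => ?_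
    by_cases hy : y p0 = j p0
    · rw [GG_point c p0 y, hy]
    · have h0 : ∏ p, wq (p0:ℕ) j p (y p) = 0 := by
        refine Finset.prod_eq_zero (Finset.mem_univ p0) ?_
        unfold wq
        rw [if_pos dvd_rfl]
        unfold wpt
        rw [if_neg hy]
      rw [h0, zero_mul, zero_mul]
  rw [h1]
  refine tensor_le (wq (p0:ℕ) j) (fun p y => ?_)
    (fun (p : P) (x : Option (Fin k)) => (if p = p0 then (if x = none then (1:ℝ) else 0)
        else (if x = none then (1:ℝ) else (p:ℕ)))) (fun p x => ?_)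
    (fun (p : P) (x y : Option (Fin k)) =>
        (if p = p0 then (if x = none then (1:ℝ) else 0) else ps (p:ℕ) x y)) (fun p a => ?_) _
  · unfold wq
    split_ifs
    · unfold wpt; split_ifs <;> norm_num
    · exact w1_nonneg (hk p p.2) y
  · split_ifs <;> positivity
  · unfold wq
    by_cases hp : p = p0
    · subst hp
      simp only [dvd_rfl, if_true]
      rw [Fintype.sum_option (fun x : Option (Fin k) => (if x = none then (1:ℝ) else 0) * a x ^ 2)]
      simp only [if_true, reduceCtorEq, if_false, zero_mul, Finset.sum_const_zero, add_zero,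
        one_mul]
      have e : ∀ y : Option (Fin k), wpt (j p) y * (∑ x, a x * if x = none then (1:ℝ) else 0) ^ 2 =
          wpt (j p) y * a none ^ 2 := by
        intro y
        congr 2
        simp
      rw [Finset.sum_congr rfl fun y _ => e y, ← Finset.sum_mul]
      have e2 : ∑ y : Option (Fin k), wpt (j p) y = 1 := by
        unfold wpt
        simp
      rw [e2, one_mul]
    · have hnd : ¬ (p:ℕ) ∣ (p0:ℕ) := fun h => hp ((hdvd p).1 h)
      simp only [hnd, hp, if_false]
      exact local_upper (hP p p.2).pos a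

lemma pc_update (a : ℕ → ℝ) (p0 : P) (i : Fin k) {χ : Col P k}
    (hχ : χ p0 = none) : pc a (Function.update χ p0 (some i)) = a p0 * pc a χ := by
  unfold pc
  rw [← Finset.mul_prod_erase Finset.univ (fun p : P =>
      (if Function.update χ p0 (some i) p = none then 1 else a p)) (Finset.mem_univ p0),
    ← Finset.mul_prod_erase Finset.univ (fun p : P =>
      (if χ p = none then 1 else a p)) (Finset.mem_univ p0)]
  have e2 : ∏ p ∈ (Finset.univ : Finset P).erase p0,
      (if Function.update χ p0 (some i) p = none then 1 else a p) =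
      ∏ p ∈ (Finset.univ : Finset P).erase p0, (if χ p = none then 1 else a p) :=
    Finset.prod_congr rfl fun p hp => by
      rw [Function.update_of_ne (Finset.ne_of_mem_erase hp)]
  rw [e2, Function.update_self, hχ]
  simp

lemma cp_update_self (p0 : P) (i : Fin k) {χ : Col P k} (hχ : χ p0 = none) :
    cp (Function.update χ p0 (some i)) i = p0 * cp χ i := by
  unfold cp val
  rw [← Finset.mul_prod_erase Finset.univ (fun p : P =>
      (if cl i (Function.update χ p0 (some i) p) = true then (p:ℕ) else 1)) (Finset.mem_univ p0),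
    ← Finset.mul_prod_erase Finset.univ (fun p : P =>
      (if cl i (χ p) = true then (p:ℕ) else 1)) (Finset.mem_univ p0)]
  have e2 : ∏ p ∈ (Finset.univ : Finset P).erase p0,
      (if cl i (Function.update χ p0 (some i) p) = true then (p:ℕ) else 1) =
      ∏ p ∈ (Finset.univ : Finset P).erase p0, (if cl i (χ p) = true then (p:ℕ) else 1) :=
    Finset.prod_congr rfl fun p hp => by
      rw [Function.update_of_ne (Finset.ne_of_mem_erase hp)]
  rw [e2, Function.update_self, hχ]
  simp [cl]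

lemma cp_update_ne (p0 : P) {i i' : Fin k} (hi : i' ≠ i) {χ : Col P k} (hχ : χ p0 = none) :
    cp (Function.update χ p0 (some i)) i' = cp χ i' := by
  unfold cp val
  refine Finset.prod_congr rfl fun p _ => ?_
  have e : cl i' (Function.update χ p0 (some i) p) = cl i' (χ p) := by
    by_cases hp : p = p0
    · subst hp
      rw [Function.update_self, hχ]
      simp [cl, Ne.symm hi]
    · rw [Function.update_of_ne hp]
  simp only [e]

/-- the profile does not see the prime `p₀` unless `cp χ i` is close to the end of its cell -/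
lemma yy_update_eq (Z T M : ℕ) (p0 : P) (i : Fin k) {χ : Col P k} (hχ : χ p0 = none)
    (hlog : Nat.log Z (p0 * cp χ i) = Nat.log Z (cp χ i)) :
    yy Z T M (Function.update χ p0 (some i)) = yy Z T M χ := by
  have h1 : ∀ i' : Fin k, Nat.log Z (cp (Function.update χ p0 (some i)) i') =
      Nat.log Z (cp χ i') := by
    intro i'
    by_cases hi : i' = i
    · subst hi
      rw [cp_update_self p0 i' hχ, hlog]
    · rw [cp_update_ne p0 hi hχ]
  unfold yy lev gz
  simp_rw [h1]

open Classical in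
/-- indicator of a jump -/
noncomputable def jmp (Z p n : ℕ) : ℝ := if Nat.log Z (p * n) = Nat.log Z n then 0 else 1

lemma jmp_nonneg (Z p n : ℕ) : 0 ≤ jmp Z p n := by unfold jmp; split_ifs <;> norm_num
lemma jmp_sq (Z p n : ℕ) : jmp Z p n ^ 2 = jmp Z p n := by unfold jmp; split_ifs <;> norm_num

lemma aco_cc_le (hP : ∀ p ∈ P, p.Prime) (Z T M : ℕ) (p0 : P) (i : Fin k) {χ : Col P k}
    (hχ : χ p0 = none) :
    |aco (cc Z T M) p0 (some i) χ| * pc (fun p => (p:ℝ) - 1) χ ≤
      yy Z T M χ * (jmp Z p0 (cp χ i) + (k:ℝ) / ((p0:ℕ) - 1 : ℝ)) := by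
  have hP2 : ∀ p ∈ P, 2 ≤ p := fun p hp => (hP p hp).two_le
  have hP0 : ∀ p ∈ P, 0 < p := fun p hp => (hP p hp).pos
  have hpc : 0 < pc (fun p => (p:ℝ) - 1) χ := pc_pos (phi_pos hP2) χ
  have hp2 : (2:ℝ) ≤ (p0:ℕ) := by exact_mod_cast hP2 p0 p0.2
  have hp1 : (0:ℝ) < ((p0:ℕ):ℝ) - 1 := by linarith
  have hy0 := yy_nonneg Z T M χ
  -- comparison of the updated colourings
  have hanti : ∀ i' : Fin k, yy Z T M (Function.update χ p0 (some i')) ≤ yy Z T M χ := by
    intro i'
    refine yy_anti hP0 Z T M fun p => ?_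
    by_cases hp : p = p0
    · left; rw [hp]; exact hχ
    · right; rw [Function.update_of_ne hp]
  have hn : Function.update χ p0 none = χ := by rw [← hχ, Function.update_eq_self]
  have e0 : aco (cc Z T M) p0 (some i) χ * pc (fun p => (p:ℝ) - 1) χ =
      (yy Z T M χ - yy Z T M (Function.update χ p0 (some i))) +
      ∑ i' : Fin k, (if i' = i then 0 else
        yy Z T M (Function.update χ p0 (some i')) / (((p0:ℕ):ℝ) - 1)) := by
    unfold aco
    rw [Fintype.sum_option, hn, ps_none, mul_one, add_mul, Finset.sum_mul]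
    have e1 : cc Z T M χ * pc (fun p => (p:ℝ) - 1) χ = yy Z T M χ := by
      unfold cc
      rw [div_mul_cancel₀ _ hpc.ne']
    have e2 : ∀ i' : Fin k, cc Z T M (Function.update χ p0 (some i')) * ps (p0:ℕ) (some i') (some i)
        * pc (fun p => (p:ℝ) - 1) χ = (if i' = i then
          - yy Z T M (Function.update χ p0 (some i')) else
        yy Z T M (Function.update χ p0 (some i')) / (((p0:ℕ):ℝ) - 1)) := by
      intro i'
      unfold cc
      rw [pc_update (fun p => (p:ℝ) - 1) p0 i' hχ, ps_some]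
      simp only [Option.some.injEq]
      split_ifs
      · field_simp
        ring
      · field_simp
    rw [e1, Finset.sum_congr rfl fun i' _ => e2 i']
    have e3 : ∀ i' : Fin k, (if i' = i then
          - yy Z T M (Function.update χ p0 (some i')) else
        yy Z T M (Function.update χ p0 (some i')) / (((p0:ℕ):ℝ) - 1)) =
        (if i' = i then - yy Z T M (Function.update χ p0 (some i')) else 0) +
        (if i' = i then 0 else
          yy Z T M (Function.update χ p0 (some i')) / (((p0:ℕ):ℝ) - 1)) := by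
      intro i'; split_ifs <;> ring
    rw [Finset.sum_congr rfl fun i' _ => e3 i', Finset.sum_add_distrib, Finset.sum_ite_eq']
    simp only [Finset.mem_univ, if_true]
    ring
  have hd0 : 0 ≤ yy Z T M χ - yy Z T M (Function.update χ p0 (some i)) := by
    have := hanti i; linarith
  have hd1 : yy Z T M χ - yy Z T M (Function.update χ p0 (some i)) ≤
      yy Z T M χ * jmp Z p0 (cp χ i) := by
    unfold jmp
    split_ifs with h
    · rw [yy_update_eq Z T M p0 i hχ h]; simp
    · have := yy_nonneg Z T M (Function.update χ p0 (some i))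
      linarith
  have hs0 : 0 ≤ ∑ i' : Fin k, (if i' = i then 0 else
        yy Z T M (Function.update χ p0 (some i')) / (((p0:ℕ):ℝ) - 1)) := by
    refine Finset.sum_nonneg fun i' _ => ?_
    split_ifs
    · exact le_rfl
    · exact div_nonneg (yy_nonneg _ _ _ _) hp1.le
  have hs1 : ∑ i' : Fin k, (if i' = i then 0 else
        yy Z T M (Function.update χ p0 (some i')) / (((p0:ℕ):ℝ) - 1)) ≤
        yy Z T M χ * ((k:ℝ) / (((p0:ℕ):ℝ) - 1)) := by
    calc ∑ i' : Fin k, (if i' = i then 0 else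
          yy Z T M (Function.update χ p0 (some i')) / (((p0:ℕ):ℝ) - 1))
        ≤ ∑ _i' : Fin k, yy Z T M χ / (((p0:ℕ):ℝ) - 1) := by
          refine Finset.sum_le_sum fun i' _ => ?_
          split_ifs
          · exact div_nonneg hy0 hp1.le
          · exact div_le_div_of_nonneg_right (hanti i') hp1.le
      _ = _ := by
          rw [Finset.sum_const, Finset.card_univ, Fintype.card_fin, nsmul_eq_mul]
          ring
  rw [← abs_of_pos hpc, ← abs_mul, e0, abs_of_nonneg (by linarith)]
  linarith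

/-- sum over the selections whose product jumps to the next cell when multiplied by `p` -/
noncomputable def J2 (P : Finset ℕ) (Z T p : ℕ) : ℝ :=
  ∑ B : P → Bool, gz Z T (val B) ^ 2 * jmp Z p (val B) * pm aup B

lemma J2_nonneg (P : Finset ℕ) (Z T p : ℕ) : 0 ≤ J2 P Z T p :=
  Finset.sum_nonneg fun B _ => mul_nonneg (mul_nonneg (sq_nonneg _) (jmp_nonneg _ _ _))
    (pm_nonneg (fun p _ => aup_nonneg p) B)

theorem EG_cc_point (hP : ∀ p ∈ P, p.Prime) (hk : ∀ p ∈ P, k ≤ p) (p0 : P) (i : Fin k)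
    (j : Col P k) (hj : j p0 = some i) (Z T M : ℕ) :
    EG (wq (p0:ℕ) j) (cc Z T M) ≤ 2 * (A2 P Z T ^ (k - 1) * J2 P Z T p0 +
      ((k:ℝ) / (((p0:ℕ):ℝ) - 1)) ^ 2 * A2 P Z T ^ k) := by
  classical
  have hP2 : ∀ p ∈ P, 2 ≤ p := fun p hp => (hP p hp).two_le
  set t : ℝ := (k:ℝ) / (((p0:ℕ):ℝ) - 1) with ht
  refine (EG_point hP hk p0 j (cc Z T M)).trans ?_
  have hg0 : ∀ χ : Col P k, 0 ≤ ∏ i', gz Z T (cp χ i') ^ 2 := fun χ =>
    Finset.prod_nonneg fun i' _ => sq_nonneg _
  have hpa0 : ∀ χ : Col P k, 0 ≤ pc aup χ := fun χ => pc_nonneg (fun p _ => aup_nonneg p) χ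
  have h1 : ∀ χ : Col P k, (∏ p : P, (if p = p0 then (if χ p = none then (1:ℝ) else 0)
        else (if χ p = none then (1:ℝ) else (p:ℕ)))) * aco (cc Z T M) p0 (j p0) χ ^ 2 ≤
      2 * ((∏ i', gz Z T (cp χ i') ^ 2) * jmp Z p0 (cp χ i) * pc aup χ +
        t ^ 2 * ((∏ i', gz Z T (cp χ i') ^ 2) * pc aup χ)) := by
    intro χ
    by_cases hχ : χ p0 = none
    · have e1 : (∏ p : P, (if p = p0 then (if χ p = none then (1:ℝ) else 0)
          else (if χ p = none then (1:ℝ) else (p:ℕ)))) =
          pc aup χ * pc (fun p => (p:ℝ) - 1) χ ^ 2 := by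
        unfold pc
        rw [← Finset.prod_pow, ← Finset.prod_mul_distrib]
        refine Finset.prod_congr rfl fun p _ => ?_
        by_cases hp : p = p0
        · subst hp
          simp [hχ]
        · rw [if_neg hp]
          have hp2 : (2:ℝ) ≤ (p:ℕ) := by exact_mod_cast hP2 p p.2
          have hp1 : ((p:ℕ):ℝ) - 1 ≠ 0 := by linarith
          split_ifs
          · simp
          · unfold aup
            field_simp
      have e2 := aco_cc_le hP Z T M p0 i hχ
      have hpc : 0 < pc (fun p => (p:ℝ) - 1) χ := pc_pos (phi_pos hP2) χ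
      have e3 : aco (cc Z T M) p0 (some i) χ ^ 2 * pc (fun p => (p:ℝ) - 1) χ ^ 2 ≤
          (yy Z T M χ * (jmp Z p0 (cp χ i) + t)) ^ 2 := by
        rw [← sq_abs (aco (cc Z T M) p0 (some i) χ), ← mul_pow]
        exact pow_le_pow_left₀ (mul_nonneg (abs_nonneg _) hpc.le) e2 2
      have e4 : yy Z T M χ ^ 2 ≤ ∏ i', gz Z T (cp χ i') ^ 2 := by
        have := pow_le_pow_left₀ (yy_nonneg Z T M χ) (yy_le Z T M χ) 2
        rwa [← Finset.prod_pow] at this
      have e5 : (jmp Z p0 (cp χ i) + t) ^ 2 ≤ 2 * (jmp Z p0 (cp χ i) + t ^ 2) := by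
        have := jmp_sq Z p0 (cp χ i)
        nlinarith [sq_nonneg (jmp Z p0 (cp χ i) - t)]
      have e6 : (yy Z T M χ * (jmp Z p0 (cp χ i) + t)) ^ 2 ≤
          (∏ i', gz Z T (cp χ i') ^ 2) * (2 * (jmp Z p0 (cp χ i) + t ^ 2)) := by
        rw [mul_pow]
        exact mul_le_mul e4 e5 (sq_nonneg _) (hg0 χ)
      rw [e1, hj]
      calc pc aup χ * pc (fun p => (p:ℝ) - 1) χ ^ 2 * aco (cc Z T M) p0 (some i) χ ^ 2
          = pc aup χ * (aco (cc Z T M) p0 (some i) χ ^ 2 * pc (fun p => (p:ℝ) - 1) χ ^ 2) := by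
            ring
        _ ≤ pc aup χ * ((∏ i', gz Z T (cp χ i') ^ 2) * (2 * (jmp Z p0 (cp χ i) + t ^ 2))) :=
            mul_le_mul_of_nonneg_left (e3.trans e6) (hpa0 χ)
        _ = _ := by ring
    · have e0 : (∏ p : P, (if p = p0 then (if χ p = none then (1:ℝ) else 0)
          else (if χ p = none then (1:ℝ) else (p:ℕ)))) = 0 := by
        refine Finset.prod_eq_zero (Finset.mem_univ p0) ?_
        simp [hχ]
      rw [e0, zero_mul]
      have := hg0 χ
      have := hpa0 χ
      have := jmp_nonneg Z p0 (cp χ i)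
      positivity
  refine (Finset.sum_le_sum fun χ _ => h1 χ).trans ?_
  rw [← Finset.mul_sum, Finset.sum_add_distrib, ← Finset.mul_sum]
  -- first sum
  have h2 : ∑ χ : Col P k, (∏ i', gz Z T (cp χ i') ^ 2) * jmp Z p0 (cp χ i) * pc aup χ ≤
      A2 P Z T ^ (k - 1) * J2 P Z T p0 := by
    have e1 := col_le_tuple (P := P) (k := k)
      (fun i' B => gz Z T (val B) ^ 2 * (if i' = i then jmp Z p0 (val B) else 1))
      (fun i' B => by
        have := jmp_nonneg Z p0 (val B)
        split_ifs <;> positivity) aup (fun p _ => aup_nonneg p)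
    have e2 : ∀ χ : Col P k, (∏ i', (gz Z T (val (fun p => cl i' (χ p))) ^ 2 *
        (if i' = i then jmp Z p0 (val (fun p => cl i' (χ p))) else 1))) =
        (∏ i', gz Z T (cp χ i') ^ 2) * jmp Z p0 (cp χ i) := by
      intro χ
      rw [Finset.prod_mul_distrib]
      congr 1
      rw [Finset.prod_ite_eq' Finset.univ i (fun i' => jmp Z p0 (val (fun p => cl i' (χ p))))]
      rw [if_pos (Finset.mem_univ i)]
      rfl
    simp_rw [e2] at e1
    refine e1.trans (le_of_eq ?_)
    rw [← Finset.mul_prod_erase Finset.univ _ (Finset.mem_univ i)]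
    have e3 : ∏ i' ∈ (Finset.univ : Finset (Fin k)).erase i, ∑ B : P → Bool,
        gz Z T (val B) ^ 2 * (if i' = i then jmp Z p0 (val B) else 1) * pm aup B =
        A2 P Z T ^ (k - 1) := by
      have e4 : ∀ i' ∈ (Finset.univ : Finset (Fin k)).erase i, ∑ B : P → Bool,
          gz Z T (val B) ^ 2 * (if i' = i then jmp Z p0 (val B) else 1) * pm aup B =
          A2 P Z T := by
        intro i' hi'
        unfold A2
        refine Finset.sum_congr rfl fun B _ => ?_
        rw [if_neg (Finset.ne_of_mem_erase hi'), mul_one]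
      rw [Finset.prod_congr rfl e4, Finset.prod_const, Finset.card_erase_of_mem
        (Finset.mem_univ i), Finset.card_univ, Fintype.card_fin]
    rw [e3]
    unfold J2
    simp only [if_true]
    ring
  -- second sum
  have h3 : ∑ χ : Col P k, (∏ i', gz Z T (cp χ i') ^ 2) * pc aup χ ≤ A2 P Z T ^ k := by
    have e1 := col_le_tuple (P := P) (k := k)
      (fun _ B => gz Z T (val B) ^ 2) (fun _ B => sq_nonneg _) aup (fun p _ => aup_nonneg p)
    refine e1.trans (le_of_eq ?_)
    rw [Finset.prod_const, Finset.card_univ, Fintype.card_fin]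
    rfl
  have h4 : t ^ 2 * ∑ χ : Col P k, (∏ i', gz Z T (cp χ i') ^ 2) * pc aup χ ≤
      t ^ 2 * A2 P Z T ^ k := mul_le_mul_of_nonneg_left h3 (sq_nonneg t)
  linarith

section

variable {W K0 R Z T : ℕ}

lemma prod_cell_le (hS : Setting P W K0 R) (hK0 : 16 ≤ K0) :
    ∏ p ∈ P, (1 + (2 * (p:ℝ) - 1) / ((p:ℝ) * ((p:ℝ) - 1) ^ 2)) ≤ 1 + 32 / (K0:ℝ) := by
  have hK : (16:ℝ) ≤ K0 := by exact_mod_cast hK0
  have := prod_le_of_sq (P := P) (K0 := K0) (by omega) hS.ge
      (fun p => (2 * (p:ℝ) - 1) / ((p:ℝ) * ((p:ℝ) - 1) ^ 2)) (C := 8) (by norm_num)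
      (fun p hp => ?_) (fun p hp => ?_) ?_
  · refine this.trans (le_of_eq ?_)
    ring
  · have : (2:ℝ) ≤ p := by exact_mod_cast (hS.prime p hp).two_le
    apply div_nonneg
    · linarith
    · positivity
  · have h2 : (2:ℝ) ≤ p := by exact_mod_cast (hS.prime p hp).two_le
    have h3 : 0 < (p:ℝ) - 1 := by linarith
    rw [div_le_div_iff₀ (by positivity) (by positivity)]
    nlinarith [mul_pos (show (0:ℝ) < p by linarith) h3, sq_nonneg ((p:ℝ) - 2)]
  · rw [div_le_one (by linarith)]
    linarith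

lemma J2_le (hS : Setting P W K0 R) (hW : 0 < W) (hK0 : 16 ≤ K0) (hZ : 2 ≤ Z) {p : ℕ}
    (hp2 : 2 ≤ p) :
    J2 P Z T p ≤ gT2 T * ((cW W * Real.log p + KV W) * (1 + 32 / K0)) := by
  classical
  have hP0 : ∀ p ∈ P, 0 < p := fun p hp => (hS.prime p hp).pos
  have hZ1 : 1 < Z := by omega
  set a : ℕ → ℕ := fun j => (Z ^ (j + 1) + p - 1) / p with ha
  have hb2 : ∀ j, 2 ≤ Z ^ (j + 1) := fun j =>
    hZ.trans (Nat.le_self_pow (Nat.succ_ne_zero j) Z)
  have ha1 : ∀ j, Z ^ (j + 1) ≤ p * a j := by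
    intro j
    have h1 := Nat.div_add_mod (Z ^ (j + 1) + p - 1) p
    have h2 := Nat.mod_lt (Z ^ (j + 1) + p - 1) (show 0 < p by omega)
    simp only [ha]
    omega
  have ha0 : ∀ j, 0 < a j := by
    intro j
    have h1 := ha1 j
    have h2 := hb2 j
    rcases Nat.eq_zero_or_pos (a j) with h | h
    · rw [h, mul_zero] at h1; omega
    · exact h
  have hab : ∀ j, a j < Z ^ (j + 1) := by
    intro j
    have h2 := hb2 j
    simp only [ha]
    rw [Nat.div_lt_iff_lt_mul (by omega)]
    generalize Z ^ (j + 1) = z at h2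
    obtain ⟨z, rfl⟩ := Nat.exists_eq_add_of_le h2
    obtain ⟨q, rfl⟩ := Nat.exists_eq_add_of_le hp2
    have : (2 + z) * (2 + q) = 4 + 2 * z + 2 * q + z * q := by ring
    omega
  have hpt : ∀ B : P → Bool, gz Z T (val B) ^ 2 * jmp Z p (val B) * pm aup B ≤
      ∑ j ∈ Finset.range T, (1 / ((j:ℝ) + 1)) ^ 2 *
        (if a j ≤ val B ∧ val B < Z ^ (j + 1) then pm aup B else 0) := by
    intro B
    have hpm := pm_nonneg (P := P) (fun p _ => aup_nonneg p) B
    have hterm : ∀ j ∈ Finset.range T, 0 ≤ (1 / ((j:ℝ) + 1)) ^ 2 *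
        (if a j ≤ val B ∧ val B < Z ^ (j + 1) then pm aup B else 0) := by
      intro j _
      split_ifs
      · positivity
      · simp
    have hv : 0 < val B := val_pos hP0 B
    by_cases hj : Nat.log Z (p * val B) = Nat.log Z (val B)
    · have : jmp Z p (val B) = 0 := by unfold jmp; rw [if_pos hj]
      rw [this, mul_zero, zero_mul]
      exact Finset.sum_nonneg hterm
    · have hj1 : jmp Z p (val B) = 1 := by unfold jmp; rw [if_neg hj]
      rw [hj1, mul_one]
      by_cases hT : Nat.log Z (val B) < T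
      · refine le_trans (le_of_eq ?_) (Finset.single_le_sum hterm (Finset.mem_range.2 hT))
        have hle : Nat.log Z (val B) ≤ Nat.log Z (p * val B) :=
          Nat.log_mono_right (Nat.le_mul_of_pos_left _ (by omega))
        have hlt : Nat.log Z (val B) + 1 ≤ Nat.log Z (p * val B) := by omega
        have h1 : Z ^ (Nat.log Z (val B) + 1) ≤ p * val B :=
          (Nat.pow_le_pow_right (by omega) hlt).trans
            (Nat.pow_log_le_self Z (Nat.mul_ne_zero (by omega) hv.ne'))
        have h2 : val B < Z ^ (Nat.log Z (val B) + 1) := Nat.lt_pow_succ_log_self hZ1 _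
        have h3 : a (Nat.log Z (val B)) ≤ val B := by
          simp only [ha]
          rw [← Nat.lt_succ_iff, Nat.div_lt_iff_lt_mul (by omega), Nat.succ_mul, mul_comm]
          omega
        rw [if_pos ⟨h3, h2⟩, gz_eq_ite, if_pos hT]
      · rw [gz_eq_ite, if_neg hT]
        have := Finset.sum_nonneg hterm
        simpa using this
  unfold J2
  refine (Finset.sum_le_sum fun B _ => hpt B).trans ?_
  rw [Finset.sum_comm]
  unfold gT2
  rw [Finset.sum_mul]
  refine Finset.sum_le_sum fun j _ => ?_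
  rw [← Finset.mul_sum]
  refine mul_le_mul_of_nonneg_left ?_ (by positivity)
  have h1 := cell_upper (P := P) (W := W) (a := a j) (b := Z ^ (j + 1)) hW
    hS.prime hS.ndvd (ha0 j) (hab j)
  refine h1.trans ?_
  have hlog : Real.log (((Z ^ (j + 1) : ℕ) : ℝ) / ((a j : ℕ) : ℝ)) ≤ Real.log p := by
    have haj : (0:ℝ) < (a j : ℕ) := by exact_mod_cast ha0 j
    have hbj : (0:ℝ) < ((Z ^ (j + 1) : ℕ) : ℝ) := by exact_mod_cast (show 0 < Z ^ (j+1) by
      have := hb2 j; omega)
    refine Real.log_le_log (div_pos hbj haj) ?_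
    rw [div_le_iff₀ haj]
    exact_mod_cast ha1 j
  have hKV := KV_pos hW
  have h0 : 0 ≤ cW W * Real.log (((Z ^ (j + 1) : ℕ) : ℝ) / ((a j : ℕ) : ℝ)) := by
    refine mul_nonneg (cW_nonneg W) (Real.log_nonneg ?_)
    rw [le_div_iff₀ (by exact_mod_cast ha0 j), one_mul]
    exact_mod_cast (hab j).le
  refine mul_le_mul ?_ (prod_cell_le hS hK0) ?_ ?_
  · have := mul_le_mul_of_nonneg_left hlog (cW_nonneg W)
    linarith
  · refine Finset.prod_nonneg fun p hp => ?_
    have h2 : (2:ℝ) ≤ p := by exact_mod_cast (hS.prime p hp).two_le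
    have : 0 ≤ (2 * (p:ℝ) - 1) / ((p:ℝ) * ((p:ℝ) - 1) ^ 2) := by
      apply div_nonneg
      · linarith
      · positivity
    linarith
  · have := mul_nonneg (cW_nonneg W) (Real.log_natCast_nonneg p)
    linarith

/-- Module PP3. -/
theorem rough_loc {M : ℕ} (hS : Setting P W K0 R) (hW : 0 < W) (hk : 2 ≤ k)
    (hT1 : 1 ≤ T) (hK0 : 2 ^ (k + 10) * k ≤ K0) (hZ : 2 ≤ Z)
    (hZK : 64 * (k:ℝ) * KV W ≤ cW W * Real.log Z) (p : P) (j : Col P k) (hj : j p ≠ none) :
    EG (wq (p:ℕ) j) (cc Z T M) ≤ 3 * SS k W Z T *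
      (Real.log (p:ℕ) / Real.log Z + KV W / (cW W * Real.log Z) +
        (k:ℝ) ^ 2 / (((p:ℕ):ℝ) - 1) ^ 2) := by
  have hk' : (2:ℝ) ≤ k := by exact_mod_cast hk
  have hkpos : (0:ℝ) < k := by linarith
  have h4 : 4 ≤ 2 ^ k := by
    calc 4 = 2 ^ 2 := by norm_num
      _ ≤ 2 ^ k := Nat.pow_le_pow_right (by norm_num) hk
  have hK1 : 1024 * (2 ^ k * k) ≤ K0 := by
    have : 2 ^ (k + 10) * k = 1024 * (2 ^ k * k) := by rw [pow_add]; ring
    omega
  have hK0r : (1024:ℝ) * (2 ^ k * k) ≤ K0 := by exact_mod_cast hK1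
  have h4r : (4:ℝ) ≤ 2 ^ k := by exact_mod_cast h4
  have hK0pos : (0:ℝ) < K0 := lt_of_lt_of_le (by positivity) hK0r
  have hkP : ∀ p ∈ P, k ≤ p := by
    intro p hp
    have h1 := hS.ge p hp
    have : k ≤ 1024 * (2 ^ k * k) := by nlinarith
    omega
  have hK16 : 16 ≤ K0 := by nlinarith
  set D := cW W * Real.log Z with hD
  have hKVpos := KV_pos hW
  have hDpos : 0 < D := lt_of_lt_of_le (by positivity) hZK
  have hlogZ : 0 < Real.log Z := Real.log_pos (by exact_mod_cast (show 1 < Z by omega))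
  set η : ℝ := 1 / (16 * k) with hη
  have hηpos : 0 < η := by positivity
  have hKV1 : KV W ≤ D * (1 / (64 * k)) := by
    rw [mul_one_div, le_div_iff₀ (by positivity)]
    linarith
  have h32 : 32 / (K0:ℝ) ≤ 1 / (64 * k) := by
    rw [div_le_div_iff₀ hK0pos (by positivity)]
    nlinarith
  have h128 : (1:ℝ) / (64 * k) ≤ 1 / 128 :=
    one_div_le_one_div_of_le (by norm_num) (by linarith)
  have hU : cellU W K0 Z ≤ (1 + η) * D := by
    unfold cellU
    rw [← hD]
    have e3 : D * (1 / (64 * k)) * 4 = η * D := by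
      rw [hη]; field_simp; norm_num
    have e4 : 0 < (1:ℝ) / (64 * k) := by positivity
    calc (D + KV W) * (1 + 32 / K0) ≤ (D + D * (1 / (64 * k))) * (1 + 1 / (64 * k)) := by
          gcongr
      _ ≤ D + D * (1 / (64 * k)) * 4 := by nlinarith [mul_pos hDpos e4]
      _ = (1 + η) * D := by rw [e3]; ring
  have hG := gT2_ge_one hT1
  have hG0 : 0 < gT2 T := by linarith
  have hA2 : A2 P Z T ≤ (1 + η) * (D * gT2 T) := by
    refine (A2_le hS hW hK16 hZ).trans ?_
    calc gT2 T * cellU W K0 Z ≤ gT2 T * ((1 + η) * D) := by gcongr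
      _ = _ := by ring
  have hA20 := A2_nonneg P Z T
  have hkη : (k:ℝ) * η = 1 / 16 := by rw [hη]; field_simp
  set x := D * gT2 T with hx
  have hx0 : 0 < x := by positivity
  have hA2k : A2 P Z T ^ k ≤ 9 / 8 * x ^ k := by
    have e1 := pow_le_pow_left₀ hA20 hA2 k
    rw [mul_pow] at e1
    have e2 := pow_eta (k := k) (n := k) hηpos hkη le_rfl
    exact e1.trans (mul_le_mul_of_nonneg_right e2 (by positivity))
  have hA2k1 : A2 P Z T ^ (k - 1) ≤ 9 / 8 * x ^ (k - 1) := by
    have e1 := pow_le_pow_left₀ hA20 hA2 (k - 1)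
    rw [mul_pow] at e1
    have e2 := pow_eta (k := k) (n := k - 1) hηpos hkη (by omega)
    exact e1.trans (mul_le_mul_of_nonneg_right e2 (by positivity))
  obtain ⟨i, hi⟩ := Option.ne_none_iff_exists'.1 hj
  have hp2n : 2 ≤ (p:ℕ) := (hS.prime p p.2).two_le
  have hp2 : (2:ℝ) ≤ (p:ℕ) := by exact_mod_cast hp2n
  have hp1 : (0:ℝ) < ((p:ℕ):ℝ) - 1 := by linarith
  refine (EG_cc_point hS.prime hkP p i j hi Z T M).trans ?_
  have hJ := J2_le (T := T) hS hW hK16 hZ hp2n
  have hlp : 0 ≤ Real.log (p:ℕ) := Real.log_natCast_nonneg _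
  have hJ' : J2 P Z T p ≤ x * (Real.log (p:ℕ) / Real.log Z + KV W / D) * (1 + 1 / 128) := by
    refine hJ.trans ?_
    have e1 : gT2 T * ((cW W * Real.log (p:ℕ) + KV W) * (1 + 32 / K0)) =
        x * (Real.log (p:ℕ) / Real.log Z + KV W / D) * (1 + 32 / K0) := by
      have : x * (Real.log (p:ℕ) / Real.log Z + KV W / D) =
          gT2 T * (cW W * Real.log (p:ℕ) + KV W) := by
        rw [hx, mul_add, mul_div_assoc']
        have e2 : D * gT2 T * Real.log (p:ℕ) / Real.log Z = gT2 T * (cW W * Real.log (p:ℕ)) := by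
          rw [hD]; field_simp
        have e3 : D * gT2 T * (KV W / D) = gT2 T * KV W := by
          field_simp
        rw [e2, e3]; ring
      rw [this]; ring
    rw [e1]
    have h5 : 0 ≤ x * (Real.log (p:ℕ) / Real.log Z + KV W / D) := by positivity
    refine mul_le_mul_of_nonneg_left ?_ h5
    linarith
  have hJ0 := J2_nonneg P Z T p
  have hxk : x ^ k = x ^ (k - 1) * x := by
    rw [← pow_succ]; congr 1; omega
  have h6 : A2 P Z T ^ (k - 1) * J2 P Z T p ≤
      9 / 8 * x ^ (k - 1) * (x * (Real.log (p:ℕ) / Real.log Z + KV W / D) * (1 + 1 / 128)) :=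
    mul_le_mul hA2k1 hJ' hJ0 (by positivity)
  have h7 : 9 / 8 * x ^ (k - 1) * (x * (Real.log (p:ℕ) / Real.log Z + KV W / D) * (1 + 1 / 128)) =
      (9 / 8 * (1 + 1 / 128)) * (x ^ k * (Real.log (p:ℕ) / Real.log Z + KV W / D)) := by
    rw [hxk]; ring
  have h8 : ((k:ℝ) / (((p:ℕ):ℝ) - 1)) ^ 2 * A2 P Z T ^ k ≤
      ((k:ℝ) / (((p:ℕ):ℝ) - 1)) ^ 2 * (9 / 8 * x ^ k) :=
    mul_le_mul_of_nonneg_left hA2k (by positivity)
  have h9 : 0 ≤ x ^ k * (Real.log (p:ℕ) / Real.log Z + KV W / D) := by positivity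
  have h10 : 0 ≤ x ^ k * ((k:ℝ) / (((p:ℕ):ℝ) - 1)) ^ 2 := by positivity
  have hSS : SS k W Z T = x ^ k := by
    unfold SS
    rw [← hD]
  rw [hSS, ← div_pow]
  rw [h7] at h6
  have h11 : 3 * x ^ k * (Real.log (p:ℕ) / Real.log Z + KV W / D +
      ((k:ℝ) / (((p:ℕ):ℝ) - 1)) ^ 2) =
      3 * (x ^ k * (Real.log (p:ℕ) / Real.log Z + KV W / D)) +
      3 * (x ^ k * ((k:ℝ) / (((p:ℕ):ℝ) - 1)) ^ 2) := by ring
  rw [h11]
  nlinarith

end

end Pool.Agent.Maynard
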